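import Mathlib

/-!
# Complex Howell inequality of order `n - 1`: definitions

`pk c t = (1 - t²)/(1 - 2ct + t²)` is the kernel of the real-symmetric Herglotz representation,
`Wk c a` is the functional `P(1) - E_U Re P(a + i b U)` (`b = √(1-a²)`, `P' = p`, `P(0) = 0`)
evaluated at the kernel, and `Vk c a x` is the complete functional.
-/

set_option autoImplicit false

namespace Pool.Agent.Howell

open Complex Set MeasureTheory intervalIntegral

/-- The real kernel `(1 - t²)/(1 - 2ct + t²)`. -/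
noncomputable def pk (c t : ℝ) : ℝ := (1 - t ^ 2) / (1 - 2 * c * t + t ^ 2)

/-- The complex kernel `(1 - w²)/(1 - 2cw + w²)`. -/
noncomputable def pkC (c : ℝ) (w : ℂ) : ℂ := (1 - w ^ 2) / (1 - 2 * (c : ℂ) * w + w ^ 2)

/-- The imaginary part of `pkC c (a + i v)`. -/
noncomputable def ik (c a v : ℝ) : ℝ :=
  v * (2 * c * (1 + a ^ 2 + v ^ 2) - 4 * a) /
    ((1 - 2 * a * c + a ^ 2 - v ^ 2) ^ 2 + 4 * v ^ 2 * (a - c) ^ 2)

/-- `ψ(c) = ∫₀¹ pk c`. -/
noncomputable def psi (c : ℝ) : ℝ := ∫ t in (0:ℝ)..1, pk c t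

/-- `W(c, a) = ∫_a¹ pk c + (1/b) ∫₀^b (b - v) ik c a v dv`, `b = √(1 - a²)`. -/
noncomputable def Wk (c a : ℝ) : ℝ :=
  (∫ t in a..1, pk c t) +
    (1 / √(1 - a ^ 2)) * ∫ v in (0:ℝ)..√(1 - a ^ 2), (√(1 - a ^ 2) - v) * ik c a v

/-- `ρ(x) = ∫_x¹ (t - x)/(1 - x t) dt`. -/
noncomputable def rho (x : ℝ) : ℝ := ∫ t in x..1, (t - x) / (1 - x * t)

/-- The kernel functional `V(c, a, x) = W(c, a) + (a/2) (1 + ψ(c)) - ρ(x) pk c x`. -/
noncomputable def Vk (c a x : ℝ) : ℝ := Wk c a + a / 2 * (1 + psi c) - rho x * pk c x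

/-- The majorant of `ρ(x) pk c x` for `x² > 3/4`. -/
noncomputable def SB (c : ℝ) : ℝ := (4 / 5) / (1 + 96 * (1 - c))

/-- The functional for a general function `p`. -/
noncomputable def LamC (p : ℂ → ℂ) (a x : ℝ) : ℝ :=
  (∫ t in a..1, (p t).re) +
    (1 / √(1 - a ^ 2)) * (∫ v in (0:ℝ)..√(1 - a ^ 2), (√(1 - a ^ 2) - v) * (p (a + v * I)).im) +
    a / 2 * ((p 0).re + ∫ t in (0:ℝ)..1, (p t).re) - rho x * (p x).re

/-- The primitive of the kernel for `c = cos θ`. -/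
noncomputable def PK (θ : ℝ) (w : ℂ) : ℂ :=
  -w - exp (-(θ * I)) * log (1 - w * exp (θ * I)) - exp (θ * I) * log (1 - w * exp (-(θ * I)))

/-- The second primitive of the kernel for `c = cos θ`. -/
noncomputable def QK (θ : ℝ) (w : ℂ) : ℂ :=
  -w ^ 2 / 2 + 2 * Real.cos θ * w
    + exp (-(2 * θ * I)) * (1 - w * exp (θ * I)) * log (1 - w * exp (θ * I))
    + exp (2 * θ * I) * (1 - w * exp (-(θ * I))) * log (1 - w * exp (-(θ * I)))

/-- Mean of the real parts of a list of nodes. -/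
noncomputable def zbar (L : List ℂ) : ℝ := (L.map (fun z => z.re)).sum / L.length

end Pool.Agent.Howell
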