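import Pool.Agent.Howell.KBasic

set_option autoImplicit false

namespace Pool.Agent.Howell

open Complex Set MeasureTheory intervalIntegral ComplexConjugate

private theorem exp_mul_exp_neg (θ : ℝ) : exp (θ * I) * exp (-(θ * I)) = 1 := by
  rw [← Complex.exp_add]
  simp

private theorem two_cos (θ : ℝ) :
    2 * ((Real.cos θ : ℝ) : ℂ) = exp (θ * I) + exp (-(θ * I)) := by
  rw [Complex.ofReal_cos, Complex.two_cos, neg_mul]

private theorem den_eq (θ : ℝ) (w : ℂ) : 1 - 2 * ((Real.cos θ : ℝ) : ℂ) * w + w ^ 2 =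
    (1 - w * exp (θ * I)) * (1 - w * exp (-(θ * I))) := by
  linear_combination (-w ^ 2) * exp_mul_exp_neg θ - w * two_cos θ

private theorem one_sub_le (w z : ℂ) (hz : ‖z‖ = 1) : 1 - ‖w‖ ≤ ‖1 - w * z‖ := by
  have h := norm_sub_norm_le (1 : ℂ) (w * z)
  rwa [norm_one, norm_mul, hz, mul_one] at h

/-- `1 - 2 cos θ w + w² = (1 - w e^{iθ})(1 - w e^{-iθ}) ≠ 0` for `‖w‖ < 1`; more precisely
`(1-‖w‖)² ≤ ‖1 - 2 cos θ w + w²‖`. -/
theorem den_norm_ge {θ : ℝ} {w : ℂ} (hw : ‖w‖ < 1) :
    (1 - ‖w‖) ^ 2 ≤ ‖1 - 2 * ((Real.cos θ : ℝ) : ℂ) * w + w ^ 2‖ := by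
  rw [den_eq, norm_mul, sq]
  have h1 : ‖exp (θ * I)‖ = 1 := Complex.norm_exp_ofReal_mul_I θ
  have h2 : ‖exp (-(θ * I))‖ = 1 := by
    have := Complex.norm_exp_ofReal_mul_I (-θ)
    rwa [Complex.ofReal_neg, neg_mul] at this
  exact mul_le_mul (one_sub_le _ _ h1) (one_sub_le _ _ h2) (by linarith) (norm_nonneg _)

private theorem den_ne {θ : ℝ} {w : ℂ} (hw : ‖w‖ < 1) :
    1 - 2 * ((Real.cos θ : ℝ) : ℂ) * w + w ^ 2 ≠ 0 := by
  intro h
  have h1 := den_norm_ge (θ := θ) hw
  rw [h, norm_zero] at h1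
  have : 0 < (1 - ‖w‖) ^ 2 := by
    have : 0 < 1 - ‖w‖ := by linarith
    positivity
  linarith

private theorem kernel_eq {w e e' : ℂ} (h1 : e * e' = 1) (h5 : 1 - w * e' ≠ 0) :
    herglotzRieszKernel 0 w e = (1 + w * e') / (1 - w * e') := by
  rw [herglotzRieszKernel_def]
  simp only [sub_zero]
  have h6 : e - w ≠ 0 := by
    intro h
    apply h5
    linear_combination e' * h - h1
  rw [div_eq_div_iff h6 h5]
  linear_combination (-2 * w) * h1

/-- the symmetrized kernel -/
private theorem kernel_sym {θ : ℝ} {w : ℂ} (hw : ‖w‖ < 1) :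
    herglotzRieszKernel 0 w (exp (θ * I)) + herglotzRieszKernel 0 w (exp (-(θ * I))) =
      2 * pkC (Real.cos θ) w := by
  have h1 := exp_mul_exp_neg θ
  have h2 := den_ne (θ := θ) hw
  have h3 := den_eq θ w
  rw [h3] at h2
  have h4 : 1 - w * exp (θ * I) ≠ 0 := left_ne_zero_of_mul h2
  have h5 : 1 - w * exp (-(θ * I)) ≠ 0 := right_ne_zero_of_mul h2
  rw [kernel_eq h1 h5, kernel_eq (by rw [mul_comm]; exact h1) h4, pkC, h3, div_add_div _ _ h5 h4,
    mul_div_assoc', div_eq_div_iff (mul_ne_zero h5 h4) (mul_ne_zero h4 h5)]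
  linear_combination (-2 * w ^ 2 * (1 - w * exp (θ * I)) * (1 - w * exp (-(θ * I)))) * h1

/-- the Herglotz integral of `Re p` -/
private noncomputable def HF (p : ℂ → ℂ) (w : ℂ) : ℂ :=
  Real.circleAverage (fun ζ => herglotzRieszKernel 0 w ζ • (((p ζ).re : ℝ) : ℂ)) 0 1

private theorem cont_g {p : ℂ → ℂ} (hp : Differentiable ℂ p) :
    Continuous fun θ : ℝ => (((p (exp (θ * I))).re : ℝ) : ℂ) := by
  have := hp.continuous
  fun_prop

private theorem cont_H {w : ℂ} (hw : ‖w‖ < 1) :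
    Continuous fun θ : ℝ => herglotzRieszKernel 0 w (exp (θ * I)) := by
  simp only [herglotzRieszKernel_def, sub_zero]
  apply Continuous.div (by fun_prop) (by fun_prop)
  intro θ h
  have h1 : exp (θ * I) = w := by linear_combination h
  have h2 : ‖w‖ = 1 := by rw [← h1]; exact Complex.norm_exp_ofReal_mul_I θ
  linarith

private theorem HF_eq {p : ℂ → ℂ} (hp : Differentiable ℂ p) (hs : ∀ w, p (conj w) = conj (p w))
    {w : ℂ} (hw : ‖w‖ < 1) : HF p w = (1 / (2 * Real.pi) : ℝ) •
      ∫ θ in (-Real.pi)..Real.pi, ((p (exp (θ * I))).re : ℂ) * pkC (Real.cos θ) w := by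
  unfold HF
  rw [Real.circleAverage_def]
  have e0 : (1 / (2 * Real.pi) : ℝ) = (2 * Real.pi)⁻¹ := by rw [one_div]
  rw [e0]
  congr 1
  have hcm : ∀ θ : ℝ, circleMap 0 1 θ = exp (θ * I) := by
    intro θ
    simp [circleMap]
  simp only [hcm, smul_eq_mul]
  set F : ℝ → ℂ := fun θ => herglotzRieszKernel 0 w (exp (θ * I)) *
    (((p (exp (θ * I))).re : ℝ) : ℂ) with hF
  have hper : Function.Periodic F (2 * Real.pi) := by
    intro θ
    have : exp (((θ + 2 * Real.pi : ℝ) : ℂ) * I) = exp (θ * I) := by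
      rw [← Complex.exp_periodic (θ * I)]
      congr 1
      push_cast
      ring
    simp only [hF, this]
  have h1 : ∫ θ in (0:ℝ)..2 * Real.pi, F θ = ∫ θ in (-Real.pi)..Real.pi, F θ := by
    have := hper.intervalIntegral_add_eq 0 (-Real.pi)
    rw [zero_add] at this
    rw [this]
    congr 1
    ring
  have hFc : Continuous F := (cont_H hw).mul (cont_g hp)
  have h2 : ∫ θ in (-Real.pi)..Real.pi, F θ = ∫ θ in (-Real.pi)..Real.pi, F (-θ) := by
    rw [intervalIntegral.integral_comp_neg]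
    simp
  have h3 : ∫ θ in (-Real.pi)..Real.pi, (F θ + F (-θ)) =
      ∫ θ in (-Real.pi)..Real.pi, 2 * (((p (exp (θ * I))).re : ℂ) * pkC (Real.cos θ) w) := by
    apply intervalIntegral.integral_congr
    intro θ _
    have e1 : exp (((-θ : ℝ) : ℂ) * I) = exp (-(θ * I)) := by
      congr 1
      push_cast
      ring
    have e2 : conj (exp (θ * I)) = exp (-(θ * I)) := by
      rw [← Complex.exp_conj]
      simp
    have e3 : (p (exp (-(θ * I)))).re = (p (exp (θ * I))).re := by
      rw [← e2, hs, Complex.conj_re]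
    simp only [hF, e1, e3]
    rw [← add_mul, kernel_sym hw]
    ring
  have h4 : ∫ θ in (-Real.pi)..Real.pi, (F θ + F (-θ)) =
      2 * ∫ θ in (-Real.pi)..Real.pi, F θ := by
    have hFn : Continuous fun θ => F (-θ) := hFc.comp continuous_neg
    rw [intervalIntegral.integral_add (hFc.intervalIntegrable _ _)
      (hFn.intervalIntegrable _ _), ← h2]
    ring
  rw [h3, intervalIntegral.integral_const_mul] at h4
  rw [h1]
  exact (mul_left_cancel₀ two_ne_zero h4).symm

private theorem HF_real {p : ℂ → ℂ} (hp : Differentiable ℂ p)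
    (hs : ∀ w, p (conj w) = conj (p w)) {t : ℝ} (ht : |t| < 1) : HF p t = p t := by
  have hw : ‖(t : ℂ)‖ < 1 := by rwa [Complex.norm_real, Real.norm_eq_abs]
  have hball : (t : ℂ) ∈ Metric.ball (0 : ℂ) 1 := by simpa using ht
  have hd : DiffContOnCl ℂ p (Metric.ball 0 1) := hp.diffContOnCl
  have hP := hd.circleAverage_re_herglotzRieszKernel_smul hball
  have hcont : Continuous fun ζ : ℂ => (p ζ).re := by
    have := hp.continuous
    fun_prop
  have hci : CircleIntegrable (fun ζ : ℂ => (p ζ).re) 0 1 :=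
    hcont.continuousOn.circleIntegrable zero_le_one
  have hre := re_circleAverage_herglotzRieszKernel_smul hci hball
  -- real parts
  have h1 : (HF p t).re = (p t).re := by
    unfold HF
    rw [hre, ← hP]
    have hK : ContinuousOn (herglotzRieszKernel 0 (t : ℂ)) (Metric.sphere 0 |(1 : ℝ)|) :=
      continuousOn_herglotzRieszKernel_sphere hball
    have hci2 : CircleIntegrable ((Complex.re ∘ herglotzRieszKernel 0 (t : ℂ)) • p) 0 1 := by
      apply ContinuousOn.circleIntegrable'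
      exact (Complex.continuous_re.comp_continuousOn hK).smul hp.continuous.continuousOn
    have := Complex.reCLM.circleAverage_comp_comm hci2
    simp only [Complex.reCLM_apply] at this
    rw [← this]
    congr 1
    ext ζ
    simp
  have h2 : (HF p t).im = 0 := by
    rw [HF_eq hp hs hw]
    have h4 : ∀ θ : ℝ, (((p (exp (θ * I))).re : ℝ) : ℂ) * pkC (Real.cos θ) (t : ℂ) =
        (((p (exp (θ * I))).re * pk (Real.cos θ) t : ℝ) : ℂ) := by
      intro θ
      rw [pkC_ofReal]
      push_cast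
      ring
    simp only [h4]
    rw [intervalIntegral.integral_ofReal]
    simp
  have h3 : (p t).im = 0 := by
    have := hs t
    rw [Complex.conj_ofReal] at this
    exact Complex.conj_eq_iff_im.1 this.symm
  exact Complex.ext h1 (by rw [h2, h3])

/-- Symmetric Herglotz formula: for an entire `p` with `p (conj w) = conj (p w)` and `‖w‖ < 1`,
`p(w) = (1/2π) ∫_{-π}^{π} Re p(e^{iθ}) pkC (cos θ) w dθ`. -/
theorem herglotz_sym {p : ℂ → ℂ} (hp : Differentiable ℂ p) (hs : ∀ w, p (conj w) = conj (p w))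
    {w : ℂ} (hw : ‖w‖ < 1) :
    p w = (1 / (2 * Real.pi) : ℝ) •
      ∫ θ in (-Real.pi)..Real.pi, ((p (exp (θ * I))).re : ℂ) * pkC (Real.cos θ) w := by
  rw [← HF_eq hp hs hw]
  have hcont : Continuous fun ζ : ℂ => (((p ζ).re : ℝ) : ℂ) := by
    have := hp.continuous
    fun_prop
  have hci : CircleIntegrable (fun ζ : ℂ => (((p ζ).re : ℝ) : ℂ)) 0 1 :=
    hcont.continuousOn.circleIntegrable zero_le_one
  have hA : AnalyticOnNhd ℂ (HF p) (Metric.ball 0 1) :=
    analyticOnNhd_circleAverage_herglotzRieszKernel_smul hci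
  have hB : AnalyticOnNhd ℂ p (Metric.ball 0 1) := fun z _ => hp.analyticAt z
  have h0 : (0 : ℂ) ∈ Metric.ball (0 : ℂ) 1 := by simp
  have hfreq : ∃ᶠ z in nhdsWithin (0 : ℂ) {0}ᶜ, p z = HF p z := by
    have ht : Filter.Tendsto (fun t : ℝ => (t : ℂ)) (nhdsWithin 0 {0}ᶜ)
        (nhdsWithin (0 : ℂ) {0}ᶜ) := by
      apply tendsto_nhdsWithin_iff.2
      refine ⟨?_, ?_⟩
      · have : Filter.Tendsto (fun t : ℝ => (t : ℂ)) (nhds 0) (nhds ((0 : ℝ) : ℂ)) :=
          Complex.continuous_ofReal.tendsto 0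
        rw [Complex.ofReal_zero] at this
        exact this.mono_left nhdsWithin_le_nhds
      · filter_upwards [self_mem_nhdsWithin] with t ht
        simpa using ht
    apply ht.frequently
    apply Filter.Eventually.frequently
    have : ∀ᶠ t : ℝ in nhdsWithin 0 {0}ᶜ, |t| < 1 := by
      apply nhdsWithin_le_nhds
      have : Metric.ball (0 : ℝ) 1 ∈ nhds (0 : ℝ) := Metric.ball_mem_nhds _ one_pos
      filter_upwards [this] with t ht
      simpa using ht
    filter_upwards [this] with t ht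
    exact (HF_real hp hs ht).symm
  have := hB.eqOn_of_preconnected_of_frequently_eq hA
    (convex_ball (0 : ℂ) 1).isPreconnected h0 hfreq
  exact this (by simpa using hw)

end Pool.Agent.Howell
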