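import Pool.Agent.Howell.KBasic
import Pool.Agent.Howell.FHerglotz1

set_option autoImplicit false

namespace Pool.Agent.Howell

open Complex Set MeasureTheory intervalIntegral ComplexConjugate

/-- real points -/
theorem herglotz_re {p : ℂ → ℂ} (hp : Differentiable ℂ p) (hs : ∀ w, p (conj w) = conj (p w))
    {t : ℝ} (ht : |t| < 1) :
    (p t).re = 1 / (2 * Real.pi) *
      ∫ θ in (-Real.pi)..Real.pi, (p (exp (θ * I))).re * pk (Real.cos θ) t := by
  have h := herglotz_sym hp hs (w := (t : ℂ)) (by rwa [Complex.norm_real, Real.norm_eq_abs])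
  have e : (∫ θ in (-Real.pi)..Real.pi, ((p (exp (θ * I))).re : ℂ) * pkC (Real.cos θ) t) =
      ((∫ θ in (-Real.pi)..Real.pi, (p (exp (θ * I))).re * pk (Real.cos θ) t : ℝ) : ℂ) := by
    rw [← intervalIntegral.integral_ofReal]
    refine integral_congr fun θ _ => ?_
    rw [pkC_ofReal, Complex.ofReal_mul]
  rw [h, e, Complex.real_smul, ← Complex.ofReal_mul, Complex.ofReal_re]

/-- imaginary part on a vertical line -/
theorem herglotz_im {p : ℂ → ℂ} (hp : Differentiable ℂ p) (hs : ∀ w, p (conj w) = conj (p w))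
    {a v : ℝ} (hav : a ^ 2 + v ^ 2 < 1) :
    (p ((a:ℂ) + v * I)).im = 1 / (2 * Real.pi) *
      ∫ θ in (-Real.pi)..Real.pi, (p (exp (θ * I))).re * ik (Real.cos θ) a v := by
  have hw : ‖(a : ℂ) + v * I‖ < 1 := by
    rw [Complex.norm_add_mul_I, Real.sqrt_lt' one_pos]
    linarith
  have h := herglotz_sym hp hs hw
  have hpc : Continuous p := hp.continuous
  have hne : ∀ θ : ℝ, 1 - 2 * ((Real.cos θ : ℝ) : ℂ) * ((a : ℂ) + v * I) +
      ((a : ℂ) + v * I) ^ 2 ≠ 0 := by
    intro θ h0
    have h1 := den_norm_ge (θ := θ) hw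
    rw [h0, norm_zero] at h1
    have h2 : 0 < (1 - ‖(a : ℂ) + v * I‖) ^ 2 := by
      have : 0 < 1 - ‖(a : ℂ) + v * I‖ := by linarith
      positivity
    linarith
  have hc1 : Continuous fun θ : ℝ => ((p (exp (θ * I))).re : ℂ) := by fun_prop
  have hc2 : Continuous fun θ : ℝ => pkC (Real.cos θ) ((a : ℂ) + v * I) := by
    unfold pkC
    exact Continuous.div (by fun_prop) (by fun_prop) hne
  have hint : IntervalIntegrable (fun θ : ℝ => ((p (exp (θ * I))).re : ℂ) *
      pkC (Real.cos θ) ((a : ℂ) + v * I)) volume (-Real.pi) Real.pi :=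
    (hc1.mul hc2).intervalIntegrable _ _
  have e := Complex.imCLM.intervalIntegral_comp_comm hint
  simp only [Complex.imCLM_apply] at e
  rw [h, Complex.real_smul, Complex.im_ofReal_mul, ← e]
  congr 1
  refine integral_congr fun θ _ => ?_
  rw [Complex.im_ofReal_mul, pkC_im]

end Pool.Agent.Howell
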