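import Pool.Agent.Howell.FHerglotz

set_option autoImplicit false

namespace Pool.Agent.Howell

open Complex Set MeasureTheory intervalIntegral ComplexConjugate

namespace FVertAux

lemma pkC_add_one {θ : ℝ} {w : ℂ} (hw : ‖w‖ < 1) :
    pkC (Real.cos θ) w + 1 =
      1 / (1 - w * exp (θ * I)) + 1 / (1 - w * exp (-(θ * I))) := by
  have n1 : ‖exp (θ * I)‖ = 1 := Complex.norm_exp_ofReal_mul_I θ
  have n2 : ‖exp (-(θ * I))‖ = 1 := by
    have := Complex.norm_exp_ofReal_mul_I (-θ)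
    simpa using this
  have key : ∀ z : ℂ, ‖z‖ = 1 → 1 - w * z ≠ 0 := by
    intro z hz h
    have : w * z = 1 := (sub_eq_zero.1 h).symm
    have h2 : ‖w * z‖ = 1 := by rw [this]; simp
    rw [norm_mul, hz, mul_one] at h2
    linarith
  have h1 := key _ n1
  have h2 := key _ n2
  have hprod : exp (θ * I) * exp (-(θ * I)) = 1 := by
    rw [← Complex.exp_add]; simp
  have hcos : (2 : ℂ) * ((Real.cos θ : ℝ) : ℂ) = exp (θ * I) + exp (-(θ * I)) := by
    rw [Complex.ofReal_cos, Complex.cos]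
    rw [neg_mul]
    ring
  have hden : 1 - 2 * ((Real.cos θ : ℝ) : ℂ) * w + w ^ 2 =
      (1 - w * exp (θ * I)) * (1 - w * exp (-(θ * I))) := by
    rw [hcos]
    linear_combination (-w ^ 2) * hprod
  have hd0 : 1 - 2 * ((Real.cos θ : ℝ) : ℂ) * w + w ^ 2 ≠ 0 := by
    rw [hden]; exact mul_ne_zero h1 h2
  unfold pkC
  rw [div_add_div _ _ h1 h2, ← hden, div_add_one hd0, div_left_inj' hd0]
  linear_combination (-w) * hcos

lemma norm_pkC_add_one {c : ℝ} {w : ℂ} (hc : -1 ≤ c) (hc1 : c ≤ 1) (hw : ‖w‖ < 1) :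
    ‖pkC c w + 1‖ ≤ 2 / (1 - ‖w‖) := by
  have hθ : Real.cos (Real.arccos c) = c := Real.cos_arccos hc hc1
  rw [← hθ, pkC_add_one hw]
  set θ := Real.arccos c
  have n1 : ‖exp (θ * I)‖ = 1 := Complex.norm_exp_ofReal_mul_I θ
  have n2 : ‖exp (-(θ * I))‖ = 1 := by
    have := Complex.norm_exp_ofReal_mul_I (-θ)
    simpa using this
  have hp : 0 < 1 - ‖w‖ := by linarith
  have key : ∀ z : ℂ, ‖z‖ = 1 → ‖1 / (1 - w * z)‖ ≤ 1 / (1 - ‖w‖) := by
    intro z hz
    rw [norm_div, norm_one]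
    apply one_div_le_one_div_of_le hp
    have : ‖(1 : ℂ)‖ - ‖w * z‖ ≤ ‖1 - w * z‖ := norm_sub_norm_le _ _
    rw [norm_mul, hz, mul_one, norm_one] at this
    exact this
  calc ‖1 / (1 - w * exp (θ * I)) + 1 / (1 - w * exp (-(θ * I)))‖
      ≤ ‖1 / (1 - w * exp (θ * I))‖ + ‖1 / (1 - w * exp (-(θ * I)))‖ := norm_add_le _ _
    _ ≤ 1 / (1 - ‖w‖) + 1 / (1 - ‖w‖) := add_le_add (key _ n1) (key _ n2)
    _ = 2 / (1 - ‖w‖) := by ring

end FVertAux

/-- `(b - v) |ik c a v| ≤ 4/b` for `0 ≤ v < b = √(1-a²)`, `|c| ≤ 1`: `ik = Im pkC`,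
`pkC c w = -1 + 1/(1-we^{iθ}) + 1/(1-we^{-iθ})` (`c = cos θ`), so `|ik| ≤ 2/(1-‖w‖)`,
`1 - ‖w‖ ≥ (1-‖w‖²)/2 = (b²-v²)/2`, `(b-v) · 4/(b²-v²) = 4/(b+v) ≤ 4/b`. -/
theorem ik_bound {c a v : ℝ} (hc : -1 ≤ c) (hc1 : c ≤ 1) (ha : -1 < a) (ha1 : a < 1) (hv : 0 ≤ v)
    (hvb : v < √(1 - a ^ 2)) : (√(1 - a ^ 2) - v) * |ik c a v| ≤ 4 / √(1 - a ^ 2) := by
  have h1a : 0 < 1 - a ^ 2 := by nlinarith
  set b := √(1 - a ^ 2) with hb
  have hb0 : 0 < b := Real.sqrt_pos.2 h1a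
  have hb2 : b ^ 2 = 1 - a ^ 2 := Real.sq_sqrt h1a.le
  set w : ℂ := (a : ℂ) + v * I with hw
  have hnw : ‖w‖ ^ 2 = a ^ 2 + v ^ 2 := by
    rw [← Complex.normSq_eq_norm_sq, hw, Complex.normSq_add_mul_I]
  have hw1 : ‖w‖ < 1 := by
    have : ‖w‖ ^ 2 < 1 := by rw [hnw]; nlinarith
    nlinarith [norm_nonneg w]
  have hik : |ik c a v| ≤ 2 / (1 - ‖w‖) := by
    rw [← pkC_im c a v, ← hw]
    have : (pkC c w).im = (pkC c w + 1).im := by simp
    rw [this]
    exact (Complex.abs_im_le_norm _).trans (FVertAux.norm_pkC_add_one hc hc1 hw1)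
  have hbv : 0 < b - v := by linarith
  have h3 : (b - v) * (b + v) ≤ 2 * (1 - ‖w‖) := by
    have : (b - v) * (b + v) = 1 - ‖w‖ ^ 2 := by rw [hnw]; nlinarith
    rw [this]
    nlinarith [norm_nonneg w, sq_nonneg (1 - ‖w‖)]
  have hp : 0 < 1 - ‖w‖ := by linarith
  calc (b - v) * |ik c a v| ≤ (b - v) * (2 / (1 - ‖w‖)) := by gcongr
    _ ≤ 4 / b := by
        rw [mul_div_assoc', div_le_div_iff₀ hp hb0]
        nlinarith

namespace FVertAux

/-- The integrand. -/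
noncomputable def G (p : ℂ → ℂ) (a : ℝ) (θ v : ℝ) : ℝ :=
  (p (exp (θ * I))).re * ((√(1 - a ^ 2) - v) * ik (Real.cos θ) a v)

lemma measurable_G {p : ℂ → ℂ} (hp : Differentiable ℂ p) (a : ℝ) :
    Measurable (Function.uncurry (G p a)) := by
  have hpc := hp.continuous
  have h1 : Measurable (fun z : ℝ × ℝ => (p (exp (z.1 * I))).re) := by
    apply Continuous.measurable
    fun_prop
  have h2 : Measurable (fun z : ℝ × ℝ => ik (Real.cos z.1) a z.2) := by
    unfold ik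
    apply Measurable.div
    · apply Continuous.measurable
      fun_prop
    · apply Continuous.measurable
      fun_prop
  have h3 : Measurable (fun z : ℝ × ℝ => √(1 - a ^ 2) - z.2) := by
    apply Continuous.measurable
    fun_prop
  exact h1.mul (h3.mul h2)

lemma integrable_G {p : ℂ → ℂ} (hp : Differentiable ℂ p) {a : ℝ} (ha : -1 < a) (ha1 : a < 1) :
    IntegrableOn (Function.uncurry (G p a))
      (uIoc (-Real.pi) Real.pi ×ˢ uIoc 0 √(1 - a ^ 2)) := by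
  have h1a : 0 < 1 - a ^ 2 := by nlinarith
  have hb0 : 0 < √(1 - a ^ 2) := Real.sqrt_pos.2 h1a
  have hpi : -Real.pi ≤ Real.pi := by linarith [Real.pi_pos]
  rw [uIoc_of_le hpi, uIoc_of_le hb0.le]
  have hcont : Continuous (fun θ : ℝ => (p (exp (θ * I))).re) := by
    have hpc := hp.continuous
    fun_prop
  obtain ⟨M, hM⟩ := (isCompact_Icc (a := -Real.pi) (b := Real.pi)).exists_bound_of_continuousOn
    hcont.continuousOn
  have hM0 : 0 ≤ M := (norm_nonneg _).trans (hM 0 ⟨by linarith [Real.pi_pos], Real.pi_pos.le⟩)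
  have hms : MeasurableSet (Ioc (-Real.pi) Real.pi ×ˢ Ioc 0 √(1 - a ^ 2)) :=
    measurableSet_Ioc.prod measurableSet_Ioc
  have hfin : volume (Ioc (-Real.pi) Real.pi ×ˢ Ioc 0 √(1 - a ^ 2)) ≠ ⊤ := by
    rw [Measure.volume_eq_prod, Measure.prod_prod, Real.volume_Ioc, Real.volume_Ioc]
    exact ENNReal.mul_ne_top ENNReal.ofReal_ne_top ENNReal.ofReal_ne_top
  refine IntegrableOn.of_bound (lt_top_iff_ne_top.2 hfin)
    (measurable_G hp a).aestronglyMeasurable (M * (4 / √(1 - a ^ 2))) ?_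
  refine (ae_restrict_iff' hms).2 (Filter.Eventually.of_forall ?_)
  rintro ⟨θ, v⟩ ⟨hθ, hv⟩
  simp only [Function.uncurry, G]
  rw [norm_mul]
  have hb1 := hM θ ⟨hθ.1.le, hθ.2⟩
  refine mul_le_mul hb1 ?_ (norm_nonneg _) hM0
  rcases eq_or_lt_of_le hv.2 with h | h
  · simp only at h
    rw [h, sub_self, zero_mul, norm_zero]
    positivity
  · have hbd := ik_bound (c := Real.cos θ) (Real.neg_one_le_cos θ) (Real.cos_le_one θ) ha ha1
      hv.1.le h
    rw [norm_mul, Real.norm_eq_abs, Real.norm_eq_abs, abs_of_nonneg (by simp only at h; linarith)]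
    exact hbd

end FVertAux

/-- Fubini on `(0,b) × (-π,π)` for the bounded measurable function
`(b-v) Re p(e^{iθ}) ik (cos θ) a v` (`ik_bound`) and `herglotz_im`. -/
theorem vert_swap {p : ℂ → ℂ} (hp : Differentiable ℂ p) (hs : ∀ w, p (conj w) = conj (p w))
    {a : ℝ} (ha : -1 < a) (ha1 : a < 1) :
    (∫ v in (0:ℝ)..√(1 - a ^ 2), (√(1 - a ^ 2) - v) * (p ((a:ℂ) + v * I)).im)
      = 1 / (2 * Real.pi) * ∫ θ in (-Real.pi)..Real.pi, (p (exp (θ * I))).re *
          ∫ v in (0:ℝ)..√(1 - a ^ 2), (√(1 - a ^ 2) - v) * ik (Real.cos θ) a v := by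
  have h1a : 0 < 1 - a ^ 2 := by nlinarith
  have hb0 : 0 < √(1 - a ^ 2) := Real.sqrt_pos.2 h1a
  have hb2 : √(1 - a ^ 2) ^ 2 = 1 - a ^ 2 := Real.sq_sqrt h1a.le
  have e1 : (∫ θ in (-Real.pi)..Real.pi, (p (exp (θ * I))).re *
          ∫ v in (0:ℝ)..√(1 - a ^ 2), (√(1 - a ^ 2) - v) * ik (Real.cos θ) a v) =
      ∫ θ in (-Real.pi)..Real.pi, ∫ v in (0:ℝ)..√(1 - a ^ 2), FVertAux.G p a θ v := by
    apply intervalIntegral.integral_congr
    intro θ _
    simp only [FVertAux.G]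
    rw [intervalIntegral.integral_const_mul]
  rw [e1, intervalIntegral_intervalIntegral_swap (FVertAux.integrable_G hp ha ha1),
    ← intervalIntegral.integral_const_mul]
  rw [intervalIntegral.integral_of_le hb0.le, intervalIntegral.integral_of_le hb0.le,
    integral_Ioc_eq_integral_Ioo, integral_Ioc_eq_integral_Ioo]
  apply setIntegral_congr_fun measurableSet_Ioo
  intro v hv
  have hav : a ^ 2 + v ^ 2 < 1 := by nlinarith [hv.1, hv.2]
  simp only
  rw [herglotz_im hp hs hav]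
  have e2 : (∫ θ in (-Real.pi)..Real.pi, FVertAux.G p a θ v) =
      (√(1 - a ^ 2) - v) * ∫ θ in (-Real.pi)..Real.pi,
        (p (exp (θ * I))).re * ik (Real.cos θ) a v := by
    rw [← intervalIntegral.integral_const_mul]
    apply intervalIntegral.integral_congr
    intro θ _
    simp only [FVertAux.G]
    ring
  rw [e2]
  ring

theorem vert_swap_integrable {p : ℂ → ℂ} (hp : Differentiable ℂ p)
    {a : ℝ} (ha : -1 < a) (ha1 : a < 1) :
    IntervalIntegrable (fun θ => (p (exp (θ * I))).re *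
        ∫ v in (0:ℝ)..√(1 - a ^ 2), (√(1 - a ^ 2) - v) * ik (Real.cos θ) a v)
      volume (-Real.pi) Real.pi := by
  have h1a : 0 < 1 - a ^ 2 := by nlinarith
  have hb0 : 0 < √(1 - a ^ 2) := Real.sqrt_pos.2 h1a
  have h := FVertAux.integrable_G hp ha ha1
  rw [intervalIntegrable_iff]
  unfold IntegrableOn at h
  rw [Measure.volume_eq_prod, ← Measure.prod_restrict] at h
  have h2 := h.integral_prod_left
  refine h2.congr (Filter.Eventually.of_forall ?_)
  intro θ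
  simp only [Function.uncurry, FVertAux.G]
  rw [uIoc_of_le hb0.le, ← intervalIntegral.integral_of_le hb0.le,
    intervalIntegral.integral_const_mul]

end Pool.Agent.Howell
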