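import Pool.Agent.Howell.KBasic

set_option autoImplicit false

namespace Pool.Agent.Howell

open Complex Set MeasureTheory intervalIntegral

/-- integrate `pk_mono`. -/
theorem psi_mono {c c' : ℝ} (hc : -1 ≤ c) (h : c ≤ c') (hc1 : c' < 1) : psi c ≤ psi c' := by
  unfold psi
  refine intervalIntegral.integral_mono_on zero_le_one
    (pk_intervalIntegrable hc (lt_of_le_of_lt h hc1) (by norm_num) (by norm_num))
    (pk_intervalIntegrable (hc.trans h) hc1 (by norm_num) (by norm_num)) ?_
  intro t ht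
  exact pk_mono hc h hc1 ht.1 ht.2

/-- `pk (-1) t = (1-t)/(1+t) = 2/(1+t) - 1` on `[0,1]`. -/
theorem psi_neg_one : psi (-1) = 2 * Real.log 2 - 1 := by
  unfold psi
  have h1 : ∫ t in (0:ℝ)..1, pk (-1) t = ∫ t in (0:ℝ)..1, (2 * (1 / (1 + t)) - 1) := by
    refine intervalIntegral.integral_congr fun t ht => ?_
    rw [uIcc_of_le zero_le_one] at ht
    have h2 : (1:ℝ) + t ≠ 0 := by linarith [ht.1]
    have h3 : 1 - 2 * (-1) * t + t ^ 2 = (1 + t) ^ 2 := by ring
    show pk (-1) t = 2 * (1 / (1 + t)) - 1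
    unfold pk
    rw [h3]
    field_simp
    ring
  rw [h1]
  have h4 : ∫ t in (0:ℝ)..1, (1 / (1 + t)) = Real.log 2 := by
    have h5 := intervalIntegral.integral_comp_add_left (a := 0) (b := 1) (fun x : ℝ => 1 / x) 1
    rw [h5, integral_one_div_of_pos (by norm_num) (by norm_num)]
    norm_num
  have h6 : IntervalIntegrable (fun t : ℝ => 1 / (1 + t)) volume 0 1 := by
    refine ContinuousOn.intervalIntegrable ?_
    intro t ht
    rw [uIcc_of_le zero_le_one] at ht
    have h2 : (1:ℝ) + t ≠ 0 := by linarith [ht.1]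
    exact (ContinuousAt.div continuousAt_const (by fun_prop) h2).continuousWithinAt
  rw [intervalIntegral.integral_sub (h6.const_mul 2) intervalIntegrable_const,
    intervalIntegral.integral_const_mul, h4]
  simp

/-- `pk 0 t = 2/(1+t²) - 1`, `∫₀¹ = π/2 - 1` (`integral_inv_one_add_sq`, `Real.arctan_one`). -/
theorem psi_zero : psi 0 = Real.pi / 2 - 1 := by
  unfold psi
  have h1 : ∫ t in (0:ℝ)..1, pk 0 t = ∫ t in (0:ℝ)..1, (2 * (1 + t ^ 2)⁻¹ - 1) := by
    refine intervalIntegral.integral_congr fun t ht => ?_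
    have h2 : (1:ℝ) + t ^ 2 ≠ 0 := by positivity
    show pk 0 t = 2 * (1 + t ^ 2)⁻¹ - 1
    unfold pk
    have h3 : 1 - 2 * 0 * t + t ^ 2 = 1 + t ^ 2 := by ring
    rw [h3]
    field_simp
    ring
  have h6 : IntervalIntegrable (fun t : ℝ => (1 + t ^ 2)⁻¹) volume 0 1 := by
    refine Continuous.intervalIntegrable ?_ _ _
    exact Continuous.inv₀ (by fun_prop) (fun t => by positivity)
  rw [h1, intervalIntegral.integral_sub (h6.const_mul 2) intervalIntegrable_const,
    intervalIntegral.integral_const_mul, integral_inv_one_add_sq, Real.arctan_one,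
    Real.arctan_zero]
  simp
  ring

theorem psi_nonneg {c : ℝ} (hc : -1 ≤ c) (hc1 : c < 1) : 0 ≤ psi c := by
  unfold psi
  refine intervalIntegral.integral_nonneg zero_le_one fun t ht => ?_
  exact pk_nonneg hc hc1 (by linarith [ht.1]) ht.2

end Pool.Agent.Howell
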