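import Pool.Agent.Howell.KBasic

set_option autoImplicit false

namespace Pool.Agent.Howell

open Complex Set MeasureTheory intervalIntegral

private theorem rho_den_pos {x t : ℝ} (hx0 : 0 < x) (hx1 : x < 1) (ht1 : t ≤ 1) :
    0 < 1 - x * t := by
  nlinarith

/-- The integrand is nonnegative on `[x, 1]`. -/
theorem rho_nonneg {x : ℝ} (hx0 : 0 < x) (hx1 : x < 1) : 0 ≤ rho x := by
  unfold rho
  apply intervalIntegral.integral_nonneg hx1.le
  intro t ht
  exact div_nonneg (by linarith [ht.1]) (rho_den_pos hx0 hx1 ht.2).le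

private theorem rho_integrable {x : ℝ} (hx0 : 0 < x) (hx1 : x < 1) :
    IntervalIntegrable (fun t : ℝ => (t - x) / (1 - x * t)) volume x 1 := by
  apply ContinuousOn.intervalIntegrable
  rw [Set.uIcc_of_le hx1.le]
  apply ContinuousOn.div (by fun_prop) (by fun_prop)
  intro t ht
  exact (rho_den_pos hx0 hx1 ht.2).ne'

private theorem rho_major_integral {x : ℝ} (hx1 : x < 1) :
    ∫ t in x..1, ((t - x) / (1 - x) + (t - x) ^ 2 / (2 * (1 - x) ^ 2) +
      (t - x) ^ 3 / (2 * (1 - x) ^ 3)) = 19 / 24 * (1 - x) := by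
  have hh : (1 - x) ≠ 0 := by linarith
  have hd : ∀ t ∈ Set.uIcc x 1, HasDerivAt
      (fun t : ℝ => (t - x) ^ 2 / (2 * (1 - x)) + (t - x) ^ 3 / (6 * (1 - x) ^ 2) +
        (t - x) ^ 4 / (8 * (1 - x) ^ 3))
      ((t - x) / (1 - x) + (t - x) ^ 2 / (2 * (1 - x) ^ 2) +
      (t - x) ^ 3 / (2 * (1 - x) ^ 3)) t := by
    intro t _
    have h0 : HasDerivAt (fun t : ℝ => t - x) 1 t := (hasDerivAt_id t).sub_const x
    have h2 := (h0.pow 2).div_const (2 * (1 - x))
    have h3 := (h0.pow 3).div_const (6 * (1 - x) ^ 2)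
    have h4 := (h0.pow 4).div_const (8 * (1 - x) ^ 3)
    refine ((h2.fun_add h3).fun_add h4).congr_deriv ?_
    push_cast
    field_simp
    ring
  rw [intervalIntegral.integral_eq_sub_of_hasDerivAt hd]
  · field_simp
    ring
  · apply Continuous.intervalIntegrable
    fun_prop

/-- `ρ(x) ≤ (19/24) (1-x)/(1+x)`. Substitute `t = x + (1-x) u` (or compare pointwise): with
`h = 1-x` the integrand is `u/(1+x-xu)`, and `(1+x)/(1+x-xu) ≤ 2/(2-u) ≤ 1 + u/2 + u²/2` for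
`u ∈ [0,1]` (the first because `x/(1+x) ≤ 1/2`); so
`(1+x) ρ(x) ≤ h ∫₀¹ (u + u²/2 + u³/2) du = h (1/2 + 1/6 + 1/8) = 19 h/24`. -/
theorem rho_le {x : ℝ} (hx0 : 0 < x) (hx1 : x < 1) : (1 + x) * rho x ≤ 19 / 24 * (1 - x) := by
  unfold rho
  rw [← rho_major_integral hx1, ← intervalIntegral.integral_const_mul]
  have hh : 0 < 1 - x := by linarith
  apply intervalIntegral.integral_mono_on hx1.le
  · exact (rho_integrable hx0 hx1).const_mul _
  · apply Continuous.intervalIntegrable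
    fun_prop
  · intro t ht
    obtain ⟨u, hu⟩ : ∃ u, u = (t - x) / (1 - x) := ⟨_, rfl⟩
    have ht' : t = x + (1 - x) * u := by
      rw [hu]; field_simp; ring
    have hu0 : 0 ≤ u := by
      rw [hu]; exact div_nonneg (by linarith [ht.1]) hh.le
    have hu1 : u ≤ 1 := by
      rw [hu, div_le_one hh]; linarith [ht.2]
    have hD : 0 < 1 + x - x * u := by nlinarith
    have e1 : (1 + x) * ((t - x) / (1 - x * t)) = (1 + x) * u / (1 + x - x * u) := by
      rw [ht']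
      have e : 1 - x * (x + (1 - x) * u) = (1 - x) * (1 + x - x * u) := by ring
      rw [e]
      field_simp
      ring
    have e2 : (t - x) / (1 - x) + (t - x) ^ 2 / (2 * (1 - x) ^ 2) +
      (t - x) ^ 3 / (2 * (1 - x) ^ 3) = u + u ^ 2 / 2 + u ^ 3 / 2 := by
      rw [ht']
      field_simp
      ring
    rw [e1, e2, div_le_iff₀ hD]
    have hxu : x * u ^ 2 ≤ u := by nlinarith [mul_nonneg hu0 (sub_nonneg.2 hu1), mul_nonneg hx0.le (mul_nonneg hu0 hu0)]
    have hkey : 0 ≤ u ^ 2 / 2 * (1 - x + (u - x * u ^ 2)) := by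
      apply mul_nonneg (by positivity)
      linarith
    nlinarith [hkey]

/-- `ρ(x) pk c x = ρ(x) (1-x)(1+x)/((1-x)² + 2x(1-c)) ≤ (19/24) (1-x)²/((1-x)² + 2x(1-c))
 = (19/24)/(1 + 2x(1-c)/(1-x)²)` and `2x ≥ 96 (1-x)²` for `x ≥ √(3)/2 = 0.866...`
(`x² ≥ 3/4` gives `x ≥ 0.866`, and `96·0.134² ≤ 1.724 ≤ 1.732`). -/
theorem rho_pk_le {c x : ℝ} (hc : -1 ≤ c) (hc1 : c < 1) (hx0 : 0 < x) (hx1 : x < 1)
    (hx2 : 3 / 4 < x ^ 2) : rho x * pk c x ≤ SB c := by
  have hD : 0 < 1 - 2 * c * x + x ^ 2 := by nlinarith [sq_nonneg (1 - x)]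
  have hx3 : 433 / 500 ≤ x := by nlinarith
  have hS : 0 < 1 + 96 * (1 - c) := by linarith
  have h1 := rho_le hx0 hx1
  have e : rho x * pk c x = ((1 + x) * rho x) * (1 - x) / (1 - 2 * c * x + x ^ 2) := by
    unfold pk
    field_simp
    ring
  rw [e]
  unfold SB
  rw [div_le_div_iff₀ hD hS]
  have h2 : (1 + x) * rho x * (1 - x) ≤ 19 / 24 * (1 - x) * (1 - x) :=
    mul_le_mul_of_nonneg_right h1 (by linarith)
  have h3 : (1 + x) * rho x * (1 - x) * (1 + 96 * (1 - c)) ≤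
      19 / 24 * (1 - x) * (1 - x) * (1 + 96 * (1 - c)) :=
    mul_le_mul_of_nonneg_right h2 hS.le
  refine h3.trans ?_
  have h4 : 76 * (1 - x) ^ 2 ≤ 8 / 5 * x := by nlinarith
  have h5 : 76 * (1 - x) ^ 2 * (1 - c) ≤ 8 / 5 * x * (1 - c) :=
    mul_le_mul_of_nonneg_right h4 (by linarith)
  nlinarith [sq_nonneg (1 - x)]

theorem SB_mono {c c' : ℝ} (h : c ≤ c') (hc1 : c' ≤ 1) : SB c ≤ SB c' := by
  unfold SB
  apply div_le_div_of_nonneg_left (by norm_num) (by linarith) (by linarith)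

end Pool.Agent.Howell
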