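import Pool.Agent.Howell.KRect
import Pool.Agent.Howell.KPsi
import Pool.Agent.Howell.KRho

set_option autoImplicit false

namespace Pool.Agent.Howell

open Complex Set MeasureTheory intervalIntegral

/-- `-1 < c < a < 0`, `2a² ≥ 1`. With `A = -a`, `C = -c`: `pk c (-t) = pk C t`,
`ik c a v = -ik C A v`, so `W(c,a) = ψ(c) + ∫₀^A pk C - (1/b) ∫₀^b (b-v) ik C A v dv
 ≥ ψ(c) + A(1 - 2b²/3) - b²/3` (`rect_lower`), `b² = 1 - A²`. Hence
`V ≥ (1 - A/2) ψ(c) + A/2 - 2Ab²/3 - b²/3 - SB c`, `ψ(c) ≥ 2 log 2 - 1`, `SB c ≤ 1/200`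
(`c < -0.7`); the resulting cubic in `A ∈ [0.7071, 1]` is `≥ 0.19`. -/
theorem V_T1b {c a x : ℝ} (hc : -1 < c) (hca : c < a) (ha : a < 0) (ha2 : 1 ≤ 2 * a ^ 2)
    (hx0 : 0 < x) (hx1 : x < 1) (hx2 : 3 / 4 < x ^ 2) : 0 ≤ Vk c a x := by
  obtain ⟨A, rfl⟩ : ∃ A, a = -A := ⟨-a, by ring⟩
  obtain ⟨C, rfl⟩ : ∃ C, c = -C := ⟨-c, by ring⟩
  have hA0 : 0 < A := by linarith
  have hAC : A < C := by linarith
  have hC1 : C < 1 := by linarith
  have hA2 : 1 ≤ 2 * A ^ 2 := by nlinarith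
  have hA7 : 7 / 10 ≤ A := by nlinarith
  have hr := rect_lower hA0 hA2 hAC hC1
  have hpk : ∀ t : ℝ, pk (-C) (-t) = pk C t := by
    intro t
    unfold pk
    congr 1 <;> ring
  have hik : ∀ v : ℝ, ik (-C) (-A) v = - ik C A v := by
    intro v
    unfold ik
    rw [← neg_div]
    congr 1 <;> ring
  have hcm : (-1 : ℝ) ≤ -C := by linarith
  have hc1 : -C < 1 := by linarith
  have i1 : (∫ t in (-A)..1, pk (-C) t) = (∫ t in (0:ℝ)..A, pk C t) + psi (-C) := by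
    have h1 := integral_add_adjacent_intervals
      (pk_intervalIntegrable (c := -C) (u := -A) (v := 0) hcm hc1 (by linarith) (by norm_num))
      (pk_intervalIntegrable (c := -C) (u := 0) (v := 1) hcm hc1 (by norm_num) (by norm_num))
    have h2 : (∫ t in (0:ℝ)..A, pk (-C) (-t)) = ∫ t in (-A)..(-0:ℝ), pk (-C) t :=
      integral_comp_neg (fun t => pk (-C) t)
    rw [neg_zero] at h2
    rw [← h1, ← h2, psi]
    congr 1
    exact integral_congr fun t _ => hpk t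
  have i2 : (∫ v in (0:ℝ)..√(1 - A ^ 2), (√(1 - A ^ 2) - v) * ik (-C) (-A) v) =
      -∫ v in (0:ℝ)..√(1 - A ^ 2), (√(1 - A ^ 2) - v) * ik C A v := by
    rw [← intervalIntegral.integral_neg]
    refine integral_congr fun v _ => ?_
    rw [hik]
    ring
  have hW : Wk (-C) (-A) = psi (-C) + ((∫ t in (0:ℝ)..A, pk C t)
        - (1 / √(1 - A ^ 2)) * ∫ v in (0:ℝ)..√(1 - A ^ 2), (√(1 - A ^ 2) - v) * ik C A v) := by
    unfold Wk
    rw [neg_sq, i1, i2]
    ring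
  have hp : 2 * Real.log 2 - 1 ≤ psi (-C) := by
    rw [← psi_neg_one]
    exact psi_mono le_rfl hcm hc1
  have hlog : 0.69 < Real.log 2 := lt_trans (by norm_num) Real.log_two_gt_d9
  have hS := rho_pk_le hcm hc1 hx0 hx1 hx2
  have hSB : SB (-C) ≤ 1 / 200 := by
    unfold SB
    rw [div_le_iff₀ (by linarith)]
    linarith
  have hV : Vk (-C) (-A) x = Wk (-C) (-A) + (-A) / 2 * (1 + psi (-C)) - rho x * pk (-C) x := rfl
  rw [hV, hW]
  have h3 : 0 ≤ (psi (-C) - 0.38) * (1 - A / 2) :=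
    mul_nonneg (by linarith) (by linarith)
  have h4 : 0 ≤ (A - 7 / 10) * A := mul_nonneg (by linarith) hA0.le
  have h5 : 0 ≤ ((A - 7 / 10) * A) * A := mul_nonneg h4 hA0.le
  nlinarith

end Pool.Agent.Howell
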