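import Pool.Agent.Howell.KBasic

set_option autoImplicit false

namespace Pool.Agent.Howell

open Complex Set MeasureTheory intervalIntegral

/-- For `c ≤ 0`, `-1 < t ≤ 0`: `pk c t ≥ (1-t²)/(1+t²) ≥ 1 - 2t²` (`ct ≥ 0`). Integrate. -/
theorem int_neg_i {c a : ℝ} (hc : -1 ≤ c) (hc0 : c ≤ 0) (ha : -1 < a) (ha0 : a ≤ 0) :
    -a + 2 * a ^ 3 / 3 ≤ ∫ t in a..0, pk c t := by
  have hI : (∫ t in a..0, (1 - 2 * t ^ 2)) = -a + 2 * a ^ 3 / 3 := by
    rw [intervalIntegral.integral_sub (by simp) (by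
      apply Continuous.intervalIntegrable; fun_prop),
      intervalIntegral.integral_const_mul, integral_pow]
    simp
    ring
  rw [← hI]
  apply intervalIntegral.integral_mono_on ha0
  · apply Continuous.intervalIntegrable; fun_prop
  · exact pk_intervalIntegrable hc (by linarith) ha (by norm_num)
  · intro t ht
    have ht1 : -1 < t := by linarith [ht.1]
    have hd := den_pos hc (by linarith : c < 1) ht1
    unfold pk
    rw [le_div_iff₀ hd]
    have hct : 0 ≤ c * t := mul_nonneg_of_nonpos_of_nonpos hc0 ht.2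
    rcases le_total 0 (1 - 2 * t ^ 2) with h | h
    · nlinarith [mul_nonneg h hct, sq_nonneg (t ^ 2)]
    · have h1 : (1 - 2 * t ^ 2) * (1 - 2 * c * t + t ^ 2) ≤ 0 :=
        mul_nonpos_of_nonpos_of_nonneg h hd.le
      nlinarith [ht.2]

/-- For `0 ≤ c < 1`, `t = -τ`, `τ ∈ [0,1)`: `pk c t ≥ (1-τ²)/(1+τ)² = (1-τ)/(1+τ)
≥ (1-τ)(1-τ+τ²/2) = 1 - 2τ + 3τ²/2 - τ³/2` (because `(1+τ)(1-τ+τ²/2) = 1 - τ²/2 + τ³/2 ≤ 1`).
Integrate: with `A = -a` the value is `A - A² + A³/2 - A⁴/8`. -/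
theorem int_neg_ii {c a : ℝ} (hc : 0 ≤ c) (hc1 : c < 1) (ha : -1 < a) (ha0 : a ≤ 0) :
    -a - a ^ 2 - a ^ 3 / 2 - a ^ 4 / 8 ≤ ∫ t in a..0, pk c t := by
  have hI : (∫ t in a..0, (1 + 2 * t + 3 / 2 * t ^ 2 + 1 / 2 * t ^ 3)) =
      -a - a ^ 2 - a ^ 3 / 2 - a ^ 4 / 8 := by
    have hd : ∀ t ∈ uIcc a 0, HasDerivAt (fun t : ℝ => t + t ^ 2 + 1 / 2 * t ^ 3 + 1 / 8 * t ^ 4)
        (1 + 2 * t + 3 / 2 * t ^ 2 + 1 / 2 * t ^ 3) t := by
      intro t _
      have h := (((hasDerivAt_id t).add (hasDerivAt_pow 2 t)).add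
        ((hasDerivAt_pow 3 t).const_mul (1 / 2))).add ((hasDerivAt_pow 4 t).const_mul (1 / 8))
      refine HasDerivAt.congr_deriv h ?_
      push_cast
      ring
    rw [intervalIntegral.integral_eq_sub_of_hasDerivAt hd (by
      apply Continuous.intervalIntegrable; fun_prop)]
    ring
  rw [← hI]
  apply intervalIntegral.integral_mono_on ha0
  · apply Continuous.intervalIntegrable; fun_prop
  · exact pk_intervalIntegrable (by linarith) hc1 ha (by norm_num)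
  · intro t ht
    have ht1 : -1 < t := by linarith [ht.1]
    have ht0 : t ≤ 0 := ht.2
    have hd := den_pos (by linarith : -1 ≤ c) hc1 ht1
    unfold pk
    rw [le_div_iff₀ hd]
    have hP : 0 ≤ 1 + 2 * t + 3 / 2 * t ^ 2 + 1 / 2 * t ^ 3 := by
      have : 1 + 2 * t + 3 / 2 * t ^ 2 + 1 / 2 * t ^ 3 = (1 + t) * (1 + t + t ^ 2 / 2) := by ring
      rw [this]
      apply mul_nonneg (by linarith)
      nlinarith [sq_nonneg (t + 1)]
    have hden : 1 - 2 * c * t + t ^ 2 ≤ (1 - t) ^ 2 := by nlinarith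
    calc (1 + 2 * t + 3 / 2 * t ^ 2 + 1 / 2 * t ^ 3) * (1 - 2 * c * t + t ^ 2)
        ≤ (1 + 2 * t + 3 / 2 * t ^ 2 + 1 / 2 * t ^ 3) * (1 - t) ^ 2 :=
          mul_le_mul_of_nonneg_left hden hP
      _ = (1 - t ^ 2) * (1 - t ^ 2 * (1 + t) / 2) := by ring
      _ ≤ (1 - t ^ 2) * 1 := by
          apply mul_le_mul_of_nonneg_left
          · have : 0 ≤ t ^ 2 * (1 + t) := mul_nonneg (sq_nonneg t) (by linarith)
            linarith
          · nlinarith
      _ = 1 - t ^ 2 := mul_one _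

end Pool.Agent.Howell
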