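import Pool.Agent.Howell.KBasic

set_option autoImplicit false

namespace Pool.Agent.Howell

open Complex Set MeasureTheory intervalIntegral

/-- For `-1 ≤ c`, `0 ≤ t ≤ 1`, `y = 1 - t`: `pk c t ≥ (1-t)/(1+t) = y/(2-y) ≥ y/2 + y²/4 + y³/8`.
Integrate: `h²/4 + h³/12 + h⁴/32` with `h = 1 - a`. -/
theorem int_pos_i {c a : ℝ} (hc : -1 ≤ c) (hc1 : c < 1) (ha : 0 ≤ a) (ha1 : a ≤ 1) :
    (1 - a) ^ 2 / 4 + (1 - a) ^ 3 / 12 + (1 - a) ^ 4 / 32 ≤ ∫ t in a..1, pk c t := by
  have hcont : Continuous fun t : ℝ => (1 - t) / 2 + (1 - t) ^ 2 / 4 + (1 - t) ^ 3 / 8 := by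
    fun_prop
  have hF : ∀ t ∈ uIcc a 1, HasDerivAt
      (fun t : ℝ => -((1 - t) ^ 2 / 4 + (1 - t) ^ 3 / 12 + (1 - t) ^ 4 / 32))
      ((1 - t) / 2 + (1 - t) ^ 2 / 4 + (1 - t) ^ 3 / 8) t := by
    intro t _
    have h1 : HasDerivAt (fun t : ℝ => 1 - t) (-1) t := by
      simpa using (hasDerivAt_id t).const_sub 1
    have h2 := (((h1.fun_pow 2).div_const 4).fun_add ((h1.fun_pow 3).div_const 12)).fun_add
      ((h1.fun_pow 4).div_const 32)
    refine h2.fun_neg.congr_deriv ?_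
    norm_num
    ring
  have hint := integral_eq_sub_of_hasDerivAt hF (hcont.intervalIntegrable _ _)
  have hmono : (∫ t in a..1, ((1 - t) / 2 + (1 - t) ^ 2 / 4 + (1 - t) ^ 3 / 8)) ≤
      ∫ t in a..1, pk c t := by
    apply integral_mono_on ha1 (hcont.intervalIntegrable _ _)
      (pk_intervalIntegrable hc hc1 (by linarith) (by norm_num))
    intro t ht
    obtain ⟨ht0, ht1⟩ := ht
    have ht0' : 0 ≤ t := ha.trans ht0
    have hD := den_pos hc hc1 (t := t) (by linarith)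
    unfold pk
    rw [le_div_iff₀ hD]
    obtain ⟨y, hy⟩ : ∃ y, y = 1 - t := ⟨_, rfl⟩
    have hty : t = 1 - y := by linarith
    have hy0 : 0 ≤ y := by linarith
    have hy1 : y ≤ 1 := by linarith
    have hD2 : 1 - 2 * c * t + t ^ 2 ≤ (2 - y) ^ 2 := by
      rw [hty]
      have : 0 ≤ (1 + c) * (1 - y) := mul_nonneg (by linarith) (by linarith)
      nlinarith
    rw [← hy]
    calc (y / 2 + y ^ 2 / 4 + y ^ 3 / 8) * (1 - 2 * c * t + t ^ 2)
        ≤ (y / 2 + y ^ 2 / 4 + y ^ 3 / 8) * (2 - y) ^ 2 :=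
          mul_le_mul_of_nonneg_left hD2 (by positivity)
      _ = (2 - y) * y - (2 - y) * (y ^ 4 / 8) := by ring
      _ ≤ (2 - y) * y := by
          have : 0 ≤ (2 - y) * (y ^ 4 / 8) := mul_nonneg (by linarith) (by positivity)
          linarith
      _ = 1 - t ^ 2 := by rw [hty]; ring
  rw [hint] at hmono
  refine le_trans (le_of_eq ?_) hmono
  ring

/-- Integrate `one_sub_le_pk`. -/
theorem int_pos_ii {c a : ℝ} (hc : 0 ≤ c) (hc1 : c < 1) (ha : 0 ≤ a) (ha1 : a ≤ 1) :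
    (1 - a) ^ 2 / 2 ≤ ∫ t in a..1, pk c t := by
  have hcont : Continuous fun t : ℝ => 1 - t := by fun_prop
  have hF : ∀ t ∈ uIcc a 1, HasDerivAt (fun t : ℝ => -((1 - t) ^ 2 / 2)) (1 - t) t := by
    intro t _
    have h1 : HasDerivAt (fun t : ℝ => 1 - t) (-1) t := by
      simpa using (hasDerivAt_id t).const_sub 1
    refine ((h1.fun_pow 2).div_const 2).fun_neg.congr_deriv ?_
    norm_num
    ring
  have hint := integral_eq_sub_of_hasDerivAt hF (hcont.intervalIntegrable _ _)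
  have hmono : (∫ t in a..1, (1 - t)) ≤ ∫ t in a..1, pk c t := by
    apply integral_mono_on ha1 (hcont.intervalIntegrable _ _)
      (pk_intervalIntegrable (by linarith) hc1 (by linarith) (by norm_num))
    intro t ht
    exact one_sub_le_pk hc hc1 (ha.trans ht.1) ht.2
  rw [hint] at hmono
  refine le_trans (le_of_eq ?_) hmono
  ring

end Pool.Agent.Howell
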