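import Pool.Agent.Howell.KBasic
import Pool.Agent.Howell.KIntNeg
import Pool.Agent.Howell.KIntPos

set_option autoImplicit false

namespace Pool.Agent.Howell

open Complex Set MeasureTheory intervalIntegral

/-- For `0 ≤ a ≤ c < 1`, `t ∈ [a,1]`: `pk c t ≥ pk a t ≥ (1-t²)/(2(1-a))`, because
`1 - 2at + t² ≤ 2(1-a)` on `[a,1]` (convex in `t`, value `2(1-a)` at `1` and `1-a² ≤ 2(1-a)` at `a`;
directly: `2(1-a) - (1-2at+t²) = (1-t)(1+t-2a) ≥ 0` since `t ≥ a`, `1 + t - 2a ≥ 1 - a`).
`∫_a^1 (1-t²) = (1-a)²(2+a)/3`. -/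
theorem int_pos_iii {c a : ℝ} (ha : 0 ≤ a) (hac : a ≤ c) (hc1 : c < 1) :
    (1 - a) * (2 + a) / 6 ≤ ∫ t in a..1, pk c t := by
  have ha1 : a < 1 := lt_of_le_of_lt hac hc1
  have h1a : 0 < 1 - a := by linarith
  have hval : (∫ t in a..1, (1 - t ^ 2) * (1 / (2 * (1 - a)))) = (1 - a) * (2 + a) / 6 := by
    rw [intervalIntegral.integral_mul_const]
    have h2 : (∫ t in a..1, (1 - t ^ 2)) = (1 - a) - (1 - a ^ 3) / 3 := by
      rw [intervalIntegral.integral_sub (by simp)
        ((continuous_pow 2).intervalIntegrable a 1)]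
      rw [integral_pow]
      simp only [intervalIntegral.integral_const, smul_eq_mul]
      norm_num
    rw [h2]
    field_simp
    ring
  rw [← hval]
  apply intervalIntegral.integral_mono_on ha1.le
  · exact Continuous.intervalIntegrable (by fun_prop) a 1
  · exact pk_intervalIntegrable (by linarith) hc1 (by linarith) (by norm_num)
  · intro t ht
    have ht0 : 0 ≤ t := ha.trans ht.1
    have hd : 0 < 1 - 2 * c * t + t ^ 2 := den_pos (by linarith) hc1 (by linarith)
    have hle : 1 - 2 * c * t + t ^ 2 ≤ 2 * (1 - a) := by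
      nlinarith [mul_nonneg (sub_nonneg.2 ht.2) (by linarith [ht.1] : (0:ℝ) ≤ 1 + t - 2 * a),
        mul_nonneg (sub_nonneg.2 hac) ht0]
    unfold pk
    rw [div_eq_mul_one_div (1 - t ^ 2) (1 - 2 * c * t + t ^ 2)]
    apply mul_le_mul_of_nonneg_left (one_div_le_one_div_of_le hd hle)
    nlinarith [ht.2]

/-- `∫_a^1 pk c = psi c - ∫_0^a pk c ≥ psi c - ∫_0^(1/2) (1+t)/(1-t) dt = psi c - (2 log 2 - 1/2)`
(`pk_le`, `(1+t)/(1-t) = 2/(1-t) - 1`). -/
theorem int_pos_iv {c a : ℝ} (hc : -1 ≤ c) (hc1 : c < 1) (ha : 0 ≤ a) (ha1 : a ≤ 1 / 2) :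
    psi c - (2 * Real.log 2 - 1 / 2) ≤ ∫ t in a..1, pk c t := by
  have hii : ∀ u v : ℝ, -1 < u → -1 < v → IntervalIntegrable (pk c) volume u v :=
    fun u v hu hv => pk_intervalIntegrable hc hc1 hu hv
  have hadd : (∫ t in (0:ℝ)..a, pk c t) + (∫ t in a..1, pk c t) = psi c := by
    unfold psi
    exact intervalIntegral.integral_add_adjacent_intervals
      (hii 0 a (by norm_num) (by linarith)) (hii a 1 (by linarith) (by norm_num))
  have hadd2 : (∫ t in (0:ℝ)..a, pk c t) + (∫ t in a..(1 / 2), pk c t)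
      = ∫ t in (0:ℝ)..(1 / 2), pk c t :=
    intervalIntegral.integral_add_adjacent_intervals
      (hii 0 a (by norm_num) (by linarith)) (hii a (1 / 2) (by linarith) (by norm_num))
  have hnn : 0 ≤ ∫ t in a..(1 / 2), pk c t := by
    apply intervalIntegral.integral_nonneg ha1
    intro t ht
    exact pk_nonneg hc hc1 (by linarith [ht.1]) (by linarith [ht.2])
  have hne : ∀ t ∈ uIcc (0:ℝ) (1 / 2), 1 - t ≠ 0 := by
    intro t ht
    rw [uIcc_of_le (by norm_num)] at ht
    have := ht.2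
    intro h
    linarith
  have hint : IntervalIntegrable (fun t : ℝ => (1 + t) / (1 - t)) volume 0 (1 / 2) := by
    apply ContinuousOn.intervalIntegrable
    apply ContinuousOn.div (by fun_prop) (by fun_prop)
    exact hne
  have hval : (∫ t in (0:ℝ)..(1 / 2), (1 + t) / (1 - t)) = 2 * Real.log 2 - 1 / 2 := by
    have hder : ∀ t ∈ uIcc (0:ℝ) (1 / 2),
        HasDerivAt (fun t : ℝ => -t - 2 * Real.log (1 - t)) ((1 + t) / (1 - t)) t := by
      intro t ht
      have h0 := hne t ht
      have h1 : HasDerivAt (fun t : ℝ => 1 - t) (-1) t := by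
        simpa using (hasDerivAt_id t).const_sub 1
      have h2 := (h1.log h0).const_mul 2
      have h3 := (hasDerivAt_id t).neg
      have h4 := h3.sub h2
      refine h4.congr_deriv ?_
      field_simp
      ring
    rw [intervalIntegral.integral_eq_sub_of_hasDerivAt hder hint]
    have hl : Real.log (1 - 1 / 2) = - Real.log 2 := by
      rw [← Real.log_inv]
      norm_num
    rw [hl]
    simp
    ring
  have hle : (∫ t in (0:ℝ)..(1 / 2), pk c t) ≤ ∫ t in (0:ℝ)..(1 / 2), (1 + t) / (1 - t) := by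
    apply intervalIntegral.integral_mono_on (by norm_num) (hii 0 (1 / 2) (by norm_num) (by norm_num))
      hint
    intro t ht
    exact pk_le hc hc1 ht.1 (by linarith [ht.2])
  linarith

end Pool.Agent.Howell
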