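import Pool.Agent.Howell.KBasic

set_option autoImplicit false

namespace Pool.Agent.Howell

open Complex Set MeasureTheory intervalIntegral

/-- The polynomial inequality behind `ik_ge_T4b`: with `h = 1 - a ∈ (0, 1/2]`, `0 ≤ δ ≤ h`,
`0 ≤ y ≤ h (2-h)`. As a quadratic in `δ` the left side is
`4(1-y) δ² - 4y (1 - 3h + hy) δ + (1-2h)² y²`. If `1 - 3h + hy ≤ 0` all terms are `≥ 0`.
Otherwise the discriminant is `≤ 0`: `(1-3h+hy)² ≤ (1-y)(1-2h)²`. Indeed put `r = √(1-y) ≥ 1-h`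
(`(1-h)² = 1 - h(2-h) ≤ 1 - y`), `r ≤ 1`, `y = 1 - r²`: `(1-2h) r - (1-3h+h(1-r²))
 = h r² + (1-2h) r - (1-2h) = h r² - (1-2h)(1-r)`; this is increasing in `r` and at `r = 1-h` it is
`h (1-h)² - (1-2h) h = h (1 - 2h + h² - 1 + 2h) = h³ ≥ 0`. -/
theorem poly_T4b {h y δ : ℝ} (h0 : 0 < h) (h1 : h ≤ 1 / 2) (hδ : 0 ≤ δ) (hδ1 : δ ≤ h) (hy : 0 ≤ y)
    (hy1 : y ≤ h * (2 - h)) :
    0 ≤ y ^ 2 * ((1 - 2 * h) ^ 2 - 4 * h * δ) + 4 * δ * y * (3 * h - 1) + 4 * δ ^ 2 * (1 - y) := by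
  have hy2 : y ≤ 1 := by nlinarith
  have key : y ^ 2 * ((1 - 2 * h) ^ 2 - 4 * h * δ) + 4 * δ * y * (3 * h - 1) + 4 * δ ^ 2 * (1 - y)
      = 4 * (1 - y) * δ ^ 2 - 4 * y * (1 - 3 * h + h * y) * δ + (1 - 2 * h) ^ 2 * y ^ 2 := by ring
  rw [key]
  rcases le_or_gt (1 - 3 * h + h * y) 0 with hB | hB
  · have e1 : 0 ≤ 4 * (1 - y) * δ ^ 2 := by
      have := sub_nonneg.2 hy2
      positivity
    have e2 : 0 ≤ y * δ * (-(1 - 3 * h + h * y)) :=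
      mul_nonneg (mul_nonneg hy hδ) (by linarith)
    have e3 : 0 ≤ (1 - 2 * h) ^ 2 * y ^ 2 := by positivity
    nlinarith
  · set r := √(1 - y) with hr
    have hr0 : 0 ≤ r := Real.sqrt_nonneg _
    have hr2 : r ^ 2 = 1 - y := Real.sq_sqrt (sub_nonneg.2 hy2)
    have hr1 : r ≤ 1 := by
      rw [hr]
      exact Real.sqrt_le_one.2 (by linarith)
    have hrh : 1 - h ≤ r := by
      rw [hr]
      apply Real.le_sqrt_of_sq_le
      nlinarith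
    have hyr : y = 1 - r ^ 2 := by linarith
    have hle : 1 - 3 * h + h * y ≤ (1 - 2 * h) * r := by
      rw [hyr]
      have : 0 ≤ (r - (1 - h)) * (h * (r + (1 - h)) + (1 - 2 * h)) := by
        apply mul_nonneg (by linarith)
        have a1 : 0 ≤ h * (r + (1 - h)) := mul_nonneg h0.le (by linarith)
        linarith
      have h3 : 0 ≤ h ^ 3 := by positivity
      nlinarith
    have e1 : y * δ * (1 - 3 * h + h * y) ≤ y * δ * ((1 - 2 * h) * r) :=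
      mul_le_mul_of_nonneg_left hle (mul_nonneg hy hδ)
    have e2 : 0 ≤ (2 * r * δ - (1 - 2 * h) * y) ^ 2 := sq_nonneg _
    have e3 : (2 * r * δ - (1 - 2 * h) * y) ^ 2
        = 4 * (1 - y) * δ ^ 2 - 4 * (y * δ * ((1 - 2 * h) * r)) + (1 - 2 * h) ^ 2 * y ^ 2 := by
      rw [← hr2]; ring
    nlinarith

end Pool.Agent.Howell
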