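import Pool.Agent.Howell.KBasic
import Pool.Agent.Howell.KPolyA1

set_option autoImplicit false

namespace Pool.Agent.Howell

open Complex Set MeasureTheory intervalIntegral

/-- `a ≤ 0`, `c > a`, `a² + v² < 1`, `v > 0`: the numerator is
`2v (c(1+a²+v²) - 2a) ≥ 2v (a(1+a²+v²) - 2a) = 2v a (a²+v²-1) ≥ 0`. -/
theorem ik_nonneg {c a v : ℝ} (hc : -1 ≤ c) (hc1 : c < 1) (ha0 : a ≤ 0) (hac : a < c)
    (hv : 0 < v) (hav : v ^ 2 < 1 - a ^ 2) : 0 ≤ ik c a v := by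
  unfold ik
  have hs : a ^ 2 + v ^ 2 < 1 := by linarith
  have hs0 : 0 ≤ a ^ 2 + v ^ 2 := by positivity
  refine div_nonneg (mul_nonneg hv.le ?_) (by positivity)
  have h1 : 0 ≤ (c - a) * (1 + a ^ 2 + v ^ 2) := mul_nonneg (by linarith) (by linarith)
  have h2 : 0 ≤ (-a) * (1 - a ^ 2 - v ^ 2) := mul_nonneg (by linarith) (by linarith)
  nlinarith

/-- `0 ≤ a ≤ 1/2`, `c > a`. Put `y = 1-a²-v² ∈ (0,1)`, `δ = c - a > 0`. Then
`ik c a v = v (4δ - 2(a+δ)y)/D`, `D = y² - 4aδy + 4δ²(1-y) = (y-2aδ)² + 4δ²v² > 0`, and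
`y(4δ - 2(a+δ)y) + 2a D = 2δ [ y (2 - y - 4a²) + 4aδ(1-y) ] ≥ 0`. -/
theorem ik_ge_T4a {c a v : ℝ} (ha0 : 0 ≤ a) (ha1 : a ≤ 1 / 2) (hac : a < c) (hc1 : c < 1)
    (hv : 0 < v) (hav : v ^ 2 < 1 - a ^ 2) : -(2 * a * v / (1 - a ^ 2 - v ^ 2)) ≤ ik c a v := by
  obtain ⟨y, hy⟩ : ∃ y, y = 1 - a ^ 2 - v ^ 2 := ⟨_, rfl⟩
  obtain ⟨δ, hδ⟩ : ∃ δ, δ = c - a := ⟨_, rfl⟩
  have hy0 : 0 < y := by linarith
  have hδ0 : 0 < δ := by linarith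
  have hc : c = a + δ := by linarith
  have hv2 : v ^ 2 = 1 - a ^ 2 - y := by linarith
  have hD : (1 - 2 * a * c + a ^ 2 - v ^ 2) ^ 2 + 4 * v ^ 2 * (a - c) ^ 2 =
      y ^ 2 - 4 * a * δ * y + 4 * δ ^ 2 * (1 - y) := by
    rw [hv2, hc]
    ring
  have hN : 2 * c * (1 + a ^ 2 + v ^ 2) - 4 * a = 4 * δ - 2 * (a + δ) * y := by
    rw [hv2, hc]
    ring
  have hDpos : 0 < y ^ 2 - 4 * a * δ * y + 4 * δ ^ 2 * (1 - y) := by
    rw [← hD]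
    have h1 : 0 < 4 * v ^ 2 * (a - c) ^ 2 := by
      have : a - c ≠ 0 := by linarith
      positivity
    positivity
  unfold ik
  rw [hD, hN, ← hy]
  have ha2 : a ^ 2 ≤ 1 / 4 := by nlinarith
  have h1y : 0 < 1 - y := by
    have : 0 < v ^ 2 := by positivity
    nlinarith [sq_nonneg a]
  have hkey : 0 ≤ y * (4 * δ - 2 * (a + δ) * y) + 2 * a * (y ^ 2 - 4 * a * δ * y + 4 * δ ^ 2 * (1 - y)) := by
    have e : y * (4 * δ - 2 * (a + δ) * y) + 2 * a * (y ^ 2 - 4 * a * δ * y + 4 * δ ^ 2 * (1 - y)) =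
        2 * δ * (y * (2 - y - 4 * a ^ 2) + 4 * a * δ * (1 - y)) := by ring
    rw [e]
    have h2 : 0 ≤ y * (2 - y - 4 * a ^ 2) := by
      refine mul_nonneg hy0.le ?_
      have : 0 < v ^ 2 := by positivity
      linarith
    have h3 : 0 ≤ 4 * a * δ * (1 - y) := by positivity
    have h4 : 0 ≤ y * (2 - y - 4 * a ^ 2) + 4 * a * δ * (1 - y) := add_nonneg h2 h3
    positivity
  generalize y ^ 2 - 4 * a * δ * y + 4 * δ ^ 2 * (1 - y) = D at hDpos hkey ⊢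
  have e2 : v * (4 * δ - 2 * (a + δ) * y) / D + 2 * a * v / y =
      v * (y * (4 * δ - 2 * (a + δ) * y) + 2 * a * D) / (D * y) := by
    field_simp
  have h5 : 0 ≤ v * (4 * δ - 2 * (a + δ) * y) / D + 2 * a * v / y := by
    rw [e2]
    positivity
  linarith

/-- `1/2 ≤ a < c`. With the notation of `ik_ge_T4a` and `C = 1/(2h)`, `h = 1-a`, the claim is
`y(4δ - 2(a+δ)y) + C D ≥ 0`, i.e. `y²(C-2a-2δ) + 4δy(1-Ca) + 4Cδ²(1-y) ≥ 0`; multiplied by `2h`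
this is `poly_T4b` (`1 - 4ah = (1-2h)²`, `2h - a = 3h - 1`). -/
theorem ik_ge_T4b {c a v : ℝ} (ha0 : 1 / 2 ≤ a) (hac : a < c) (hc1 : c < 1)
    (hv : 0 < v) (hav : v ^ 2 < 1 - a ^ 2) :
    -(1 / (2 * (1 - a)) * v / (1 - a ^ 2 - v ^ 2)) ≤ ik c a v := by
  obtain ⟨y, hy⟩ : ∃ y, y = 1 - a ^ 2 - v ^ 2 := ⟨_, rfl⟩
  obtain ⟨δ, hδ⟩ : ∃ δ, δ = c - a := ⟨_, rfl⟩
  have hy0 : 0 < y := by linarith
  have hδ0 : 0 < δ := by linarith
  have hc : c = a + δ := by linarith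
  have hv2 : v ^ 2 = 1 - a ^ 2 - y := by linarith
  have hD : (1 - 2 * a * c + a ^ 2 - v ^ 2) ^ 2 + 4 * v ^ 2 * (a - c) ^ 2 =
      y ^ 2 - 4 * a * δ * y + 4 * δ ^ 2 * (1 - y) := by
    rw [hv2, hc]
    ring
  have hN : 2 * c * (1 + a ^ 2 + v ^ 2) - 4 * a = 4 * δ - 2 * (a + δ) * y := by
    rw [hv2, hc]
    ring
  have hDpos : 0 < y ^ 2 - 4 * a * δ * y + 4 * δ ^ 2 * (1 - y) := by
    rw [← hD]
    have h1 : 0 < 4 * v ^ 2 * (a - c) ^ 2 := by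
      have : a - c ≠ 0 := by linarith
      positivity
    positivity
  unfold ik
  rw [hD, hN, ← hy]
  have hh0 : 0 < 1 - a := by linarith
  have hpoly := poly_T4b (h := 1 - a) (y := y) (δ := δ) hh0 (by linarith) hδ0.le (by linarith) hy0.le
    (by
      have : 0 < v ^ 2 := by positivity
      nlinarith)
  have hkey : 0 ≤ 2 * (1 - a) * (y * (4 * δ - 2 * (a + δ) * y)) +
      (y ^ 2 - 4 * a * δ * y + 4 * δ ^ 2 * (1 - y)) := by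
    have e : 2 * (1 - a) * (y * (4 * δ - 2 * (a + δ) * y)) +
      (y ^ 2 - 4 * a * δ * y + 4 * δ ^ 2 * (1 - y)) =
      y ^ 2 * ((1 - 2 * (1 - a)) ^ 2 - 4 * (1 - a) * δ) + 4 * δ * y * (3 * (1 - a) - 1) +
        4 * δ ^ 2 * (1 - y) := by ring
    rw [e]
    exact hpoly
  generalize y ^ 2 - 4 * a * δ * y + 4 * δ ^ 2 * (1 - y) = D at hDpos hkey ⊢
  have e2 : v * (4 * δ - 2 * (a + δ) * y) / D + 1 / (2 * (1 - a)) * v / y =
      v * (2 * (1 - a) * (y * (4 * δ - 2 * (a + δ) * y)) + D) / (2 * (1 - a) * (D * y)) := by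
    have : (1 - a) ≠ 0 := hh0.ne'
    field_simp
  have h5 : 0 ≤ v * (4 * δ - 2 * (a + δ) * y) / D + 1 / (2 * (1 - a)) * v / y := by
    rw [e2]
    positivity
  linarith

end Pool.Agent.Howell
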