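import Pool.Agent.Howell.KBasic

set_option autoImplicit false

namespace Pool.Agent.Howell

open Complex Set MeasureTheory intervalIntegral

/-- `∫₀^b v/(b+v) dv = b (1 - log 2)`: the integrand is `1 - b/(b+v)`. -/
theorem int_v_div {b : ℝ} (hb : 0 < b) : ∫ v in (0:ℝ)..b, v / (b + v) = b * (1 - Real.log 2) := by
  have hder : ∀ v ∈ Set.uIcc (0:ℝ) b,
      HasDerivAt (fun v : ℝ => v - b * Real.log (b + v)) (v / (b + v)) v := by
    intro v hv
    rw [Set.uIcc_of_le hb.le] at hv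
    have hpos : b + v ≠ 0 := by
      have := hv.1
      positivity
    have h1 : HasDerivAt (fun v : ℝ => b + v) 1 v := (hasDerivAt_id v).const_add b
    have h2 := (hasDerivAt_id v).sub ((h1.log hpos).const_mul b)
    have h3 : v / (b + v) = 1 - b * (1 / (b + v)) := by
      rw [mul_one_div, eq_sub_iff_add_eq, ← add_div, add_comm v b, div_self hpos]
    rw [h3]
    exact h2
  have hcont : ContinuousOn (fun v : ℝ => v / (b + v)) (Set.uIcc 0 b) := by
    rw [Set.uIcc_of_le hb.le]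
    refine ContinuousOn.div continuousOn_id (continuousOn_const.add continuousOn_id) ?_
    intro v hv
    have := hv.1
    positivity
  rw [integral_eq_sub_of_hasDerivAt hder hcont.intervalIntegrable]
  have h2b : b + b = b * 2 := by ring
  rw [add_zero, h2b, Real.log_mul hb.ne' (by norm_num)]
  ring

/-- If `ik c a ≥ 0` on `(0,b)`, `b = √(1-a²)`, then `W(c,a) ≥ ∫_a^1 pk c`. -/
theorem Wk_ge_zero {c a : ℝ} (hc : -1 ≤ c) (hc1 : c < 1) (ha : -1 < a) (ha1 : a < 1) (hca : c ≠ a)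
    (h : ∀ v, 0 < v → v ^ 2 < 1 - a ^ 2 → 0 ≤ ik c a v) : (∫ t in a..1, pk c t) ≤ Wk c a := by
  have hb2 : 0 < 1 - a ^ 2 := by nlinarith
  have hb : 0 < √(1 - a ^ 2) := Real.sqrt_pos.mpr hb2
  have hsq : √(1 - a ^ 2) ^ 2 = 1 - a ^ 2 := Real.sq_sqrt hb2.le
  unfold Wk
  have hint : 0 ≤ ∫ v in (0:ℝ)..√(1 - a ^ 2), (√(1 - a ^ 2) - v) * ik c a v := by
    apply intervalIntegral.integral_nonneg hb.le
    intro v hv
    rcases eq_or_lt_of_le hv.1 with h0 | h0
    · rw [← h0]
      simp [ik]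
    · rcases eq_or_lt_of_le hv.2 with h1 | h1
      · rw [h1, sub_self, zero_mul]
      · refine mul_nonneg (by linarith) (h v h0 ?_)
        rw [← hsq]
        exact pow_lt_pow_left₀ h1 h0.le (by norm_num)
  have : 0 ≤ (1 / √(1 - a ^ 2)) * ∫ v in (0:ℝ)..√(1 - a ^ 2), (√(1 - a ^ 2) - v) * ik c a v :=
    mul_nonneg (by positivity) hint
  linarith

/-- If `ik c a v ≥ - C v/(b² - v²)` on `(0,b)` (`b² = 1 - a²`), then
`(b-v) ik c a v ≥ - C v/(b+v)`, so `W(c,a) ≥ ∫_a^1 pk c - (1/b) C b (1 - log 2)`. -/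
theorem Wk_ge {c a C : ℝ} (hc : -1 ≤ c) (hc1 : c < 1) (ha : -1 < a) (ha1 : a < 1) (hca : c ≠ a)
    (h : ∀ v, 0 < v → v ^ 2 < 1 - a ^ 2 → -(C * v / (1 - a ^ 2 - v ^ 2)) ≤ ik c a v) :
    (∫ t in a..1, pk c t) - (1 - Real.log 2) * C ≤ Wk c a := by
  have hb2 : 0 < 1 - a ^ 2 := by nlinarith
  have hb : 0 < √(1 - a ^ 2) := Real.sqrt_pos.mpr hb2
  have hsq : √(1 - a ^ 2) ^ 2 = 1 - a ^ 2 := Real.sq_sqrt hb2.le
  unfold Wk
  set b := √(1 - a ^ 2) with hbdef
  have hcont : ContinuousOn (fun v : ℝ => v / (b + v)) (Set.uIcc 0 b) := by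
    rw [Set.uIcc_of_le hb.le]
    refine ContinuousOn.div continuousOn_id (continuousOn_const.add continuousOn_id) ?_
    intro v hv
    have := hv.1
    positivity
  have hint : ∫ v in (0:ℝ)..b, (-C) * (v / (b + v)) ≤ ∫ v in (0:ℝ)..b, (b - v) * ik c a v := by
    apply intervalIntegral.integral_mono_on_of_le_Ioo hb.le
    · exact (hcont.intervalIntegrable).const_mul _
    · exact ((continuous_const.sub continuous_id).mul
        (ik_continuous hc hc1.le ha ha1 hca)).intervalIntegrable _ _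
    · intro v hv
      have hv0 : 0 < v := hv.1
      have hvb : v < b := hv.2
      have hvv : v ^ 2 < 1 - a ^ 2 := by
        rw [← hsq]
        exact pow_lt_pow_left₀ hvb hv0.le (by norm_num)
      have h1 := h v hv0 hvv
      have h2 : (b - v) * (-(C * v / (1 - a ^ 2 - v ^ 2))) ≤ (b - v) * ik c a v :=
        mul_le_mul_of_nonneg_left h1 (by linarith)
      refine le_trans (le_of_eq ?_) h2
      rw [← hsq]
      have e1 : b ^ 2 - v ^ 2 = (b - v) * (b + v) := by ring
      rw [e1]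
      have e2 : b - v ≠ 0 := by linarith [sub_pos.mpr hvb]
      have e3 : b + v ≠ 0 := by positivity
      field_simp
  rw [intervalIntegral.integral_const_mul, int_v_div hb] at hint
  have h3 : (1 / b) * (-C * (b * (1 - Real.log 2))) ≤
      (1 / b) * ∫ v in (0:ℝ)..b, (b - v) * ik c a v :=
    mul_le_mul_of_nonneg_left hint (by positivity)
  have h4 : (1 / b) * (-C * (b * (1 - Real.log 2))) = -((1 - Real.log 2) * C) := by
    field_simp
  linarith

end Pool.Agent.Howell
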