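import Pool.Agent.Howell.KPsiNum
import Pool.Agent.Howell.KRho
import Pool.Agent.Howell.KInt
import Pool.Agent.Howell.KVert
import Pool.Agent.Howell.KPolyA

set_option autoImplicit false

namespace Pool.Agent.Howell

open Complex Set MeasureTheory intervalIntegral

/-- The reduction: `V ≥ J + (1 + a/2) P + a/2 - S` for lower bounds `J`, `P` of the
integral over `[a, 0]` and of `ψ` and an upper bound `S` of `SB`. -/
theorem V_T2_aux {c a x J P S : ℝ} (ha : -1 < a) (ha0 : a ≤ 0) (hac : a < c) (hc1 : c < 1)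
    (hx0 : 0 < x) (hx1 : x < 1) (hx2 : 3 / 4 < x ^ 2)
    (hJ : J ≤ ∫ t in a..0, pk c t) (hP : P ≤ psi c) (hS : SB c ≤ S)
    (h : 0 ≤ J + (1 + a / 2) * P + a / 2 - S) : 0 ≤ Vk c a x := by
  have hc : -1 ≤ c := by linarith
  have ha1 : a < 1 := by linarith
  have h1 := Wk_ge_zero hc hc1 ha ha1 hac.ne' (fun v hv hav => ik_nonneg hc hc1 ha0 hac hv hav)
  have h2 := rho_pk_le hc hc1 hx0 hx1 hx2
  have h3 : (1 + a / 2) * P ≤ (1 + a / 2) * psi c :=
    mul_le_mul_of_nonneg_left hP (by linarith)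
  have h4 : (∫ t in a..0, pk c t) + (∫ t in (0:ℝ)..1, pk c t) = ∫ t in a..1, pk c t :=
    integral_add_adjacent_intervals (pk_intervalIntegrable hc hc1 ha (by norm_num))
      (pk_intervalIntegrable hc hc1 (by norm_num) (by norm_num))
  have h5 : (∫ t in (0:ℝ)..1, pk c t) = psi c := rfl
  rw [h5] at h4
  unfold Vk
  linarith

/-- `-1 < a ≤ 0`, `a < c < 1`. With `A = -a ∈ [0,1)`:
`V ≥ ∫_a^1 pk c + (a/2)(1+ψ) - SB c = ∫_a^0 pk c + (1 - A/2) ψ(c) - A/2 - SB c`
(`Wk_ge_zero`, `ik_nonneg`, `rho_pk_le`).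
(i) `c ≤ 0`: `≥ A - 2A³/3 + (1-A/2)(2 log 2 - 1) - A/2 - 0.0083` (`int_neg_i`, `psi_mono`,
`psi_neg_one`, `SB 0 = 4/485`), concave in `A`, endpoints `0.378`, `0.018`.
(ii) `0 ≤ c ≤ 97/100`: `≥ A - A² + A³/2 - A⁴/8 + (1-A/2) ψ(c) - A/2 - SB c`. For `c ≤ 17/20`:
`ψ ≥ 0.5707`, `SB ≤ 0.052` (min `0.1087` at `A = 1`). For `17/20 ≤ c ≤ 97/100`: `ψ ≥ 0.97`,
`SB ≤ 0.2062` (min `0.154`).
(iii) `c ≥ 97/100`: `ψ ≥ 2.34`, `SB ≤ 0.8` (min `0.2458`). -/
theorem V_T2 {c a x : ℝ} (ha : -1 < a) (ha0 : a ≤ 0) (hac : a < c) (hc1 : c < 1)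
    (hx0 : 0 < x) (hx1 : x < 1) (hx2 : 3 / 4 < x ^ 2) : 0 ≤ Vk c a x := by
  have hc : -1 ≤ c := by linarith
  obtain ⟨t, ht⟩ : ∃ t, t = 1 + a := ⟨_, rfl⟩
  have ht0 : 0 < t := by linarith
  have ht1 : t ≤ 1 := by linarith
  have hat : a = t - 1 := by linarith
  have ht3 : t ^ 3 ≤ t := by
    have : t ^ 2 ≤ 1 := by nlinarith
    nlinarith
  rcases le_total c 0 with hc0 | hc0
  · -- (i)
    have hl : (0.6931 : ℝ) < Real.log 2 := by
      have := Real.log_two_gt_d9
      linarith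
    have hJ := int_neg_i hc hc0 ha ha0
    have hP : 2 * Real.log 2 - 1 ≤ psi c := by
      rw [← psi_neg_one]
      exact psi_mono le_rfl hc hc1
    have hP' : (3862 / 10000 : ℝ) ≤ psi c := by linarith
    have hS : SB c ≤ 4 / 485 := by
      refine (SB_mono hc0 (by norm_num)).trans (le_of_eq ?_)
      unfold SB
      norm_num
    refine V_T2_aux ha ha0 hac hc1 hx0 hx1 hx2 hJ hP' hS ?_
    have ha3 : a ≤ a ^ 3 := by nlinarith [mul_nonneg (neg_nonneg.2 ha0) (sq_nonneg a)]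
    linarith
  · -- the common lower bound
    have hJ : 375 / 1000 - 125 / 1000 * t - 375 / 1000 * t ≤ ∫ s in a..0, pk c s := by
      refine le_trans ?_ (int_neg_ii hc0 hc1 ha ha0)
      have h4 : a ^ 4 ≤ -a ^ 3 := by
        have : a ^ 4 + a ^ 3 = a ^ 3 * (a + 1) := by ring
        have h5 : a ^ 3 ≤ 0 := by
          have : a ^ 3 = a * a ^ 2 := by ring
          rw [this]
          exact mul_nonpos_of_nonpos_of_nonneg ha0 (sq_nonneg a)
        nlinarith
      have h5 : 375 / 1000 - 125 / 1000 * t + 125 / 1000 * t ^ 2 - 375 / 1000 * t ^ 3 ≤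
          -a - a ^ 2 - a ^ 3 / 2 + a ^ 3 / 8 := by
        rw [hat]
        nlinarith
      nlinarith [sq_nonneg t]
    rcases le_total c (97 / 100) with hc3 | hc3
    · rcases le_total c (17 / 20) with hc2 | hc2
      · have hP : 5707 / 10000 ≤ psi c := psi_zero_ge.trans (psi_mono (by norm_num) hc0 hc1)
        have hS : SB c ≤ 52 / 1000 := by
          refine (SB_mono hc2 (by norm_num)).trans ?_
          unfold SB
          norm_num
        refine V_T2_aux ha ha0 hac hc1 hx0 hx1 hx2 hJ hP hS ?_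
        rw [hat]
        linarith
      · have hP : 97 / 100 ≤ psi c := psi_07.trans (psi_mono (by norm_num) (by linarith) hc1)
        have hS : SB c ≤ 2062 / 10000 := by
          refine (SB_mono hc3 (by norm_num)).trans ?_
          unfold SB
          norm_num
        refine V_T2_aux ha ha0 hac hc1 hx0 hx1 hx2 hJ hP hS ?_
        rw [hat]
        linarith
    · have hP : 234 / 100 ≤ psi c := psi_097.trans (psi_mono (by norm_num) hc3 hc1)
      have hS : SB c ≤ 8 / 10 := by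
        refine (SB_mono hc1.le le_rfl).trans ?_
        unfold SB
        norm_num
      refine V_T2_aux ha ha0 hac hc1 hx0 hx1 hx2 hJ hP hS ?_
      rw [hat]
      linarith

end Pool.Agent.Howell
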