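import Pool.Agent.Howell.KBasic

set_option autoImplicit false

namespace Pool.Agent.Howell

open Complex Set MeasureTheory intervalIntegral

private theorem kb1_quad {A B D y e : ℝ} (hA : 0 < A) (hD : 0 ≤ D) (hy : 0 ≤ y) (he : 0 ≤ e)
    (h : B < 0 → B ^ 2 ≤ A * D) :
    0 ≤ A * y ^ 2 + 2 * B * y * e + D * e ^ 2 := by
  rcases le_or_gt 0 B with hB | hB
  · positivity
  · have h1 := h hB
    have h2 : 0 ≤ A * (A * y ^ 2 + 2 * B * y * e + D * e ^ 2) := by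
      have : A * (A * y ^ 2 + 2 * B * y * e + D * e ^ 2) =
          (A * y + B * e) ^ 2 + (A * D - B ^ 2) * e ^ 2 := by ring
      rw [this]
      have h3 : 0 ≤ A * D - B ^ 2 := by linarith
      positivity
    exact nonneg_of_mul_nonneg_right h2 hA

private theorem kb1_concave {c0 c1 y Y : ℝ} (hy : 0 ≤ y) (hY : y ≤ Y) (h0 : 0 ≤ c0)
    (h1 : 0 ≤ c0 + c1 * Y - Y ^ 2) : 0 ≤ c0 + c1 * y - y ^ 2 := by
  rcases hy.eq_or_lt with h | h
  · rw [← h]; simpa using h0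
  · have hYp : 0 < Y := lt_of_lt_of_le h hY
    have h2 : 0 ≤ Y * (c0 + c1 * y - y ^ 2) := by
      have : Y * (c0 + c1 * y - y ^ 2) =
          (Y - y) * c0 + y * (c0 + c1 * Y - Y ^ 2) + y * (Y - y) * Y := by ring
      rw [this]
      have h3 : 0 ≤ Y - y := by linarith
      positivity
    exact nonneg_of_mul_nonneg_right h2 hYp

/-- `7/25 ≤ a ≤ 9/25`, `0 ≤ y ≤ 1-a²`, `e ≥ 0`, `C = 113/100`:
`(C-2a) y² + (4aC-4+2y) y e + 4C(1-y) e² ≥ 0`. If `4aC - 4 + 2y ≥ 0` clear. Otherwise the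
discriminant condition `(2aC - 2 + y)² ≤ 4C(1-y)(C-2a)` (all divided by 4): right minus left is
concave in `y`, so check `y = 0`: `(1-aC)² ≤ C(C-2a) ⟺ 1 ≤ C²(1-a²)`, and `y = 1-a²`:
`(2aC-1-a²)² ≤ 4a²C(C-2a) ⟺ (1+a²)² ≤ 4aC(1-a²)` (at `a = 0.28`: `1.1630 ≤ 1.1664`; the quotient
`(1+a²)²/(4a(1-a²))` decreases on the interval). -/
theorem poly_T3b1 {a y e : ℝ} (ha : 7 / 25 ≤ a) (ha1 : a ≤ 9 / 25) (hy : 0 ≤ y)
    (hy1 : y ≤ 1 - a ^ 2) (he : 0 ≤ e) :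
    0 ≤ (113 / 100 - 2 * a) * y ^ 2 + (4 * a * (113 / 100) - 4 + 2 * y) * y * e
      + 4 * (113 / 100) * (1 - y) * e ^ 2 := by
  have ha0 : 0 < a := by linarith
  have ha2 : a ^ 2 ≤ (9 / 25) ^ 2 := by gcongr
  have hy2 : 0 ≤ 1 - y := by nlinarith [sq_nonneg a]
  have hA : 0 < 113 / 100 - 2 * a := by linarith
  have key := kb1_quad (A := 113 / 100 - 2 * a) (B := 2 * a * (113 / 100) - 2 + y)
    (D := 4 * (113 / 100) * (1 - y)) (y := y) (e := e) hA (by positivity) hy he (by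
      intro _
      have h0 : 0 ≤ 4 * ((113 / 100 : ℝ) ^ 2 * (1 - a ^ 2) - 1) := by nlinarith
      have hprod : 0 ≤ (a - 7 / 25) * (9 / 25 - a) :=
        mul_nonneg (by linarith) (by linarith)
      have h1 : 0 ≤ 4 * a * (113 / 100) * (1 - a ^ 2) - (1 + a ^ 2) ^ 2 := by
        nlinarith [mul_nonneg hprod ha0.le, mul_nonneg hprod (mul_nonneg ha0.le ha0.le), hprod]
      have h2 := kb1_concave (c0 := 4 * ((113 / 100 : ℝ) ^ 2 * (1 - a ^ 2) - 1))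
        (c1 := -(4 * (113 / 100) * (113 / 100 - 2 * a)) - 2 * (2 * a * (113 / 100) - 2))
        (y := y) (Y := 1 - a ^ 2) hy hy1 h0 (by
          have : 4 * ((113 / 100 : ℝ) ^ 2 * (1 - a ^ 2) - 1) +
              (-(4 * (113 / 100) * (113 / 100 - 2 * a)) - 2 * (2 * a * (113 / 100) - 2))
                * (1 - a ^ 2) - (1 - a ^ 2) ^ 2 =
              4 * a * (113 / 100) * (1 - a ^ 2) - (1 + a ^ 2) ^ 2 := by ring
          rw [this]; exact h1)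
      nlinarith [h2])
  have e1 : (113 / 100 - 2 * a) * y ^ 2 + (4 * a * (113 / 100) - 4 + 2 * y) * y * e
      + 4 * (113 / 100) * (1 - y) * e ^ 2 =
      (113 / 100 - 2 * a) * y ^ 2 + 2 * (2 * a * (113 / 100) - 2 + y) * y * e
      + 4 * (113 / 100) * (1 - y) * e ^ 2 := by ring
  rw [e1]; exact key

/-- `9/25 ≤ a < 1`, `C = 1 + a²`, `C - 2a = (1-a)²`. If `4aC - 4 + 2y ≥ 0` clear. Otherwise
`(2aC-2+y)² ≤ 4C(1-y)(C-2a)`; concave in `y` on `[0, min(1-a², 2-2aC)]`. At `y = 0` it is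
`1 ≤ (1+a²)²(1-a²)`, i.e. `a² + a⁴ ≤ 1` (here `a(1+a²) < 1`, so `a < 0.69`). At `y = 1-a²` (if
`a ≤ 1/2`) it is `1 + a² ≤ 4a(1-a²)` (true on `[0.36, 1/2]`); at `y = 2-2aC` (if `a ≥ 1/2`) the left
side is `0`. -/
theorem poly_T3b2 {a y e : ℝ} (ha : 9 / 25 ≤ a) (ha1 : a < 1) (hy : 0 ≤ y)
    (hy1 : y ≤ 1 - a ^ 2) (he : 0 ≤ e) :
    0 ≤ (1 - a) ^ 2 * y ^ 2 + (4 * a * (1 + a ^ 2) - 4 + 2 * y) * y * e
      + 4 * (1 + a ^ 2) * (1 - y) * e ^ 2 := by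
  have ha0 : 0 < a := by linarith
  have hy2 : 0 ≤ 1 - y := by nlinarith [sq_nonneg a]
  have hA : 0 < (1 - a) ^ 2 := by
    have : 0 < 1 - a := by linarith
    positivity
  have key := kb1_quad (A := (1 - a) ^ 2) (B := 2 * a * (1 + a ^ 2) - 2 + y)
    (D := 4 * (1 + a ^ 2) * (1 - y)) (y := y) (e := e) hA (by positivity) hy he (by
      intro hB
      have hB1 : a * (1 + a ^ 2) < 1 := by linarith
      have h0 : 0 ≤ 4 * a ^ 2 * (1 - a ^ 2 - a ^ 4) := by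
        have : 0 ≤ 1 - a ^ 2 - a ^ 4 := by nlinarith
        positivity
      have conv : ∀ Y : ℝ, 4 * a ^ 2 * (1 - a ^ 2 - a ^ 4) +
          (-(4 * (1 + a ^ 2) * (1 - a) ^ 2) - 2 * (2 * a * (1 + a ^ 2) - 2)) * Y - Y ^ 2 =
          (1 - a) ^ 2 * (4 * (1 + a ^ 2) * (1 - Y)) - (2 * a * (1 + a ^ 2) - 2 + Y) ^ 2 := by
        intro Y; ring
      have h2 : 0 ≤ 4 * a ^ 2 * (1 - a ^ 2 - a ^ 4) +
          (-(4 * (1 + a ^ 2) * (1 - a) ^ 2) - 2 * (2 * a * (1 + a ^ 2) - 2)) * y - y ^ 2 := by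
        rcases le_or_gt a (1 / 2) with hh | hh
        · refine kb1_concave (Y := 1 - a ^ 2) hy hy1 h0 ?_
          rw [conv]
          have hprod : 0 ≤ (a - 9 / 25) * (1 / 2 - a) :=
            mul_nonneg (by linarith) (by linarith)
          have h1 : 0 ≤ 4 * a * (1 - a ^ 2) - (1 + a ^ 2) := by
            nlinarith [mul_nonneg hprod ha0.le, hprod]
          have h3 : (1 - a) ^ 2 * (4 * (1 + a ^ 2) * (1 - (1 - a ^ 2))) -
              (2 * a * (1 + a ^ 2) - 2 + (1 - a ^ 2)) ^ 2 =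
              (1 + a ^ 2) * (4 * a * (1 - a ^ 2) - (1 + a ^ 2)) := by ring
          rw [h3]
          positivity
        · refine kb1_concave (Y := 2 - 2 * a * (1 + a ^ 2)) hy (by linarith) h0 ?_
          rw [conv]
          have h3 : (1 - a) ^ 2 * (4 * (1 + a ^ 2) * (1 - (2 - 2 * a * (1 + a ^ 2)))) -
              (2 * a * (1 + a ^ 2) - 2 + (2 - 2 * a * (1 + a ^ 2))) ^ 2 =
              (1 - a) ^ 2 * (4 * (1 + a ^ 2) * (2 * a * (1 + a ^ 2) - 1)) := by ring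
          rw [h3]
          have h4 : 0 ≤ 2 * a * (1 + a ^ 2) - 1 := by nlinarith [sq_nonneg a]
          positivity
      rw [conv] at h2
      linarith)
  have e1 : (1 - a) ^ 2 * y ^ 2 + (4 * a * (1 + a ^ 2) - 4 + 2 * y) * y * e
      + 4 * (1 + a ^ 2) * (1 - y) * e ^ 2 =
      (1 - a) ^ 2 * y ^ 2 + 2 * (2 * a * (1 + a ^ 2) - 2 + y) * y * e
      + 4 * (1 + a ^ 2) * (1 - y) * e ^ 2 := by ring
  rw [e1]; exact key

end Pool.Agent.Howell
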