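import Pool.Agent.Howell.KBasic
import Pool.Agent.Howell.KPolyB1

set_option autoImplicit false

namespace Pool.Agent.Howell

open Complex Set MeasureTheory intervalIntegral

/-- The common computation of `ik_ge_T3b1` and `ik_ge_T3b2`. -/
theorem KPolyB_aux {c a v C : ℝ} (ha : -1 < a) (ha1 : a < 1) (hc : -1 ≤ c) (hca : c < a)
    (hv : 0 < v) (hav : v ^ 2 < 1 - a ^ 2)
    (hpoly : 0 ≤ (C - 2 * a) * (1 - a ^ 2 - v ^ 2) ^ 2
      + (4 * a * C - 4 + 2 * (1 - a ^ 2 - v ^ 2)) * (1 - a ^ 2 - v ^ 2) * (a - c)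
      + 4 * C * (1 - (1 - a ^ 2 - v ^ 2)) * (a - c) ^ 2) :
    -(C * v / (1 - a ^ 2 - v ^ 2)) ≤ ik c a v := by
  have hden := ik_den_pos (v := v) hc (hca.le.trans ha1.le) ha ha1 hca.ne
  have hy : 0 < 1 - a ^ 2 - v ^ 2 := by linarith
  unfold ik
  rw [← neg_div, div_le_div_iff₀ hy hden]
  have h := mul_nonneg hv.le hpoly
  nlinarith [h]

/-- Put `y = 1-a²-v²`, `e = a - c > 0`: `ik c a v = - v (2ay + 2e(2-y))/(y² + 4aey + 4e²(1-y))`
and the claim `y(2ay+2e(2-y)) ≤ C (y²+4aey+4e²(1-y))` is `poly_T3b1`. The denominator is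
`(y+2ae)² + 4e²v² > 0`. -/
theorem ik_ge_T3b1 {c a v : ℝ} (ha : 7 / 25 ≤ a) (ha1 : a ≤ 9 / 25) (hc : -1 ≤ c) (hca : c < a)
    (hv : 0 < v) (hav : v ^ 2 < 1 - a ^ 2) :
    -(113 / 100 * v / (1 - a ^ 2 - v ^ 2)) ≤ ik c a v := by
  refine KPolyB_aux (by linarith) (by linarith) hc hca hv hav ?_
  have h := poly_T3b1 (y := 1 - a ^ 2 - v ^ 2) (e := a - c) ha ha1 (by linarith)
    (by nlinarith [sq_nonneg v]) (by linarith)
  exact h

/-- The same with `poly_T3b2`. -/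
theorem ik_ge_T3b2 {c a v : ℝ} (ha : 9 / 25 ≤ a) (ha1 : a < 1) (hc : -1 ≤ c) (hca : c < a)
    (hv : 0 < v) (hav : v ^ 2 < 1 - a ^ 2) :
    -((1 + a ^ 2) * v / (1 - a ^ 2 - v ^ 2)) ≤ ik c a v := by
  refine KPolyB_aux (by linarith) (by linarith) hc hca hv hav ?_
  have h := poly_T3b2 (y := 1 - a ^ 2 - v ^ 2) (e := a - c) ha ha1 (by linarith)
    (by nlinarith [sq_nonneg v]) (by linarith)
  have h2 : (1 + a ^ 2) - 2 * a = (1 - a) ^ 2 := by ring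
  rw [h2]
  exact h

end Pool.Agent.Howell
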