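import Pool.Agent.Howell.KPsiNum
import Pool.Agent.Howell.KRho
import Pool.Agent.Howell.KInt
import Pool.Agent.Howell.KVert
import Pool.Agent.Howell.KPolyB

set_option autoImplicit false

namespace Pool.Agent.Howell

open Complex Set MeasureTheory intervalIntegral

/-- The reduction: `V ≥ J - (1 - log 2) C + (a/2)(1 + P) - S` for lower bounds `J`, `P` of the
integral and of `ψ` and an upper bound `S` of `SB`. -/
theorem V_T3_aux {c a x C J P S : ℝ} (ha : -1 < a) (ha0 : 0 ≤ a) (ha1 : a < 1) (hc : -1 < c)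
    (hca : c < a) (hx0 : 0 < x) (hx1 : x < 1) (hx2 : 3 / 4 < x ^ 2)
    (hC : ∀ v, 0 < v → v ^ 2 < 1 - a ^ 2 → -(C * v / (1 - a ^ 2 - v ^ 2)) ≤ ik c a v)
    (hJ : J ≤ ∫ t in a..1, pk c t) (hP : P ≤ psi c) (hS : SB c ≤ S)
    (h : 0 ≤ J - (1 - Real.log 2) * C + a / 2 * (1 + P) - S) : 0 ≤ Vk c a x := by
  have hc1 : c < 1 := hca.trans ha1
  have h1 := Wk_ge hc.le hc1 ha ha1 hca.ne hC
  have h2 := rho_pk_le hc.le hc1 hx0 hx1 hx2
  have h3 : a / 2 * (1 + P) ≤ a / 2 * (1 + psi c) :=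
    mul_le_mul_of_nonneg_left (by linarith) (by linarith)
  unfold Vk
  linarith

/-- `7/25 ≤ a < 1`, `-1 < c < a`. Let `C = 113/100` for `a ≤ 9/25` and `C = 1 + a²` for `a ≥ 9/25`.
`V ≥ ∫_a^1 pk c - (1 - log 2) C + (a/2)(1 + ψ(c)) - SB c` (`Wk_ge`, `ik_ge_T3b1/2`, `rho_pk_le`).
(i) `c ≤ 0`: `int_pos_i`, `ψ ≥ 2 log 2 - 1`, `SB ≤ 4/485`: with `h = 1-a`,
`h²/4 + h³/12 + h⁴/32 - (1 - log 2) C + a log 2 - 4/485 ≥ 0.008` (min `0.0082` at `a = 0.28`;
`≥ 0.024` for `a ≥ 0.36`). Use `Real.log_two_gt_d9`.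
(ii) `0 ≤ c ≤ 17/20`: `int_pos_ii`, `ψ ≥ 0.5707`, `SB ≤ 0.052`:
`(1-a)²/2 - (1 - log 2) C + 0.785 a - 0.052 ≥ 0.08`.
(iii) `c ≥ 17/20` (then `a > c`, `C = 1 + a² ≤ 2`): drop the integral; for `c ≤ 97/100`:
`(17/40)(1 + 1.15) - 0.6138 - 0.2062 ≥ 0.09`; for `c ≥ 97/100`:
`(97/200)(1 + 2.34) - 0.6138 - 0.8 ≥ 0.2`. -/
theorem V_T3 {c a x : ℝ} (ha : 7 / 25 ≤ a) (ha1 : a < 1) (hc : -1 < c) (hca : c < a)
    (hx0 : 0 < x) (hx1 : x < 1) (hx2 : 3 / 4 < x ^ 2) : 0 ≤ Vk c a x := by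
  have hc1 : c < 1 := hca.trans ha1
  have ha0 : (0 : ℝ) ≤ a := by linarith
  have ham : (-1 : ℝ) < a := by linarith
  have hl : (0.6931 : ℝ) < Real.log 2 := by
    have := Real.log_two_gt_d9
    linarith
  -- the two constants
  have hC1 : a ≤ 9 / 25 → ∀ v, 0 < v → v ^ 2 < 1 - a ^ 2 →
      -(113 / 100 * v / (1 - a ^ 2 - v ^ 2)) ≤ ik c a v :=
    fun h v hv hav => ik_ge_T3b1 ha h hc.le hca hv hav
  have hC2 : 9 / 25 ≤ a → ∀ v, 0 < v → v ^ 2 < 1 - a ^ 2 →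
      -((1 + a ^ 2) * v / (1 - a ^ 2 - v ^ 2)) ≤ ik c a v :=
    fun h v hv hav => ik_ge_T3b2 h ha1 hc.le hca hv hav
  rcases le_total c 0 with hc0 | hc0
  · -- (i)
    have hJ := int_pos_i hc.le hc1 ha0 ha1.le
    have hP : 2 * Real.log 2 - 1 ≤ psi c := by
      rw [← psi_neg_one]
      exact psi_mono le_rfl hc.le hc1
    have hS : SB c ≤ 4 / 485 := by
      refine (SB_mono hc0 (by norm_num)).trans (le_of_eq ?_)
      unfold SB
      norm_num
    rcases le_total a (9 / 25) with h | h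
    · refine V_T3_aux ham ha0 ha1 hc hca hx0 hx1 hx2 (hC1 h) hJ hP hS ?_
      nlinarith [sq_nonneg (a - 7 / 25), mul_nonneg (sub_nonneg.2 ha) (sub_nonneg.2 h),
        mul_nonneg (sub_nonneg.2 ha) (mul_nonneg (sub_nonneg.2 ha) (sub_nonneg.2 h)),
        mul_nonneg (sub_nonneg.2 ha) (sub_nonneg.2 hl.le)]
    · refine V_T3_aux ham ha0 ha1 hc hca hx0 hx1 hx2 (hC2 h) hJ hP hS ?_
      have hh : 0 < 1 - a := by linarith
      have hh1 : (1 - a) ≤ 16 / 25 := by linarith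
      obtain ⟨y, hy⟩ : ∃ y, y = 1 - a := ⟨_, rfl⟩
      have hay : a = 1 - y := by linarith
      subst hay
      rw [← hy] at hh hh1 ⊢
      nlinarith [mul_nonneg hh.le (sub_nonneg.2 hh1), pow_pos hh 3, pow_pos hh 4, pow_pos hh 2,
        mul_nonneg (sub_nonneg.2 hl.le) hh.le, mul_nonneg (sub_nonneg.2 hl.le) (sq_nonneg y),
        mul_nonneg (mul_nonneg hh.le (sub_nonneg.2 hh1)) hh.le]
  · rcases le_total c (17 / 20) with hc2 | hc2
    · -- (ii)
      have hJ := int_pos_ii hc0 hc1 ha0 ha1.le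
      have hP : 5707 / 10000 ≤ psi c := psi_zero_ge.trans (psi_mono (by norm_num) hc0 hc1)
      have hS : SB c ≤ 52 / 1000 := by
        refine (SB_mono hc2 (by norm_num)).trans ?_
        unfold SB
        norm_num
      rcases le_total a (9 / 25) with h | h
      · refine V_T3_aux ham ha0 ha1 hc hca hx0 hx1 hx2 (hC1 h) hJ hP hS ?_
        nlinarith
      · refine V_T3_aux ham ha0 ha1 hc hca hx0 hx1 hx2 (hC2 h) hJ hP hS ?_
        nlinarith [sq_nonneg (a - 5 / 9), mul_nonneg (sub_nonneg.2 hl.le) (sq_nonneg a)]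
    · -- (iii)
      have h : 9 / 25 ≤ a := by linarith
      have hJ : (0 : ℝ) ≤ ∫ t in a..1, pk c t :=
        le_trans (by positivity) (int_pos_ii hc0 hc1 ha0 ha1.le)
      have ha2 : a ^ 2 ≤ 1 := by nlinarith
      have hla : (1 - Real.log 2) * (1 + a ^ 2) ≤ 0.3069 * 2 := by
        have h1 : Real.log 2 < 1 := by
          have := Real.log_two_lt_d9
          linarith
        exact mul_le_mul (by linarith) (by linarith) (by positivity) (by norm_num)
      rcases le_total c (97 / 100) with hc3 | hc3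
      · have hP : 115 / 100 ≤ psi c := psi_08.trans (psi_mono (by norm_num) (by linarith) hc1)
        have hS : SB c ≤ 2062 / 10000 := by
          refine (SB_mono hc3 (by norm_num)).trans ?_
          unfold SB
          norm_num
        refine V_T3_aux ham ha0 ha1 hc hca hx0 hx1 hx2 (hC2 h) hJ hP hS ?_
        linarith
      · have hP : 234 / 100 ≤ psi c := psi_097.trans (psi_mono (by norm_num) hc3 hc1)
        have hS : SB c ≤ 8 / 10 := by
          refine (SB_mono hc1.le le_rfl).trans ?_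
          unfold SB
          norm_num
        refine V_T3_aux ham ha0 ha1 hc hca hx0 hx1 hx2 (hC2 h) hJ hP hS ?_
        linarith

end Pool.Agent.Howell
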