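import Pool.Agent.Howell.KPsiNum
import Pool.Agent.Howell.KRho
import Pool.Agent.Howell.KInt
import Pool.Agent.Howell.KVert
import Pool.Agent.Howell.KPolyA

set_option autoImplicit false

namespace Pool.Agent.Howell

open Complex Set MeasureTheory intervalIntegral

/-- `0 ≤ a ≤ 1/2`, `a < c < 1`:
`V ≥ ∫_a^1 pk c - 2a(1 - log 2) + (a/2)(1 + ψ(c)) - SB c` (`Wk_ge` with `C = 2a`, `ik_ge_T4a`).
(i) `c ≤ 9/10`: `int_pos_ii`, `ψ(c) ≥ 0.5707`, `SB ≤ 0.0755`:
`(1-a)²/2 + 0.785 a - 0.6138 a - 0.0755 ≥ 0.13`.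
(ii) `c ≥ 9/10`: `int_pos_iv`; `(a/2)(1+ψ) ≥ 0.6138 a` since `ψ ≥ 0.5707`; so
`V ≥ ψ(c) - (2 log 2 - 1/2) - SB c`: for `c ≤ 99/100`: `1.52 - 0.8863 - 0.4082 > 0`; for
`c ≥ 99/100`: `3.2 - 0.8863 - 0.8 > 0`. -/
theorem V_T4a {c a x : ℝ} (ha : 0 ≤ a) (ha1 : a ≤ 1 / 2) (hac : a < c) (hc1 : c < 1)
    (hx0 : 0 < x) (hx1 : x < 1) (hx2 : 3 / 4 < x ^ 2) : 0 ≤ Vk c a x := by
  have hc0 : 0 ≤ c := by linarith
  have hcm : -1 ≤ c := by linarith
  have hW := Wk_ge (C := 2 * a) hcm hc1 (by linarith) (by linarith) hac.ne'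
    (fun v hv hv2 => ik_ge_T4a ha ha1 hac hc1 hv hv2)
  have hR := rho_pk_le hcm hc1 hx0 hx1 hx2
  have hp0 : 5707 / 10000 ≤ psi c :=
    psi_zero_ge.trans (psi_mono (by norm_num) hc0 hc1)
  have hl1 := Real.log_two_gt_d9
  have hl2 := Real.log_two_lt_d9
  have hla : (1 - Real.log 2) * (2 * a) ≤ 6138 / 10000 * a := by nlinarith
  have hpa : 15707 / 20000 * a ≤ a / 2 * (1 + psi c) := by nlinarith
  unfold Vk
  rcases le_total c (9 / 10) with h9 | h9
  · have hI := int_pos_ii hc0 hc1 ha (by linarith : a ≤ 1)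
    have hS : SB c ≤ 755 / 10000 := by
      refine (SB_mono h9 (by norm_num)).trans ?_
      unfold SB
      norm_num
    nlinarith [sq_nonneg (a - 83 / 100)]
  · have hI := int_pos_iv hcm hc1 ha ha1
    rcases le_total c (99 / 100) with h99 | h99
    · have hp : 152 / 100 ≤ psi c := psi_09.trans (psi_mono (by norm_num) h9 hc1)
      have hS : SB c ≤ 41 / 100 := by
        refine (SB_mono h99 (by norm_num)).trans ?_
        unfold SB
        norm_num
      linarith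
    · have hp : 32 / 10 ≤ psi c := psi_099.trans (psi_mono (by norm_num) h99 hc1)
      have hS : SB c ≤ 8 / 10 := by
        refine (SB_mono hc1.le le_rfl).trans ?_
        unfold SB
        norm_num
      linarith

end Pool.Agent.Howell
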