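import Pool.Agent.Howell.KPsiNum
import Pool.Agent.Howell.KRho
import Pool.Agent.Howell.KInt
import Pool.Agent.Howell.KVert
import Pool.Agent.Howell.KPolyA

set_option autoImplicit false

namespace Pool.Agent.Howell

open Complex Set MeasureTheory intervalIntegral

private theorem v4b_core {c a x p s : ℝ} (ha : 1 / 2 ≤ a) (ha1 : a ≤ 41 / 50) (hac : a < c)
    (hc1 : c < 1) (hx0 : 0 < x) (hx1 : x < 1) (hx2 : 3 / 4 < x ^ 2)
    (hp : p ≤ psi c) (hs : SB c ≤ s)
    (hq : 0 ≤ (2 - 3 * a + a ^ 3) / 3 - 30686 / 100000 + (1 - a) * (a * (1 + p) - 2 * s)) :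
    0 ≤ Vk c a x := by
  have ha0 : 0 < a := by linarith
  have hd : 0 < 1 - a := by linarith
  have hc : -1 ≤ c := by linarith
  have h1 := Wk_ge (c := c) (a := a) (C := 1 / (2 * (1 - a))) hc hc1 (by linarith)
    (by linarith) (ne_of_gt hac) (fun v hv hav => ik_ge_T4b ha hac hc1 hv hav)
  have h2 := int_pos_iii (c := c) (a := a) ha0.le hac.le hc1
  have h3 := rho_pk_le (c := c) (x := x) hc hc1 hx0 hx1 hx2
  have h4 : a / 2 * (1 + p) ≤ a / 2 * (1 + psi c) := by
    apply mul_le_mul_of_nonneg_left (by linarith) (by linarith)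
  have hlog : 1 - Real.log 2 ≤ 30686 / 100000 := by
    have := Real.log_two_gt_d9
    linarith
  have h5 : (1 - Real.log 2) * (1 / (2 * (1 - a))) ≤ 30686 / 100000 * (1 / (2 * (1 - a))) := by
    apply mul_le_mul_of_nonneg_right hlog (by positivity)
  have h6 : 0 ≤ (1 - a) * (2 + a) / 6 - 30686 / 100000 * (1 / (2 * (1 - a)))
      + a / 2 * (1 + p) - s := by
    have e : (1 - a) * (2 + a) / 6 - 30686 / 100000 * (1 / (2 * (1 - a)))
      + a / 2 * (1 + p) - s =
      ((2 - 3 * a + a ^ 3) / 3 - 30686 / 100000 + (1 - a) * (a * (1 + p) - 2 * s))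
        / (2 * (1 - a)) := by
      field_simp
      ring
    rw [e]
    positivity
  unfold Vk
  linarith

/-- `1/2 ≤ a ≤ 41/50`, `a < c < 1`:
`V ≥ (1-a)(2+a)/6 - (1 - log 2)/(2(1-a)) + (a/2)(1 + ψ(c)) - SB c`
(`Wk_ge` with `C = 1/(2(1-a))`, `ik_ge_T4b`, `int_pos_iii`, `rho_pk_le`). Put
`D(a, p, s) = (1-a)(2+a)/6 - 0.30686/(2(1-a)) + (a/2)(1+p) - s`. Cases:
`c ≤ 9/10` (`s = 0.0755`): `a ≤ 7/10`: `p = ψ(1/2) ≥ 0.79` (min `0.1747`); `7/10 ≤ a ≤ 4/5`:
`p = 0.97` (min `0.0388`); `a ≥ 4/5`: `p = 1.15` (min `0.0383`).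
`9/10 ≤ c ≤ 97/100`: `p = 1.52`, `s = 0.2062` (min `0.0598`).
`97/100 ≤ c ≤ 99/100`: `p = 2.34`, `s = 0.4082` (min `0.194`).
`c ≥ 99/100`: `p = 3.2`, `s = 0.8` (min `0.1516`).
(Each is a cubic polynomial inequality in `a` after multiplication by `2(1-a)`;
`D` is concave in `a`, so the endpoints decide.) -/
theorem V_T4b {c a x : ℝ} (ha : 1 / 2 ≤ a) (ha1 : a ≤ 41 / 50) (hac : a < c) (hc1 : c < 1)
    (hx0 : 0 < x) (hx1 : x < 1) (hx2 : 3 / 4 < x ^ 2) : 0 ≤ Vk c a x := by
  have ha0 : 0 < a := by linarith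
  have hbig : 0 ≤ (a - 1 / 2) * (41 / 50 - a) := mul_nonneg (by linarith) (by linarith)
  rcases le_or_gt c (9 / 10) with hc9 | hc9
  · have hs : SB c ≤ 755 / 10000 := by
      refine (SB_mono hc9 (by norm_num)).trans ?_
      unfold SB; norm_num
    rcases le_or_gt a (7 / 10) with ha7 | ha7
    · have hpr : 0 ≤ (a - 1 / 2) * (7 / 10 - a) := mul_nonneg (by linarith) (by linarith)
      have hp : 79 / 100 ≤ psi c :=
        psi_05.trans (psi_mono (by norm_num) (by linarith) hc1)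
      refine v4b_core ha ha1 hac hc1 hx0 hx1 hx2 hp hs ?_
      nlinarith [hpr, mul_nonneg hpr ha0.le]
    · rcases le_or_gt a (4 / 5) with ha8 | ha8
      · have hpr : 0 ≤ (a - 7 / 10) * (4 / 5 - a) := mul_nonneg (by linarith) (by linarith)
        have hp : 97 / 100 ≤ psi c :=
          psi_07.trans (psi_mono (by norm_num) (by linarith) hc1)
        refine v4b_core ha ha1 hac hc1 hx0 hx1 hx2 hp hs ?_
        nlinarith [hpr, mul_nonneg hpr ha0.le]
      · have hpr : 0 ≤ (a - 4 / 5) * (41 / 50 - a) := mul_nonneg (by linarith) (by linarith)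
        have hp : 115 / 100 ≤ psi c :=
          psi_08.trans (psi_mono (by norm_num) (by linarith) hc1)
        refine v4b_core ha ha1 hac hc1 hx0 hx1 hx2 hp hs ?_
        nlinarith [hpr, mul_nonneg hpr ha0.le]
  · rcases le_or_gt c (97 / 100) with hc97 | hc97
    · have hs : SB c ≤ 2062 / 10000 := by
        refine (SB_mono hc97 (by norm_num)).trans ?_
        unfold SB; norm_num
      have hp : 152 / 100 ≤ psi c :=
        psi_09.trans (psi_mono (by norm_num) (by linarith) hc1)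
      refine v4b_core ha ha1 hac hc1 hx0 hx1 hx2 hp hs ?_
      nlinarith [hbig, mul_nonneg hbig ha0.le]
    · rcases le_or_gt c (99 / 100) with hc99 | hc99
      · have hs : SB c ≤ 4082 / 10000 := by
          refine (SB_mono hc99 (by norm_num)).trans ?_
          unfold SB; norm_num
        have hp : 234 / 100 ≤ psi c :=
          psi_097.trans (psi_mono (by norm_num) (by linarith) hc1)
        refine v4b_core ha ha1 hac hc1 hx0 hx1 hx2 hp hs ?_
        nlinarith [hbig, mul_nonneg hbig ha0.le]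
      · have hs : SB c ≤ 8 / 10 := by
          refine (SB_mono hc1.le le_rfl).trans ?_
          unfold SB; norm_num
        have hp : 32 / 10 ≤ psi c :=
          psi_099.trans (psi_mono (by norm_num) (by linarith) hc1)
        refine v4b_core ha ha1 hac hc1 hx0 hx1 hx2 hp hs ?_
        nlinarith [hbig, mul_nonneg hbig ha0.le]

end Pool.Agent.Howell
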