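import Pool.Agent.Howell.Defs

set_option autoImplicit false

namespace Pool.Agent.Howell

theorem T4c_cos_le {x : ℝ} (hx : 0 ≤ x) : Real.cos x ≤ 1 - x ^ 2 / 2 + x ^ 4 / 24 := by
  let f (t : ℝ) : ℝ := 1 - t ^ 2 / 2 + t ^ 4 / 24 - Real.cos t
  have hderiv (t : ℝ) : deriv f t = Real.sin t - (t - t ^ 3 / 6) := by
    simp (disch := fun_prop) [f]
    ring
  have hmono : MonotoneOn f (Set.Ici 0) := by
    apply monotoneOn_of_deriv_nonneg (convex_Ici 0) (by fun_prop) (by fun_prop)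
    intro t ht
    rw [interior_Ici] at ht
    have ht0 : (0 : ℝ) < t := ht
    rw [hderiv]
    have := Real.sin_ge_sub_cube ht0.le
    linarith
  have h0 : f 0 ≤ f x := hmono (by simp) hx hx
  simp only [f, Real.cos_zero] at h0
  linarith

theorem T4c_poly_a {θ : ℝ} (h0 : 0 ≤ θ) (h1 : θ ≤ (1 / 10)) :
    (4 / 5) ≤ (-(118 / 100) + θ ^ 2 / 4 - θ ^ 4 / 48
      + (59 / 100 * θ + 1288 / 1000) * (θ - θ ^ 3 / 6)
      + 82 / 100 * (1 - θ ^ 2 / 2) * ((39957 / 10000) + -20 * θ)) * (1 + 48 * θ ^ 2 - 4 * θ ^ 4) := by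
  obtain ⟨u, hu⟩ : ∃ u : ℝ, u = θ - 0 := ⟨_, rfl⟩
  obtain ⟨v, hv⟩ : ∃ v : ℝ, v = (1 / 10) - θ := ⟨_, rfl⟩
  have hu0 : 0 ≤ u := by rw [hu]; linarith
  have hv0 : 0 ≤ v := by rw [hv]; linarith
  have key : (-(118 / 100) + θ ^ 2 / 4 - θ ^ 4 / 48
      + (59 / 100 * θ + 1288 / 1000) * (θ - θ ^ 3 / 6)
      + 82 / 100 * (1 - θ ^ 2 / 2) * ((39957 / 10000) + -20 * θ)) * (1 + 48 * θ ^ 2 - 4 * θ ^ 4)
      - 4 / 5 =
      129647400 * (u ^ 0 * v ^ 8) +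
      886059200 * (u ^ 1 * v ^ 7) +
      2672119715 * (u ^ 2 * v ^ 6) +
      (13841971270 / 3) * (u ^ 3 * v ^ 5) +
      (123111054682 / 25) * (u ^ 4 * v ^ 4) +
      (243666371984 / 75) * (u ^ 5 * v ^ 3) +
      (9264195084811 / 7500) * (u ^ 6 * v ^ 2) +
      (821612048611 / 3750) * (u ^ 7 * v ^ 1) +
      (8244770381 / 1250) * (u ^ 8 * v ^ 0) := by
    rw [hu, hv]; ring
  have : 0 ≤ 129647400 * (u ^ 0 * v ^ 8) +
      886059200 * (u ^ 1 * v ^ 7) +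
      2672119715 * (u ^ 2 * v ^ 6) +
      (13841971270 / 3) * (u ^ 3 * v ^ 5) +
      (123111054682 / 25) * (u ^ 4 * v ^ 4) +
      (243666371984 / 75) * (u ^ 5 * v ^ 3) +
      (9264195084811 / 7500) * (u ^ 6 * v ^ 2) +
      (821612048611 / 3750) * (u ^ 7 * v ^ 1) +
      (8244770381 / 1250) * (u ^ 8 * v ^ 0) := by positivity
  linarith

theorem T4c_poly_b {θ : ℝ} (h0 : (1 / 10) ≤ θ) (h1 : θ ≤ (1 / 5)) :
    (4 / 5) ≤ (-(118 / 100) + θ ^ 2 / 4 - θ ^ 4 / 48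
      + (59 / 100 * θ + 1288 / 1000) * (θ - θ ^ 3 / 6)
      + 82 / 100 * (1 - θ ^ 2 / 2) * ((28971 / 10000) + (-20 / 3) * θ)) * (1 + 48 * θ ^ 2 - 4 * θ ^ 4) := by
  obtain ⟨u, hu⟩ : ∃ u : ℝ, u = θ - (1 / 10) := ⟨_, rfl⟩
  obtain ⟨v, hv⟩ : ∃ v : ℝ, v = (1 / 5) - θ := ⟨_, rfl⟩
  have hu0 : 0 ≤ u := by rw [hu]; linarith
  have hv0 : 0 ≤ v := by rw [hv]; linarith
  have key : (-(118 / 100) + θ ^ 2 / 4 - θ ^ 4 / 48
      + (59 / 100 * θ + 1288 / 1000) * (θ - θ ^ 3 / 6)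
      + 82 / 100 * (1 - θ ^ 2 / 2) * ((28971 / 10000) + (-20 / 3) * θ)) * (1 + 48 * θ ^ 2 - 4 * θ ^ 4)
      - 4 / 5 =
      (21833097934 / 625) * (u ^ 0 * v ^ 8) +
      (1095617880931 / 3750) * (u ^ 1 * v ^ 7) +
      (532363575767 / 500) * (u ^ 2 * v ^ 6) +
      (4105955069909 / 1875) * (u ^ 3 * v ^ 5) +
      (1034710600663 / 375) * (u ^ 4 * v ^ 4) +
      (4056826266614 / 1875) * (u ^ 5 * v ^ 3) +
      (1913265756551 / 1875) * (u ^ 6 * v ^ 2) +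
      (97600283428 / 375) * (u ^ 7 * v ^ 1) +
      (16636744076 / 625) * (u ^ 8 * v ^ 0) := by
    rw [hu, hv]; ring
  have : 0 ≤ (21833097934 / 625) * (u ^ 0 * v ^ 8) +
      (1095617880931 / 3750) * (u ^ 1 * v ^ 7) +
      (532363575767 / 500) * (u ^ 2 * v ^ 6) +
      (4105955069909 / 1875) * (u ^ 3 * v ^ 5) +
      (1034710600663 / 375) * (u ^ 4 * v ^ 4) +
      (4056826266614 / 1875) * (u ^ 5 * v ^ 3) +
      (1913265756551 / 1875) * (u ^ 6 * v ^ 2) +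
      (97600283428 / 375) * (u ^ 7 * v ^ 1) +
      (16636744076 / 625) * (u ^ 8 * v ^ 0) := by positivity
  linarith

theorem T4c_poly_c {θ : ℝ} (h0 : (1 / 5) ≤ θ) (h1 : θ ≤ (3 / 10)) :
    (4 / 5) ≤ (-(118 / 100) + θ ^ 2 / 4 - θ ^ 4 / 48
      + (59 / 100 * θ + 1288 / 1000) * (θ - θ ^ 3 / 6)
      + 82 / 100 * (1 - θ ^ 2 / 2) * ((11931 / 5000) + -4 * θ)) * (1 + 48 * θ ^ 2 - 4 * θ ^ 4) := by
  obtain ⟨u, hu⟩ : ∃ u : ℝ, u = θ - (1 / 5) := ⟨_, rfl⟩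
  obtain ⟨v, hv⟩ : ∃ v : ℝ, v = (3 / 10) - θ := ⟨_, rfl⟩
  have hu0 : 0 ≤ u := by rw [hu]; linarith
  have hv0 : 0 ≤ v := by rw [hv]; linarith
  have key : (-(118 / 100) + θ ^ 2 / 4 - θ ^ 4 / 48
      + (59 / 100 * θ + 1288 / 1000) * (θ - θ ^ 3 / 6)
      + 82 / 100 * (1 - θ ^ 2 / 2) * ((11931 / 5000) + -4 * θ)) * (1 + 48 * θ ^ 2 - 4 * θ ^ 4)
      - 4 / 5 =
      (19919538472 / 625) * (u ^ 0 * v ^ 8) +
      (170887810792 / 625) * (u ^ 1 * v ^ 7) +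
      (1885795486694 / 1875) * (u ^ 2 * v ^ 6) +
      (1293899381468 / 625) * (u ^ 3 * v ^ 5) +
      (976567125313 / 375) * (u ^ 4 * v ^ 4) +
      (3833656142114 / 1875) * (u ^ 5 * v ^ 3) +
      (1217794862391 / 1250) * (u ^ 6 * v ^ 2) +
      (159821889777 / 625) * (u ^ 7 * v ^ 1) +
      (69868489143 / 2500) * (u ^ 8 * v ^ 0) := by
    rw [hu, hv]; ring
  have : 0 ≤ (19919538472 / 625) * (u ^ 0 * v ^ 8) +
      (170887810792 / 625) * (u ^ 1 * v ^ 7) +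
      (1885795486694 / 1875) * (u ^ 2 * v ^ 6) +
      (1293899381468 / 625) * (u ^ 3 * v ^ 5) +
      (976567125313 / 375) * (u ^ 4 * v ^ 4) +
      (3833656142114 / 1875) * (u ^ 5 * v ^ 3) +
      (1217794862391 / 1250) * (u ^ 6 * v ^ 2) +
      (159821889777 / 625) * (u ^ 7 * v ^ 1) +
      (69868489143 / 2500) * (u ^ 8 * v ^ 0) := by positivity
  linarith

theorem T4c_poly_d {θ : ℝ} (h0 : (3 / 10) ≤ θ) (h1 : θ ≤ (21 / 50)) :
    (4 / 5) ≤ (-(118 / 100) + θ ^ 2 / 4 - θ ^ 4 / 48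
      + (59 / 100 * θ + 1288 / 1000) * (θ - θ ^ 3 / 6)
      + 82 / 100 * (1 - θ ^ 2 / 2) * ((2527 / 1250) + (-25 / 9) * θ)) * (1 + 48 * θ ^ 2 - 4 * θ ^ 4) := by
  obtain ⟨u, hu⟩ : ∃ u : ℝ, u = θ - (3 / 10) := ⟨_, rfl⟩
  obtain ⟨v, hv⟩ : ∃ v : ℝ, v = (21 / 50) - θ := ⟨_, rfl⟩
  have hu0 : 0 ≤ u := by rw [hu]; linarith
  have hv0 : 0 ≤ v := by rw [hv]; linarith
  have key : (-(118 / 100) + θ ^ 2 / 4 - θ ^ 4 / 48
      + (59 / 100 * θ + 1288 / 1000) * (θ - θ ^ 3 / 6)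
      + 82 / 100 * (1 - θ ^ 2 / 2) * ((2527 / 1250) + (-25 / 9) * θ)) * (1 + 48 * θ ^ 2 - 4 * θ ^ 4)
      - 4 / 5 =
      (135014739216875 / 20155392) * (u ^ 0 * v ^ 8) +
      (16478603603375 / 279936) * (u ^ 1 * v ^ 7) +
      (1118333567226625 / 5038848) * (u ^ 2 * v ^ 6) +
      (1184737992169325 / 2519424) * (u ^ 3 * v ^ 5) +
      (2061730874711555 / 3359232) * (u ^ 4 * v ^ 4) +
      (6377688011751053 / 12597120) * (u ^ 5 * v ^ 3) +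
      (32530218770830817 / 125971200) * (u ^ 6 * v ^ 2) +
      (1566349727969609 / 20995200) * (u ^ 7 * v ^ 1) +
      (4719767608296931 / 503884800) * (u ^ 8 * v ^ 0) := by
    rw [hu, hv]; ring
  have : 0 ≤ (135014739216875 / 20155392) * (u ^ 0 * v ^ 8) +
      (16478603603375 / 279936) * (u ^ 1 * v ^ 7) +
      (1118333567226625 / 5038848) * (u ^ 2 * v ^ 6) +
      (1184737992169325 / 2519424) * (u ^ 3 * v ^ 5) +
      (2061730874711555 / 3359232) * (u ^ 4 * v ^ 4) +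
      (6377688011751053 / 12597120) * (u ^ 5 * v ^ 3) +
      (32530218770830817 / 125971200) * (u ^ 6 * v ^ 2) +
      (1566349727969609 / 20995200) * (u ^ 7 * v ^ 1) +
      (4719767608296931 / 503884800) * (u ^ 8 * v ^ 0) := by positivity
  linarith

theorem T4c_poly_e {θ : ℝ} (h0 : (21 / 50) ≤ θ) (h1 : θ ≤ (61 / 100)) :
    (4 / 5) ≤ (-(118 / 100) + θ ^ 2 / 4 - θ ^ 4 / 48
      + (59 / 100 * θ + 1288 / 1000) * (θ - θ ^ 3 / 6)
      + 82 / 100 * (1 - θ ^ 2 / 2) * ((16931 / 10000) + -2 * θ)) * (1 + 48 * θ ^ 2 - 4 * θ ^ 4) := by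
  obtain ⟨u, hu⟩ : ∃ u : ℝ, u = θ - (21 / 50) := ⟨_, rfl⟩
  obtain ⟨v, hv⟩ : ∃ v : ℝ, v = (61 / 100) - θ := ⟨_, rfl⟩
  have hu0 : 0 ≤ u := by rw [hu]; linarith
  have hv0 : 0 ≤ v := by rw [hv]; linarith
  have key : (-(118 / 100) + θ ^ 2 / 4 - θ ^ 4 / 48
      + (59 / 100 * θ + 1288 / 1000) * (θ - θ ^ 3 / 6)
      + 82 / 100 * (1 - θ ^ 2 / 2) * ((16931 / 10000) + -2 * θ)) * (1 + 48 * θ ^ 2 - 4 * θ ^ 4)
      - 4 / 5 =
      (97486763030540288 / 424589076025) * (u ^ 0 * v ^ 8) +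
      (1041294207889838016 / 424589076025) * (u ^ 1 * v ^ 7) +
      (4695321424202264976 / 424589076025) * (u ^ 2 * v ^ 6) +
      (7095422360230587008 / 254753445615) * (u ^ 3 * v ^ 5) +
      (733423765215280364 / 16983563041) * (u ^ 4 * v ^ 4) +
      (54018590460375308852 / 1273767228075) * (u ^ 5 * v ^ 3) +
      (32908987442463292849 / 1273767228075) * (u ^ 6 * v ^ 2) +
      (11392058149783779914 / 1273767228075) * (u ^ 7 * v ^ 1) +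
      (457986465822981501 / 339671260820) * (u ^ 8 * v ^ 0) := by
    rw [hu, hv]; ring
  have : 0 ≤ (97486763030540288 / 424589076025) * (u ^ 0 * v ^ 8) +
      (1041294207889838016 / 424589076025) * (u ^ 1 * v ^ 7) +
      (4695321424202264976 / 424589076025) * (u ^ 2 * v ^ 6) +
      (7095422360230587008 / 254753445615) * (u ^ 3 * v ^ 5) +
      (733423765215280364 / 16983563041) * (u ^ 4 * v ^ 4) +
      (54018590460375308852 / 1273767228075) * (u ^ 5 * v ^ 3) +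
      (32908987442463292849 / 1273767228075) * (u ^ 6 * v ^ 2) +
      (11392058149783779914 / 1273767228075) * (u ^ 7 * v ^ 1) +
      (457986465822981501 / 339671260820) * (u ^ 8 * v ^ 0) := by positivity
  linarith

/-- the polynomial part -/
theorem T4c_poly {θ L : ℝ} (h0 : 0 < θ) (h1 : θ ≤ 61 / 100)
    (ha : 29957 / 10000 + 1 - 20 * θ ≤ L)
    (hb : 18971 / 10000 + 1 - θ * (20 / 3) ≤ L)
    (hc : 13862 / 10000 + 1 - 4 * θ ≤ L)
    (hd : 10216 / 10000 + 1 - θ * (25 / 9) ≤ L)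
    (he : 6931 / 10000 + 1 - 2 * θ ≤ L) :
    (4 / 5) ≤ (-(118 / 100) + θ ^ 2 / 4 - θ ^ 4 / 48
      + (59 / 100 * θ + 1288 / 1000) * (θ - θ ^ 3 / 6)
      + 82 / 100 * (1 - θ ^ 2 / 2) * L) * (1 + 48 * θ ^ 2 - 4 * θ ^ 4) := by
  have h2 : θ ^ 2 ≤ (61 / 100) ^ 2 := pow_le_pow_left₀ h0.le h1 2
  have h4 : θ ^ 4 ≤ (61 / 100) ^ 4 := pow_le_pow_left₀ h0.le h1 4
  have hD : 0 ≤ 1 + 48 * θ ^ 2 - 4 * θ ^ 4 := by
    have := sq_nonneg θ
    norm_num at h4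
    linarith
  have hc2 : 0 ≤ 82 / 100 * (1 - θ ^ 2 / 2) := by norm_num at h2; linarith
  have mono : ∀ l : ℝ, l ≤ L → (-(118 / 100) + θ ^ 2 / 4 - θ ^ 4 / 48
      + (59 / 100 * θ + 1288 / 1000) * (θ - θ ^ 3 / 6)
      + 82 / 100 * (1 - θ ^ 2 / 2) * l) * (1 + 48 * θ ^ 2 - 4 * θ ^ 4) ≤
      (-(118 / 100) + θ ^ 2 / 4 - θ ^ 4 / 48
      + (59 / 100 * θ + 1288 / 1000) * (θ - θ ^ 3 / 6)
      + 82 / 100 * (1 - θ ^ 2 / 2) * L) * (1 + 48 * θ ^ 2 - 4 * θ ^ 4) := by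
    intro l hl
    apply mul_le_mul_of_nonneg_right _ hD
    have := mul_le_mul_of_nonneg_left hl hc2
    linarith
  rcases le_or_gt θ (1 / 10) with g1 | g1
  · exact (T4c_poly_a (by linarith) g1).trans (mono _ (by linarith))
  rcases le_or_gt θ (1 / 5) with g2 | g2
  · exact (T4c_poly_b (by linarith) g2).trans (mono _ (by linarith))
  rcases le_or_gt θ (3 / 10) with g3 | g3
  · exact (T4c_poly_c (by linarith) g3).trans (mono _ (by linarith))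
  rcases le_or_gt θ (21 / 50) with g4 | g4
  · exact (T4c_poly_d (by linarith) g4).trans (mono _ (by linarith))
  · exact (T4c_poly_e (by linarith) h1).trans (mono _ (by linarith))

/-- One-variable inequality, `θ ∈ (0, 61/100]`, margin `0.05`. Bounds:
`-9/50 - c + c log((1+c)/2) ≥ -9/50 - c - (1-c)/2 ≥ -1.18 + θ²/4 - θ⁴/48`
(`log x ≥ 1 - 1/x`, `c/(1+c) ≤ 1/2`, `c ≤ 1 - θ²/2 + θ⁴/24`);
`sin θ · θ + 0.41 sin θ (π - θ) ≥ (0.59 θ + 1.288)(θ - θ³/6)`;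
`-0.41 c log(2-2c) ≥ 0.82 (1 - θ²/2)(-log θ)` (`2 - 2c = 4 sin²(θ/2) ≤ θ²`, `log θ < 0`);
`SB c ≤ 0.8/(1 + 48θ² - 4θ⁴)` (`1 - c ≥ θ²/2 - θ⁴/24`).
Then use tangents `-log θ ≥ -log θ₀ + 1 - θ/θ₀` with
`θ₀ = 0.05` on `(0, 0.1]` (`log 20 ≥ 2.9957`, margin `0.044`),
`θ₀ = 0.15` on `[0.1, 0.2]` (`log(20/3) ≥ 1.8971`, margin `0.09`),
`θ₀ = 0.25` on `[0.2, 0.3]` (`log 4 ≥ 1.3862`, margin `0.05`),
`θ₀ = 0.36` on `[0.3, 0.42]` (`log(25/9) ≥ 1.0216`, margin `0.043`),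
`θ₀ = 0.5` on `[0.42, 0.61]` (`log 2 ≥ 0.6931`, margin `0.0418`);
each is a polynomial inequality in `θ` after multiplication by `1 + 48θ² - 4θ⁴`. -/
theorem T4c_num {θ : ℝ} (h0 : 0 < θ) (h1 : θ ≤ 61 / 100) :
    0 ≤ -(9 / 50) - Real.cos θ + Real.cos θ * Real.log ((1 + Real.cos θ) / 2)
      + Real.sin θ * θ
      + 41 / 100 * (Real.sin θ * (Real.pi - θ) - Real.cos θ * Real.log (2 - 2 * Real.cos θ))
      - SB (Real.cos θ) := by
  have hs := Real.sin_ge_sub_cube h0.le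
  have hcl := Real.one_sub_sq_div_two_le_cos (x := θ)
  have hcu := T4c_cos_le h0.le
  have hpi : 3.1415 < Real.pi := Real.pi_gt_d4
  have h2 : θ ^ 2 ≤ (61 / 100) ^ 2 := pow_le_pow_left₀ h0.le h1 2
  have h4 : θ ^ 4 ≤ (61 / 100) ^ 4 := pow_le_pow_left₀ h0.le h1 4
  have h4' : θ ^ 4 ≤ (61 / 100) ^ 2 * θ ^ 2 := by nlinarith [sq_nonneg θ]
  norm_num at h2 h4 h4'
  have h2p : 0 < θ ^ 2 := by positivity
  have h4p : 0 < θ ^ 4 := by positivity
  -- the logarithm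
  have hlog : ∀ r : ℝ, 0 < r → 1 - θ * r + Real.log r ≤ -Real.log θ := by
    intro r hr
    have h := Real.log_le_sub_one_of_pos (mul_pos h0 hr)
    rw [Real.log_mul h0.ne' hr.ne'] at h
    linarith
  have l2 := Real.log_two_gt_d9
  have l3 := Real.log_three_lt_d9
  have l5 := Real.log_five_gt_d9
  have e4 : Real.log 4 = 2 * Real.log 2 := Real.log_four_eq
  have e20 : Real.log 20 = 2 * Real.log 2 + Real.log 5 := by
    rw [show (20 : ℝ) = 4 * 5 by norm_num, Real.log_mul (by norm_num) (by norm_num), e4]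
  have e203 : Real.log (20 / 3) = 2 * Real.log 2 + Real.log 5 - Real.log 3 := by
    rw [Real.log_div (by norm_num) (by norm_num), e20]
  have e259 : Real.log (25 / 9) = 2 * Real.log 5 - 2 * Real.log 3 := by
    rw [Real.log_div (by norm_num) (by norm_num), show (25 : ℝ) = 5 * 5 by norm_num,
      show (9 : ℝ) = 3 * 3 by norm_num, Real.log_mul (by norm_num) (by norm_num),
      Real.log_mul (by norm_num) (by norm_num)]
    ring
  have hpoly := T4c_poly (L := -Real.log θ) h0 h1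
    (by have := hlog 20 (by norm_num); rw [e20] at this; norm_num at l2 l5 ⊢; linarith)
    (by have := hlog (20 / 3) (by norm_num); rw [e203] at this; norm_num at l2 l3 l5 ⊢; linarith)
    (by have := hlog 4 (by norm_num); rw [e4] at this; norm_num at l2 ⊢; linarith)
    (by have := hlog (25 / 9) (by norm_num); rw [e259] at this; norm_num at l3 l5 ⊢; linarith)
    (by have := hlog 2 (by norm_num); norm_num at l2 ⊢; linarith)
  have hL0 : 0 ≤ -Real.log θ := by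
    have := Real.log_nonpos h0.le (by linarith)
    linarith
  have hD : 0 < 1 + 48 * θ ^ 2 - 4 * θ ^ 4 := by linarith
  have hc0 : 0 < Real.cos θ := by linarith
  have hc1 : Real.cos θ < 1 := by linarith
  have hs0 : 0 ≤ Real.sin θ := by nlinarith
  -- first term
  have t1 : -(1 - Real.cos θ) / 2 ≤ Real.cos θ * Real.log ((1 + Real.cos θ) / 2) := by
    have hp : 0 < (1 + Real.cos θ) / 2 := by linarith
    have h := Real.one_sub_inv_le_log_of_pos hp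
    have h' := mul_le_mul_of_nonneg_left h hc0.le
    refine le_trans ?_ h'
    rw [inv_div]
    have hq : 0 < 1 + Real.cos θ := by linarith
    rw [show Real.cos θ * (1 - 2 / (1 + Real.cos θ)) =
      -(Real.cos θ * (1 - Real.cos θ)) / (1 + Real.cos θ) by field_simp; ring,
      div_le_div_iff₀ (by norm_num) hq]
    nlinarith
  -- second term
  have t2 : (59 / 100 * θ + 1288 / 1000) * (θ - θ ^ 3 / 6) ≤
      Real.sin θ * θ + 41 / 100 * (Real.sin θ * (Real.pi - θ)) := by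
    have h5 : 59 / 100 * θ + 1288 / 1000 ≤ 59 / 100 * θ + 41 / 100 * Real.pi := by
      norm_num at hpi ⊢; linarith
    have h6 : 0 ≤ θ - θ ^ 3 / 6 := by nlinarith
    calc (59 / 100 * θ + 1288 / 1000) * (θ - θ ^ 3 / 6)
        ≤ (59 / 100 * θ + 41 / 100 * Real.pi) * Real.sin θ :=
          mul_le_mul h5 hs h6 (by have := Real.pi_pos; positivity)
      _ = _ := by ring
  -- third term
  have t3 : 82 / 100 * (1 - θ ^ 2 / 2) * (-Real.log θ) ≤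
      -(41 / 100 * (Real.cos θ * Real.log (2 - 2 * Real.cos θ))) := by
    have hle : 2 - 2 * Real.cos θ ≤ θ ^ 2 := by linarith
    have hpos : 0 < 2 - 2 * Real.cos θ := by linarith
    have h := Real.log_le_log hpos hle
    rw [Real.log_pow] at h
    push_cast at h
    have h7 := mul_le_mul_of_nonneg_left h hc0.le
    have h8 := mul_le_mul_of_nonneg_right hcl hL0
    linarith
  -- fourth term
  have t4 : SB (Real.cos θ) ≤ (4 / 5) / (1 + 48 * θ ^ 2 - 4 * θ ^ 4) := by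
    unfold SB
    apply div_le_div_of_nonneg_left (by norm_num) hD
    linarith
  have t5 : (4 / 5) / (1 + 48 * θ ^ 2 - 4 * θ ^ 4) ≤ -(118 / 100) + θ ^ 2 / 4 - θ ^ 4 / 48
      + (59 / 100 * θ + 1288 / 1000) * (θ - θ ^ 3 / 6)
      + 82 / 100 * (1 - θ ^ 2 / 2) * (-Real.log θ) := by
    rw [div_le_iff₀ hD]
    exact hpoly
  linarith

end Pool.Agent.Howell
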