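import Pool.Agent.Howell.KT4cW
import Pool.Agent.Howell.KT4cNum
import Pool.Agent.Howell.KRho

set_option autoImplicit false

namespace Pool.Agent.Howell

open Complex Set MeasureTheory intervalIntegral

/-- `cos 0.61 ≤ 0.82`: `cos (2y) = 2 cos² y - 1`, `cos y ≤ 1 - y²/2 + 5 y⁴/96`. -/
private theorem cos_061 : Real.cos (61 / 100) ≤ 41 / 50 := by
  have h1 := Real.cos_bound (x := 61 / 200) (by rw [abs_of_pos] <;> norm_num)
  rw [abs_le] at h1
  have h2 : Real.cos (61 / 200) ≤ 1 - (61 / 200) ^ 2 / 2 + (61 / 200) ^ 4 * (5 / 96) := by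
    have h3 := h1.2
    rw [abs_of_pos (by norm_num : (0 : ℝ) < 61 / 200)] at h3
    linarith
  have h0 : 0 ≤ Real.cos (61 / 200) :=
    Real.cos_nonneg_of_neg_pi_div_two_le_of_le (by linarith [Real.pi_gt_three])
      (by linarith [Real.pi_gt_three])
  have h4 : Real.cos (61 / 100) = 2 * Real.cos (61 / 200) ^ 2 - 1 := by
    rw [← Real.cos_two_mul]
    norm_num
  rw [h4]
  nlinarith [mul_le_mul h2 h2 h0 (by norm_num)]

/-- `41/50 ≤ a < c < 1`, `θ = arccos c ≤ 61/100` (`cos 0.61 ≤ 0.82`).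
`V ≥ (a-1) + c(log((1+c)/2) - 1) + sθ + (a/2)(1+ψ(c)) - SB c` (`Wk_ge_T4c`, `rho_pk_le`) is
nondecreasing in `a` (slope `1 + (1+ψ)/2`), so it is `≥` the value at `a = 41/50`, which is
`T4c_num` (`1 + ψ(c) = s(π-θ) - c log(2-2c)` by `psi_cos`). -/
theorem V_T4c {c a x : ℝ} (ha : 41 / 50 ≤ a) (hac : a < c) (hc1 : c < 1)
    (hx0 : 0 < x) (hx1 : x < 1) (hx2 : 3 / 4 < x ^ 2) : 0 ≤ Vk c a x := by
  obtain ⟨θ, hθ⟩ : ∃ θ, θ = Real.arccos c := ⟨_, rfl⟩
  have hc : Real.cos θ = c := by rw [hθ, Real.cos_arccos (by linarith) hc1.le]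
  have h0 : 0 < θ := by rw [hθ]; exact Real.arccos_pos.2 hc1
  have h1 : θ < Real.pi / 2 := by rw [hθ]; exact Real.arccos_lt_pi_div_two.2 (by linarith)
  have h2 : θ ≤ 61 / 100 := by
    by_contra hcon
    have h3 : Real.cos θ < Real.cos (61 / 100) :=
      Real.cos_lt_cos_of_nonneg_of_le_pi (by norm_num) (by linarith [Real.pi_pos])
        (not_le.1 hcon)
    linarith [cos_061]
  have hW := Wk_ge_T4c h0 h1 (by linarith : (0 : ℝ) ≤ a) (by rw [hc]; exact hac)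
  have hψ := psi_cos h0 (by linarith [Real.pi_pos])
  have hρ := rho_pk_le (c := c) (x := x) (by linarith) hc1 hx0 hx1 hx2
  have hnum := T4c_num h0 h2
  have hs : 0 ≤ Real.sin θ := Real.sin_nonneg_of_nonneg_of_le_pi h0.le (by linarith [Real.pi_pos])
  have hΨ : 0 ≤ Real.sin θ * (Real.pi - θ) - Real.cos θ * Real.log (2 - 2 * Real.cos θ) := by
    have h3 : 0 ≤ Real.sin θ * (Real.pi - θ) := mul_nonneg hs (by linarith [Real.pi_pos])
    have h4 : Real.log (2 - 2 * Real.cos θ) ≤ 0 :=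
      Real.log_nonpos (by rw [hc]; linarith) (by rw [hc]; linarith)
    have h5 : Real.cos θ * Real.log (2 - 2 * Real.cos θ) ≤ 0 :=
      mul_nonpos_of_nonneg_of_nonpos (by rw [hc]; linarith) h4
    linarith
  rw [hc] at hW hψ hnum hΨ
  have hψ' : 1 + psi c = Real.sin θ * (Real.pi - θ) - c * Real.log (2 - 2 * c) := by
    rw [hψ]; ring
  unfold Vk
  rw [hψ']
  set Ψ := Real.sin θ * (Real.pi - θ) - c * Real.log (2 - 2 * c) with hΨdef
  have h6 : 41 / 100 * Ψ ≤ a / 2 * Ψ := mul_le_mul_of_nonneg_right (by linarith) hΨ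
  nlinarith

end Pool.Agent.Howell
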