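import Pool.Agent.Howell.KVT1
import Pool.Agent.Howell.KVT1b
import Pool.Agent.Howell.KVT2
import Pool.Agent.Howell.KVT3
import Pool.Agent.Howell.KVT4a
import Pool.Agent.Howell.KVT4b
import Pool.Agent.Howell.KVT4c

set_option autoImplicit false

namespace Pool.Agent.Howell

/-- The kernel inequality. -/
theorem Vk_nonneg {c a x : ℝ} (hc : -1 < c) (hc1 : c < 1) (ha : -1 < a) (ha1 : a < 1)
    (hca : c ≠ a) (hx0 : 0 < x) (hx1 : x < 1) (hx2 : 3 / 4 < x ^ 2) : 0 ≤ Vk c a x := by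
  rcases lt_or_gt_of_ne hca with h | h
  · rcases le_total a (7 / 25) with h7 | h7
    · by_cases h0 : 0 ≤ a
      · exact V_T1 hc h h7 (Or.inl h0) hx0 hx1 hx2
      · rcases le_total (2 * a ^ 2) 1 with h2 | h2
        · exact V_T1 hc h h7 (Or.inr h2) hx0 hx1 hx2
        · exact V_T1b hc h (not_le.1 h0) h2 hx0 hx1 hx2
    · exact V_T3 h7 ha1 hc h hx0 hx1 hx2
  · rcases le_total a 0 with h0 | h0
    · exact V_T2 ha h0 h hc1 hx0 hx1 hx2
    · rcases le_total a (1 / 2) with h5 | h5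
      · exact V_T4a h0 h5 h hc1 hx0 hx1 hx2
      · rcases le_total a (41 / 50) with h8 | h8
        · exact V_T4b h5 h8 h hc1 hx0 hx1 hx2
        · exact V_T4c h8 h hc1 hx0 hx1 hx2

end Pool.Agent.Howell
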