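import Pool.Agent.Howell.FReal
import Pool.Agent.Howell.FVert
import Pool.Agent.Howell.KMain

set_option autoImplicit false

namespace Pool.Agent.Howell

open Complex Set MeasureTheory intervalIntegral ComplexConjugate

/-- `LamC p a x = (1/2π) ∫ Re p(e^{iθ}) Vk (cos θ) a x dθ` (linear combination of `real_swap` for
`a` and for `0`, `vert_swap`, `herglotz_re` at `0` and `x`; `pk c 0 = 1`), all pieces integrable. -/
theorem LamC_eq {p : ℂ → ℂ} (hp : Differentiable ℂ p) (hs : ∀ w, p (conj w) = conj (p w))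
    (hre : ∀ w, ‖w‖ ≤ 1 → 0 ≤ (p w).re) {a x : ℝ} (ha : -1 < a) (ha1 : a < 1)
    (hx0 : 0 < x) (hx1 : x < 1) :
    LamC p a x = 1 / (2 * Real.pi) *
      ∫ θ in (-Real.pi)..Real.pi, (p (exp (θ * I))).re * Vk (Real.cos θ) a x := by
  have hu : Continuous (fun θ : ℝ => (p (exp (θ * I))).re) :=
    Complex.continuous_re.comp (hp.continuous.comp (by fun_prop))
  have hpk : Continuous (fun θ : ℝ => pk (Real.cos θ) x) := by
    unfold pk
    apply Continuous.div continuous_const (by fun_prop)
    intro θ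
    have h1 := Real.neg_one_le_cos θ
    have h2 := Real.cos_le_one θ
    nlinarith [sq_nonneg (1 - x), sq_pos_of_pos (sub_pos.2 hx1)]
  have i1 := real_swap_integrable hp hs hre ha ha1
  have i2 := real_swap_integrable hp hs hre (show (-1:ℝ) < 0 by norm_num) (show (0:ℝ) < 1 by norm_num)
  have i3 := vert_swap_integrable hp ha ha1
  have i4 : IntervalIntegrable (fun θ : ℝ => (p (exp (θ * I))).re) volume (-Real.pi) Real.pi :=
    hu.intervalIntegrable _ _
  have i5 : IntervalIntegrable (fun θ : ℝ => (p (exp (θ * I))).re * pk (Real.cos θ) x) volume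
      (-Real.pi) Real.pi := (hu.mul hpk).intervalIntegrable _ _
  have e0 : (p 0).re = 1 / (2 * Real.pi) * ∫ θ in (-Real.pi)..Real.pi, (p (exp (θ * I))).re := by
    have := herglotz_re hp hs (t := 0) (by simp)
    simpa [pk] using this
  have ex := herglotz_re hp hs (t := x) (by rw [abs_of_pos hx0]; exact hx1)
  have e1 := real_swap hp hs hre ha ha1
  have e2 := real_swap hp hs hre (show (-1:ℝ) < 0 by norm_num) (show (0:ℝ) < 1 by norm_num)
  have e3 := vert_swap hp hs ha ha1
  set b := √(1 - a ^ 2) with hb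
  have hfun : (fun θ : ℝ => (p (exp (θ * I))).re * Vk (Real.cos θ) a x)
      = fun θ : ℝ => (p (exp (θ * I))).re * (∫ t in a..1, pk (Real.cos θ) t)
        + (1 / b) * ((p (exp (θ * I))).re * ∫ v in (0:ℝ)..b, (b - v) * ik (Real.cos θ) a v)
        + (a / 2) * (p (exp (θ * I))).re
        + (a / 2) * ((p (exp (θ * I))).re * ∫ t in (0:ℝ)..1, pk (Real.cos θ) t)
        - rho x * ((p (exp (θ * I))).re * pk (Real.cos θ) x) := by
    funext θ
    rw [Vk, Wk, psi, ← hb]
    ring
  rw [hfun, intervalIntegral.integral_sub, intervalIntegral.integral_add,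
    intervalIntegral.integral_add, intervalIntegral.integral_add,
    intervalIntegral.integral_const_mul, intervalIntegral.integral_const_mul,
    intervalIntegral.integral_const_mul, intervalIntegral.integral_const_mul, LamC, ← hb, e0, ex,
    e1, e2, e3]
  · ring
  · exact i1
  · exact i3.const_mul _
  · exact i1.add (i3.const_mul _)
  · exact i4.const_mul _
  · exact (i1.add (i3.const_mul _)).add (i4.const_mul _)
  · exact i2.const_mul _
  · exact ((i1.add (i3.const_mul _)).add (i4.const_mul _)).add (i2.const_mul _)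
  · exact i5.const_mul _

/-- The integrand of `LamC_eq` is `≥ 0` for all `θ ∈ (-π,π)` except `θ = 0` and `cos θ = a`
(`Vk_nonneg`), a finite set. -/
theorem LamC_nonneg {p : ℂ → ℂ} (hp : Differentiable ℂ p) (hs : ∀ w, p (conj w) = conj (p w))
    (hre : ∀ w, ‖w‖ ≤ 1 → 0 ≤ (p w).re) {a x : ℝ} (ha : -1 < a) (ha1 : a < 1)
    (hx0 : 0 < x) (hx1 : x < 1) (hx2 : 3 / 4 < x ^ 2) : 0 ≤ LamC p a x := by
  rw [LamC_eq hp hs hre ha ha1 hx0 hx1]
  have hpi := Real.pi_pos
  apply mul_nonneg (by positivity)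
  apply intervalIntegral.integral_nonneg_of_ae_restrict (by linarith)
  have hfin : ({0, Real.arccos a, -Real.arccos a, Real.pi, -Real.pi} : Set ℝ).Finite := by
    simp
  have hae : ∀ᵐ θ ∂(volume.restrict (Icc (-Real.pi) Real.pi)),
      θ ∉ ({0, Real.arccos a, -Real.arccos a, Real.pi, -Real.pi} : Set ℝ) := by
    apply ae_restrict_of_ae
    exact hfin.countable.ae_notMem _
  have hmem : ∀ᵐ θ ∂(volume.restrict (Icc (-Real.pi) Real.pi)), θ ∈ Icc (-Real.pi) Real.pi :=
    ae_restrict_mem measurableSet_Icc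
  filter_upwards [hae, hmem] with θ h1 h2
  simp only [mem_insert_iff, mem_singleton_iff, not_or] at h1
  obtain ⟨h10, h1a, h1b, h1c, h1d⟩ := h1
  have hlt : -Real.pi < θ := lt_of_le_of_ne h2.1 (Ne.symm h1d)
  have hlt2 : θ < Real.pi := lt_of_le_of_ne h2.2 h1c
  have habs : |θ| < Real.pi := abs_lt.2 ⟨hlt, hlt2⟩
  have habs0 : 0 < |θ| := abs_pos.2 h10
  have hc1 : Real.cos θ < 1 := by
    rw [← Real.cos_abs]
    have := Real.strictAntiOn_cos (left_mem_Icc.2 hpi.le) ⟨habs0.le, habs.le⟩ habs0
    simpa using this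
  have hc2 : -1 < Real.cos θ := by
    rw [← Real.cos_abs]
    have := Real.strictAntiOn_cos ⟨habs0.le, habs.le⟩ (right_mem_Icc.2 hpi.le) habs
    simpa using this
  have hca : Real.cos θ ≠ a := by
    intro h
    have : |θ| = Real.arccos a := by
      rw [← h, ← Real.cos_abs, Real.arccos_cos habs0.le habs.le]
    rcases abs_choice θ with h3 | h3
    · exact h1a (by rw [← this, h3])
    · exact h1b (by rw [← this, h3, neg_neg])
  have h5 : 0 ≤ (p (exp (θ * I))).re := hre _ (by rw [Complex.norm_exp_ofReal_mul_I])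
  exact mul_nonneg h5 (Vk_nonneg hc2 hc1 ha ha1 hca hx0 hx1 hx2)

end Pool.Agent.Howell
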