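import Pool.Agent.Howell.FHerglotz

set_option autoImplicit false

namespace Pool.Agent.Howell

open Complex Set MeasureTheory intervalIntegral ComplexConjugate

namespace FRealAux

lemma den_pos {c t : ℝ} (hc : -1 ≤ c) (hc1 : c ≤ 1) (ht : |t| < 1) :
    0 < 1 - 2 * c * t + t ^ 2 := by
  have h := abs_lt.1 ht
  have h1 : c * t ≤ |t| := by
    calc c * t ≤ |c * t| := le_abs_self _
      _ = |c| * |t| := abs_mul _ _
      _ ≤ 1 * |t| := mul_le_mul_of_nonneg_right (abs_le.2 ⟨hc, hc1⟩) (abs_nonneg t)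
      _ = |t| := one_mul _
  have h2 : t ^ 2 = |t| ^ 2 := (sq_abs t).symm
  have h3 : 0 < (1 - |t|) ^ 2 := by
    apply pow_pos
    linarith
  rw [h2]
  nlinarith

/-- the kernel on the product -/
noncomputable def ker (p : ℂ → ℂ) (x : ℝ × ℝ) : ℝ :=
  (p (exp ((x.2 : ℝ) * I))).re * pk (Real.cos x.2) x.1

lemma ker_meas {p : ℂ → ℂ} (hp : Differentiable ℂ p) : Measurable (ker p) := by
  unfold ker pk
  have hc : Continuous fun x : ℝ × ℝ => (p (exp ((x.2 : ℝ) * I))).re := by
    have := hp.continuous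
    fun_prop
  apply hc.measurable.mul
  apply Measurable.div
  · exact (by fun_prop : Continuous fun x : ℝ × ℝ => 1 - x.1 ^ 2).measurable
  · exact (by fun_prop : Continuous fun x : ℝ × ℝ =>
      1 - 2 * Real.cos x.2 * x.1 + x.1 ^ 2).measurable

lemma ker_cont {p : ℂ → ℂ} (hp : Differentiable ℂ p) {t : ℝ} (ht : |t| < 1) :
    Continuous fun θ : ℝ => ker p (t, θ) := by
  unfold ker pk
  have hc := hp.continuous
  apply Continuous.mul
  · fun_prop
  · apply Continuous.div (by fun_prop) (by fun_prop)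
    intro θ
    exact (den_pos (Real.neg_one_le_cos θ) (Real.cos_le_one θ) ht).ne'

lemma ker_nonneg {p : ℂ → ℂ} (hre : ∀ w, ‖w‖ ≤ 1 → 0 ≤ (p w).re) {t : ℝ} (ht : |t| < 1) (θ : ℝ) :
    0 ≤ ker p (t, θ) := by
  unfold ker
  apply mul_nonneg
  · apply hre
    rw [Complex.norm_exp_ofReal_mul_I]
  · unfold pk
    apply div_nonneg
    · have h := abs_lt.1 ht
      nlinarith
    · exact (den_pos (Real.neg_one_le_cos θ) (Real.cos_le_one θ) ht).le

lemma ker_integrable {p : ℂ → ℂ} (hp : Differentiable ℂ p) (hs : ∀ w, p (conj w) = conj (p w))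
    (hre : ∀ w, ‖w‖ ≤ 1 → 0 ≤ (p w).re) {a : ℝ} (ha : -1 < a) :
    Integrable (ker p) ((volume.restrict (Ioc a 1)).prod
      (volume.restrict (Ioc (-Real.pi) Real.pi))) := by
  have hae : ∀ᵐ t ∂(volume.restrict (Ioc a 1)), |t| < 1 := by
    have h1 : ∀ᵐ t : ℝ ∂(volume.restrict (Ioc a 1)), t ≠ 1 := by
      apply ae_restrict_of_ae
      exact Measure.ae_ne volume 1
    filter_upwards [h1, ae_restrict_mem measurableSet_Ioc] with t ht1 ht2
    rw [abs_lt]
    exact ⟨by linarith [ht2.1], lt_of_le_of_ne ht2.2 ht1⟩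
  rw [MeasureTheory.integrable_prod_iff (ker_meas hp).aestronglyMeasurable]
  constructor
  · filter_upwards [hae] with t ht
    exact ((ker_cont hp ht).continuousOn.integrableOn_Icc (a := -Real.pi)
      (b := Real.pi)).mono_set Ioc_subset_Icc_self
  · have hcont : Integrable (fun t : ℝ => 2 * Real.pi * (p t).re) (volume.restrict (Ioc a 1)) := by
      have hc := hp.continuous
      have : Continuous fun t : ℝ => 2 * Real.pi * (p t).re := by fun_prop
      exact (this.continuousOn.integrableOn_Icc (a := a) (b := 1)).mono_set Ioc_subset_Icc_self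
    refine hcont.congr ?_
    filter_upwards [hae] with t ht
    have h1 : ∀ θ : ℝ, ‖ker p (t, θ)‖ = ker p (t, θ) := fun θ =>
      Real.norm_of_nonneg (ker_nonneg hre ht θ)
    simp only [h1]
    rw [herglotz_re hp hs ht, intervalIntegral.integral_of_le (by linarith [Real.pi_pos])]
    have hpi := Real.pi_ne_zero
    field_simp
    rfl

end FRealAux

open FRealAux

/-- Tonelli on `(a,1) × (-π,π)`: the kernel `k(t,θ) = Re p(e^{iθ}) pk (cos θ) t` is `≥ 0`
(for `-1 < t < 1`), measurable, `θ ↦ k(t,θ)` is continuous for `t ∈ (-1,1)`, and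
`t ↦ ∫ k(t,θ) dθ = 2π (p t).re` (`herglotz_re`) is continuous, hence integrable: so `k` is
integrable on the product (`MeasureTheory.integrable_prod_iff`), the two iterated integrals agree
(`integral_integral_swap`) and `θ ↦ ∫_a^1 k(t,θ) dt` is integrable. -/
theorem real_swap {p : ℂ → ℂ} (hp : Differentiable ℂ p) (hs : ∀ w, p (conj w) = conj (p w))
    (hre : ∀ w, ‖w‖ ≤ 1 → 0 ≤ (p w).re) {a : ℝ} (ha : -1 < a) (ha1 : a < 1) :
    (∫ t in a..1, (p t).re) = 1 / (2 * Real.pi) *
      ∫ θ in (-Real.pi)..Real.pi, (p (exp (θ * I))).re * ∫ t in a..1, pk (Real.cos θ) t := by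
  have hI := ker_integrable hp hs hre ha
  have hswap := MeasureTheory.integral_integral_swap (μ := volume.restrict (Ioc a 1))
    (ν := volume.restrict (Ioc (-Real.pi) Real.pi)) (f := fun t θ => ker p (t, θ)) hI
  have hpi0 := Real.pi_pos
  have h1 : (∫ t in a..1, (p t).re) =
      1 / (2 * Real.pi) * ∫ t in Ioc a 1, ∫ θ in Ioc (-Real.pi) Real.pi, ker p (t, θ) := by
    rw [intervalIntegral.integral_of_le ha1.le, ← MeasureTheory.integral_const_mul]
    apply MeasureTheory.integral_congr_ae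
    have h1 : ∀ᵐ t : ℝ ∂(volume.restrict (Ioc a 1)), t ≠ 1 := by
      apply ae_restrict_of_ae
      exact Measure.ae_ne volume 1
    filter_upwards [h1, ae_restrict_mem measurableSet_Ioc] with t ht1 ht2
    have ht : |t| < 1 := by
      rw [abs_lt]
      exact ⟨by linarith [ht2.1], lt_of_le_of_ne ht2.2 ht1⟩
    rw [herglotz_re hp hs ht, intervalIntegral.integral_of_le (by linarith)]
    rfl
  rw [h1, hswap, intervalIntegral.integral_of_le (by linarith)]
  congr 1
  apply MeasureTheory.integral_congr_ae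
  filter_upwards with θ
  rw [intervalIntegral.integral_of_le ha1.le, ← MeasureTheory.integral_const_mul]
  rfl

theorem real_swap_integrable {p : ℂ → ℂ} (hp : Differentiable ℂ p)
    (hs : ∀ w, p (conj w) = conj (p w))
    (hre : ∀ w, ‖w‖ ≤ 1 → 0 ≤ (p w).re) {a : ℝ} (ha : -1 < a) (ha1 : a < 1) :
    IntervalIntegrable (fun θ => (p (exp (θ * I))).re * ∫ t in a..1, pk (Real.cos θ) t)
      volume (-Real.pi) Real.pi := by
  have hI := (ker_integrable hp hs hre ha).integral_prod_right
  have hpi0 := Real.pi_pos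
  rw [intervalIntegrable_iff_integrableOn_Ioc_of_le (by linarith)]
  refine hI.congr ?_
  filter_upwards with θ
  rw [intervalIntegral.integral_of_le ha1.le, ← MeasureTheory.integral_const_mul]
  rfl

end Pool.Agent.Howell
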