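import Pool.Agent.Howell.KPrim

set_option autoImplicit false

namespace Pool.Agent.Howell

open Complex Set MeasureTheory intervalIntegral

/-- First half of the arc identity (vertical side). `0 < θ ≤ π`, `0 < α < θ`, `w₀ = e^{iα}`,
`cos α > cos θ`, `b = sin α = √(1 - cos² α)`:
`sin α · W(cos θ, cos α) = sin α (PK θ 1).re - (QK θ e^{iα}).im`.
Proof: with `a = cos α`, `∫_a^1 pk = (PK 1).re - (PK a).re`; and
`∫₀^b (b-v) pkC(a+iv) dv = i b PK(a) - (QK(a+ib) - QK(a))` (twice by parts, using
`d/dv PK(a+iv) = i pkC`, `d/dv QK(a+iv) = i PK`), imaginary part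
`∫₀^b (b-v) ik = b (PK a).re - (QK(a+ib)).im` because `PK a`, `QK a` are real. -/
theorem sin_mul_Wk {θ α : ℝ} (hα : 0 < α) (hαθ : α < θ) (hθ : θ ≤ Real.pi) :
    Real.sin α * Wk (Real.cos θ) (Real.cos α)
      = Real.sin α * (PK θ 1).re - (QK θ (exp (α * I))).im := by
  have hαπ : α < Real.pi := lt_of_lt_of_le hαθ hθ
  have hb : 0 < Real.sin α := Real.sin_pos_of_pos_of_lt_pi hα hαπ
  have hca : Real.cos θ < Real.cos α := Real.cos_lt_cos_of_nonneg_of_le_pi hα.le hθ hαθ
  have hsc : Real.sin α ^ 2 + Real.cos α ^ 2 = 1 := Real.sin_sq_add_cos_sq α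
  have hsq : √(1 - Real.cos α ^ 2) = Real.sin α := by
    rw [show 1 - Real.cos α ^ 2 = Real.sin α ^ 2 by linarith]
    exact Real.sqrt_sq hb.le
  have ha1 : Real.cos α < 1 := by
    by_contra h
    push Not at h
    nlinarith [Real.cos_le_one α, sq_pos_of_pos hb]
  have ha : -1 < Real.cos α := by
    by_contra h
    push Not at h
    nlinarith [Real.neg_one_le_cos α, sq_pos_of_pos hb]
  have hc : -1 ≤ Real.cos θ := Real.neg_one_le_cos θ
  have hc1 : Real.cos θ < 1 := hca.trans ha1
  have hexp : exp (α * I) = (Real.cos α : ℂ) + (Real.sin α : ℂ) * I := by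
    rw [exp_mul_I, ofReal_cos, ofReal_sin]
  -- step 1
  have h1 : (∫ t in (Real.cos α)..1, pk (Real.cos θ) t)
      = (PK θ 1).re - (PK θ (Real.cos α : ℂ)).re := by
    have := integral_eq_sub_of_hasDerivAt (f := fun t : ℝ => (PK θ (t : ℂ)).re)
      (f' := pk (Real.cos θ)) (a := Real.cos α) (b := 1) ?_
      (pk_intervalIntegrable hc hc1 ha (by norm_num))
    · rw [this]
      simp
    · intro t ht
      rw [uIcc_of_le ha1.le] at ht
      have hn : ‖(t : ℂ)‖ ≤ 1 := by
        rw [norm_real, Real.norm_eq_abs, abs_le]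
        exact ⟨by linarith [ht.1], ht.2⟩
      have hre : (t : ℂ).re ≠ Real.cos θ := by
        rw [ofReal_re]
        exact (lt_of_lt_of_le hca ht.1).ne'
      have := (hasDerivAt_PK (slit1 hn hre) (slit2 hn hre)).real_of_complex
      rw [pkC_ofReal, ofReal_re] at this
      exact this
  -- step 2
  have h2 : (∫ v in (0:ℝ)..(Real.sin α), (Real.sin α - v) * ik (Real.cos θ) (Real.cos α) v)
      = Real.sin α * (PK θ (Real.cos α : ℂ)).re - (QK θ (exp (α * I))).im := by
    have hcont : Continuous fun v : ℝ =>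
        (Real.sin α - v) * ik (Real.cos θ) (Real.cos α) v :=
      (continuous_const.sub continuous_id).mul (ik_continuous hc hc1.le ha ha1 hca.ne)
    have key := integral_eq_sub_of_hasDerivAt
      (f := fun v : ℝ => (-I * ((Real.sin α : ℂ) - (v : ℂ)) * PK θ ((Real.cos α : ℂ) + v * I)
        - QK θ ((Real.cos α : ℂ) + v * I)).im)
      (f' := fun v : ℝ => (Real.sin α - v) * ik (Real.cos θ) (Real.cos α) v)
      (a := 0) (b := Real.sin α) ?_ (hcont.intervalIntegrable _ _)
    · rw [key, hexp]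
      have hq : (QK θ (Real.cos α : ℂ)).im = 0 := QK_real ha ha1.le (Or.inr ha1)
      simp only [sub_self, mul_zero, zero_mul, zero_sub, ofReal_zero, add_zero, sub_zero, neg_im,
        sub_im, neg_mul]
      rw [hq]
      simp only [mul_im, mul_re, I_re, I_im, ofReal_re, ofReal_im]
      ring
    · intro v hv
      rw [uIcc_of_le hb.le] at hv
      have hn : ‖(Real.cos α : ℂ) + v * I‖ ≤ 1 := by
        have h3 : ‖(Real.cos α : ℂ) + v * I‖ ^ 2 ≤ 1 := by
          rw [← normSq_eq_norm_sq, normSq_add_mul_I]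
          nlinarith [hv.1, hv.2]
        nlinarith [norm_nonneg ((Real.cos α : ℂ) + v * I)]
      have hre : ((Real.cos α : ℂ) + v * I).re ≠ Real.cos θ := by
        simp only [add_re, mul_re, ofReal_re, ofReal_im, I_re, I_im]
        intro h
        linarith
      have hw : HasDerivAt (fun v : ℝ => (Real.cos α : ℂ) + v * I) I v := by
        have := ((hasDerivAt_id (v : ℂ)).comp_ofReal.mul_const I).const_add (Real.cos α : ℂ)
        simpa using this
      have hv' : HasDerivAt (fun v : ℝ => (v : ℂ)) 1 v := by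
        simpa using (hasDerivAt_id (v : ℂ)).comp_ofReal
      have hP : HasDerivAt (fun v : ℝ => PK θ ((Real.cos α : ℂ) + v * I))
          (pkC (Real.cos θ) ((Real.cos α : ℂ) + v * I) * I) v :=
        HasDerivAt.comp (𝕜 := ℝ) (𝕜' := ℂ) v
          (hasDerivAt_PK (slit1 hn hre) (slit2 hn hre)) hw
      have hQ : HasDerivAt (fun v : ℝ => QK θ ((Real.cos α : ℂ) + v * I))
          (PK θ ((Real.cos α : ℂ) + v * I) * I) v :=
        HasDerivAt.comp (𝕜 := ℝ) (𝕜' := ℂ) v
          (hasDerivAt_QK (slit1 hn hre) (slit2 hn hre)) hw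
      have hG := ((((hv'.const_sub (Real.sin α : ℂ)).const_mul (-I)).mul hP).sub hQ)
      have hGim := imCLM.hasFDerivAt.comp_hasDerivAt v hG
      have hval : imCLM (-I * -1 * PK θ ((Real.cos α : ℂ) + v * I)
          + -I * ((Real.sin α : ℂ) - (v : ℂ)) *
            (pkC (Real.cos θ) ((Real.cos α : ℂ) + v * I) * I)
          - PK θ ((Real.cos α : ℂ) + v * I) * I)
          = (Real.sin α - v) * ik (Real.cos θ) (Real.cos α) v := by
        rw [← pkC_im]
        have : (-I * -1 * PK θ ((Real.cos α : ℂ) + v * I)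
          + -I * ((Real.sin α : ℂ) - (v : ℂ)) *
            (pkC (Real.cos θ) ((Real.cos α : ℂ) + v * I) * I)
          - PK θ ((Real.cos α : ℂ) + v * I) * I)
          = ((Real.sin α - v : ℝ) : ℂ) * pkC (Real.cos θ) ((Real.cos α : ℂ) + v * I) := by
          rw [ofReal_sub]
          linear_combination (-((Real.sin α : ℂ) - (v : ℂ))
            * pkC (Real.cos θ) ((Real.cos α : ℂ) + v * I)) * I_mul_I
        rw [this, imCLM_apply, im_ofReal_mul]
      rw [hval] at hGim
      exact hGim
  unfold Wk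
  rw [hsq, h1, h2]
  field_simp
  ring

end Pool.Agent.Howell
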