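import Pool.Agent.Howell.KPrim

set_option autoImplicit false

namespace Pool.Agent.Howell

open Complex Set MeasureTheory intervalIntegral

/-- the kernel on the unit circle -/
private theorem pkC_circle {c r : ℝ} (h : Real.cos r - c ≠ 0) :
    pkC c (exp (r * I)) = -(I * ((Real.sin r / (Real.cos r - c) : ℝ) : ℂ)) := by
  have he : exp ((r : ℂ) * I) ≠ 0 := exp_ne_zero _
  have hcs : exp ((r : ℂ) * I) = (Real.cos r : ℂ) + (Real.sin r : ℂ) * I := by
    rw [exp_mul_I, ofReal_cos, ofReal_sin]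
  have hsq : (Real.cos r : ℂ) ^ 2 + (Real.sin r : ℂ) ^ 2 = 1 := by
    rw [ofReal_cos, ofReal_sin]
    exact_mod_cast Complex.cos_sq_add_sin_sq (r : ℂ)
  have hI : I ^ 2 = -1 := I_sq
  have h' : ((Real.cos r : ℂ) - (c : ℂ)) ≠ 0 := by
    rw [← ofReal_sub]
    exact_mod_cast h
  have hden : (1 : ℂ) - 2 * (c : ℂ) * exp ((r : ℂ) * I) + exp ((r : ℂ) * I) ^ 2
      = exp ((r : ℂ) * I) * (2 * ((Real.cos r : ℂ) - (c : ℂ))) := by
    rw [hcs]
    linear_combination (-1 : ℂ) * hsq + (Real.sin r : ℂ) ^ 2 * hI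
  have hnum : (1 : ℂ) - exp ((r : ℂ) * I) ^ 2
      = exp ((r : ℂ) * I) * (-(2 * I * (Real.sin r : ℂ))) := by
    rw [hcs]
    linear_combination (-1 : ℂ) * hsq + (Real.sin r : ℂ) ^ 2 * hI
  unfold pkC
  rw [hden, hnum, mul_div_mul_left _ _ he]
  push_cast
  field_simp

/-- Second half (the arc from `1` to `e^{iα}`):
`Φ(r) = Im[QK(e^{ir}) + PK(e^{ir})(e^{iα} - e^{ir})]` has derivative
`Re[pkC(e^{ir})(e^{i(r+α)} - e^{2ir})]`, `pkC(e^{ir}) = -i sin r/(cos r - cos θ)`, so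
`Φ' = sin r (sin(r+α) - sin 2r)/(cos r - cos θ)`; `Φ(α) = Im QK(e^{iα})`,
`Φ(0) = (PK 1).re sin α` (`PK 1`, `QK 1` real). -/
theorem QK_arc {θ α : ℝ} (hα : 0 < α) (hαθ : α < θ) (hθ : θ ≤ Real.pi) :
    (QK θ (exp (α * I))).im = Real.sin α * (PK θ 1).re
      + ∫ r in (0:ℝ)..α, (Real.sin (r + α) - Real.sin (2 * r)) * Real.sin r
          / (Real.cos r - Real.cos θ) := by
  have hlt : ∀ r ∈ uIcc 0 α, Real.cos θ < Real.cos r := by
    intro r hr
    rw [uIcc_of_le hα.le] at hr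
    exact Real.cos_lt_cos_of_nonneg_of_le_pi hr.1 hθ (lt_of_le_of_lt hr.2 hαθ)
  have hd : ∀ r ∈ uIcc 0 α, HasDerivAt
      (fun r : ℝ => (QK θ (exp (r * I)) + PK θ (exp (r * I)) * (exp (α * I) - exp (r * I))).im)
      ((Real.sin (r + α) - Real.sin (2 * r)) * Real.sin r / (Real.cos r - Real.cos θ)) r := by
    intro r hr
    have hw : ‖exp ((r : ℂ) * I)‖ ≤ 1 := by rw [norm_exp_ofReal_mul_I]
    have hre : (exp ((r : ℂ) * I)).re ≠ Real.cos θ := by
      rw [exp_ofReal_mul_I_re]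
      exact (hlt r hr).ne'
    have s1 := slit1 hw hre
    have s2 := slit2 hw hre
    have e1 : HasDerivAt (fun z : ℂ => exp (z * I)) (exp ((r : ℂ) * I) * (1 * I)) (r : ℂ) :=
      ((hasDerivAt_id (r : ℂ)).mul_const I).cexp
    have q1 : HasDerivAt (fun z : ℂ => QK θ (exp (z * I)))
        (PK θ (exp ((r : ℂ) * I)) * (exp ((r : ℂ) * I) * (1 * I))) (r : ℂ) :=
      HasDerivAt.comp (r : ℂ) (hasDerivAt_QK s1 s2) e1
    have p1 : HasDerivAt (fun z : ℂ => PK θ (exp (z * I)))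
        (pkC (Real.cos θ) (exp ((r : ℂ) * I)) * (exp ((r : ℂ) * I) * (1 * I))) (r : ℂ) :=
      HasDerivAt.comp (r : ℂ) (hasDerivAt_PK s1 s2) e1
    have G1 := (q1.add (p1.mul (e1.const_sub (exp ((α : ℂ) * I))))).comp_ofReal
    have G2 := Complex.imCLM.hasFDerivAt.comp_hasDerivAt r G1
    refine G2.congr_deriv ?_
    have hne : Real.cos r - Real.cos θ ≠ 0 := by
      have := hlt r hr
      linarith
    rw [pkC_circle hne]
    have hE : ∀ y : ℝ, exp ((y : ℂ) * I) = (Real.cos y : ℂ) + (Real.sin y : ℂ) * I := by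
      intro y
      rw [exp_mul_I, ofReal_cos, ofReal_sin]
    change (PK θ (exp ((r : ℂ) * I)) * (exp ((r : ℂ) * I) * (1 * I)) +
      (-(I * ((Real.sin r / (Real.cos r - Real.cos θ) : ℝ) : ℂ)) * (exp ((r : ℂ) * I) * (1 * I))
        * (exp ((α : ℂ) * I) - exp ((r : ℂ) * I)) +
      PK θ (exp ((r : ℂ) * I)) * -(exp ((r : ℂ) * I) * (1 * I)))).im = _
    have h1 : (PK θ (exp ((r : ℂ) * I)) * (exp ((r : ℂ) * I) * (1 * I)) +
      (-(I * ((Real.sin r / (Real.cos r - Real.cos θ) : ℝ) : ℂ)) * (exp ((r : ℂ) * I) * (1 * I))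
        * (exp ((α : ℂ) * I) - exp ((r : ℂ) * I)) +
      PK θ (exp ((r : ℂ) * I)) * -(exp ((r : ℂ) * I) * (1 * I))))
      = ((Real.sin r / (Real.cos r - Real.cos θ) : ℝ) : ℂ)
        * (exp ((r : ℂ) * I) * (exp ((α : ℂ) * I) - exp ((r : ℂ) * I))) := by
      linear_combination (-((Real.sin r / (Real.cos r - Real.cos θ) : ℝ) : ℂ)
        * (exp ((r : ℂ) * I) * (exp ((α : ℂ) * I) - exp ((r : ℂ) * I)))) * I_sq
    rw [h1, im_ofReal_mul, hE, hE]
    have h2 : (((Real.cos r : ℂ) + (Real.sin r : ℂ) * I) *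
        ((Real.cos α : ℂ) + (Real.sin α : ℂ) * I - ((Real.cos r : ℂ) + (Real.sin r : ℂ) * I))).im
        = Real.sin (r + α) - Real.sin (2 * r) := by
      simp only [mul_im, add_im, sub_im, add_re, sub_re, mul_re, ofReal_re, ofReal_im, I_re, I_im]
      rw [Real.sin_add, Real.sin_two_mul]
      ring
    rw [h2]
    ring
  have hint : IntervalIntegrable (fun r : ℝ => (Real.sin (r + α) - Real.sin (2 * r)) * Real.sin r
      / (Real.cos r - Real.cos θ)) volume 0 α := by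
    apply ContinuousOn.intervalIntegrable
    apply ContinuousOn.div
    · fun_prop
    · fun_prop
    · intro r hr
      have := hlt r hr
      linarith
  have hFTC := integral_eq_sub_of_hasDerivAt hd hint
  have hone : (1 : ℝ) ≠ Real.cos θ := by
    have h1 := hlt 0 left_mem_uIcc
    rw [Real.cos_zero] at h1
    exact h1.ne'
  have hP := PK_real (θ := θ) (t := 1) (by norm_num) le_rfl (Or.inl hone)
  have hQ := QK_real (θ := θ) (t := 1) (by norm_num) le_rfl (Or.inl hone)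
  rw [ofReal_one] at hP hQ
  rw [hFTC]
  simp only [ofReal_zero, zero_mul, exp_zero, sub_self, mul_zero, add_zero, add_im, hQ, mul_im, hP,
    sub_im, one_im, sub_zero, sub_re, one_re]
  rw [exp_ofReal_mul_I_im]
  ring

end Pool.Agent.Howell
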