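import Pool.Agent.Howell.KPrim
import Pool.Agent.Howell.KArc1
import Pool.Agent.Howell.KArc2

set_option autoImplicit false

namespace Pool.Agent.Howell

open Complex Set MeasureTheory intervalIntegral

/-- Arc formula for `W`. -/
theorem Wk_arc {θ α : ℝ} (hα : 0 < α) (hαθ : α < θ) (hθ : θ ≤ Real.pi) :
    Real.sin α * Wk (Real.cos θ) (Real.cos α)
      = ∫ r in (0:ℝ)..α, (Real.sin (2 * r) - Real.sin (r + α)) * Real.sin r
          / (Real.cos r - Real.cos θ) := by
  rw [sin_mul_Wk hα hαθ hθ, QK_arc hα hαθ hθ, sub_add_cancel_left, ← intervalIntegral.integral_neg]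
  congr 1
  funext r
  ring

end Pool.Agent.Howell
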