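import Pool.Agent.Howell.Defs

set_option autoImplicit false

namespace Pool.Agent.Howell

open Complex Set MeasureTheory intervalIntegral

/-- `1 - 2ct + t² = (t - c)² + (1 - c)(1 + c)`; for `c = -1` it is `(1 + t)²`. -/
theorem den_pos {c t : ℝ} (hc : -1 ≤ c) (hc1 : c < 1) (ht : -1 < t) :
    0 < 1 - 2 * c * t + t ^ 2 := by
  have e : 1 - 2 * c * t + t ^ 2 = (t - c) ^ 2 + (1 - c) * (1 + c) := by ring
  rw [e]
  rcases eq_or_lt_of_le hc with h | h
  · subst h
    have h1 : 0 < t - -1 := by linarith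
    have h2 : (1 - (-1:ℝ)) * (1 + -1) = 0 := by ring
    rw [h2, add_zero]
    exact pow_pos h1 2
  · have h1 : 0 < (1 - c) * (1 + c) := mul_pos (by linarith) (by linarith)
    have h2 := sq_nonneg (t - c)
    linarith

/-- `1 - t² ≥ 0` and the denominator is positive. -/
theorem pk_nonneg {c t : ℝ} (hc : -1 ≤ c) (hc1 : c < 1) (ht : -1 < t) (ht1 : t ≤ 1) :
    0 ≤ pk c t := by
  unfold pk
  exact div_nonneg (by nlinarith) (den_pos hc hc1 ht).le

/-- for `t ≥ 0` the denominator decreases in `c`. -/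
theorem pk_mono {c c' t : ℝ} (hc : -1 ≤ c) (h : c ≤ c') (hc1 : c' < 1) (ht : 0 ≤ t) (ht1 : t ≤ 1) :
    pk c t ≤ pk c' t := by
  unfold pk
  apply div_le_div_of_nonneg_left
  · nlinarith
  · exact den_pos (hc.trans h) hc1 (by linarith)
  · have h1 : c * t ≤ c' * t := mul_le_mul_of_nonneg_right h ht
    linarith

/-- `1 - 2ct + t² ≥ (1 - t)²`. -/
theorem pk_le {c t : ℝ} (hc : -1 ≤ c) (hc1 : c < 1) (ht : 0 ≤ t) (ht1 : t < 1) :
    pk c t ≤ (1 + t) / (1 - t) := by
  unfold pk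
  have hd := den_pos hc hc1 (show -1 < t by linarith)
  rw [div_le_div_iff₀ hd (by linarith)]
  have h1 : 0 ≤ 2 * t * (1 - c) * (1 + t) :=
    mul_nonneg (mul_nonneg (by linarith) (by linarith)) (by linarith)
  nlinarith

/-- `pk c t ≥ (1-t²)/(1+t²) ≥ 1 - t`. -/
theorem one_sub_le_pk {c t : ℝ} (hc : 0 ≤ c) (hc1 : c < 1) (ht : 0 ≤ t) (ht1 : t ≤ 1) :
    1 - t ≤ pk c t := by
  unfold pk
  have hd := den_pos (by linarith) hc1 (show -1 < t by linarith)
  rw [le_div_iff₀ hd]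
  have h1 : 1 - 2 * c * t + t ^ 2 ≤ 1 + t := by
    have h2 : 0 ≤ c * t := mul_nonneg hc ht
    nlinarith
  have h3 : (1 - t) * (1 - 2 * c * t + t ^ 2) ≤ (1 - t) * (1 + t) :=
    mul_le_mul_of_nonneg_left h1 (by linarith)
  linarith

theorem pk_continuousOn {c : ℝ} (hc : -1 ≤ c) (hc1 : c < 1) : ContinuousOn (pk c) (Ioi (-1)) := by
  unfold pk
  apply ContinuousOn.div
  · fun_prop
  · fun_prop
  · intro t ht
    exact (den_pos hc hc1 ht).ne'

theorem pk_intervalIntegrable {c u v : ℝ} (hc : -1 ≤ c) (hc1 : c < 1) (hu : -1 < u) (hv : -1 < v) :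
    IntervalIntegrable (pk c) volume u v := by
  apply ContinuousOn.intervalIntegrable
  apply (pk_continuousOn hc hc1).mono
  intro t ht
  have h1 := ht.1
  rw [mem_Ioi]
  exact lt_of_lt_of_le (lt_min hu hv) h1

/-- if `v ≠ 0` the second summand is positive, if `v = 0` the first one is
`(1 - 2ac + a²)² > 0` because `|a| < 1`, `|c| ≤ 1`. -/
theorem ik_den_pos {c a v : ℝ} (hc : -1 ≤ c) (hc1 : c ≤ 1) (ha : -1 < a) (ha1 : a < 1)
    (hca : c ≠ a) : 0 < (1 - 2 * a * c + a ^ 2 - v ^ 2) ^ 2 + 4 * v ^ 2 * (a - c) ^ 2 := by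
  have hD : 0 < (a - c) ^ 2 := by
    have : a - c ≠ 0 := sub_ne_zero.2 hca.symm
    positivity
  by_cases hv : v = 0
  · subst hv
    have e : 1 - 2 * a * c + a ^ 2 - 0 ^ 2 = (a - c) ^ 2 + (1 - c) * (1 + c) := by ring
    have h1 : 0 ≤ (1 - c) * (1 + c) := mul_nonneg (by linarith) (by linarith)
    have h2 : 0 < (a - c) ^ 2 + (1 - c) * (1 + c) := by linarith
    rw [e]
    have h3 := pow_pos h2 2
    have h4 : 4 * (0:ℝ) ^ 2 * (a - c) ^ 2 = 0 := by ring
    rw [h4, add_zero]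
    exact h3
  · have h1 : 0 < v ^ 2 := by positivity
    have h2 := sq_nonneg (1 - 2 * a * c + a ^ 2 - v ^ 2)
    have h3 : 0 < 4 * v ^ 2 * (a - c) ^ 2 := by positivity
    linarith

theorem ik_continuous {c a : ℝ} (hc : -1 ≤ c) (hc1 : c ≤ 1) (ha : -1 < a) (ha1 : a < 1)
    (hca : c ≠ a) : Continuous (ik c a) := by
  unfold ik
  apply Continuous.div
  · fun_prop
  · fun_prop
  · intro v
    exact (ik_den_pos hc hc1 ha ha1 hca).ne'

/-- The imaginary part of `(1-w²)/(1-2cw+w²)`, `w = a + iv`, is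
`Im((1-w²) conj(1-2cw+w²)) / |1-2cw+w²|²` (both sides are `0` if the denominator vanishes);
`|1-2cw+w²|² = (1-2ac+a²-v²)² + 4v²(a-c)²`. -/
theorem pkC_im (c a v : ℝ) : (pkC c ((a:ℂ) + v * I)).im = ik c a v := by
  have hre : ((1:ℂ) - 2 * (c:ℂ) * ((a:ℂ) + v * I) + ((a:ℂ) + v * I) ^ 2).re =
      1 - 2 * a * c + a ^ 2 - v ^ 2 := by
    simp only [pow_two, Complex.add_re, Complex.sub_re, Complex.mul_re, Complex.mul_im,
      Complex.add_im, Complex.ofReal_re, Complex.ofReal_im, Complex.I_re, Complex.I_im,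
      Complex.one_re, Complex.re_ofNat, Complex.im_ofNat]
    ring
  have him : ((1:ℂ) - 2 * (c:ℂ) * ((a:ℂ) + v * I) + ((a:ℂ) + v * I) ^ 2).im =
      2 * v * (a - c) := by
    simp only [pow_two, Complex.add_re, Complex.sub_im, Complex.mul_re, Complex.mul_im,
      Complex.add_im, Complex.ofReal_re, Complex.ofReal_im, Complex.I_re, Complex.I_im,
      Complex.one_im, Complex.re_ofNat, Complex.im_ofNat]
    ring
  have hre2 : ((1:ℂ) - ((a:ℂ) + v * I) ^ 2).re = 1 - a ^ 2 + v ^ 2 := by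
    simp only [pow_two, Complex.add_re, Complex.sub_re, Complex.mul_re, Complex.mul_im,
      Complex.add_im, Complex.ofReal_re, Complex.ofReal_im, Complex.I_re, Complex.I_im,
      Complex.one_re]
    ring
  have him2 : ((1:ℂ) - ((a:ℂ) + v * I) ^ 2).im = -(2 * a * v) := by
    simp only [pow_two, Complex.add_re, Complex.sub_im, Complex.mul_re, Complex.mul_im,
      Complex.add_im, Complex.ofReal_re, Complex.ofReal_im, Complex.I_re, Complex.I_im,
      Complex.one_im]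
    ring
  unfold pkC ik
  rw [Complex.div_im, hre2, him2, ← sub_div, Complex.normSq_apply, hre, him]
  congr 1 <;> ring

theorem pkC_ofReal (c t : ℝ) : pkC c (t : ℂ) = (pk c t : ℂ) := by
  unfold pkC pk
  push_cast
  rfl

end Pool.Agent.Howell
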