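import Pool.Agent.Howell.Defs

set_option autoImplicit false

namespace Pool.Agent.Howell

open Complex Set MeasureTheory intervalIntegral

private theorem KLogInt_atanh {x : ℝ} (h0 : 0 ≤ x) (h1 : x < 1) :
    2 * x ≤ Real.log (1 + x) - Real.log (1 - x) := by
  have h := Real.hasSum_log_sub_log_of_abs_lt_one (x := x) (by rw [abs_of_nonneg h0]; exact h1)
  have h2 := le_hasSum h 0 (fun i _ => by positivity)
  simpa using h2

/-- `(1-σ) log(1-σ) + (1+σ) log(1+σ) ≥ σ²` for `0 ≤ σ ≤ 1`. (Derivative of the difference: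
`log((1+σ)/(1-σ)) - 2σ ≥ 0`, e.g. from `artanh`-type bound; or `f'' = 2/(1-σ²) - 2 ≥ 0`,
`f(0) = f'(0) = 0`. At `σ = 1` Lean's `0 * log 0 = 0`.) -/
theorem h_ge_sq {σ : ℝ} (h0 : 0 ≤ σ) (h1 : σ ≤ 1) :
    σ ^ 2 ≤ (1 - σ) * Real.log (1 - σ) + (1 + σ) * Real.log (1 + σ) := by
  set f : ℝ → ℝ := fun x => (1 - x) * Real.log (1 - x) + (1 + x) * Real.log (1 + x) - x ^ 2 with hf
  have hmono : MonotoneOn f (Icc 0 1) := by
    apply monotoneOn_of_deriv_nonneg (convex_Icc 0 1)
    · have c1 : Continuous fun x : ℝ => (1 - x) * Real.log (1 - x) :=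
        Real.continuous_mul_log.comp (continuous_const.sub continuous_id)
      have c2 : Continuous fun x : ℝ => (1 + x) * Real.log (1 + x) :=
        Real.continuous_mul_log.comp (continuous_const.add continuous_id)
      exact ((c1.add c2).sub (continuous_pow 2)).continuousOn
    · intro x hx
      rw [interior_Icc] at hx
      have h3 : (1 : ℝ) - x ≠ 0 := by linarith [hx.2]
      have h4 : (1 : ℝ) + x ≠ 0 := by linarith [hx.1]
      apply DifferentiableAt.differentiableWithinAt
      fun_prop (disch := assumption)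
    · intro x hx
      rw [interior_Icc] at hx
      have h3 : (1 : ℝ) - x ≠ 0 := by linarith [hx.2]
      have h4 : (1 : ℝ) + x ≠ 0 := by linarith [hx.1]
      have d0 : HasDerivAt (fun y : ℝ => 1 - y) (-1) x := by
        simpa using (hasDerivAt_id x).const_sub 1
      have d0' : HasDerivAt (fun y : ℝ => 1 + y) 1 x := by
        simpa using (hasDerivAt_id x).const_add 1
      have d1 := d0.mul (d0.log h3)
      have d2 := d0'.mul (d0'.log h4)
      have d3 := (d1.add d2).sub (hasDerivAt_pow 2 x)
      have d4 : HasDerivAt f (Real.log (1 + x) - Real.log (1 - x) - 2 * x) x := by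
        refine d3.congr_deriv ?_
        have e1 : (1 - x) * (-1 / (1 - x)) = -1 := by field_simp
        have e2 : (1 + x) * (1 / (1 + x)) = 1 := by field_simp
        simp only [e1, e2]
        push_cast
        ring
      rw [d4.deriv]
      have := KLogInt_atanh hx.1.le hx.2
      linarith
  have h2 := hmono (left_mem_Icc.2 zero_le_one) ⟨h0, h1⟩ h0
  simp only [hf] at h2
  simp at h2
  linarith

private theorem KLogInt_ae {b s : ℝ} (hs : 0 < s) :
    ∀ᵐ v : ℝ, v ∈ uIoc (0 : ℝ) b → Real.log (v ^ 2 - s ^ 2) = Real.log (v - s) + Real.log (v + s) := by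
  have h1 : ∀ᵐ v : ℝ, v ≠ s := by
    simp [ae_iff, measure_singleton]
  have h2 : ∀ᵐ v : ℝ, v ≠ -s := by
    simp [ae_iff, measure_singleton]
  filter_upwards [h1, h2] with v hv hv' _
  rw [← Real.log_mul (sub_ne_zero.2 hv) (fun h => hv' (by linarith))]
  congr 1
  ring

private theorem KLogInt_i1 (b s : ℝ) :
    IntervalIntegrable (fun v => Real.log (v - s)) volume 0 b := by
  have h := (intervalIntegrable_log' (a := 0 - s) (b := b - s)).comp_sub_right s
  simpa using h

private theorem KLogInt_i2 (b s : ℝ) :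
    IntervalIntegrable (fun v => Real.log (v + s)) volume 0 b := by
  have h := (intervalIntegrable_log' (a := 0 + s) (b := b + s)).comp_add_right s
  simpa using h

/-- `∫₀^b log|v² - s²| dv = (b-s) log(b-s) + (b+s) log(b+s) - 2b` (`Real.log` is even,
`log|v²-s²| = log(v-s) + log(v+s)` a.e., `integral_log`), and with `σ = s/b`:
`= b (2 log b - 2 + h(σ)) ≥ b (2 log b - 2 + σ²) ≥ b (2 log s - 1)`
(`σ² - 1 ≥ log σ² = 2 log s - 2 log b`). -/
theorem int_log_ge {b s : ℝ} (hs : 0 < s) (hsb : s < b) :
    b * (2 * Real.log s - 1) ≤ ∫ v in (0:ℝ)..b, Real.log (v ^ 2 - s ^ 2) := by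
  have hb : 0 < b := hs.trans hsb
  have e1 : ∫ v in (0:ℝ)..b, Real.log (v ^ 2 - s ^ 2) =
      (b - s) * Real.log (b - s) + (b + s) * Real.log (b + s) - 2 * b := by
    rw [intervalIntegral.integral_congr_ae (KLogInt_ae (b := b) hs),
      intervalIntegral.integral_add (KLogInt_i1 b s) (KLogInt_i2 b s),
      intervalIntegral.integral_comp_sub_right (fun x => Real.log x),
      intervalIntegral.integral_comp_add_right (fun x => Real.log x), integral_log, integral_log]
    rw [show (0 : ℝ) - s = -s by ring, Real.log_neg_eq_log, zero_add]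
    ring
  have h1 : 0 ≤ s / b := by positivity
  have h2 : s / b ≤ 1 := (div_le_one hb).2 hsb.le
  have h3 := h_ge_sq h1 h2
  have hσ : 0 < s / b := by positivity
  have f1 : (b - s) = b * (1 - s / b) := by field_simp
  have f2 : (b + s) = b * (1 + s / b) := by field_simp
  have g1 : 0 < 1 - s / b := by
    have := (div_lt_one hb).2 hsb
    linarith
  have g2 : 0 < 1 + s / b := by linarith
  have k1 : Real.log (b - s) = Real.log b + Real.log (1 - s / b) := by
    rw [f1, Real.log_mul hb.ne' g1.ne']
  have k2 : Real.log (b + s) = Real.log b + Real.log (1 + s / b) := by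
    rw [f2, Real.log_mul hb.ne' g2.ne']
  have k3 : 2 * (Real.log s - Real.log b) ≤ (s / b) ^ 2 - 1 := by
    have h4 := Real.log_le_sub_one_of_pos (show 0 < (s / b) ^ 2 by positivity)
    rw [Real.log_pow, Real.log_div hs.ne' hb.ne'] at h4
    exact_mod_cast h4
  have e2 : (b - s) * Real.log (b - s) + (b + s) * Real.log (b + s) =
      b * (2 * Real.log b + ((1 - s / b) * Real.log (1 - s / b) +
        (1 + s / b) * Real.log (1 + s / b))) := by
    rw [k1, k2]
    nth_rewrite 1 [f1]
    nth_rewrite 1 [f2]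
    ring
  rw [e1, e2]
  have e3 : b * (2 * Real.log s - 1) ≤ b * (2 * Real.log b - 2 + (s / b) ^ 2) :=
    mul_le_mul_of_nonneg_left (by linarith) hb.le
  have e4 : b * (2 * Real.log b - 2 + (s / b) ^ 2) ≤ b * (2 * Real.log b - 2 +
      ((1 - s / b) * Real.log (1 - s / b) + (1 + s / b) * Real.log (1 + s / b))) :=
    mul_le_mul_of_nonneg_left (by linarith) hb.le
  have e5 : b * (2 * Real.log b - 2 +
      ((1 - s / b) * Real.log (1 - s / b) + (1 + s / b) * Real.log (1 + s / b))) =
      b * (2 * Real.log b + ((1 - s / b) * Real.log (1 - s / b) +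
        (1 + s / b) * Real.log (1 + s / b))) - 2 * b := by ring
  linarith

/-- integrability of the same function (`log(v-s) + log(v+s)`,
`intervalIntegral.intervalIntegrable_log'` and translations). -/
theorem int_log_integrable {b s : ℝ} (hs : 0 < s) (hsb : s < b) :
    IntervalIntegrable (fun v => Real.log (v ^ 2 - s ^ 2)) volume 0 b := by
  refine ((KLogInt_i1 b s).add (KLogInt_i2 b s)).congr_ae ?_
  rw [Filter.EventuallyEq, ae_restrict_iff' measurableSet_uIoc]
  filter_upwards [KLogInt_ae (b := b) hs] with v hv hv'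
  exact (hv hv').symm

end Pool.Agent.Howell
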