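import Pool.Agent.Howell.KBasic

set_option autoImplicit false

namespace Pool.Agent.Howell

open Complex Set MeasureTheory intervalIntegral

theorem KNeg1_pk {t : ℝ} (ht : -1 < t) : pk (-1) t = 2 / (1 + t) - 1 := by
  have h : 1 + t ≠ 0 := by linarith
  have h2 : 1 - 2 * (-1) * t + t ^ 2 = (1 + t) * (1 + t) := by ring
  unfold pk
  rw [h2]
  field_simp
  ring

theorem KNeg1_int1 {a : ℝ} (ha : -1 < a) (ha1 : a < 1) :
    ∫ t in a..1, pk (-1) t = 2 * Real.log 2 - 2 * Real.log (1 + a) - (1 - a) := by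
  have hd : ∀ t ∈ uIcc a 1, HasDerivAt (fun t => 2 * Real.log (1 + t) - t) (pk (-1) t) t := by
    intro t ht
    rw [uIcc_of_le ha1.le, mem_Icc] at ht
    have h : 1 + t ≠ 0 := by linarith
    rw [KNeg1_pk (by linarith)]
    have h1 : HasDerivAt (fun t : ℝ => Real.log (1 + t)) (1 / (1 + t)) t :=
      ((hasDerivAt_id t).const_add 1).log h
    have h2 : HasDerivAt (fun t => 2 * Real.log (1 + t) - t) (2 * (1 / (1 + t)) - 1) t :=
      (h1.const_mul 2).sub (hasDerivAt_id t)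
    have h3 : 2 / (1 + t) - 1 = 2 * (1 / (1 + t)) - 1 := by ring
    rw [h3]
    exact h2
  rw [integral_eq_sub_of_hasDerivAt hd (pk_intervalIntegrable le_rfl (by norm_num) ha (by norm_num))]
  norm_num
  ring

theorem KNeg1_ik {A y : ℝ} (hA : 0 < A) : ik (-1) (A - 1) y = -(2 * y) / (A ^ 2 + y ^ 2) := by
  unfold ik
  have h1 : 0 < A ^ 2 + y ^ 2 := by positivity
  have h2 : (1 - 2 * (A - 1) * (-1) + (A - 1) ^ 2 - y ^ 2) ^ 2 + 4 * y ^ 2 * (A - 1 - (-1)) ^ 2
      = (A ^ 2 + y ^ 2) ^ 2 := by ring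
  rw [h2, div_eq_div_iff (by positivity) h1.ne']
  ring

theorem KNeg1_int2 {A b : ℝ} (hA : 0 < A) :
    ∫ y in (0:ℝ)..b, (b - y) * ik (-1) (A - 1) y
      = -b * Real.log (A ^ 2 + b ^ 2) + b * Real.log (A ^ 2) + 2 * b
        - 2 * A * Real.arctan (b / A) := by
  have hd : ∀ y ∈ uIcc 0 b, HasDerivAt
      (fun y => -b * Real.log (A ^ 2 + y ^ 2) + 2 * y - 2 * A * Real.arctan (y / A))
      ((b - y) * ik (-1) (A - 1) y) y := by
    intro y _
    have h1 : 0 < A ^ 2 + y ^ 2 := by positivity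
    rw [KNeg1_ik hA]
    have h2 : HasDerivAt (fun y : ℝ => A ^ 2 + y ^ 2) (2 * y) y := by
      have := (hasDerivAt_pow 2 y).const_add (A ^ 2)
      simpa using this
    have h3 : HasDerivAt (fun y : ℝ => Real.log (A ^ 2 + y ^ 2)) (2 * y / (A ^ 2 + y ^ 2)) y :=
      h2.log h1.ne'
    have h4 : HasDerivAt (fun y : ℝ => Real.arctan (y / A)) (1 / (1 + (y / A) ^ 2) * (1 / A)) y :=
      ((hasDerivAt_id y).div_const A).arctan
    have h5 : HasDerivAt
        (fun y => -b * Real.log (A ^ 2 + y ^ 2) + 2 * y - 2 * A * Real.arctan (y / A))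
        (-b * (2 * y / (A ^ 2 + y ^ 2)) + 2 * 1 - 2 * A * (1 / (1 + (y / A) ^ 2) * (1 / A))) y :=
      ((h3.const_mul (-b)).add ((hasDerivAt_id y).const_mul 2)).sub (h4.const_mul (2 * A))
    have h6 : A ^ 2 + y ^ 2 ≠ 0 := h1.ne'
    have h7 : (1 + (y / A) ^ 2) = (A ^ 2 + y ^ 2) / A ^ 2 := by field_simp
    have h8 : (b - y) * (-(2 * y) / (A ^ 2 + y ^ 2))
        = -b * (2 * y / (A ^ 2 + y ^ 2)) + 2 * 1 - 2 * A * (1 / (1 + (y / A) ^ 2) * (1 / A)) := by
      rw [h7]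
      field_simp
      ring
    rw [h8]
    exact h5
  have hc : Continuous fun y => (b - y) * ik (-1) (A - 1) y := by
    have h1 : (fun y => (b - y) * ik (-1) (A - 1) y) =
        fun y => (b - y) * (-(2 * y) / (A ^ 2 + y ^ 2)) := by
      funext y
      rw [KNeg1_ik hA]
    rw [h1]
    refine (continuous_const.sub continuous_id).mul (Continuous.div (by fun_prop) (by fun_prop) ?_)
    intro y
    positivity
  rw [integral_eq_sub_of_hasDerivAt hd (hc.intervalIntegrable _ _)]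
  simp
  ring

/-- Closed form for `c = -1`. With `a = (1-v²)/(1+v²)`, `v > 0` (so `b = √(1-a²) = 2v/(1+v²)`,
`1+a = 2/(1+v²)`, `b/(1+a) = v`):
`W(-1, a) = log(1+v²) + 2/(1+v²) - (2/v) arctan v`.
Proof: `pk (-1) t = 2/(1+t) - 1`: `∫_a^1 = 2 log(2/(1+a)) - (1-a)`.
`ik (-1) a y = -2y/((1+a)²+y²)` (the denominator is a square), and
`∫₀^b (b-y) 2y/((1+a)²+y²) dy = b log(1 + b²/(1+a)²) - 2b + 2(1+a) arctan(b/(1+a))`. -/
theorem Wk_neg_one {v : ℝ} (hv : 0 < v) :
    Wk (-1) ((1 - v ^ 2) / (1 + v ^ 2))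
      = Real.log (1 + v ^ 2) + 2 / (1 + v ^ 2) - 2 / v * Real.arctan v := by
  have hv2 : 0 < 1 + v ^ 2 := by positivity
  set A : ℝ := 2 / (1 + v ^ 2) with hAdef
  have hA : 0 < A := by positivity
  have ha : (1 - v ^ 2) / (1 + v ^ 2) = A - 1 := by
    rw [hAdef]
    field_simp
    ring
  have hA2 : A < 2 := by
    rw [hAdef, div_lt_iff₀ hv2]
    nlinarith [sq_pos_of_pos hv]
  have hb : √(1 - (A - 1) ^ 2) = A * v := by
    rw [show 1 - (A - 1) ^ 2 = (A * v) ^ 2 by rw [hAdef]; field_simp; ring]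
    exact Real.sqrt_sq (by positivity)
  unfold Wk
  rw [ha, hb, KNeg1_int1 (by linarith) (by linarith), KNeg1_int2 hA]
  have h1 : A ^ 2 + (A * v) ^ 2 = A ^ 2 * (1 + v ^ 2) := by ring
  have h2 : A * v / A = v := by field_simp
  have h3 : Real.log (1 + (A - 1)) = Real.log 2 - Real.log (1 + v ^ 2) := by
    rw [show 1 + (A - 1) = 2 / (1 + v ^ 2) by rw [hAdef]; ring, Real.log_div (by norm_num) hv2.ne']
  rw [h1, h2, h3, Real.log_mul (by positivity) hv2.ne']
  have h4 : A * v ≠ 0 := by positivity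
  have h5 : 1 / (A * v) * (-(A * v) * (Real.log (A ^ 2) + Real.log (1 + v ^ 2))
      + A * v * Real.log (A ^ 2) + 2 * (A * v) - 2 * A * Real.arctan v)
      = -Real.log (1 + v ^ 2) + 2 - 2 / v * Real.arctan v := by
    field_simp
    ring
  rw [h5]
  ring

end Pool.Agent.Howell
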