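import Pool.Agent.Howell.Defs

set_option autoImplicit false

namespace Pool.Agent.Howell

namespace KNeg1NumAux

lemma hasDeriv_g (v : ℝ) : HasDerivAt (fun v : ℝ => Real.pi / 4 + (v - 1) / 2 - (v - 1) ^ 2 / 4
    - Real.arctan v) ((2 - v) / 2 - 1 / (1 + v ^ 2)) v := by
  have h1 : HasDerivAt (fun v : ℝ => Real.pi / 4 + (v - 1) / 2 - (v - 1) ^ 2 / 4)
      (0 + 1 / 2 - (((2 : ℕ) : ℝ) * (v - 1) ^ (2 - 1) * 1) / 4) v := by
    have a : HasDerivAt (fun v : ℝ => v - 1) 1 v := (hasDerivAt_id v).sub_const 1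
    exact ((hasDerivAt_const v (Real.pi / 4)).add (a.div_const 2)).sub ((a.pow 2).div_const 4)
  have h2 : HasDerivAt (fun v : ℝ => Real.pi / 4 + (v - 1) / 2 - (v - 1) ^ 2 / 4
    - Real.arctan v) _ v := h1.sub (Real.hasDerivAt_arctan v)
  refine h2.congr_deriv ?_
  norm_num
  ring

lemma hasDeriv_h (v : ℝ) : HasDerivAt (fun v : ℝ => Real.pi / 4 + (v - 1) / 2
    - Real.arctan v) (1 / 2 - 1 / (1 + v ^ 2)) v := by
  have h1 : HasDerivAt (fun v : ℝ => Real.pi / 4 + (v - 1) / 2) (0 + 1 / 2) v := by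
    have a : HasDerivAt (fun v : ℝ => v - 1) 1 v := (hasDerivAt_id v).sub_const 1
    exact (hasDerivAt_const v (Real.pi / 4)).add (a.div_const 2)
  have h2 : HasDerivAt (fun v : ℝ => Real.pi / 4 + (v - 1) / 2
    - Real.arctan v) _ v := h1.sub (Real.hasDerivAt_arctan v)
  refine h2.congr_deriv ?_
  norm_num

lemma arctan_le2 {v : ℝ} (h0 : 0 ≤ v) (h1 : v ≤ 1) :
    Real.arctan v ≤ Real.pi / 4 + (v - 1) / 2 - (v - 1) ^ 2 / 4 := by
  have anti : AntitoneOn (fun v : ℝ => Real.pi / 4 + (v - 1) / 2 - (v - 1) ^ 2 / 4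
      - Real.arctan v) (Set.Icc 0 1) := by
    apply antitoneOn_of_deriv_nonpos (convex_Icc 0 1)
    · exact fun x _ => (hasDeriv_g x).continuousAt.continuousWithinAt
    · exact fun x _ => (hasDeriv_g x).differentiableAt.differentiableWithinAt
    · intro x hx
      rw [interior_Icc] at hx
      rw [(hasDeriv_g x).deriv]
      have hx2 : 0 < 1 + x ^ 2 := by positivity
      have : (2 - x) / 2 ≤ 1 / (1 + x ^ 2) := by
        rw [div_le_div_iff₀ (by norm_num) hx2]
        have e : 1 * 2 - (2 - x) * (1 + x ^ 2) = x * (1 - x) ^ 2 := by ring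
        have : 0 ≤ x * (1 - x) ^ 2 := mul_nonneg hx.1.le (sq_nonneg _)
        linarith
      linarith
  have := anti ⟨h0, h1⟩ ⟨zero_le_one, le_refl 1⟩ h1
  simp only [Real.arctan_one] at this
  norm_num at this
  linarith

lemma arctan_le1 {v : ℝ} (h0 : 0 ≤ v) : Real.arctan v ≤ Real.pi / 4 + (v - 1) / 2 := by
  rcases le_total v 1 with h1 | h1
  · have := arctan_le2 h0 h1
    have := sq_nonneg (v - 1)
    linarith
  · have mono : MonotoneOn (fun v : ℝ => Real.pi / 4 + (v - 1) / 2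
        - Real.arctan v) (Set.Ici 1) := by
      apply monotoneOn_of_deriv_nonneg (convex_Ici 1)
      · exact fun x _ => (hasDeriv_h x).continuousAt.continuousWithinAt
      · exact fun x _ => (hasDeriv_h x).differentiableAt.differentiableWithinAt
      · intro x hx
        rw [interior_Ici] at hx
        rw [(hasDeriv_h x).deriv]
        have hx' : 1 < x := hx
        have : 1 / (1 + x ^ 2) ≤ 1 / 2 := by
          apply one_div_le_one_div_of_le (by norm_num)
          nlinarith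
        linarith
    have := mono (Set.mem_Ici.2 (le_refl 1)) (Set.mem_Ici.2 h1) h1
    simp only [Real.arctan_one] at this
    norm_num at this
    linarith

lemma log_ge1 {x : ℝ} (h0 : 0 < x) (h1 : x ≤ 1) : (x - 1 / x) / 2 ≤ Real.log x := by
  have hd : ∀ y : ℝ, 0 < y → HasDerivAt (fun y : ℝ => Real.log y - (y - 1 / y) / 2)
      (-((y - 1) ^ 2 / (2 * y ^ 2))) y := by
    intro y hy
    have a := Real.hasDerivAt_log hy.ne'
    have b : HasDerivAt (fun y : ℝ => (y - 1 / y) / 2) ((1 - -(y ^ 2)⁻¹) / 2) y := by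
      have c := (hasDerivAt_id y).sub (hasDerivAt_inv hy.ne')
      have e : (fun y : ℝ => (y - 1 / y) / 2) = fun y : ℝ => (id y - y⁻¹) / 2 := by
        funext z; simp
      rw [e]
      exact c.div_const 2
    have c : HasDerivAt (fun y : ℝ => Real.log y - (y - 1 / y) / 2) _ y := a.sub b
    refine c.congr_deriv ?_
    field_simp
    ring
  have anti : AntitoneOn (fun y : ℝ => Real.log y - (y - 1 / y) / 2) (Set.Ioc 0 1) := by
    apply antitoneOn_of_deriv_nonpos (convex_Ioc 0 1)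
    · exact fun y hy => (hd y hy.1).continuousAt.continuousWithinAt
    · intro y hy
      rw [interior_Ioc] at hy
      exact (hd y hy.1).differentiableAt.differentiableWithinAt
    · intro y hy
      rw [interior_Ioc] at hy
      rw [(hd y hy.1).deriv]
      have : 0 ≤ (y - 1) ^ 2 / (2 * y ^ 2) := by positivity
      linarith
  have := anti ⟨h0, h1⟩ ⟨zero_lt_one, le_refl 1⟩ h1
  simp only [Real.log_one] at this
  norm_num at this
  have e : x⁻¹ = 1 / x := by simp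
  rw [e] at this
  linarith

lemma log_ge2 {x : ℝ} (h1 : 1 ≤ x) : 2 * (x - 1) / (x + 1) ≤ Real.log x := by
  have hd : ∀ y : ℝ, 0 < y → HasDerivAt (fun y : ℝ => Real.log y - 2 * (y - 1) / (y + 1))
      ((y - 1) ^ 2 / (y * (y + 1) ^ 2)) y := by
    intro y hy
    have a := Real.hasDerivAt_log hy.ne'
    have b1 : HasDerivAt (fun y : ℝ => 2 * (y - 1)) (2 * 1) y :=
      ((hasDerivAt_id y).sub_const 1).const_mul 2
    have b2 : HasDerivAt (fun y : ℝ => y + 1) 1 y := (hasDerivAt_id y).add_const 1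
    have b := b1.div b2 (by positivity)
    have c : HasDerivAt (fun y : ℝ => Real.log y - 2 * (y - 1) / (y + 1)) _ y := a.sub b
    refine c.congr_deriv ?_
    field_simp
    ring
  have mono : MonotoneOn (fun y : ℝ => Real.log y - 2 * (y - 1) / (y + 1)) (Set.Ici 1) := by
    apply monotoneOn_of_deriv_nonneg (convex_Ici 1)
    · intro y hy
      have : (0 : ℝ) < y := lt_of_lt_of_le one_pos hy
      exact (hd y this).continuousAt.continuousWithinAt
    · intro y hy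
      rw [interior_Ici] at hy
      have : (0 : ℝ) < y := lt_trans one_pos hy
      exact (hd y this).differentiableAt.differentiableWithinAt
    · intro y hy
      rw [interior_Ici] at hy
      have : (0 : ℝ) < y := lt_trans one_pos hy
      rw [(hd y this).deriv]
      positivity
  have := mono (Set.mem_Ici.2 (le_refl 1)) (Set.mem_Ici.2 h1) h1
  simp only [Real.log_one] at this
  norm_num at this
  linarith

end KNeg1NumAux

open KNeg1NumAux

/-- `w(v) ≥ 0` on `[3/4, 1]` (min `0.0102` at `v = 3/4`). Use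
`arctan v ≤ π/4 + (v-1)/2 - (v-1)²/4` for `v ≤ 1` (derivative: `1/(1+v²) ≥ 1/2 - (v-1)/2` on
`v ≤ 1` since `2 - (2-v)(1+v²) = v (1-v)² ≥ 0`; equality at `1`), and
`log(1+v²) ≥ log 2 + (x - 1/x)/2`, `x = (1+v²)/2 ≤ 1` (`log x ≥ (x - 1/x)/2` for `x ≤ 1`).
Remaining rational inequality (with `log 2 ≥ 0.6931`, `π ≤ 3.1416`): min about `0.004` at `3/4`. -/
theorem w_nonneg {v : ℝ} (h0 : 3 / 4 ≤ v) (h1 : v ≤ 1) :
    0 ≤ Real.log (1 + v ^ 2) + 2 / (1 + v ^ 2) - 2 / v * Real.arctan v := by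
  have hv : 0 < v := by linarith
  have hx : 0 < 1 + v ^ 2 := by positivity
  have l1 : Real.log (1 + v ^ 2) = Real.log 2 + Real.log ((1 + v ^ 2) / 2) := by
    rw [← Real.log_mul (by norm_num) (by positivity)]
    congr 1
    ring
  have l2 := log_ge1 (x := (1 + v ^ 2) / 2) (by positivity) (by nlinarith)
  have l3 := Real.log_two_gt_d9
  have a1 := arctan_le2 hv.le h1
  have a2 := Real.pi_lt_d4
  have a3 : 2 / v * Real.arctan v ≤ 2 / v * (0.7854 + (v - 1) / 2 - (v - 1) ^ 2 / 4) := by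
    apply mul_le_mul_of_nonneg_left _ (by positivity)
    linarith
  have key : 0 ≤ 0.6931 + ((1 + v ^ 2) / 2 - 1 / ((1 + v ^ 2) / 2)) / 2 + 2 / (1 + v ^ 2)
      - 2 / v * (0.7854 + (v - 1) / 2 - (v - 1) ^ 2 / 4) := by
    have e : 0.6931 + ((1 + v ^ 2) / 2 - 1 / ((1 + v ^ 2) / 2)) / 2 + 2 / (1 + v ^ 2)
      - 2 / v * (0.7854 + (v - 1) / 2 - (v - 1) ^ 2 / 4) =
      (v * (1 + v ^ 2) * (-1.0569 + 0.25 * v ^ 2 + 0.5 * v) + v - 0.0708 * (1 + v ^ 2)) /
        (v * (1 + v ^ 2)) := by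
      field_simp
      ring
    rw [e]
    apply div_nonneg _ (by positivity)
    nlinarith [mul_nonneg (sub_nonneg.2 h0) (sub_nonneg.2 h1), mul_nonneg (mul_nonneg (sub_nonneg.2 h0) (sub_nonneg.2 h1)) hv.le, mul_nonneg (mul_nonneg (sub_nonneg.2 h0) (sub_nonneg.2 h1)) (sq_nonneg v), mul_nonneg (mul_nonneg (sub_nonneg.2 h0) (sub_nonneg.2 h1)) (mul_nonneg hv.le (sq_nonneg v)), sub_nonneg.2 h0, sub_nonneg.2 h1]
  rw [l1]
  linarith

/-- `f(v) = w(v) + a log 2`, `a = (1-v²)/(1+v²)`, equals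
`log((1+v²)/2) + 2(1+log 2)/(1+v²) - (2/v) arctan v`; true minimum `0.117` (at `v = 1.08`).
Use `arctan v ≤ π/4 + (v-1)/2` (tangent line, concave on `v ≥ 0`), and for `x = (1+v²)/2`:
`log x ≥ 2(x-1)/(x+1)` if `x ≥ 1`, `log x ≥ (x-1/x)/2` if `x ≤ 1`. Then for `v ≥ 1`:
`f ≥ 1 - 8/(v²+3) + 3.386/(1+v²) - 0.5708/v ≥ 0.1`, for `3/4 ≤ v ≤ 1` similar (`≥ 0.12`). -/
theorem f_ge {v : ℝ} (h0 : 3 / 4 ≤ v) :
    1 / 20 ≤ Real.log (1 + v ^ 2) + 2 / (1 + v ^ 2) - 2 / v * Real.arctan v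
      + (1 - v ^ 2) / (1 + v ^ 2) * Real.log 2 := by
  have hv : 0 < v := by linarith
  have hx : 0 < 1 + v ^ 2 := by positivity
  have l1 : Real.log (1 + v ^ 2) = Real.log 2 + Real.log ((1 + v ^ 2) / 2) := by
    rw [← Real.log_mul (by norm_num) (by positivity)]
    congr 1
    ring
  have l3 := Real.log_two_gt_d9
  have a1 := arctan_le1 hv.le
  have a2 := Real.pi_lt_d4
  have a3 : 2 / v * Real.arctan v ≤ 2 / v * (0.7854 + (v - 1) / 2) := by
    apply mul_le_mul_of_nonneg_left _ (by positivity)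
    linarith
  have e1 : Real.log 2 + (1 - v ^ 2) / (1 + v ^ 2) * Real.log 2 = 2 / (1 + v ^ 2) * Real.log 2 := by
    field_simp
    ring
  have e2 : 2 / (1 + v ^ 2) * 0.6931 ≤ 2 / (1 + v ^ 2) * Real.log 2 := by
    apply mul_le_mul_of_nonneg_left _ (by positivity)
    linarith
  rw [l1]
  rcases le_total v 1 with h1 | h1
  · have l2 := log_ge1 (x := (1 + v ^ 2) / 2) (by positivity) (by nlinarith)
    have key : 1 / 20 ≤ ((1 + v ^ 2) / 2 - 1 / ((1 + v ^ 2) / 2)) / 2 + 2 / (1 + v ^ 2)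
        + 2 / (1 + v ^ 2) * 0.6931 - 2 / v * (0.7854 + (v - 1) / 2) := by
      have e : ((1 + v ^ 2) / 2 - 1 / ((1 + v ^ 2) / 2)) / 2 + 2 / (1 + v ^ 2)
        + 2 / (1 + v ^ 2) * 0.6931 - 2 / v * (0.7854 + (v - 1) / 2) - 1 / 20 =
        (0.25 * v ^ 5 - 0.55 * v ^ 3 - 0.5708 * v ^ 2 + 1.5862 * v - 0.5708) /
          (v * (1 + v ^ 2)) := by
        field_simp
        ring
      have : 0 ≤ (0.25 * v ^ 5 - 0.55 * v ^ 3 - 0.5708 * v ^ 2 + 1.5862 * v - 0.5708) /
          (v * (1 + v ^ 2)) := by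
        apply div_nonneg _ (by positivity)
        nlinarith [mul_nonneg (sub_nonneg.2 h0) (sub_nonneg.2 h1), mul_nonneg (mul_nonneg (sub_nonneg.2 h0) (sub_nonneg.2 h1)) hv.le, mul_nonneg (mul_nonneg (sub_nonneg.2 h0) (sub_nonneg.2 h1)) (sq_nonneg v), mul_nonneg (mul_nonneg (sub_nonneg.2 h0) (sub_nonneg.2 h1)) (mul_nonneg hv.le (sq_nonneg v)), sub_nonneg.2 h0, sub_nonneg.2 h1]
      linarith
    linarith
  · have l2 := log_ge2 (x := (1 + v ^ 2) / 2) (by nlinarith)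
    have key : 1 / 20 ≤ 2 * ((1 + v ^ 2) / 2 - 1) / ((1 + v ^ 2) / 2 + 1) + 2 / (1 + v ^ 2)
        + 2 / (1 + v ^ 2) * 0.6931 - 2 / v * (0.7854 + (v - 1) / 2) := by
      have e : 2 * ((1 + v ^ 2) / 2 - 1) / ((1 + v ^ 2) / 2 + 1) + 2 / (1 + v ^ 2)
        + 2 / (1 + v ^ 2) * 0.6931 - 2 / v * (0.7854 + (v - 1) / 2) - 1 / 20 =
        (0.95 * v ^ 5 - 0.5708 * v ^ 4 - 0.8138 * v ^ 3 - 2.2832 * v ^ 2 + 5.0086 * v - 1.7124) /
          (v * (v ^ 2 + 3) * (1 + v ^ 2)) := by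
        have : (1 + v ^ 2) / 2 + 1 = (v ^ 2 + 3) / 2 := by ring
        rw [this]
        field_simp
        ring
      have : 0 ≤ (0.95 * v ^ 5 - 0.5708 * v ^ 4 - 0.8138 * v ^ 3 - 2.2832 * v ^ 2 + 5.0086 * v
          - 1.7124) / (v * (v ^ 2 + 3) * (1 + v ^ 2)) := by
        apply div_nonneg _ (by positivity)
        obtain ⟨s, hs⟩ : ∃ s, s = v - 1 := ⟨_, rfl⟩
        have hs0 : 0 ≤ s := by linarith
        have : v = s + 1 := by linarith
        subst this
        have p2 := mul_nonneg hs0 hs0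
        have p3 := mul_nonneg p2 hs0
        have p4 := mul_nonneg p3 hs0
        have p5 := mul_nonneg p4 hs0
        nlinarith
      linarith
    linarith

end Pool.Agent.Howell
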