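import Pool.Agent.Howell.KBasic

set_option autoImplicit false

namespace Pool.Agent.Howell

open Complex Set MeasureTheory intervalIntegral

private theorem KPrim_norm (θ : ℝ) (w : ℂ) : ‖w * exp (θ * I)‖ = ‖w‖ := by
  rw [norm_mul, Complex.norm_exp_ofReal_mul_I, mul_one]

/-- `‖w‖ ≤ 1`, `w ≠ e^{-iθ}` : `Re(1 - w e^{iθ}) ≥ 0` with equality only if `w e^{iθ} = 1`. -/
theorem slit1 {θ : ℝ} {w : ℂ} (hw : ‖w‖ ≤ 1) (h : w.re ≠ Real.cos θ) :
    1 - w * exp (θ * I) ∈ slitPlane := by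
  rw [mem_slitPlane_iff]
  left
  set u := w * exp (θ * I) with hu
  have hn : ‖u‖ ≤ 1 := by rw [hu, KPrim_norm]; exact hw
  have hre : u.re ≤ 1 := (re_le_norm u).trans hn
  rw [sub_re, one_re]
  rcases hre.lt_or_eq with h1 | h1
  · linarith
  · exfalso
    apply h
    have h2 : normSq u ≤ 1 := by
      rw [normSq_eq_norm_sq]; nlinarith [norm_nonneg u]
    have h3 : u.im = 0 := by
      rw [normSq_apply, h1] at h2
      have : u.im * u.im ≤ 0 := by linarith
      nlinarith [mul_self_nonneg u.im]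
    have h4 : u = 1 := Complex.ext (by simpa using h1) (by simpa using h3)
    have h5 : w = exp (-(θ * I)) := by
      have : w = u * exp (-(θ * I)) := by
        rw [hu, mul_assoc, ← exp_add]; simp
      rw [this, h4, one_mul]
    rw [h5]
    have : (-((θ:ℂ) * I)) = ((-θ : ℝ) : ℂ) * I := by push_cast; ring
    rw [this, exp_ofReal_mul_I_re, Real.cos_neg]

theorem slit2 {θ : ℝ} {w : ℂ} (hw : ‖w‖ ≤ 1) (h : w.re ≠ Real.cos θ) :
    1 - w * exp (-(θ * I)) ∈ slitPlane := by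
  have := slit1 (θ := -θ) hw (by rw [Real.cos_neg]; exact h)
  have e : (-((θ:ℂ) * I)) = ((-θ : ℝ) : ℂ) * I := by push_cast; ring
  rw [e]; exact this

theorem slit1_ball {θ : ℝ} {w : ℂ} (hw : ‖w‖ < 1) : 1 - w * exp (θ * I) ∈ slitPlane := by
  rw [mem_slitPlane_iff]
  left
  have hn : ‖w * exp (θ * I)‖ < 1 := by rw [KPrim_norm]; exact hw
  have := (re_le_norm (w * exp (θ * I))).trans_lt hn
  rw [sub_re, one_re]
  linarith

theorem slit2_ball {θ : ℝ} {w : ℂ} (hw : ‖w‖ < 1) : 1 - w * exp (-(θ * I)) ∈ slitPlane := by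
  have := slit1_ball (θ := -θ) hw
  have e : (-((θ:ℂ) * I)) = ((-θ : ℝ) : ℂ) * I := by push_cast; ring
  rw [e]; exact this

private theorem KPrim_EF (θ : ℝ) : exp (θ * I) * exp (-((θ:ℂ) * I)) = 1 := by
  rw [← exp_add]; simp

private theorem KPrim_sum (θ : ℝ) :
    exp (θ * I) + exp (-((θ:ℂ) * I)) = 2 * (Real.cos θ : ℂ) := by
  rw [ofReal_cos, Complex.cos]
  have : -(θ:ℂ) * I = -((θ:ℂ) * I) := by ring
  rw [this]; ring

private theorem KPrim_E2 (θ : ℝ) : exp (2 * θ * I) = exp (θ * I) ^ 2 := by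
  rw [← Complex.exp_nat_mul]; congr 1; push_cast; ring

private theorem KPrim_F2 (θ : ℝ) : exp (-(2 * θ * I)) = exp (-((θ:ℂ) * I)) ^ 2 := by
  rw [← Complex.exp_nat_mul]; congr 1; push_cast; ring

/-- `PK' = -1 + 1/(1-we^{iθ}) + 1/(1-we^{-iθ}) = (1-w²)/(1-2cos θ w+w²)`. -/
theorem hasDerivAt_PK {θ : ℝ} {w : ℂ} (h1 : 1 - w * exp (θ * I) ∈ slitPlane)
    (h2 : 1 - w * exp (-(θ * I)) ∈ slitPlane) :
    HasDerivAt (PK θ) (pkC (Real.cos θ) w) w := by
  have hEF := KPrim_EF θ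
  have hS := KPrim_sum θ
  have hz1 := slitPlane_ne_zero h1
  have hz2 := slitPlane_ne_zero h2
  unfold PK pkC
  rw [← hS]
  generalize exp (θ * I) = E at *
  generalize exp (-((θ:ℂ) * I)) = F at *
  have d1 : HasDerivAt (fun w : ℂ => 1 - w * E) (-E) w := by
    have := ((hasDerivAt_id w).mul_const E).const_sub 1
    simpa using this
  have d2 : HasDerivAt (fun w : ℂ => 1 - w * F) (-F) w := by
    have := ((hasDerivAt_id w).mul_const F).const_sub 1
    simpa using this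
  have l1 := (d1.clog h1).const_mul F
  have l2 := (d2.clog h2).const_mul E
  have := ((hasDerivAt_id w).neg.sub l1).sub l2
  have hD : 1 - (E + F) * w + w ^ 2 = (1 - w * E) * (1 - w * F) := by
    linear_combination -w ^ 2 * hEF
  refine this.congr_deriv ?_
  rw [hD]
  have a1 : F * (-E / (1 - w * E)) = -1 / (1 - w * E) := by
    rw [← mul_div_assoc]; congr 1; linear_combination -hEF
  have a2 : E * (-F / (1 - w * F)) = -1 / (1 - w * F) := by
    rw [← mul_div_assoc]; congr 1; linear_combination -hEF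
  rw [a1, a2, eq_div_iff (mul_ne_zero hz1 hz2)]
  have b1 : -1 / (1 - w * E) * (1 - w * E) = -1 := div_mul_cancel₀ _ hz1
  have b2 : -1 / (1 - w * F) * (1 - w * F) = -1 := div_mul_cancel₀ _ hz2
  linear_combination -(1 - w * F) * b1 - (1 - w * E) * b2 - w ^ 2 * hEF

/-- `QK' = PK`. -/
theorem hasDerivAt_QK {θ : ℝ} {w : ℂ} (h1 : 1 - w * exp (θ * I) ∈ slitPlane)
    (h2 : 1 - w * exp (-(θ * I)) ∈ slitPlane) :
    HasDerivAt (QK θ) (PK θ w) w := by
  have hEF := KPrim_EF θ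
  have hS := KPrim_sum θ
  have hz1 := slitPlane_ne_zero h1
  have hz2 := slitPlane_ne_zero h2
  have hQ : QK θ = fun w => -w ^ 2 / 2 + (exp (θ * I) + exp (-((θ:ℂ) * I))) * w
    + exp (-((θ:ℂ) * I)) ^ 2 * ((1 - w * exp (θ * I)) * log (1 - w * exp (θ * I)))
    + exp (θ * I) ^ 2 * ((1 - w * exp (-(θ * I))) * log (1 - w * exp (-(θ * I)))) := by
    funext w
    unfold QK
    rw [KPrim_E2, KPrim_F2, hS]
    ring
  rw [hQ]
  unfold PK
  generalize exp (θ * I) = E at *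
  generalize exp (-((θ:ℂ) * I)) = F at *
  have d1 : HasDerivAt (fun w : ℂ => 1 - w * E) (-E) w := by
    have := ((hasDerivAt_id w).mul_const E).const_sub 1
    simpa using this
  have d2 : HasDerivAt (fun w : ℂ => 1 - w * F) (-F) w := by
    have := ((hasDerivAt_id w).mul_const F).const_sub 1
    simpa using this
  have l1 := (d1.mul (d1.clog h1)).const_mul (F ^ 2)
  have l2 := (d2.mul (d2.clog h2)).const_mul (E ^ 2)
  have l3 := ((hasDerivAt_pow 2 w).neg.div_const 2).add ((hasDerivAt_id w).const_mul (E + F))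
  have := (l3.add l1).add l2
  refine this.congr_deriv ?_
  rw [mul_div_cancel₀ _ hz1, mul_div_cancel₀ _ hz2]
  push_cast
  linear_combination (-(F * (log (1 - w * E) + 1)) - E * (log (1 - w * F) + 1)) * hEF

theorem PK_zero (θ : ℝ) : PK θ 0 = 0 := by
  simp [PK]

theorem QK_zero (θ : ℝ) : QK θ 0 = 0 := by
  simp [QK]

private theorem KPrim_conjE (θ : ℝ) :
    (starRingEnd ℂ) (exp (θ * I)) = exp (-((θ:ℂ) * I)) := by
  rw [← exp_conj]; congr 1; simp

private theorem KPrim_conjF (θ : ℝ) :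
    (starRingEnd ℂ) (exp (-((θ:ℂ) * I))) = exp (θ * I) := by
  rw [← exp_conj]; congr 1; simp

private theorem KPrim_slit {θ t : ℝ} (ht : -1 < t) (ht1 : t ≤ 1) (h : t ≠ Real.cos θ ∨ t < 1) :
    1 - (t:ℂ) * exp (θ * I) ∈ slitPlane ∧ 1 - (t:ℂ) * exp (-((θ:ℂ) * I)) ∈ slitPlane := by
  have hn : ‖(t:ℂ)‖ = |t| := by rw [norm_real, Real.norm_eq_abs]
  rcases h with h | h
  · have h1 : ‖(t:ℂ)‖ ≤ 1 := by rw [hn, abs_le]; exact ⟨ht.le, ht1⟩
    exact ⟨slit1 h1 (by simpa using h), slit2 h1 (by simpa using h)⟩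
  · have h1 : ‖(t:ℂ)‖ < 1 := by rw [hn, abs_lt]; exact ⟨ht, h⟩
    exact ⟨slit1_ball h1, slit2_ball h1⟩

/-- `PK θ (conj w) = conj (PK θ w)` for `w` in the closed disc off the two poles; in particular
`(PK θ t).im = 0` for real `t ∈ (-1,1)`, and `t = 1` if `θ ≠ 0`. -/
theorem PK_real {θ t : ℝ} (ht : -1 < t) (ht1 : t ≤ 1) (h : t ≠ Real.cos θ ∨ t < 1) :
    (PK θ t).im = 0 := by
  obtain ⟨h1, h2⟩ := KPrim_slit ht ht1 h
  rw [← conj_eq_iff_im]
  unfold PK
  have l1 : (starRingEnd ℂ) (log (1 - (t:ℂ) * exp (θ * I)))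
      = log (1 - (t:ℂ) * exp (-((θ:ℂ) * I))) := by
    rw [← log_conj _ (slitPlane_arg_ne_pi h1)]
    simp only [map_sub, map_one, map_mul, conj_ofReal, KPrim_conjE]
  have l2 : (starRingEnd ℂ) (log (1 - (t:ℂ) * exp (-((θ:ℂ) * I))))
      = log (1 - (t:ℂ) * exp (θ * I)) := by
    rw [← log_conj _ (slitPlane_arg_ne_pi h2)]
    simp only [map_sub, map_one, map_mul, conj_ofReal, KPrim_conjF]
  simp only [map_sub, map_neg, map_mul, conj_ofReal, KPrim_conjE, KPrim_conjF, l1, l2]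
  ring

theorem QK_real {θ t : ℝ} (ht : -1 < t) (ht1 : t ≤ 1) (h : t ≠ Real.cos θ ∨ t < 1) :
    (QK θ t).im = 0 := by
  obtain ⟨h1, h2⟩ := KPrim_slit ht ht1 h
  rw [← conj_eq_iff_im]
  unfold QK
  rw [KPrim_E2, KPrim_F2]
  have l1 : (starRingEnd ℂ) (log (1 - (t:ℂ) * exp (θ * I)))
      = log (1 - (t:ℂ) * exp (-((θ:ℂ) * I))) := by
    rw [← log_conj _ (slitPlane_arg_ne_pi h1)]
    simp only [map_sub, map_one, map_mul, conj_ofReal, KPrim_conjE]
  have l2 : (starRingEnd ℂ) (log (1 - (t:ℂ) * exp (-((θ:ℂ) * I))))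
      = log (1 - (t:ℂ) * exp (θ * I)) := by
    rw [← log_conj _ (slitPlane_arg_ne_pi h2)]
    simp only [map_sub, map_one, map_mul, conj_ofReal, KPrim_conjF]
  simp only [map_sub, map_add, map_neg, map_mul, map_pow, map_div₀, map_one, map_ofNat,
    conj_ofReal, KPrim_conjE, KPrim_conjF, l1, l2]
  ring

end Pool.Agent.Howell
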