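import Pool.Agent.Howell.KPrim
import Pool.Agent.Howell.KPsi

set_option autoImplicit false

namespace Pool.Agent.Howell

open Complex Set MeasureTheory intervalIntegral

private theorem one_sub_exp (θ : ℝ) (h0 : 0 < θ) (h1 : θ < Real.pi) (s : ℝ) (hs : s = 1 ∨ s = -1) :
    log (1 - exp (s * (θ * I))) =
      (Real.log (2 * Real.sin (θ / 2)) : ℂ) + s * (((θ - Real.pi) / 2 : ℝ) : ℂ) * I := by
  have hsin : 0 < 2 * Real.sin (θ / 2) := by
    have := Real.sin_pos_of_pos_of_lt_pi (x := θ / 2) (by linarith) (by linarith)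
    linarith
  have hexp : exp ((Real.log (2 * Real.sin (θ / 2)) : ℂ) +
      s * (((θ - Real.pi) / 2 : ℝ) : ℂ) * I) = 1 - exp (s * (θ * I)) := by
    rw [exp_add, ← ofReal_exp, Real.exp_log hsin]
    have e1 : (s : ℂ) * (((θ - Real.pi) / 2 : ℝ) : ℂ) * I = ((s * ((θ - Real.pi) / 2) : ℝ) : ℂ) * I := by
      push_cast
      ring
    have e2 : (s : ℂ) * (θ * I) = ((s * θ : ℝ) : ℂ) * I := by
      push_cast
      ring
    rw [e1, e2]
    have hA : Real.cos (s * ((θ - Real.pi) / 2)) = Real.sin (θ / 2) := by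
      rcases hs with rfl | rfl
      · rw [one_mul, ← Real.cos_neg, ← Real.cos_pi_div_two_sub]
        congr 1
        ring
      · rw [← Real.cos_pi_div_two_sub]
        congr 1
        ring
    have hB : Real.sin (s * ((θ - Real.pi) / 2)) = - (s * Real.cos (θ / 2)) := by
      rcases hs with rfl | rfl
      · rw [one_mul, one_mul, ← Real.sin_pi_div_two_sub, ← Real.sin_neg]
        congr 1
        ring
      · rw [neg_one_mul, neg_one_mul, neg_neg, ← Real.sin_pi_div_two_sub]
        congr 1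
        ring
    have hC : Real.cos (s * θ) = 1 - 2 * Real.sin (θ / 2) ^ 2 := by
      have hh : Real.cos θ = 1 - 2 * Real.sin (θ / 2) ^ 2 := by
        have := Real.cos_two_mul (θ / 2)
        rw [show 2 * (θ / 2) = θ by ring] at this
        have h3 := Real.sin_sq_add_cos_sq (θ / 2)
        linarith
      rcases hs with rfl | rfl
      · rw [one_mul, hh]
      · rw [neg_one_mul, Real.cos_neg, hh]
    have hD : Real.sin (s * θ) = s * (2 * Real.sin (θ / 2) * Real.cos (θ / 2)) := by
      have hh : Real.sin θ = 2 * Real.sin (θ / 2) * Real.cos (θ / 2) := by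
        have := Real.sin_two_mul (θ / 2)
        rwa [show 2 * (θ / 2) = θ by ring] at this
      rcases hs with rfl | rfl
      · rw [one_mul, one_mul, hh]
      · rw [neg_one_mul, neg_one_mul, Real.sin_neg, hh]
    apply Complex.ext
    · rw [sub_re, one_re, exp_ofReal_mul_I_re, re_ofReal_mul, exp_ofReal_mul_I_re, hA, hC]
      ring
    · rw [sub_im, one_im, exp_ofReal_mul_I_im, im_ofReal_mul, exp_ofReal_mul_I_im, hB, hD]
      ring
  rw [← hexp, log_exp]
  · rcases hs with rfl | rfl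
    · simp
      linarith
    · simp
      linarith
  · rcases hs with rfl | rfl
    · simp
      linarith
    · simp
      linarith

/-- Closed form. `psi (cos θ) = (PK θ 1).re - (PK θ 0).re` (FTC with `hasDerivAt_PK` along `[0,1]`,
`1 - t e^{±iθ}` has positive real part for `t ∈ [0,1]`, `0 < θ ≤ π`), `PK θ 0 = 0`, and
`1 - e^{iθ} = 2 sin(θ/2) e^{i(θ-π)/2}`, so `log(1-e^{iθ}) = log(2 sin(θ/2)) + i(θ-π)/2`,
`log(1-e^{-iθ})` the conjugate, `2 log(2 sin(θ/2)) = log(2 - 2cos θ)`. -/
theorem psi_cos {θ : ℝ} (h0 : 0 < θ) (h1 : θ < Real.pi) :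
    psi (Real.cos θ) = -1 - Real.cos θ * Real.log (2 - 2 * Real.cos θ)
      + Real.sin θ * (Real.pi - θ) := by
  have hsin : 0 < 2 * Real.sin (θ / 2) := by
    have := Real.sin_pos_of_pos_of_lt_pi (x := θ / 2) (by linarith) (by linarith)
    linarith
  have hlt : Real.cos θ < 1 := by
    have := Real.cos_lt_cos_of_nonneg_of_le_pi (x := 0) (y := θ) le_rfl h1.le h0
    rwa [Real.cos_zero] at this
  have hle : -1 ≤ Real.cos θ := Real.neg_one_le_cos θ
  have hder : ∀ t ∈ uIcc (0:ℝ) 1, HasDerivAt (fun t : ℝ => (PK θ t).re) (pk (Real.cos θ) t) t := by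
    intro t ht
    rw [uIcc_of_le zero_le_one] at ht
    have hs : 1 - (t : ℂ) * exp (θ * I) ∈ slitPlane ∧ 1 - (t : ℂ) * exp (-(θ * I)) ∈ slitPlane := by
      rcases eq_or_lt_of_le ht.2 with h | h
      · have hn : ‖(t : ℂ)‖ ≤ 1 := by
          rw [norm_real, Real.norm_eq_abs, abs_of_nonneg ht.1]
          exact ht.2
        have hc : (t : ℂ).re ≠ Real.cos θ := by
          rw [ofReal_re, h]
          exact hlt.ne'
        exact ⟨slit1 hn hc, slit2 hn hc⟩
      · have hn : ‖(t : ℂ)‖ < 1 := by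
          rw [norm_real, Real.norm_eq_abs, abs_of_nonneg ht.1]
          exact h
        exact ⟨slit1_ball hn, slit2_ball hn⟩
    have hd := (hasDerivAt_PK hs.1 hs.2).real_of_complex
    rwa [pkC_ofReal, ofReal_re] at hd
  have hint : IntervalIntegrable (pk (Real.cos θ)) volume 0 1 :=
    pk_intervalIntegrable hle hlt (by norm_num) (by norm_num)
  have hF := integral_eq_sub_of_hasDerivAt hder hint
  have hlog : Real.log (2 - 2 * Real.cos θ) = 2 * Real.log (2 * Real.sin (θ / 2)) := by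
    rw [← Real.log_rpow hsin]
    congr 1
    have := Real.cos_two_mul (θ / 2)
    rw [show 2 * (θ / 2) = θ by ring] at this
    have h3 := Real.sin_sq_add_cos_sq (θ / 2)
    rw [Real.rpow_two]
    nlinarith
  have l1 := one_sub_exp θ h0 h1 1 (Or.inl rfl)
  have l2 := one_sub_exp θ h0 h1 (-1) (Or.inr rfl)
  rw [ofReal_one, one_mul, one_mul] at l1
  rw [ofReal_neg, ofReal_one, neg_one_mul] at l2
  rw [psi, hF]
  rw [ofReal_zero, PK_zero, zero_re, sub_zero, ofReal_one, PK, one_mul, one_mul, l1, l2, hlog]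
  rw [show (θ : ℂ) * I = ((θ : ℝ) : ℂ) * I from rfl,
    show -((θ : ℂ) * I) = ((-θ : ℝ) : ℂ) * I by push_cast; ring]
  simp only [sub_re, neg_re, one_re, mul_re, exp_ofReal_mul_I_re, exp_ofReal_mul_I_im, add_re,
    ofReal_re, ofReal_im, I_re, I_im, add_im, mul_im, Real.cos_neg, Real.sin_neg, neg_im, one_im]
  ring

/-- `θ = arccos c`, `π - θ = π/2 + arcsin c ≥ π/2 + c` for `c ≥ 0` (`sin c ≤ c`). -/
theorem psi_lower {c : ℝ} (hc : 0 ≤ c) (hc1 : c < 1) :
    -1 - c * Real.log (2 - 2 * c) + √(1 - c ^ 2) * (Real.pi / 2 + c) ≤ psi c := by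
  have h0 : 0 < Real.arccos c := Real.arccos_pos.2 hc1
  have h1 : Real.arccos c < Real.pi := by
    have := Real.arccos_le_pi_div_two.2 hc
    linarith [Real.pi_pos]
  have h := psi_cos h0 h1
  rw [Real.cos_arccos (by linarith) hc1.le, Real.sin_arccos] at h
  rw [h, Real.arccos]
  have h2 : c ≤ Real.arcsin c := by
    rw [Real.le_arcsin_iff_sin_le ⟨by linarith [Real.pi_pos], by linarith [Real.pi_gt_three]⟩
      ⟨by linarith, hc1.le⟩]
    exact Real.sin_le hc
  have h3 : 0 ≤ √(1 - c ^ 2) := Real.sqrt_nonneg _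
  nlinarith [mul_le_mul_of_nonneg_left h2 h3]

end Pool.Agent.Howell
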