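import Pool.Agent.Howell.KPsiForm

set_option autoImplicit false

namespace Pool.Agent.Howell

open Complex Set MeasureTheory intervalIntegral

/-! Numerical lower bounds from `psi_lower` (true values of the lower bound in brackets). -/

/-- `n/m ≤ log y` if `2.7182818286 ^ n ≤ y ^ m`. -/
theorem log_ge_aux {y : ℝ} (_hy : 0 < y) (n m : ℕ) (h : (2.7182818286 : ℝ) ^ n ≤ y ^ m) :
    (n : ℝ) ≤ m * Real.log y := by
  have h1 : Real.exp n ≤ y ^ m := by
    have h2 : Real.exp (n : ℝ) = Real.exp 1 ^ n := by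
      rw [← Real.exp_nat_mul, mul_one]
    rw [h2]
    exact (pow_le_pow_left₀ (Real.exp_pos 1).le Real.exp_one_lt_d9.le n).trans h
  have h3 := Real.log_le_log (Real.exp_pos _) h1
  rwa [Real.log_exp, Real.log_pow] at h3

/-- `psi_lower` with `2 - 2c = 1/y`, `√(1-c²) ≥ s`. -/
theorem psi_num_aux {c y s L B : ℝ} (hc : 0 ≤ c) (hc1 : c < 1) (hy : 2 - 2 * c = y⁻¹)
    (_hs : 0 ≤ s) (hs1 : s ^ 2 ≤ 1 - c ^ 2) (hL : L ≤ Real.log y)
    (h : B ≤ -1 + c * L + s * (3.1415 / 2 + c)) : B ≤ psi c := by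
  have h1 := psi_lower hc hc1
  have h2 : s ≤ √(1 - c ^ 2) := Real.le_sqrt_of_sq_le hs1
  have h3 : (3.1415 : ℝ) < Real.pi := Real.pi_gt_d4
  rw [hy, Real.log_inv] at h1
  have h4 : s * (3.1415 / 2 + c) ≤ √(1 - c ^ 2) * (Real.pi / 2 + c) :=
    mul_le_mul h2 (by linarith) (by linarith) (Real.sqrt_nonneg _)
  have h5 : c * L ≤ c * Real.log y := mul_le_mul_of_nonneg_left hL hc
  linarith

/-- [0.7933] -/
theorem psi_05 : 79 / 100 ≤ psi (1 / 2) := by
  refine psi_num_aux (y := 1) (s := 866 / 1000) (L := 0) (by norm_num) (by norm_num) (by norm_num)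
    (by norm_num) (by norm_num) (by simp) (by norm_num)

/-- [0.9792], `-log(3/5) = log(5/3) ≥ 0.505`. -/
theorem psi_07 : 97 / 100 ≤ psi (7 / 10) := by
  have h := log_ge_aux (y := 5 / 3) (by norm_num) 1 2 (by norm_num)
  push_cast at h
  refine psi_num_aux (y := 5 / 3) (s := 714 / 1000) (L := 1 / 2) (by norm_num) (by norm_num)
    (by norm_num) (by norm_num) (by norm_num) (by linarith) (by norm_num)

/-- [1.1555], `-log(2/5) = log(5/2) ≥ 0.913`. -/
theorem psi_08 : 115 / 100 ≤ psi (4 / 5) := by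
  have h := log_ge_aux (y := 5 / 2) (by norm_num) 21 23 (by norm_num)
  push_cast at h
  refine psi_num_aux (y := 5 / 2) (s := 6 / 10) (L := 21 / 23) (by norm_num) (by norm_num)
    (by norm_num) (by norm_num) (by norm_num) (by linarith) (by norm_num)

/-- [1.5254], `log 5 ≥ 1.606`. -/
theorem psi_09 : 152 / 100 ≤ psi (9 / 10) := by
  have h := log_ge_aux (y := 5) (by norm_num) 45 28 (by norm_num)
  push_cast at h
  refine psi_num_aux (y := 5) (s := 4358 / 10000) (L := 45 / 28) (by norm_num) (by norm_num)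
    (by norm_num) (by norm_num) (by norm_num) (by linarith) (by norm_num)

/-- [2.3466], `log(50/3) ≥ 2.81`. -/
theorem psi_097 : 234 / 100 ≤ psi (97 / 100) := by
  have h := log_ge_aux (y := 50 / 3) (by norm_num) 45 16 (by norm_num)
  push_cast at h
  refine psi_num_aux (y := 50 / 3) (s := 243 / 1000) (L := 45 / 16) (by norm_num) (by norm_num)
    (by norm_num) (by norm_num) (by norm_num) (by linarith) (by norm_num)

/-- [3.2341], `log 50 ≥ 3.9`. -/
theorem psi_099 : 32 / 10 ≤ psi (99 / 100) := by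
  have h := log_ge_aux (y := 50) (by norm_num) 39 10 (by norm_num)
  push_cast at h
  refine psi_num_aux (y := 50) (s := 141 / 1000) (L := 39 / 10) (by norm_num) (by norm_num)
    (by norm_num) (by norm_num) (by norm_num) (by linarith) (by norm_num)

/-- `π/2 - 1 ≥ 0.5707`. -/
theorem psi_zero_ge : 5707 / 10000 ≤ psi 0 := by
  rw [psi_zero]
  have h3 : (3.1415 : ℝ) < Real.pi := Real.pi_gt_d4
  norm_num at h3 ⊢
  linarith

end Pool.Agent.Howell
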