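import Pool.Agent.Howell.KPrim

set_option autoImplicit false

namespace Pool.Agent.Howell

open Complex Set MeasureTheory intervalIntegral

namespace KRect1Aux

theorem deriv_re {f : ℝ → ℂ} {f' : ℂ} {v : ℝ} (h : HasDerivAt f f' v) :
    HasDerivAt (fun v => (f v).re) f'.re v :=
  (Complex.reCLM.hasFDerivAt (x := f v)).comp_hasDerivAt v h

theorem deriv_im {f : ℝ → ℂ} {f' : ℂ} {v : ℝ} (h : HasDerivAt f f' v) :
    HasDerivAt (fun v => (f v).im) f'.im v :=
  (Complex.imCLM.hasFDerivAt (x := f v)).comp_hasDerivAt v h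

theorem vert (x v : ℝ) : HasDerivAt (fun v : ℝ => (x : ℂ) + v * I) I v := by
  have h := (((hasDerivAt_id v).ofReal_comp).mul_const I).const_add (x : ℂ)
  simpa using h

theorem horiz (x y : ℝ) : HasDerivAt (fun t : ℝ => (t : ℂ) + y * I) 1 x := by
  have h := ((hasDerivAt_id x).ofReal_comp).add_const ((y : ℂ) * I)
  simpa using h

theorem pkC_cont {θ : ℝ} {w : ℂ} (h1 : 1 - w * exp (θ * I) ∈ slitPlane)
    (h2 : 1 - w * exp (-(θ * I)) ∈ slitPlane) : ContinuousAt (pkC (Real.cos θ)) w := by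
  have e : 1 - 2 * ((Real.cos θ : ℝ) : ℂ) * w + w ^ 2 =
      (1 - w * exp (θ * I)) * (1 - w * exp (-(θ * I))) := by
    have e1 : 2 * ((Real.cos θ : ℝ) : ℂ) = exp (θ * I) + exp (-(θ * I)) := by
      rw [Complex.ofReal_cos, Complex.cos, neg_mul]
      ring
    have e2 : exp (θ * I) * exp (-(θ * I)) = 1 := by
      rw [← Complex.exp_add, add_neg_cancel, Complex.exp_zero]
    linear_combination (-w) * e1 - w ^ 2 * e2
  have hne : 1 - 2 * ((Real.cos θ : ℝ) : ℂ) * w + w ^ 2 ≠ 0 := by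
    rw [e]
    exact mul_ne_zero (slitPlane_ne_zero h1) (slitPlane_ne_zero h2)
  unfold pkC
  exact ContinuousAt.div (by fun_prop) (by fun_prop) hne

/-- the identity along a vertical segment -/
theorem vertical {θ x b : ℝ} (hx : -1 < x) (hx1 : x < 1) (hb : 0 ≤ b) (hxc : x ≠ Real.cos θ)
    (hxb : x ^ 2 + b ^ 2 ≤ 1) :
    (QK θ ((x : ℂ) + b * I)).im = (QK θ x).im + b * (PK θ x).re -
      ∫ v in (0:ℝ)..b, (b - v) * ik (Real.cos θ) x v := by
  have hn : ∀ v ∈ uIcc 0 b, ‖(x : ℂ) + v * I‖ ≤ 1 := by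
    intro v hv
    rw [uIcc_of_le hb] at hv
    rw [Complex.norm_add_mul_I]
    refine Real.sqrt_le_one.2 ?_ |>.trans le_rfl
    have : v ^ 2 ≤ b ^ 2 := pow_le_pow_left₀ hv.1 hv.2 2
    linarith
  have hre : ∀ v : ℝ, ((x : ℂ) + v * I).re ≠ Real.cos θ := by
    intro v
    simpa using hxc
  have hd : ∀ v ∈ uIcc 0 b, HasDerivAt
      (fun v : ℝ => (QK θ ((x : ℂ) + v * I)).im + (b - v) * (PK θ ((x : ℂ) + v * I)).re)
      (-((b - v) * ik (Real.cos θ) x v)) v := by
    intro v hv
    have s1 := slit1 (hn v hv) (hre v)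
    have s2 := slit2 (hn v hv) (hre v)
    have d1 := deriv_im ((hasDerivAt_QK s1 s2).comp v (vert x v))
    have d2 := deriv_re ((hasDerivAt_PK s1 s2).comp v (vert x v))
    have d3 : HasDerivAt (fun v : ℝ => b - v) (-1) v := by
      simpa using (hasDerivAt_id v).const_sub b
    have d := d1.add (d3.mul d2)
    refine d.congr_deriv ?_
    have e1 : (PK θ ((x : ℂ) + v * I) * I).im = (PK θ ((x : ℂ) + v * I)).re := by simp
    have e2 : (pkC (Real.cos θ) ((x : ℂ) + v * I) * I).re = - ik (Real.cos θ) x v := by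
      rw [← pkC_im]
      simp
    simp only [Function.comp] at *
    rw [e1, e2]
    ring
  have hint : IntervalIntegrable (fun v => -((b - v) * ik (Real.cos θ) x v)) volume 0 b := by
    apply Continuous.intervalIntegrable
    have hc := ik_continuous (c := Real.cos θ) (a := x) (Real.neg_one_le_cos θ)
      (Real.cos_le_one θ) hx hx1 hxc.symm
    fun_prop
  have h := integral_eq_sub_of_hasDerivAt hd hint
  rw [intervalIntegral.integral_neg] at h
  simp only [sub_self, zero_mul, add_zero, sub_zero, Complex.ofReal_zero] at h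
  linarith

end KRect1Aux

open KRect1Aux in
/-- Rectangle identity for the kernel `C = cos θ > A ≥ 0`, `A² + b² ≤ 1`, `b ≥ 0`:
`b ∫₀^A pk C - ∫₀^b (b-v) ik C A v dv = -∫₀^b (b-v) ik C 0 v dv + A ∫₀^b Re pkC(iv) dv
 + ∫₀^A (A-t) Im pkC(t+ib) dt`.
Both sides are `Im QK(A + ib)` (primitives `PK`, `QK`; integrate along `0 → A → A + ib`, and along
`0 → ib → A + ib`): right: `QK(A+ib) = QK(ib) + A PK(ib) + ∫₀^A (A-t) pkC(t+ib) dt`,
`PK(ib) = i ∫₀^b pkC(iv) dv`, `QK(ib) = i ∫₀^b PK(iv) dv = -∫₀^b (b-v) pkC(iv) dv`. -/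
theorem rect_identity {θ A b : ℝ} (h0 : 0 < θ) (h1 : θ ≤ Real.pi) (hA : 0 ≤ A)
    (hAC : A < Real.cos θ) (hb : 0 ≤ b) (hAb : A ^ 2 + b ^ 2 ≤ 1) :
    b * (∫ t in (0:ℝ)..A, pk (Real.cos θ) t) - ∫ v in (0:ℝ)..b, (b - v) * ik (Real.cos θ) A v
      = -(∫ v in (0:ℝ)..b, (b - v) * ik (Real.cos θ) 0 v)
        + A * (∫ v in (0:ℝ)..b, (pkC (Real.cos θ) (v * I)).re)
        + ∫ t in (0:ℝ)..A, (A - t) * (pkC (Real.cos θ) ((t:ℂ) + b * I)).im := by
  have hc1 : Real.cos θ < 1 := by
    have := Real.cos_lt_cos_of_nonneg_of_le_pi le_rfl h1 h0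
    rwa [Real.cos_zero] at this
  have hA1 : A < 1 := hAC.trans hc1
  have hb1 : b ^ 2 ≤ 1 := by nlinarith
  -- the norm of the points of the rectangle
  have hn : ∀ t v : ℝ, 0 ≤ t → t ≤ A → 0 ≤ v → v ≤ b → ‖(t : ℂ) + v * I‖ ≤ 1 := by
    intro t v ht htA hv hvb
    rw [Complex.norm_add_mul_I]
    refine Real.sqrt_le_one.2 ?_ |>.trans le_rfl
    have e1 : v ^ 2 ≤ b ^ 2 := pow_le_pow_left₀ hv hvb 2
    have e2 : t ^ 2 ≤ A ^ 2 := pow_le_pow_left₀ ht htA 2
    linarith
  have hre : ∀ t v : ℝ, t ≤ A → ((t : ℂ) + v * I).re ≠ Real.cos θ := by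
    intro t v ht h
    simp at h
    linarith
  -- left side
  have hL := vertical (θ := θ) (x := A) (b := b) (by linarith) hA1 hb hAC.ne hAb
  have hL2 : (QK θ A).im = 0 := QK_real (by linarith) hA1.le (Or.inr hA1)
  have hL3 : (PK θ A).re = ∫ t in (0:ℝ)..A, pk (Real.cos θ) t := by
    have hd : ∀ t ∈ uIcc 0 A, HasDerivAt (fun t : ℝ => (PK θ t).re) (pk (Real.cos θ) t) t := by
      intro t ht
      rw [uIcc_of_le hA] at ht
      have n1 := hn t 0 ht.1 ht.2 le_rfl hb
      have n2 := hre t 0 ht.2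
      simp only [Complex.ofReal_zero, zero_mul, add_zero] at n1 n2
      have d := deriv_re ((hasDerivAt_PK (slit1 n1 n2) (slit2 n1 n2)).comp t
        ((hasDerivAt_id t).ofReal_comp))
      refine d.congr_deriv ?_
      rw [pkC_ofReal, ← Complex.ofReal_mul, Complex.ofReal_re, mul_one]
    have h := integral_eq_sub_of_hasDerivAt hd
      (pk_intervalIntegrable (Real.neg_one_le_cos θ) hc1 (by norm_num) (by linarith))
    rw [h]
    simp [PK_zero]
  -- right side
  have hR := vertical (θ := θ) (x := 0) (b := b) (by norm_num) (by norm_num) hb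
    (ne_of_lt (lt_of_le_of_lt hA hAC)) (by linarith)
  have hR1 : (PK θ ((0 : ℂ) + b * I)).im = ∫ v in (0:ℝ)..b, (pkC (Real.cos θ) (v * I)).re := by
    have hd : ∀ v ∈ uIcc 0 b, HasDerivAt (fun v : ℝ => (PK θ (((0 : ℝ) : ℂ) + v * I)).im)
        (pkC (Real.cos θ) (v * I)).re v := by
      intro v hv
      rw [uIcc_of_le hb] at hv
      have n1 := hn 0 v le_rfl hA hv.1 hv.2
      have n2 := hre 0 v hA
      have d := deriv_im ((hasDerivAt_PK (slit1 n1 n2) (slit2 n1 n2)).comp v (vert 0 v))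
      refine d.congr_deriv ?_
      simp
    have hint : IntervalIntegrable (fun v : ℝ => (pkC (Real.cos θ) (v * I)).re) volume 0 b := by
      apply ContinuousOn.intervalIntegrable
      intro v hv
      rw [uIcc_of_le hb] at hv
      have n1 := hn 0 v le_rfl hA hv.1 hv.2
      have n2 := hre 0 v hA
      have hc := pkC_cont (slit1 n1 n2) (slit2 n1 n2)
      simp only [Complex.ofReal_zero, zero_add] at hc
      have hc' : ContinuousAt (fun v : ℝ => pkC (Real.cos θ) (v * I)) v :=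
        ContinuousAt.comp (f := fun v : ℝ => (v : ℂ) * I) hc (by fun_prop)
      exact (Complex.continuous_re.continuousAt.comp hc').continuousWithinAt
    have h := integral_eq_sub_of_hasDerivAt hd hint
    rw [h]
    simp [PK_zero]
  have hR2 : (QK θ ((A : ℂ) + b * I)).im = (QK θ ((0 : ℂ) + b * I)).im +
      A * (PK θ ((0 : ℂ) + b * I)).im +
      ∫ t in (0:ℝ)..A, (A - t) * (pkC (Real.cos θ) ((t:ℂ) + b * I)).im := by
    have hd : ∀ t ∈ uIcc 0 A, HasDerivAt
        (fun t : ℝ => (QK θ ((t : ℂ) + b * I)).im + (A - t) * (PK θ ((t : ℂ) + b * I)).im)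
        ((A - t) * (pkC (Real.cos θ) ((t:ℂ) + b * I)).im) t := by
      intro t ht
      rw [uIcc_of_le hA] at ht
      have n1 := hn t b ht.1 ht.2 hb le_rfl
      have n2 := hre t b ht.2
      have d1 := deriv_im ((hasDerivAt_QK (slit1 n1 n2) (slit2 n1 n2)).comp t (horiz t b))
      have d2 := deriv_im ((hasDerivAt_PK (slit1 n1 n2) (slit2 n1 n2)).comp t (horiz t b))
      have d3 : HasDerivAt (fun t : ℝ => A - t) (-1) t := by
        simpa using (hasDerivAt_id t).const_sub A
      have d := d1.add (d3.mul d2)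
      refine d.congr_deriv ?_
      simp only [Function.comp, mul_one]
      ring
    have hint : IntervalIntegrable
        (fun t : ℝ => (A - t) * (pkC (Real.cos θ) ((t:ℂ) + b * I)).im) volume 0 A := by
      apply ContinuousOn.intervalIntegrable
      intro t ht
      rw [uIcc_of_le hA] at ht
      have n1 := hn t b ht.1 ht.2 hb le_rfl
      have n2 := hre t b ht.2
      have hc := pkC_cont (slit1 n1 n2) (slit2 n1 n2)
      have hc' : ContinuousAt (fun t : ℝ => pkC (Real.cos θ) ((t : ℂ) + b * I)) t :=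
        ContinuousAt.comp (f := fun t : ℝ => (t : ℂ) + b * I) hc (by fun_prop)
      have hc2 : ContinuousAt (fun t : ℝ => (pkC (Real.cos θ) ((t : ℂ) + b * I)).im) t :=
        Complex.continuous_im.continuousAt.comp hc'
      have hc3 : ContinuousAt (fun t : ℝ => A - t) t := by fun_prop
      exact (hc3.mul hc2).continuousWithinAt
    have h := integral_eq_sub_of_hasDerivAt hd hint
    simp only [sub_self, zero_mul, add_zero, sub_zero, Complex.ofReal_zero] at h
    linarith
  rw [hL2, hL3] at hL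
  simp only [Complex.ofReal_zero] at hR
  rw [QK_zero, PK_zero] at hR
  simp only [Complex.zero_im, Complex.zero_re, mul_zero, add_zero, zero_sub] at hR
  rw [hR, hR1] at hR2
  linarith

end Pool.Agent.Howell
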