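import Pool.Agent.Howell.KPrim
import Pool.Agent.Howell.KRect1

set_option autoImplicit false

namespace Pool.Agent.Howell

open Complex Set MeasureTheory intervalIntegral

private theorem KRect_ik0 {C v : ℝ} (hC0 : 1 ≤ 2 * C ^ 2) (hCp : 0 < C) (hC1 : C ≤ 1) (hv : 0 ≤ v)
    (hv2 : 2 * v ^ 2 ≤ 1) : ik C 0 v ≤ 2 * v := by
  unfold ik
  set z := v ^ 2 with hz
  have hz0 : 0 ≤ z := sq_nonneg v
  have hden : 0 < (1 - 2 * 0 * C + 0 ^ 2 - z) ^ 2 + 4 * z * (0 - C) ^ 2 := by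
    have := ik_den_pos (c := C) (a := 0) (v := v) (by linarith) hC1 (by norm_num) (by norm_num)
      hCp.ne'
    simpa [hz] using this
  rw [div_le_iff₀ hden]
  have key : C * (1 + z) ≤ (1 - z) ^ 2 + 4 * C ^ 2 * z := by
    have h1 : 0 ≤ (1 + z) * (1 - C) ^ 2 / 2 := by positivity
    have h2 : 0 ≤ (2 - 2 * C ^ 2) * (z ^ 2 - 0.75 * z + 0.25) := by
      apply mul_nonneg
      · nlinarith
      · nlinarith [sq_nonneg (z - 0.375)]
    have h3 : 0 ≤ (2 * C ^ 2 - 1) * (z ^ 2 + z) := by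
      apply mul_nonneg
      · linarith
      · positivity
    nlinarith
  have := mul_le_mul_of_nonneg_left key (by positivity : 0 ≤ 2 * v)
  nlinarith

private theorem KRect_re (C v : ℝ) (hCp : 0 < C) :
    (pkC C ((v:ℂ) * I)).re = (1 - v ^ 4) / ((1 - v ^ 2) ^ 2 + 4 * C ^ 2 * v ^ 2) := by
  unfold pkC
  have h1 : (1 - ((v:ℂ) * I) ^ 2) = ((1 + v ^ 2 : ℝ) : ℂ) := by
    rw [mul_pow, I_sq]; push_cast; ring
  have h2 : (1 - 2 * (C:ℂ) * ((v:ℂ) * I) + ((v:ℂ) * I) ^ 2)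
      = ((1 - v ^ 2 : ℝ) : ℂ) + ((-(2 * C * v) : ℝ) : ℂ) * I := by
    rw [mul_pow, I_sq]; push_cast; ring
  rw [h1, h2, Complex.div_re]
  have hn : normSq (((1 - v ^ 2 : ℝ) : ℂ) + ((-(2 * C * v) : ℝ) : ℂ) * I)
      = (1 - v ^ 2) ^ 2 + 4 * C ^ 2 * v ^ 2 := by
    rw [Complex.normSq_add_mul_I]; ring
  rw [hn]
  simp only [ofReal_re, ofReal_im, add_re, mul_re, I_re, I_im, add_im, mul_im]
  ring

private theorem KRect_den {C v : ℝ} (hCp : 0 < C) :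
    0 < (1 - v ^ 2) ^ 2 + 4 * C ^ 2 * v ^ 2 := by
  by_cases h : v = 0
  · subst h; norm_num
  · have : 0 < 4 * C ^ 2 * v ^ 2 := by positivity
    nlinarith [sq_nonneg (1 - v ^ 2)]

private theorem KRect_reb {C v : ℝ} (hCp : 0 < C) (hC1 : C ≤ 1)
    (hv2 : v ^ 2 ≤ 1) :
    1 - 2 * v ^ 2 ≤ (pkC C ((v:ℂ) * I)).re := by
  rw [KRect_re C v hCp, le_div_iff₀ (KRect_den hCp)]
  have e4 : v ^ 4 = (v ^ 2) ^ 2 := by ring
  rw [e4]
  set z := v ^ 2 with hz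
  have hz0 : 0 ≤ z := sq_nonneg v
  have hC2 : C ^ 2 ≤ 1 := by nlinarith
  have hC20 : 0 ≤ C ^ 2 := sq_nonneg C
  by_cases h : 0 ≤ 1 - 2 * z
  · have : (1 - 2 * z) * ((1 - z) ^ 2 + 4 * C ^ 2 * z) ≤ (1 - 2 * z) * (1 + z) ^ 2 := by
      apply mul_le_mul_of_nonneg_left _ h
      nlinarith
    nlinarith [mul_nonneg hz0 hz0, mul_nonneg hz0 (mul_nonneg hz0 hz0)]
  · push Not at h
    have h1 : 0 ≤ (1 - z) ^ 2 + 4 * C ^ 2 * z := by positivity
    nlinarith [mul_nonneg (by linarith : 0 ≤ -(1 - 2 * z)) h1]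

private theorem KRect_im {C A b t : ℝ} (hAC : A ≤ C) (hb : 0 ≤ b) (hAb : A ^ 2 + b ^ 2 = 1)
    (hA0 : 0 ≤ A) (ht : 0 ≤ t) (htA : t ≤ A) :
    0 ≤ (pkC C ((t:ℂ) + b * I)).im := by
  rw [pkC_im]
  unfold ik
  apply div_nonneg
  · apply mul_nonneg hb
    have h1 : A * (1 + t ^ 2 + b ^ 2) ≤ C * (1 + t ^ 2 + b ^ 2) :=
      mul_le_mul_of_nonneg_right hAC (by positivity)
    have h2 : A * (1 + t ^ 2 + b ^ 2) - 2 * t = (A - t) * (2 - A ^ 2 - A * t) := by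
      have : b ^ 2 = 1 - A ^ 2 := by linarith
      rw [this]; ring
    have h3 : 0 ≤ (A - t) * (2 - A ^ 2 - A * t) := by
      apply mul_nonneg (by linarith)
      nlinarith [mul_le_mul_of_nonneg_left htA hA0, sq_nonneg b]
    nlinarith
  · positivity

/-- `√2/2 ≤ A < C < 1`, `b = √(1-A²)` (so `b² ≤ 1/2`):
`∫₀^A pk C - (1/b) ∫₀^b (b-v) ik C A v dv ≥ A (1 - 2b²/3) - b²/3`.
From `rect_identity`: (1) `ik C 0 v ≤ 2v` for `0 ≤ v`, `v² ≤ 1/2`: with `z = v²`,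
`C(1+z) ≤ (1-z)² + 4C²z` (at `C = 1`: `z² + z ≥ 0`; at `C = √2/2`: `z² - 0.7071 z + 0.2929 > 0`;
it is a quadratic in `C` with minimum at `C = (1+z)/(8z)`, value `(1-z)² - (1+z)²/(16z) > 0.1` when
`(1+z)/(8z) ∈ [√2/2, 1]`), so the first term is `≥ -b³/3`.
(2) `Re pkC(iv) = (1-v⁴)/((1-v²)²+4C²v²) ≥ (1-v²)/(1+v²) ≥ 1 - 2v²`.
(3) `Im pkC(t+ib) ≥ 0` for `0 ≤ t ≤ A`: numerator `2b(C(1+t²+b²) - 2t) ≥ 2b(A(1+t²+b²) - 2t)
 = 2b (A - t)(2 - A² - A t) ≥ 0`. -/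
theorem rect_lower {C A : ℝ} (hA : 0 < A) (hA2 : 1 ≤ 2 * A ^ 2) (hAC : A < C) (hC : C < 1) :
    A * (1 - 2 * (1 - A ^ 2) / 3) - (1 - A ^ 2) / 3
      ≤ (∫ t in (0:ℝ)..A, pk C t)
        - (1 / √(1 - A ^ 2)) * ∫ v in (0:ℝ)..√(1 - A ^ 2), (√(1 - A ^ 2) - v) * ik C A v := by
  have hCp : 0 < C := hA.trans hAC
  have hA1 : A < 1 := hAC.trans hC
  have hb0 : 0 < 1 - A ^ 2 := by nlinarith
  set b := √(1 - A ^ 2) with hbdef
  have hb : 0 < b := Real.sqrt_pos.2 hb0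
  have hb2 : b ^ 2 = 1 - A ^ 2 := Real.sq_sqrt hb0.le
  have hbh : 2 * b ^ 2 ≤ 1 := by rw [hb2]; linarith
  have hCs : 1 ≤ 2 * C ^ 2 := by nlinarith
  have hcos : Real.cos (Real.arccos C) = C := Real.cos_arccos (by linarith) hC.le
  have hid := rect_identity (θ := Real.arccos C) (A := A) (b := b) (Real.arccos_pos.2 hC)
    (Real.arccos_le_pi C) hA.le (by rw [hcos]; exact hAC) hb.le (by rw [hb2]; linarith)
  rw [hcos] at hid
  -- first term
  have t1 : ∫ v in (0:ℝ)..b, (b - v) * ik C 0 v ≤ b ^ 3 / 3 := by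
    have hc : Continuous fun v : ℝ => (b - v) * ik C 0 v :=
      (continuous_const.sub continuous_id).mul
        (ik_continuous (by linarith) hC.le (by norm_num) (by norm_num) hCp.ne')
    have hc2 : Continuous fun v : ℝ => (b - v) * (2 * v) := by fun_prop
    have hm : ∫ v in (0:ℝ)..b, (b - v) * ik C 0 v ≤ ∫ v in (0:ℝ)..b, (b - v) * (2 * v) := by
      apply intervalIntegral.integral_mono_on hb.le (hc.intervalIntegrable _ _)
        (hc2.intervalIntegrable _ _)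
      intro v hv
      apply mul_le_mul_of_nonneg_left _ (by linarith [hv.2])
      apply KRect_ik0 hCs hCp hC.le hv.1
      nlinarith [hv.1, hv.2]
    refine hm.trans (le_of_eq ?_)
    have : ∀ v ∈ Set.uIcc (0:ℝ) b, HasDerivAt (fun v : ℝ => b * v ^ 2 - 2 * v ^ 3 / 3)
        ((b - v) * (2 * v)) v := by
      intro v _
      have h1 := ((hasDerivAt_pow 2 v).const_mul b).sub
        (((hasDerivAt_pow 3 v).const_mul 2).div_const 3)
      refine h1.congr_deriv ?_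
      norm_num
      ring
    rw [intervalIntegral.integral_eq_sub_of_hasDerivAt this (hc2.intervalIntegrable _ _)]
    ring
  -- second term
  have t2 : b - 2 * b ^ 3 / 3 ≤ ∫ v in (0:ℝ)..b, (pkC C ((v:ℂ) * I)).re := by
    have hc : Continuous fun v : ℝ => (pkC C ((v:ℂ) * I)).re := by
      have : (fun v : ℝ => (pkC C ((v:ℂ) * I)).re)
          = fun v : ℝ => (1 - v ^ 4) / ((1 - v ^ 2) ^ 2 + 4 * C ^ 2 * v ^ 2) := by
        funext v; exact KRect_re C v hCp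
      rw [this]
      exact Continuous.div (by fun_prop) (by fun_prop) fun v => (KRect_den hCp).ne'
    have hc2 : Continuous fun v : ℝ => (1 - 2 * v ^ 2) := by fun_prop
    have hm : ∫ v in (0:ℝ)..b, (1 - 2 * v ^ 2) ≤ ∫ v in (0:ℝ)..b, (pkC C ((v:ℂ) * I)).re := by
      apply intervalIntegral.integral_mono_on hb.le (hc2.intervalIntegrable _ _)
        (hc.intervalIntegrable _ _)
      intro v hv
      apply KRect_reb hCp hC.le
      nlinarith [hv.1, hv.2]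
    refine le_trans (le_of_eq ?_) hm
    have : ∀ v ∈ Set.uIcc (0:ℝ) b, HasDerivAt (fun v : ℝ => v - 2 * v ^ 3 / 3)
        (1 - 2 * v ^ 2) v := by
      intro v _
      have h1 := (hasDerivAt_id v).sub (((hasDerivAt_pow 3 v).const_mul 2).div_const 3)
      refine h1.congr_deriv ?_
      norm_num
      ring
    rw [intervalIntegral.integral_eq_sub_of_hasDerivAt this (hc2.intervalIntegrable _ _)]
    ring
  -- third term
  have t3 : 0 ≤ ∫ t in (0:ℝ)..A, (A - t) * (pkC C ((t:ℂ) + b * I)).im := by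
    apply intervalIntegral.integral_nonneg hA.le
    intro t ht
    apply mul_nonneg (by linarith [ht.2])
    exact KRect_im hAC.le hb.le (by rw [hb2]; ring) hA.le ht.1 ht.2
  have hfin : b * (A * (1 - 2 * (1 - A ^ 2) / 3) - (1 - A ^ 2) / 3)
      ≤ b * ((∫ t in (0:ℝ)..A, pk C t)
        - (1 / b) * ∫ v in (0:ℝ)..b, (b - v) * ik C A v) := by
    have e1 : b * ((∫ t in (0:ℝ)..A, pk C t) - (1 / b) * ∫ v in (0:ℝ)..b, (b - v) * ik C A v)
        = b * (∫ t in (0:ℝ)..A, pk C t) - ∫ v in (0:ℝ)..b, (b - v) * ik C A v := by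
      rw [mul_sub, ← mul_assoc, mul_one_div_cancel hb.ne', one_mul]
    rw [e1, hid, ← hb2]
    have := mul_le_mul_of_nonneg_left t2 hA.le
    nlinarith
  exact le_of_mul_le_mul_left hfin hb

end Pool.Agent.Howell
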