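import Pool.Agent.Howell.KArc

set_option autoImplicit false

namespace Pool.Agent.Howell

open Complex Set MeasureTheory intervalIntegral

/-- `π/4 < α ≤ 3π/4`, `0 ≤ r ≤ α`, `t* = cos((π-α)/3)`:
`(sin 2r - sin(r+α)) (t* - cos r) ≥ 0`... precisely the product
`(sin 2r - sin (r+α)) sin r (t* - cos r) ≥ 0`: `sin 2r - sin(r+α) = 2 cos((3r+α)/2) sin((r-α)/2)`,
`sin((r-α)/2) ≤ 0`, and `cos((3r+α)/2)` has the sign of `(π-α)/3 - r` (as `(3r+α)/2 ≤ 2α ≤ 3π/2`),
while `t* - cos r = cos((π-α)/3) - cos r` has the sign of `r - (π-α)/3`. -/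
theorem sign_pattern {α r : ℝ} (hα : Real.pi / 4 < α) (hα1 : α ≤ 3 * Real.pi / 4) (hr : 0 ≤ r)
    (hr1 : r ≤ α) :
    0 ≤ (Real.sin (2 * r) - Real.sin (r + α)) * Real.sin r
      * (Real.cos ((Real.pi - α) / 3) - Real.cos r) := by
  have hpi := Real.pi_pos
  have h1 : Real.sin (2 * r) - Real.sin (r + α) =
      2 * Real.sin ((r - α) / 2) * Real.cos ((3 * r + α) / 2) := by
    rw [Real.sin_sub_sin]
    congr 2
    · congr 1
      ring
    · ring
  have h2 : Real.sin ((r - α) / 2) ≤ 0 :=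
    Real.sin_nonpos_of_nonpos_of_neg_pi_le (by linarith) (by linarith)
  have h3 : 0 ≤ Real.sin r := Real.sin_nonneg_of_nonneg_of_le_pi hr (by linarith)
  rcases le_total r ((Real.pi - α) / 3) with h | h
  · have h4 : 0 ≤ Real.cos ((3 * r + α) / 2) :=
      Real.cos_nonneg_of_mem_Icc ⟨by linarith, by linarith⟩
    have h5 : Real.cos ((Real.pi - α) / 3) ≤ Real.cos r :=
      Real.cos_le_cos_of_nonneg_of_le_pi hr (by linarith) h
    have h6 : Real.sin (2 * r) - Real.sin (r + α) ≤ 0 := by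
      rw [h1]
      exact mul_nonpos_of_nonpos_of_nonneg (by linarith) h4
    exact mul_nonneg_of_nonpos_of_nonpos (mul_nonpos_of_nonpos_of_nonneg h6 h3) (by linarith)
  · have h4 : Real.cos ((3 * r + α) / 2) ≤ 0 :=
      Real.cos_nonpos_of_pi_div_two_le_of_le (by linarith) (by linarith)
    have h5 : Real.cos r ≤ Real.cos ((Real.pi - α) / 3) :=
      Real.cos_le_cos_of_nonneg_of_le_pi (by linarith) (by linarith) h
    have h6 : 0 ≤ Real.sin (2 * r) - Real.sin (r + α) := by
      rw [h1]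
      exact mul_nonneg_of_nonpos_of_nonpos (by linarith) h4
    exact mul_nonneg (mul_nonneg h6 h3) (by linarith)

/-- Comparison with `c = -1`. For `α < θ ≤ π`, `c = cos θ`, `t* = cos((π-α)/3)`:
`(t* - c) W(c, a) ≥ (t* + 1) W(-1, a)`, `a = cos α`. Pointwise in `Wk_arc` (for `θ` and for `π`):
`(t*-c)/(cos r - c) - (t*+1)/(cos r + 1) = (t* - cos r)(1+c)/((cos r - c)(cos r + 1))` and
`sign_pattern`. -/
theorem Wk_compare {θ α : ℝ} (hα : Real.pi / 4 < α) (hα1 : α ≤ 3 * Real.pi / 4) (hαθ : α < θ)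
    (hθ : θ ≤ Real.pi) :
    (Real.cos ((Real.pi - α) / 3) + 1) * Wk (-1) (Real.cos α)
      ≤ (Real.cos ((Real.pi - α) / 3) - Real.cos θ) * Wk (Real.cos θ) (Real.cos α) := by
  have hpi := Real.pi_pos
  have hα0 : 0 < α := by linarith
  have hs : 0 < Real.sin α := Real.sin_pos_of_pos_of_lt_pi hα0 (by linarith)
  have hA := Wk_arc hα0 hαθ hθ
  have hB := Wk_arc (θ := Real.pi) hα0 (by linarith) le_rfl
  rw [Real.cos_pi] at hB
  set τ := Real.cos ((Real.pi - α) / 3) with hτ
  set c := Real.cos θ with hc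
  have hcm : -1 ≤ c := Real.neg_one_le_cos θ
  have hd1 : ∀ r ∈ Icc 0 α, 0 < Real.cos r - c := by
    intro r hr
    have := Real.cos_lt_cos_of_nonneg_of_le_pi hr.1 hθ (lt_of_le_of_lt hr.2 hαθ)
    linarith
  have hd2 : ∀ r ∈ Icc 0 α, 0 < Real.cos r - -1 := by
    intro r hr
    have := Real.cos_lt_cos_of_nonneg_of_le_pi hr.1 le_rfl
      (lt_of_le_of_lt hr.2 (by linarith : α < Real.pi))
    rw [Real.cos_pi] at this
    linarith
  have hnum : Continuous fun r : ℝ => (Real.sin (2 * r) - Real.sin (r + α)) * Real.sin r := by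
    fun_prop
  have hi1 : IntervalIntegrable (fun r : ℝ => (τ - c) *
      ((Real.sin (2 * r) - Real.sin (r + α)) * Real.sin r / (Real.cos r - c))) volume 0 α := by
    refine ContinuousOn.intervalIntegrable ?_
    rw [uIcc_of_le hα0.le]
    refine continuousOn_const.mul (hnum.continuousOn.div ?_ fun r hr => (hd1 r hr).ne')
    exact (Real.continuous_cos.sub continuous_const).continuousOn
  have hi2 : IntervalIntegrable (fun r : ℝ => (τ + 1) *
      ((Real.sin (2 * r) - Real.sin (r + α)) * Real.sin r / (Real.cos r - -1))) volume 0 α := by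
    refine ContinuousOn.intervalIntegrable ?_
    rw [uIcc_of_le hα0.le]
    refine continuousOn_const.mul (hnum.continuousOn.div ?_ fun r hr => (hd2 r hr).ne')
    exact (Real.continuous_cos.sub continuous_const).continuousOn
  have hmono := integral_mono_on hα0.le hi2 hi1 (fun r hr => by
    have h1 := hd1 r hr
    have h2 := hd2 r hr
    have h3 := sign_pattern hα hα1 hr.1 hr.2
    rw [← sub_nonneg]
    have h4 : (τ - c) * ((Real.sin (2 * r) - Real.sin (r + α)) * Real.sin r / (Real.cos r - c)) -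
        (τ + 1) * ((Real.sin (2 * r) - Real.sin (r + α)) * Real.sin r / (Real.cos r - -1)) =
        (1 + c) * ((Real.sin (2 * r) - Real.sin (r + α)) * Real.sin r * (τ - Real.cos r)) /
          ((Real.cos r - c) * (Real.cos r - -1)) := by
      field_simp
      ring
    rw [h4]
    exact div_nonneg (mul_nonneg (by linarith) h3) (mul_pos h1 h2).le)
  rw [intervalIntegral.integral_const_mul, intervalIntegral.integral_const_mul, ← hA, ← hB] at hmono
  have h5 : Real.sin α * ((τ + 1) * Wk (-1) (Real.cos α)) ≤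
      Real.sin α * ((τ - c) * Wk c (Real.cos α)) := by linarith
  exact le_of_mul_le_mul_left h5 hs

/-- For `t ∈ [0,1]`, `-1 ≤ c < τ ≤ 1`: `(τ - c) pk c t ≤ (τ + 1) pk (-1) t`: after clearing
denominators the difference is `(1-t²)(1+c)(1 + t² - 2τt)/(...) ≥ 0`. Integrate. -/
theorem psi_compare {c τ : ℝ} (hc : -1 ≤ c) (hcτ : c < τ) (hτ : τ ≤ 1) :
    (τ - c) * psi c ≤ (τ + 1) * psi (-1) := by
  have hc1 : c < 1 := by linarith
  have hi1 : IntervalIntegrable (fun t => (τ - c) * pk c t) volume 0 1 :=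
    (pk_intervalIntegrable hc hc1 (by norm_num) (by norm_num)).const_mul _
  have hi2 : IntervalIntegrable (fun t => (τ + 1) * pk (-1) t) volume 0 1 :=
    (pk_intervalIntegrable le_rfl (by norm_num) (by norm_num) (by norm_num)).const_mul _
  have hmono := integral_mono_on zero_le_one hi1 hi2 (fun t ht => by
    have h1 := den_pos hc hc1 (by linarith [ht.1] : -1 < t)
    have h2 := den_pos (c := -1) le_rfl (by norm_num) (by linarith [ht.1] : -1 < t)
    rw [← sub_nonneg]
    unfold pk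
    have h4 : (τ + 1) * ((1 - t ^ 2) / (1 - 2 * -1 * t + t ^ 2)) -
        (τ - c) * ((1 - t ^ 2) / (1 - 2 * c * t + t ^ 2)) =
        (1 - t ^ 2) * ((1 + c) * (1 + t ^ 2 - 2 * τ * t)) /
          ((1 - 2 * -1 * t + t ^ 2) * (1 - 2 * c * t + t ^ 2)) := by
      rw [← mul_div_assoc, ← mul_div_assoc, div_sub_div _ _ h2.ne' h1.ne']
      congr 1
      ring
    rw [h4]
    have h5 : 0 ≤ 1 - t ^ 2 := by nlinarith [ht.1, ht.2]
    have h6 : 0 ≤ 1 + t ^ 2 - 2 * τ * t := by nlinarith [ht.1, ht.2, sq_nonneg (1 - t)]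
    exact div_nonneg (mul_nonneg h5 (mul_nonneg (by linarith) h6)) (mul_pos h2 h1).le)
  rw [intervalIntegral.integral_const_mul, intervalIntegral.integral_const_mul] at hmono
  exact hmono

end Pool.Agent.Howell
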