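import Pool.Agent.Howell.KPsiForm
import Pool.Agent.Howell.KLogInt

set_option autoImplicit false

namespace Pool.Agent.Howell

open Complex Set MeasureTheory intervalIntegral

/-- For `a ≠ cos θ`, `-1 < a < 1`, `0 < θ < π`, `b = √(1-a²)`:
`W(cos θ, a) = ψ(cos θ) - (1/b) ∫₀^b Re PK θ (a + iv) dv`.
Proof: `∫₀^b (b-v) ik = Im ∫₀^b (b-v) pkC(a+iv) dv`; `d/dv PK(a+iv) = i pkC(a+iv)`
(`hasDerivAt_PK`, the points `a+iv`, `0 ≤ v ≤ b`, are in the closed disc with real part `≠ cos θ`,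
`slit1`, `slit2`). By parts `∫₀^b (b-v) i pkC = -b PK(a) + ∫₀^b PK(a+iv) dv`, real part:
`-∫₀^b (b-v) ik = -b (PK θ a).re + ∫₀^b Re PK(a+iv) dv`. And
`∫_a^1 pk = (PK θ 1).re - (PK θ a).re`, `ψ = (PK θ 1).re` (FTC). -/
theorem Wk_eq_PK {θ a : ℝ} (h0 : 0 < θ) (h1 : θ < Real.pi) (ha : -1 < a) (ha1 : a < 1)
    (hca : Real.cos θ ≠ a) :
    Wk (Real.cos θ) a = psi (Real.cos θ)
      - (1 / √(1 - a ^ 2)) * ∫ v in (0:ℝ)..√(1 - a ^ 2), (PK θ ((a:ℂ) + v * I)).re := by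
  have hcos1 : Real.cos θ < 1 := by
    rw [← Real.cos_zero]
    exact Real.cos_lt_cos_of_nonneg_of_le_pi le_rfl h1.le h0
  have hcosm : -1 ≤ Real.cos θ := Real.neg_one_le_cos θ
  have h2 : 0 < 1 - a ^ 2 := by nlinarith
  set b := √(1 - a ^ 2) with hb
  have hb0 : 0 < b := Real.sqrt_pos.2 h2
  have hb2 : b ^ 2 = 1 - a ^ 2 := Real.sq_sqrt h2.le
  -- real points
  have hreal : ∀ t : ℝ, -1 < t → t ≤ 1 →
      HasDerivAt (fun x : ℝ => (PK θ (x : ℂ)).re) (pk (Real.cos θ) t) t := by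
    intro t ht ht1
    have hs : 1 - (t:ℂ) * exp (θ * I) ∈ slitPlane ∧ 1 - (t:ℂ) * exp (-(θ * I)) ∈ slitPlane := by
      rcases eq_or_lt_of_le ht1 with rfl | hlt
      · have hn : ‖((1:ℝ):ℂ)‖ ≤ 1 := by simp
        have hr : ((1:ℝ):ℂ).re ≠ Real.cos θ := by
          rw [Complex.ofReal_re]
          exact hcos1.ne'
        exact ⟨slit1 hn hr, slit2 hn hr⟩
      · have hn : ‖(t:ℂ)‖ < 1 := by
          rw [Complex.norm_real, Real.norm_eq_abs]
          exact abs_lt.2 ⟨ht, hlt⟩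
        exact ⟨slit1_ball hn, slit2_ball hn⟩
    have h3 := (hasDerivAt_PK hs.1 hs.2).real_of_complex
    rwa [pkC_ofReal, Complex.ofReal_re] at h3
  have hint : ∀ u : ℝ, -1 < u → u ≤ 1 →
      ∫ t in u..1, pk (Real.cos θ) t = (PK θ ((1:ℝ):ℂ)).re - (PK θ (u:ℂ)).re := by
    intro u hu hu1
    refine intervalIntegral.integral_eq_sub_of_hasDerivAt
      (f := fun x : ℝ => (PK θ (x : ℂ)).re) ?_ ?_
    · intro t ht
      rw [uIcc_of_le hu1] at ht
      exact hreal t (by linarith [ht.1]) ht.2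
    · exact pk_intervalIntegrable hcosm hcos1 hu (by norm_num)
  have hpsi : psi (Real.cos θ) = (PK θ ((1:ℝ):ℂ)).re := by
    unfold psi
    rw [hint 0 (by norm_num) (by norm_num), Complex.ofReal_zero, PK_zero, Complex.zero_re, sub_zero]
  -- the vertical segment
  have hvert : ∀ v : ℝ, 0 ≤ v → v ≤ b →
      HasDerivAt (fun v : ℝ => (PK θ ((a:ℂ) + v * I)).re) (-ik (Real.cos θ) a v) v := by
    intro v hv hvb
    have hn : ‖(a:ℂ) + v * I‖ ≤ 1 := by
      have h3 : ‖(a:ℂ) + v * I‖ ^ 2 ≤ 1 := by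
        rw [← Complex.normSq_eq_norm_sq, Complex.normSq_add_mul_I]
        nlinarith
      exact (sq_le_one_iff₀ (norm_nonneg _)).1 h3
    have hr : ((a:ℂ) + v * I).re ≠ Real.cos θ := by
      simp only [Complex.add_re, Complex.ofReal_re, Complex.mul_re, Complex.I_re, mul_zero,
        Complex.ofReal_im, Complex.I_im, mul_one, sub_self, add_zero]
      exact hca.symm
    have h3 := hasDerivAt_PK (slit1 hn hr) (slit2 hn hr)
    have h4 : HasDerivAt (fun v : ℝ => (a:ℂ) + (v:ℂ) * I) I v := by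
      have h5 : HasDerivAt (fun v : ℝ => (v:ℂ)) 1 v := Complex.ofRealCLM.hasDerivAt
      have h6 := (h5.mul_const I).const_add (a:ℂ)
      rwa [one_mul] at h6
    have h7 := h3.comp v h4
    have h8 := (Complex.reCLM.hasFDerivAt (x := PK θ ((a:ℂ) + v * I))).comp_hasDerivAt v h7
    have h9 : Complex.reCLM (pkC (Real.cos θ) ((a:ℂ) + v * I) * I) = -ik (Real.cos θ) a v := by
      rw [Complex.reCLM_apply, Complex.mul_I_re, pkC_im]
    rw [h9] at h8
    exact h8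
  have hik : Continuous (ik (Real.cos θ) a) :=
    ik_continuous hcosm hcos1.le ha ha1 hca
  have hparts := intervalIntegral.integral_mul_deriv_eq_deriv_mul (a := 0) (b := b)
    (u := fun v : ℝ => b - v) (u' := fun _ => (-1 : ℝ))
    (v := fun v : ℝ => (PK θ ((a:ℂ) + v * I)).re) (v' := fun v => -ik (Real.cos θ) a v)
    (fun v _ => by simpa using (hasDerivAt_id v).const_sub b)
    (fun v hv => by
      rw [uIcc_of_le hb0.le] at hv
      exact hvert v hv.1 hv.2)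
    (continuous_const.intervalIntegrable _ _) (hik.neg.intervalIntegrable _ _)
  have e1 : ∫ v in (0:ℝ)..b, (b - v) * -ik (Real.cos θ) a v =
      -∫ v in (0:ℝ)..b, (b - v) * ik (Real.cos θ) a v := by
    rw [← intervalIntegral.integral_neg]
    congr 1
    funext v
    ring
  have e2 : ∫ v in (0:ℝ)..b, (-1:ℝ) * (PK θ ((a:ℂ) + v * I)).re =
      -∫ v in (0:ℝ)..b, (PK θ ((a:ℂ) + v * I)).re := by
    rw [← intervalIntegral.integral_neg]
    congr 1
    funext v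
    ring
  rw [e1, e2] at hparts
  have e3 : (PK θ ((a:ℂ) + ((0:ℝ):ℂ) * I)).re = (PK θ (a:ℂ)).re := by
    rw [Complex.ofReal_zero, zero_mul, add_zero]
  rw [e3] at hparts
  have e4 : ∫ v in (0:ℝ)..b, (b - v) * ik (Real.cos θ) a v =
      b * (PK θ (a:ℂ)).re - ∫ v in (0:ℝ)..b, (PK θ ((a:ℂ) + v * I)).re := by
    linarith
  unfold Wk
  rw [← hb, e4, hpsi, hint a ha ha1.le]
  rw [mul_sub, ← mul_assoc, one_div, inv_mul_cancel₀ hb0.ne', one_mul]
  ring

end Pool.Agent.Howell
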