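import Pool.Agent.Howell.KPsiForm
import Pool.Agent.Howell.KLogInt

set_option autoImplicit false

namespace Pool.Agent.Howell

open Complex Set MeasureTheory intervalIntegral

namespace KT4c2Aux

/-- `ζ = 1 - w e^{-iφ}`: `e^{iφ} ζ = e^{iφ} - w`. -/
theorem mul_eq (φ : ℝ) (w : ℂ) :
    (1 - w * exp (-(φ * I))) * exp (φ * I) = exp (φ * I) - w := by
  have e2 : exp (-(φ * I)) * exp (φ * I) = 1 := by
    rw [← Complex.exp_add, neg_add_cancel, Complex.exp_zero]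
  linear_combination (-w) * e2

theorem norm_ge (φ a v : ℝ) :
    |Real.sin φ - v| ≤ ‖1 - ((a : ℂ) + v * I) * exp (-(φ * I))‖ := by
  have h1 : ‖(1 - ((a : ℂ) + v * I) * exp (-(φ * I))) * exp (φ * I)‖ =
      ‖1 - ((a : ℂ) + v * I) * exp (-(φ * I))‖ := by
    rw [norm_mul, Complex.norm_exp_ofReal_mul_I, mul_one]
  rw [← h1, mul_eq]
  have h2 := Complex.abs_im_le_norm (exp (φ * I) - ((a : ℂ) + v * I))
  rw [Complex.sub_im, Complex.exp_ofReal_mul_I_im] at h2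
  simpa using h2

theorem cos_pos' {φ a v : ℝ} (hac : a < Real.cos φ) :
    0 < Real.cos (arg (1 - ((a : ℂ) + v * I) * exp (-(φ * I))) + φ) := by
  set ζ := 1 - ((a : ℂ) + v * I) * exp (-(φ * I)) with hζ
  have h1 : ζ * exp (φ * I) = (‖ζ‖ : ℂ) * exp (((arg ζ + φ : ℝ) : ℂ) * I) := by
    conv_lhs => rw [← Complex.norm_mul_exp_arg_mul_I ζ]
    rw [Complex.ofReal_add, add_mul, Complex.exp_add, mul_assoc]
  have h2 : (ζ * exp (φ * I)).re = Real.cos φ - a := by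
    rw [hζ, mul_eq, Complex.sub_re, Complex.exp_ofReal_mul_I_re]
    simp
  rw [h1, Complex.re_ofReal_mul, Complex.exp_ofReal_mul_I_re] at h2
  have h3 : 0 < ‖ζ‖ * Real.cos (arg ζ + φ) := by linarith
  exact pos_of_mul_pos_of_pos_left' h3 (norm_nonneg _)
where
  pos_of_mul_pos_of_pos_left' {x y : ℝ} (h : 0 < x * y) (hx : 0 ≤ x) : 0 < y := by
    by_contra hy
    have : x * y ≤ 0 := mul_nonpos_of_nonneg_of_nonpos hx (not_lt.1 hy)
    linarith

end KT4c2Aux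

open KT4c2Aux in
/-- Upper bound of `Re PK` to the left of the chord. `0 < θ < π/2`, `a < c = cos θ`, `a² + v² ≤ 1`,
`0 ≤ v`, `v ≠ s = sin θ`. With `ζ₁ = 1 - we^{iθ}`, `ζ₂ = 1 - we^{-iθ}`:
`Re PK = -a - c log(‖ζ₁‖‖ζ₂‖) - s arg ζ₁ + s arg ζ₂`. `‖ζ₂‖ = ‖w - e^{iθ}‖ ≥ |v - s|`,
`‖ζ₁‖ = ‖w - e^{-iθ}‖ ≥ v + s`. `e^{iθ} ζ₂ = e^{iθ} - w` has real part `c - a > 0`, so
`arg ζ₂ ≤ π/2 - θ`; `e^{-iθ} ζ₁ = e^{-iθ} - w` has positive real part, so `arg ζ₁ ≥ -(π/2) + θ`. -/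
theorem PK_re_le {θ a v : ℝ} (h0 : 0 < θ) (h1 : θ < Real.pi / 2) (hac : a < Real.cos θ)
    (hv : 0 ≤ v) (hav : a ^ 2 + v ^ 2 ≤ 1) (hvs : v ≠ Real.sin θ) :
    (PK θ ((a:ℂ) + v * I)).re ≤ -a - Real.cos θ * Real.log (v ^ 2 - Real.sin θ ^ 2)
      + Real.sin θ * (Real.pi - 2 * θ) := by
  have hs : 0 < Real.sin θ := Real.sin_pos_of_pos_of_lt_pi h0 (by linarith [Real.pi_pos])
  have hc : 0 < Real.cos θ := Real.cos_pos_of_mem_Ioo ⟨by linarith, h1⟩
  have g1 := norm_ge (-θ) a v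
  have g2 := norm_ge θ a v
  have c1 := cos_pos' (φ := -θ) (a := a) (v := v) (by rwa [Real.cos_neg])
  have c2 := cos_pos' (φ := θ) (a := a) (v := v) hac
  have en : exp (-(((-θ : ℝ) : ℂ) * I)) = exp (θ * I) := by
    congr 1
    push_cast
    ring
  rw [en] at g1 c1
  rw [Real.sin_neg] at g1
  set ζ₁ := 1 - ((a : ℂ) + v * I) * exp (θ * I) with hζ₁
  set ζ₂ := 1 - ((a : ℂ) + v * I) * exp (-(θ * I)) with hζ₂
  have hg1 : Real.sin θ + v ≤ ‖ζ₁‖ := by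
    refine le_trans ?_ g1
    rw [show -Real.sin θ - v = -(Real.sin θ + v) by ring, abs_neg, abs_of_pos (by linarith)]
  -- the arguments
  have a2 : arg ζ₂ ≤ Real.pi / 2 - θ := by
    by_contra hn
    rw [not_le] at hn
    have hle := Complex.arg_le_pi ζ₂
    have : Real.cos (arg ζ₂ + θ) ≤ 0 :=
      Real.cos_nonpos_of_pi_div_two_le_of_le (by linarith) (by linarith)
    linarith
  have a1 : -(Real.pi / 2) + θ ≤ arg ζ₁ := by
    by_contra hn
    rw [not_le] at hn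
    have hle := Complex.neg_pi_lt_arg ζ₁
    have : Real.cos (-(arg ζ₁ + -θ)) ≤ 0 :=
      Real.cos_nonpos_of_pi_div_two_le_of_le (by linarith) (by linarith)
    rw [Real.cos_neg] at this
    linarith
  -- the real part
  have e1 : exp (θ * I) = (Real.cos θ : ℂ) + Real.sin θ * I := by
    rw [Complex.exp_mul_I, ← Complex.ofReal_cos, ← Complex.ofReal_sin]
  have e2 : exp (-(θ * I)) = (Real.cos θ : ℂ) - Real.sin θ * I := by
    rw [show -((θ : ℂ) * I) = ((-θ : ℝ) : ℂ) * I by push_cast; ring, Complex.exp_mul_I,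
      ← Complex.ofReal_cos, ← Complex.ofReal_sin, Real.cos_neg, Real.sin_neg]
    push_cast
    ring
  have hre : (PK θ ((a:ℂ) + v * I)).re = -a - Real.cos θ * (Real.log ‖ζ₁‖ + Real.log ‖ζ₂‖)
      - Real.sin θ * arg ζ₁ + Real.sin θ * arg ζ₂ := by
    have e3 : PK θ ((a:ℂ) + v * I) = -((a:ℂ) + v * I)
        - ((Real.cos θ : ℂ) - Real.sin θ * I) * log ζ₁
        - ((Real.cos θ : ℂ) + Real.sin θ * I) * log ζ₂ := by
      rw [← e1, ← e2]
      rfl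
    rw [e3]
    simp only [Complex.sub_re, Complex.mul_re, Complex.neg_re, Complex.add_re, Complex.add_im,
      Complex.sub_im, Complex.ofReal_re, Complex.ofReal_im, Complex.I_re, Complex.I_im,
      Complex.mul_im, Complex.log_re, Complex.log_im]
    ring
  have hp1 : 0 < ‖ζ₁‖ := by linarith
  have hd : 0 < |Real.sin θ - v| := abs_pos.2 (sub_ne_zero.2 hvs.symm)
  have hp2 : 0 < ‖ζ₂‖ := lt_of_lt_of_le hd g2
  have hlog : Real.log (v ^ 2 - Real.sin θ ^ 2) ≤ Real.log ‖ζ₁‖ + Real.log ‖ζ₂‖ := by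
    rw [← Real.log_mul hp1.ne' hp2.ne', ← Real.log_abs]
    apply Real.log_le_log
    · rw [abs_pos]
      have : v ^ 2 - Real.sin θ ^ 2 = (v - Real.sin θ) * (v + Real.sin θ) := by ring
      rw [this]
      exact mul_ne_zero (sub_ne_zero.2 hvs) (by linarith)
    · have : v ^ 2 - Real.sin θ ^ 2 = -((Real.sin θ + v) * (Real.sin θ - v)) := by ring
      rw [this, abs_neg, abs_mul, abs_of_pos (by linarith : 0 < Real.sin θ + v)]
      exact mul_le_mul hg1 g2 (abs_nonneg _) hp1.le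
  rw [hre]
  have h2 : Real.cos θ * Real.log (v ^ 2 - Real.sin θ ^ 2) ≤
      Real.cos θ * (Real.log ‖ζ₁‖ + Real.log ‖ζ₂‖) := mul_le_mul_of_nonneg_left hlog hc.le
  have h3 : Real.sin θ * arg ζ₂ ≤ Real.sin θ * (Real.pi / 2 - θ) :=
    mul_le_mul_of_nonneg_left a2 hs.le
  have h4 : Real.sin θ * (-(Real.pi / 2) + θ) ≤ Real.sin θ * arg ζ₁ :=
    mul_le_mul_of_nonneg_left a1 hs.le
  linarith

end Pool.Agent.Howell
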