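import Pool.Agent.Howell.KPsiForm
import Pool.Agent.Howell.KLogInt
import Pool.Agent.Howell.KT4c1
import Pool.Agent.Howell.KT4c2

set_option autoImplicit false

namespace Pool.Agent.Howell

open Complex Set MeasureTheory intervalIntegral

private theorem norm_aux {a v : ℝ} (h : a ^ 2 + v ^ 2 ≤ 1) : ‖((a : ℂ) + v * I)‖ ≤ 1 := by
  have h1 : ‖((a : ℂ) + v * I)‖ ^ 2 = a ^ 2 + v ^ 2 := by
    rw [← Complex.normSq_eq_norm_sq, Complex.normSq_add_mul_I]
  nlinarith [norm_nonneg ((a : ℂ) + v * I)]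

private theorem cont_aux {θ a b : ℝ} (hac : a ≠ Real.cos θ) (hb : ∀ v ∈ Icc 0 b, a ^ 2 + v ^ 2 ≤ 1) :
    ContinuousOn (fun v : ℝ => (PK θ ((a:ℂ) + v * I)).re) (Icc 0 b) := by
  intro v hv
  have hre : ((a : ℂ) + v * I).re = a := by simp
  have hn := norm_aux (hb v hv)
  have h1 := hasDerivAt_PK (slit1 (θ := θ) hn (by rw [hre]; exact hac))
    (slit2 (θ := θ) hn (by rw [hre]; exact hac))
  have h2 : ContinuousAt (fun v : ℝ => (a : ℂ) + v * I) v := by fun_prop
  have h3 : ContinuousAt (fun v : ℝ => PK θ ((a : ℂ) + v * I)) v :=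
    ContinuousAt.comp (f := fun v : ℝ => (a : ℂ) + v * I) h1.continuousAt h2
  exact (Complex.continuous_re.continuousAt.comp h3).continuousWithinAt

/-- `0 < θ < π/2`, `0 ≤ a < c = cos θ`: with `b = √(1-a²) > s = sin θ`, average of `PK_re_le`,
`int_log_ge`, `psi_cos`:
`W ≥ -1 - c log(2-2c) + s(π-θ) + a + c (2 log s - 1) - s(π - 2θ)
   = (a - 1) + c (log(s²/(2-2c)) - 1) + sθ`, and `s²/(2-2c) = (1+c)/2`. -/
theorem Wk_ge_T4c {θ a : ℝ} (h0 : 0 < θ) (h1 : θ < Real.pi / 2) (ha : 0 ≤ a)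
    (hac : a < Real.cos θ) :
    (a - 1) + Real.cos θ * (Real.log ((1 + Real.cos θ) / 2) - 1) + Real.sin θ * θ
      ≤ Wk (Real.cos θ) a := by
  have hpi := Real.pi_pos
  have hs : 0 < Real.sin θ := Real.sin_pos_of_pos_of_lt_pi h0 (by linarith)
  have hc : 0 < Real.cos θ := by linarith
  have hsc := Real.sin_sq_add_cos_sq θ
  have hc1 : Real.cos θ < 1 := by nlinarith
  have ha1 : a < 1 := by linarith
  set b := √(1 - a ^ 2) with hb
  have hb2 : b ^ 2 = 1 - a ^ 2 := Real.sq_sqrt (by nlinarith)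
  have hsb : Real.sin θ < b := by
    apply Real.lt_sqrt_of_sq_lt
    nlinarith
  have hbpos : 0 < b := hs.trans hsb
  have hdisc : ∀ v ∈ Icc 0 b, a ^ 2 + v ^ 2 ≤ 1 := by
    intro v hv
    have := mul_self_le_mul_self hv.1 hv.2
    nlinarith
  have hI1 : IntervalIntegrable (fun v : ℝ => (PK θ ((a:ℂ) + v * I)).re) volume 0 b := by
    apply ContinuousOn.intervalIntegrable
    rw [uIcc_of_le hbpos.le]
    exact cont_aux hac.ne hdisc
  have hI2 := int_log_integrable hs hsb
  have hI3 : IntervalIntegrable (fun v : ℝ => -a - Real.cos θ * Real.log (v ^ 2 - Real.sin θ ^ 2)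
      + Real.sin θ * (Real.pi - 2 * θ)) volume 0 b :=
    ((intervalIntegrable_const).sub (hI2.const_mul _)).add intervalIntegrable_const
  have hle : (∫ v in (0:ℝ)..b, (PK θ ((a:ℂ) + v * I)).re) ≤
      ∫ v in (0:ℝ)..b, (-a - Real.cos θ * Real.log (v ^ 2 - Real.sin θ ^ 2)
      + Real.sin θ * (Real.pi - 2 * θ)) := by
    apply intervalIntegral.integral_mono_ae_restrict hbpos.le hI1 hI3
    have h4 : ∀ᵐ v ∂(volume.restrict (Icc 0 b)), v ≠ Real.sin θ := by
      apply ae_restrict_of_ae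
      rw [ae_iff]
      simp
    filter_upwards [h4, ae_restrict_mem measurableSet_Icc] with v hv1 hv2
    exact PK_re_le h0 h1 hac hv2.1 (hdisc v hv2) hv1
  have hval : (∫ v in (0:ℝ)..b, (-a - Real.cos θ * Real.log (v ^ 2 - Real.sin θ ^ 2)
      + Real.sin θ * (Real.pi - 2 * θ))) = -a * b
      - Real.cos θ * (∫ v in (0:ℝ)..b, Real.log (v ^ 2 - Real.sin θ ^ 2))
      + Real.sin θ * (Real.pi - 2 * θ) * b := by
    rw [intervalIntegral.integral_add (intervalIntegrable_const.sub (hI2.const_mul _))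
      intervalIntegrable_const, intervalIntegral.integral_sub intervalIntegrable_const
      (hI2.const_mul _), intervalIntegral.integral_const_mul, intervalIntegral.integral_const,
      intervalIntegral.integral_const]
    simp only [sub_zero, smul_eq_mul]
    ring
  have hlog := int_log_ge hs hsb
  rw [Wk_eq_PK h0 (by linarith) (by linarith) ha1 hac.ne', ← hb, psi_cos h0 (by linarith)]
  have hint : (∫ v in (0:ℝ)..b, (PK θ ((a:ℂ) + v * I)).re) ≤
      b * (-a - Real.cos θ * (2 * Real.log (Real.sin θ) - 1)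
        + Real.sin θ * (Real.pi - 2 * θ)) := by
    have h5 := mul_le_mul_of_nonneg_left hlog hc.le
    rw [hval] at hle
    nlinarith
  have hdiv : (1 / b) * (∫ v in (0:ℝ)..b, (PK θ ((a:ℂ) + v * I)).re) ≤
      -a - Real.cos θ * (2 * Real.log (Real.sin θ) - 1) + Real.sin θ * (Real.pi - 2 * θ) := by
    have h6 := mul_le_mul_of_nonneg_left hint (by positivity : (0:ℝ) ≤ 1 / b)
    rwa [← mul_assoc, one_div, inv_mul_cancel₀ hbpos.ne', one_mul, ← one_div] at h6
  have hlg : Real.log ((1 + Real.cos θ) / 2) =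
      2 * Real.log (Real.sin θ) - Real.log (2 - 2 * Real.cos θ) := by
    have h7 : 2 - 2 * Real.cos θ ≠ 0 := ne_of_gt (by linarith)
    have e : (1 + Real.cos θ) / 2 = Real.sin θ ^ 2 / (2 - 2 * Real.cos θ) := by
      rw [eq_div_iff h7]
      nlinarith
    rw [e, Real.log_div (by positivity) h7, Real.log_pow]
    norm_num
  rw [hlg]
  nlinarith
end Pool.Agent.Howell
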