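import Pool.Agent.Howell.KSign
import Pool.Agent.Howell.KNeg1
import Pool.Agent.Howell.KNeg1Num
import Pool.Agent.Howell.KPsi
import Pool.Agent.Howell.KRho

set_option autoImplicit false

namespace Pool.Agent.Howell

open Complex Set MeasureTheory intervalIntegral

/-- `-1 < c < a ≤ 7/25`, and `2a² ≤ 1` if `a < 0`. Put `α = arccos a ∈ (π/4, 3π/4]`,
`θ = arccos c ∈ (α, π)`, `τ = cos((π-α)/3) > a` (`(π-α)/3 < α`), `v = √((1-a)/(1+a)) ≥ 3/4`,
`w = W(-1, a)` (`Wk_neg_one`).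
Case `a ≥ 0` (`v ≤ 1`): `w ≥ 0` (`w_nonneg`), so `W(c,a) ≥ w (τ+1)/(τ-c) ≥ w` (`Wk_compare`), and
`V ≥ w + (a/2)(1 + ψ(-1)) - SB(7/25) = w + a log 2 - SB(7/25) ≥ 1/20 - 0.012 > 0`.
Case `a ≤ 0`: `N(c) = W(c,a) + (a/2) ψ(c)` satisfies `(τ-c) N(c) ≥ (τ+1) N(-1)` (`Wk_compare`,
`psi_compare`, `a ≤ 0`), `N(-1) = w + (a/2)(2 log 2 - 1) = (w + a log 2) - a/2 ≥ 1/20`, hence
`N(c) ≥ N(-1)` and `V ≥ N(-1) + a/2 - SB 0 = w + a log 2 - SB 0 ≥ 1/20 - 0.0083 > 0`. -/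
theorem V_T1 {c a x : ℝ} (hc : -1 < c) (hca : c < a) (ha : a ≤ 7 / 25)
    (ha2 : 0 ≤ a ∨ 2 * a ^ 2 ≤ 1)
    (hx0 : 0 < x) (hx1 : x < 1) (hx2 : 3 / 4 < x ^ 2) : 0 ≤ Vk c a x := by
  have ha1 : a < 1 := by linarith
  have ham1 : -1 < a := by linarith
  have hc1 : c < 1 := by linarith
  have hpi := Real.pi_pos
  -- the angles
  obtain ⟨α, hα⟩ : ∃ α, α = Real.arccos a := ⟨_, rfl⟩
  obtain ⟨θ, hθ⟩ : ∃ θ, θ = Real.arccos c := ⟨_, rfl⟩
  have hcosα : Real.cos α = a := by rw [hα, Real.cos_arccos ham1.le ha1.le]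
  have hcosθ : Real.cos θ = c := by rw [hθ, Real.cos_arccos hc.le hc1.le]
  have hα0 : 0 ≤ α := by rw [hα]; exact Real.arccos_nonneg _
  have hαpi : α ≤ Real.pi := by rw [hα]; exact Real.arccos_le_pi _
  have hθ0 : 0 ≤ θ := by rw [hθ]; exact Real.arccos_nonneg _
  have hθpi : θ ≤ Real.pi := by rw [hθ]; exact Real.arccos_le_pi _
  have hs2 : (1:ℝ) ≤ √2 := by
    rw [show (1:ℝ) = √1 by simp]
    exact Real.sqrt_le_sqrt (by norm_num)
  have hs2sq : √2 ^ 2 = (2:ℝ) := Real.sq_sqrt (by norm_num)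
  have hα1 : Real.pi / 4 < α := by
    by_contra h
    have h1 : Real.cos (Real.pi / 4) ≤ Real.cos α :=
      Real.cos_le_cos_of_nonneg_of_le_pi hα0 (by linarith) (not_lt.1 h)
    rw [Real.cos_pi_div_four, hcosα] at h1
    linarith
  have hα2 : α ≤ 3 * Real.pi / 4 := by
    by_contra h
    have h1 : Real.cos α < Real.cos (3 * Real.pi / 4) :=
      Real.cos_lt_cos_of_nonneg_of_le_pi (by linarith) hαpi (not_le.1 h)
    have h2 : Real.cos (3 * Real.pi / 4) = -(√2 / 2) := by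
      rw [show 3 * Real.pi / 4 = Real.pi - Real.pi / 4 by ring, Real.cos_pi_sub,
        Real.cos_pi_div_four]
    rw [h2, hcosα] at h1
    rcases ha2 with h3 | h3
    · linarith
    · nlinarith
  have hαθ : α < θ := by
    by_contra h
    have h1 : Real.cos α ≤ Real.cos θ :=
      Real.cos_le_cos_of_nonneg_of_le_pi hθ0 hαpi (not_lt.1 h)
    rw [hcosα, hcosθ] at h1
    linarith
  obtain ⟨τ, hτ⟩ : ∃ τ, τ = Real.cos ((Real.pi - α) / 3) := ⟨_, rfl⟩
  have hτa : a < τ := by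
    rw [hτ, ← hcosα]
    exact Real.cos_lt_cos_of_nonneg_of_le_pi (by linarith) hαpi (by linarith)
  have hτ1 : τ ≤ 1 := by rw [hτ]; exact Real.cos_le_one _
  -- the parameter `v`
  obtain ⟨v, hv⟩ : ∃ v, v = √((1 - a) / (1 + a)) := ⟨_, rfl⟩
  have h1a : 0 < 1 + a := by linarith
  have hv2 : v ^ 2 = (1 - a) / (1 + a) := by
    rw [hv, Real.sq_sqrt]
    exact div_nonneg (by linarith) h1a.le
  have hv0 : 0 ≤ v := by rw [hv]; exact Real.sqrt_nonneg _
  have hv34 : 3 / 4 ≤ v := by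
    have h1 : (3 / 4 : ℝ) ^ 2 ≤ v ^ 2 := by
      rw [hv2, le_div_iff₀ h1a]
      linarith
    exact le_of_sq_le_sq h1 hv0
  have hva : (1 - v ^ 2) / (1 + v ^ 2) = a := by
    rw [hv2]
    field_simp
    ring
  have hw := Wk_neg_one (v := v) (by linarith)
  rw [hva] at hw
  have hf := f_ge hv34
  rw [hva, ← hw] at hf
  have hWc := Wk_compare hα1 hα2 hαθ hθpi
  rw [hcosα, hcosθ, ← hτ] at hWc
  have hrp := rho_pk_le hc.le hc1 hx0 hx1 hx2
  have hτc : 0 < τ - c := by linarith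
  unfold Vk
  rcases le_or_gt 0 a with ha0 | ha0
  · -- `a ≥ 0`
    have hv1 : v ≤ 1 := by
      have h1 : v ^ 2 ≤ 1 ^ 2 := by
        rw [hv2, div_le_iff₀ h1a]
        linarith
      exact le_of_sq_le_sq h1 (by norm_num)
    have hwn := w_nonneg hv34 hv1
    rw [← hw] at hwn
    have h1 : Wk (-1) a ≤ Wk c a := by
      have h2 : (τ - c) * Wk (-1) a ≤ (τ - c) * Wk c a := by
        refine le_trans ?_ hWc
        exact mul_le_mul_of_nonneg_right (by linarith) hwn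
      exact le_of_mul_le_mul_left h2 hτc
    have h3 : psi (-1) ≤ psi c := psi_mono le_rfl hc.le hc1
    rw [psi_neg_one] at h3
    have h4 : a * Real.log 2 ≤ a / 2 * (1 + psi c) := by
      have := mul_le_mul_of_nonneg_left h3 (by linarith : 0 ≤ a / 2)
      nlinarith
    have h5 : SB c ≤ SB (7 / 25) := SB_mono (by linarith) (by norm_num)
    have h6 : SB (7 / 25) ≤ 1 / 20 := by
      unfold SB
      norm_num
    linarith
  · -- `a < 0`
    have hpc := psi_compare hc.le (by linarith : c < τ) hτ1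
    have hN1 : 0 ≤ Wk (-1) a + a / 2 * psi (-1) := by
      rw [psi_neg_one]
      nlinarith
    have hN : (τ + 1) * (Wk (-1) a + a / 2 * psi (-1)) ≤ (τ - c) * (Wk c a + a / 2 * psi c) := by
      have h1 := mul_le_mul_of_nonpos_left hpc (by linarith : a / 2 ≤ 0)
      nlinarith
    have hN2 : Wk (-1) a + a / 2 * psi (-1) ≤ Wk c a + a / 2 * psi c := by
      have h2 : (τ - c) * (Wk (-1) a + a / 2 * psi (-1)) ≤ (τ - c) * (Wk c a + a / 2 * psi c) := by
        refine le_trans ?_ hN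
        exact mul_le_mul_of_nonneg_right (by linarith) hN1
      exact le_of_mul_le_mul_left h2 hτc
    have h5 : SB c ≤ SB 0 := SB_mono (by linarith) (by norm_num)
    have h6 : SB 0 ≤ 1 / 20 := by
      unfold SB
      norm_num
    rw [psi_neg_one] at hN2
    nlinarith

end Pool.Agent.Howell
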