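import Pool.Agent.ConjInterp.TopOrder
import Pool.Agent.Howell.Defs

set_option autoImplicit false

namespace Pool.Agent.Howell

open Complex Set MeasureTheory intervalIntegral ComplexConjugate Pool.Agent.ConjInterp

/-- `x² ≤ 3/4`, `a² + b² ≤ 1`, `|x-a| ≤ |b|`: `(x-a)² + b² ≤ 2|b|(1-xa)`. With `u = x-a`,
`(1-xa)² = u² + (1-x²)(1-a²) ≥ u² + b²/4`, and `(u²+b²)² ≤ 4b²(u² + b²/4)` is
`(b²-u²)² ≤ b⁴`. -/
theorem pair_ineq {x a b : ℝ} (hx : x ^ 2 ≤ 3 / 4) (hab : a ^ 2 + b ^ 2 ≤ 1) (h : |x - a| ≤ |b|) :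
    (x - a) ^ 2 + b ^ 2 ≤ 2 * |b| * (1 - x * a) := by
  set u : ℝ := x - a with hu
  have hB : |b| ^ 2 = b ^ 2 := sq_abs b
  have hB0 : 0 ≤ |b| := abs_nonneg b
  have hub : u ^ 2 ≤ b ^ 2 := by
    rw [← hB, ← sq_abs u]
    exact pow_le_pow_left₀ (abs_nonneg u) h 2
  have hid : (1 - x * a) ^ 2 = u ^ 2 + (1 - x ^ 2) * (1 - a ^ 2) := by rw [hu]; ring
  have h1 : u ^ 2 + b ^ 2 / 4 ≤ (1 - x * a) ^ 2 := by
    rw [hid]
    have e1 : b ^ 2 ≤ 1 - a ^ 2 := by linarith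
    have e2 : 1 / 4 ≤ 1 - x ^ 2 := by linarith
    nlinarith [sq_nonneg b]
  have hpos : 0 ≤ 1 - x * a := by
    nlinarith [sq_nonneg (x - a), sq_nonneg (x + a), sq_nonneg b]
  have h2 : (u ^ 2 + b ^ 2) ^ 2 ≤ (2 * |b| * (1 - x * a)) ^ 2 := by
    have e3 : (2 * |b| * (1 - x * a)) ^ 2 = 4 * b ^ 2 * (1 - x * a) ^ 2 := by
      rw [mul_pow, mul_pow, hB]; ring
    rw [e3]
    have e4 : 4 * b ^ 2 * (u ^ 2 + b ^ 2 / 4) ≤ 4 * b ^ 2 * (1 - x * a) ^ 2 :=
      mul_le_mul_of_nonneg_left h1 (by positivity)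
    have e5 : 0 ≤ u ^ 2 * (2 * b ^ 2 - u ^ 2) :=
      mul_nonneg (sq_nonneg u) (by nlinarith [sq_nonneg b])
    nlinarith
  exact (pow_le_pow_iff_left₀ (by positivity) (by positivity) two_ne_zero).1 h2

/-- The middle range: `ConjInterp.core` with `α z = 1 - x z.re`, `q z = ‖x - z‖²`, `k = n - 1`,
and `Bd_sub_one` (see the end of the proof of `ConjInterp.equality_top`): the bound is
`(1/n!) (n-1)! ∑_{z∈L} 2(1 - x z.re) = 1 - x z̄ ≤ 1 + |z̄|`. -/
theorem middle_bound {L : List ℂ} (hne : L ≠ []) (hL : ∀ z ∈ L, ‖z‖ ≤ 1) {h : ℂ → ℂ}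
    (hh : Differentiable ℂ h)
    (hb : ∀ w, ‖w‖ ≤ 1 → ‖iteratedDeriv (2 * L.length) (fL L h) w‖ ≤ 1) {x : ℝ}
    (hx : x ^ 2 ≤ 3 / 4) :
    ‖iteratedDeriv (2 * L.length - 1) (fL L h) x‖ ≤ 1 + |zbar L| := by
  have hx1 : |x| ≤ 1 := by
    rw [← sq_le_one_iff_abs_le_one]; linarith
  have hx2 := abs_le.1 hx1
  have hre : ∀ z ∈ L, |z.re| ≤ 1 := fun z hz => (Complex.abs_re_le_norm z).trans (hL z hz)
  have hc := core hx1 (fun w => 1 - x * w.re) (fun w => ‖(x : ℂ) - w‖ ^ 2) L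
    (by
      intro z hz
      have hr := hre z hz
      have hr2 := abs_le.1 hr
      have hr3 : z.re ^ 2 ≤ 1 := by rw [sq_le_one_iff_abs_le_one]; exact hr
      have hpos : 0 ≤ 1 - x * z.re := by
        nlinarith [sq_nonneg (x - z.re), sq_nonneg (x + z.re)]
      have hab : z.re ^ 2 + z.im ^ 2 ≤ 1 := by
        have h1 : ‖z‖ ^ 2 ≤ 1 := by
          have := hL z hz
          nlinarith [norm_nonneg z]
        rw [Complex.sq_norm, Complex.normSq_apply] at h1
        nlinarith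
      refine ⟨hL z hz, ?_, ?_, le_rfl⟩
      · have h1 : |x - z.re| ^ 2 ≤ (1 - x * z.re) ^ 2 := by
          rw [sq_abs]
          have h2 : 0 ≤ (1 - x ^ 2) * (1 - z.re ^ 2) :=
            mul_nonneg (by linarith) (by linarith)
          nlinarith
        exact (pow_le_pow_iff_left₀ (abs_nonneg _) hpos two_ne_zero).1 h1
      · rcases le_total |z.im| |x - z.re| with h4 | h4
        · exact Or.inr h4
        · exact Or.inl (pair_ineq hx hab h4)) hh (C := 1) hb (2 * L.length - 1) (by omega)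
  rw [Bd_sub_one _ _ _ hne] at hc
  refine hc.trans ?_
  have hlen : 0 < L.length := List.length_pos_iff.2 hne
  have hlen' : (0 : ℝ) < L.length := by exact_mod_cast hlen
  have hfac : (Nat.factorial (2 * L.length) : ℝ)
      = (2 * L.length : ℝ) * (Nat.factorial (2 * L.length - 1) : ℝ) := by
    obtain ⟨m, hm⟩ : ∃ m, 2 * L.length = m + 1 := ⟨2 * L.length - 1, by omega⟩
    have h2 : Nat.factorial (2 * L.length)
        = (2 * L.length) * Nat.factorial (2 * L.length - 1) := by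
      rw [hm, Nat.factorial_succ]
      rfl
    rw [h2]
    push_cast
    ring
  have hsum : ∀ L : List ℂ, (L.map (fun z => 2 * (1 - x * z.re))).sum
      = 2 * L.length - 2 * x * (L.map (fun z => z.re)).sum := by
    intro L
    induction L with
    | nil => simp
    | cons z L ih =>
      rw [List.map_cons, List.sum_cons, ih, List.map_cons, List.sum_cons, List.length_cons]
      push_cast
      ring
  have hf0 : (0 : ℝ) < (Nat.factorial (2 * L.length - 1) : ℝ) := by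
    exact_mod_cast Nat.factorial_pos _
  have heq : 1 / (Nat.factorial (2 * L.length) : ℝ) * ((Nat.factorial (2 * L.length - 1) : ℝ) *
      (L.map (fun z => 2 * (1 - x * z.re))).sum) = 1 - x * zbar L := by
    rw [hsum, hfac, zbar]
    field_simp
  rw [heq]
  have h5 : -(x * zbar L) ≤ |x| * |zbar L| := by
    rw [← abs_mul]; exact neg_le_abs _
  have h6 : |x| * |zbar L| ≤ 1 * |zbar L| := mul_le_mul_of_nonneg_right hx1 (abs_nonneg _)
  linarith

end Pool.Agent.Howell
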