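import Pool.Agent.Howell.Defs

set_option autoImplicit false

namespace Pool.Agent.Howell

open Complex Set MeasureTheory intervalIntegral ComplexConjugate Metric

private lemma RDisc_im {P Q : ℂ → ℂ} (hQ : ∀ w, HasDerivAt Q (P w) w) (A B u : ℝ) :
    HasDerivAt (fun t : ℝ => (Q ((A:ℂ) + B * t * I)).im) (B * (P ((A:ℂ) + B * u * I)).re) u := by
  have h1 : HasDerivAt (fun t : ℝ => (A:ℂ) + B * t * I) ((B:ℂ) * I) u := by
    have h2 : HasDerivAt (fun t : ℝ => (t : ℂ)) 1 u := Complex.ofRealCLM.hasDerivAt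
    have h3 := ((h2.const_mul (B:ℂ)).mul_const I).const_add (A:ℂ)
    simpa using h3
  have h4 : HasDerivAt (fun t : ℝ => Q ((A:ℂ) + B * t * I)) (((B:ℂ) * I) • P ((A:ℂ) + B * u * I)) u :=
    HasDerivAt.scomp u (hQ _) h1
  have h5 := Complex.imCLM.hasFDerivAt.comp_hasDerivAt u h4
  have h6 : Complex.imCLM (((B:ℂ) * I) • P ((A:ℂ) + B * u * I)) = B * (P ((A:ℂ) + B * u * I)).re := by
    simp
  rw [h6] at h5
  exact h5

private lemma RDisc_cont {P Q : ℂ → ℂ} (hQ : ∀ w, HasDerivAt Q (P w) w) : Continuous P := by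
  have h1 : Differentiable ℂ Q := fun w => (hQ w).differentiableAt
  have h2 : P = deriv Q := by
    funext w
    exact (hQ w).deriv.symm
  rw [h2]
  exact (h1.contDiff (n := 1)).continuous_deriv le_rfl

private lemma RDisc_conj (A B : ℝ) : conj ((A:ℂ) + B * I) = (A:ℂ) + B * ((-1 : ℝ) : ℂ) * I := by
  simp

/-- Maximum principle on the half disc: an entire `G`, real on the real axis, with `Im G ≥ 0` on
the open upper unit semicircle has `Im G ≥ 0` on the closed upper half disc. Apply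
`Complex.norm_le_of_forall_mem_frontier_norm_le` to `exp(i G)` on the bounded open set
`{‖w‖ < 1, Im w > 0}` (`‖exp(iG)‖ = exp(-Im G)`); its frontier is contained in
`{‖w‖ = 1, Im w ≥ 0} ∪ {‖w‖ ≤ 1, Im w = 0}`. -/
theorem halfdisc {G : ℂ → ℂ} (hG : Differentiable ℂ G) (hreal : ∀ w : ℂ, w.im = 0 → (G w).im = 0)
    (harc : ∀ w : ℂ, ‖w‖ = 1 → 0 < w.im → 0 ≤ (G w).im) {w : ℂ} (hw : ‖w‖ ≤ 1) (hw1 : 0 ≤ w.im) :
    0 ≤ (G w).im := by
  set U : Set ℂ := {z | ‖z‖ < 1 ∧ 0 < z.im} with hU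
  have hUo : IsOpen U := (isOpen_lt continuous_norm continuous_const).inter
    (isOpen_lt continuous_const Complex.continuous_im)
  have hUc : closure U ⊆ {z | ‖z‖ ≤ 1 ∧ 0 ≤ z.im} := by
    refine closure_minimal (fun z hz => ⟨hz.1.le, hz.2.le⟩) ?_
    exact (isClosed_le continuous_norm continuous_const).inter
      (isClosed_le continuous_const Complex.continuous_im)
  have hUb : Bornology.IsBounded U := by
    refine (Metric.isBounded_ball (x := (0:ℂ)) (r := 1)).subset fun z hz => ?_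
    rw [Metric.mem_ball, dist_zero_right]
    exact hz.1
  have hd : DiffContOnCl ℂ (fun z => exp (I * G z)) U :=
    (Differentiable.cexp (hG.const_mul I)).diffContOnCl
  have hnorm : ∀ z, ‖exp (I * G z)‖ = Real.exp (-(G z).im) := by
    intro z
    rw [Complex.norm_exp]
    simp
  have hfr : ∀ z ∈ frontier U, ‖exp (I * G z)‖ ≤ 1 := by
    intro z hz
    have hz1 := hUc (frontier_subset_closure hz)
    have hz2 : z ∉ U := by
      rw [hUo.frontier_eq] at hz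
      exact hz.2
    rw [hnorm, Real.exp_le_one_iff]
    by_cases him : z.im = 0
    · rw [hreal z him, neg_zero]
    · have him' : 0 < z.im := lt_of_le_of_ne hz1.2 (Ne.symm him)
      have hn : ‖z‖ = 1 := by
        by_contra hne
        exact hz2 ⟨lt_of_le_of_ne hz1.1 hne, him'⟩
      have := harc z hn him'
      linarith
  by_cases him : w.im = 0
  · rw [hreal w him]
  have him' : 0 < w.im := lt_of_le_of_ne hw1 (Ne.symm him)
  by_cases hn : ‖w‖ = 1
  · exact harc w hn him'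
  · have hwU : w ∈ U := ⟨lt_of_le_of_ne hw hn, him'⟩
    have h1 := Complex.norm_le_of_forall_mem_frontier_norm_le hUb hd hfr (subset_closure hwU)
    rw [hnorm, Real.exp_le_one_iff] at h1
    linarith

/-- `(1/2) ∫_{-1}^1 Re P(A + iBu) du = (1/B) Im Q(A+iB)` for `B > 0`, `Q' = P`, `P, Q` real on the
real axis (the substitution `v = Bu`, `P(conj w) = conj P(w)`). -/
theorem mean_eq {P Q : ℂ → ℂ} (hQ : ∀ w, HasDerivAt Q (P w) w)
    (hsP : ∀ w, P (conj w) = conj (P w)) (hsQ : ∀ w, Q (conj w) = conj (Q w)) (A : ℝ) {B : ℝ}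
    (hB : 0 < B) :
    1 / 2 * ∫ u in (-1:ℝ)..1, (P ((A:ℂ) + B * u * I)).re = 1 / B * (Q ((A:ℂ) + B * I)).im := by
  have hPc := RDisc_cont hQ
  have h1 : ∫ u in (-1:ℝ)..1, B * (P ((A:ℂ) + B * u * I)).re =
      (Q ((A:ℂ) + B * ((1:ℝ):ℂ) * I)).im - (Q ((A:ℂ) + B * ((-1:ℝ):ℂ) * I)).im := by
    refine integral_eq_sub_of_hasDerivAt (fun u _ => RDisc_im hQ A B u) ?_
    refine Continuous.intervalIntegrable ?_ _ _
    exact continuous_const.mul (Complex.continuous_re.comp (hPc.comp (by fun_prop)))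
  rw [intervalIntegral.integral_const_mul, ← RDisc_conj, hsQ, Complex.conj_im, Complex.ofReal_one, mul_one] at h1
  field_simp
  linarith

/-- If `0 ≤ Im(κ w + Γ w²/2 - Q(w))` on the closed upper half disc then the segment bound
`(1/2)∫ Re P(A+iBu) du ≤ κ + Γ A` holds for all `A² + B² ≤ 1`, `B ≥ 0`: for `B > 0` by `mean_eq`;
for `B = 0` by continuity (if `A² < 1` let `B → 0+`, if `A = ±1` let `A → ±1`). -/
theorem seg_of_halfdisc {P Q : ℂ → ℂ} (hQ : ∀ w, HasDerivAt Q (P w) w) (hPc : Continuous P)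
    (hsP : ∀ w, P (conj w) = conj (P w)) (hsQ : ∀ w, Q (conj w) = conj (Q w)) {κ Γ : ℝ}
    (h : ∀ w : ℂ, ‖w‖ ≤ 1 → 0 ≤ w.im → 0 ≤ ((κ:ℂ) * w + (Γ:ℂ) * w ^ 2 / 2 - Q w).im)
    {A B : ℝ} (hAB : A ^ 2 + B ^ 2 ≤ 1) (hB : 0 ≤ B) :
    1 / 2 * ∫ u in (-1:ℝ)..1, (P ((A:ℂ) + B * u * I)).re ≤ κ + Γ * A := by
  have hcalc : ∀ A B : ℝ, ((κ:ℂ) * ((A:ℂ) + B * I) + (Γ:ℂ) * ((A:ℂ) + B * I) ^ 2 / 2 -
      Q ((A:ℂ) + B * I)).im = κ * B + Γ * A * B - (Q ((A:ℂ) + B * I)).im := by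
    intro A B
    have h1 : (κ:ℂ) * ((A:ℂ) + B * I) + (Γ:ℂ) * ((A:ℂ) + B * I) ^ 2 / 2 =
        ((κ * A + Γ * (A ^ 2 - B ^ 2) / 2 : ℝ) : ℂ) + ((κ * B + Γ * A * B : ℝ) : ℂ) * I := by
      push_cast
      ring_nf
      rw [Complex.I_sq]
      ring
    rw [Complex.sub_im, h1, ← Complex.mk_eq_add_mul_I]
  have hnorm : ∀ A B : ℝ, A ^ 2 + B ^ 2 ≤ 1 → ‖(A:ℂ) + B * I‖ ≤ 1 := by
    intro A B hAB
    rw [← Complex.mk_eq_add_mul_I, Complex.norm_def, Complex.normSq_mk]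
    exact Real.sqrt_le_one.2 (by nlinarith)
  have hup : ∀ A B : ℝ, A ^ 2 + B ^ 2 ≤ 1 → 0 ≤ B → (Q ((A:ℂ) + B * I)).im ≤ (κ + Γ * A) * B := by
    intro A B hAB hB
    have h1 := h ((A:ℂ) + B * I) (hnorm A B hAB) (by simpa using hB)
    rw [hcalc] at h1
    linarith
  rcases hB.eq_or_lt with rfl | hB'
  · -- `B = 0`
    have hIoo : ∀ A ∈ Ioo (-1:ℝ) 1, (P (A:ℂ)).re ≤ κ + Γ * A := by
      intro A hA
      have hd := RDisc_im hQ A 1 0
      have hlim := hd.tendsto_slope_zero_right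
      have hval : (1:ℝ) * (P ((A:ℂ) + ((1:ℝ):ℂ) * ((0:ℝ):ℂ) * I)).re = (P (A:ℂ)).re := by
        simp
      rw [hval] at hlim
      refine le_of_tendsto hlim ?_
      have hA2 : A ^ 2 < 1 := by
        have := hA.1
        have := hA.2
        nlinarith
      have hev : ∀ᶠ t : ℝ in nhdsWithin 0 (Ioi 0), t ^ 2 < 1 - A ^ 2 := by
        have hc : Filter.Tendsto (fun t : ℝ => t ^ 2) (nhdsWithin 0 (Ioi 0)) (nhds (0 ^ 2)) :=
          ((continuous_pow 2).tendsto 0).mono_left nhdsWithin_le_nhds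
        exact hc.eventually_lt_const (by
          have h00 : (0:ℝ) ^ 2 = 0 := by norm_num
          rw [h00]
          linarith)
      filter_upwards [hev, self_mem_nhdsWithin] with t ht ht0
      have ht0' : (0:ℝ) < t := ht0
      have h1 := hup A t (by linarith) ht0'.le
      have h2 : (Q ((A:ℂ) + ((1:ℝ):ℂ) * ((0:ℝ):ℂ) * I)).im = 0 := by
        have h3 : conj (A:ℂ) = (A:ℂ) := Complex.conj_ofReal A
        have h4 := hsQ (A:ℂ)
        rw [h3] at h4
        have h5 : (Q (A:ℂ)).im = 0 := Complex.conj_eq_iff_im.1 h4.symm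
        have h6 : (A:ℂ) + ((1:ℝ):ℂ) * ((0:ℝ):ℂ) * I = (A:ℂ) := by simp
        rw [h6]
        exact h5
      have h3 : (A:ℂ) + ((1:ℝ):ℂ) * ((0 + t : ℝ) : ℂ) * I = (A:ℂ) + t * I := by simp
      rw [h2, h3, sub_zero, smul_eq_mul, inv_mul_le_iff₀ ht0']
      linarith
    have hcl : IsClosed {A : ℝ | (P (A:ℂ)).re ≤ κ + Γ * A} :=
      isClosed_le (Complex.continuous_re.comp (hPc.comp Complex.continuous_ofReal)) (by fun_prop)
    have hIcc : Icc (-1:ℝ) 1 ⊆ {A : ℝ | (P (A:ℂ)).re ≤ κ + Γ * A} := by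
      rw [← closure_Ioo (by norm_num : (-1:ℝ) ≠ 1)]
      exact closure_minimal hIoo hcl
    have hA : A ∈ Icc (-1:ℝ) 1 := by
      constructor <;> nlinarith
    have h1 := hIcc hA
    have h2 : ∀ u : ℝ, ((A:ℂ) + ((0:ℝ):ℂ) * u * I) = (A:ℂ) := by
      intro u
      simp
    simp only [h2]
    rw [intervalIntegral.integral_const, smul_eq_mul]
    have h3 : (P (A:ℂ)).re ≤ κ + Γ * A := h1
    linarith
  · rw [mean_eq hQ hsP hsQ A hB']
    have h1 := hup A B hAB hB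
    rw [one_div, inv_mul_le_iff₀ hB']
    linarith

end Pool.Agent.Howell
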