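import Pool.Agent.Howell.RTop

set_option autoImplicit false

namespace Pool.Agent.Howell

open Complex Set MeasureTheory intervalIntegral ComplexConjugate Pool.Agent.ConjInterp

/-- Equality of the suprema for `k = n - 1`; as `ConjInterp.equality_top` (reduce, pairs_perm,
at_endpoint, Bd_sub_one), with `top_bound` instead of `core`: the endpoint `e = ±1` with
`n + |∑ Re z_j| = ∑ |e - Re z_j|` gives `(1/n!)‖(∏(w-z_j))^(n-1)(e)‖ = 1 + |z̄|`. -/
theorem equality_top_full (n : ℕ) (z : Fin n → ℂ) (hn : 1 ≤ n)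
    (hz : ∀ i, ‖z i‖ ≤ 1)
    (hc : ∀ w : ℂ, Nat.card {j : Fin n // z j = w} = Nat.card {j : Fin n // z j = conj w})
    (hev : ∀ r : ℝ, Even (Nat.card {j : Fin n // z j = (r : ℂ)})) :
    sSup (lset n (n - 1) z) = (1 / (n.factorial : ℝ)) * sSup (rset n (n - 1) z) := by
  obtain ⟨L, hn2, hmem, hprod, hsum⟩ := pairs_perm z hc hev
  have hre : ∀ i, |(z i).re| ≤ 1 := fun i => (Complex.abs_re_le_norm (z i)).trans (hz i)
  have hne : L ≠ [] := by
    intro h0
    subst h0
    simp at hn2
    omega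
  have hlen : 0 < L.length := List.length_pos_of_ne_nil hne
  have hp1 : ∀ j, |(1:ℝ) - (z j).re| = 1 - (z j).re := by
    intro j
    rw [abs_of_nonneg (by linarith [(abs_le.1 (hre j)).2])]
  have hm1 : ∀ j, |(-1:ℝ) - (z j).re| = 1 + (z j).re := by
    intro j
    rw [abs_of_nonpos (by linarith [(abs_le.1 (hre j)).1])]; ring
  -- the endpoint
  obtain ⟨e, he, hee⟩ : ∃ e : ℝ, (e = 1 ∨ e = -1) ∧
      (n:ℝ) + |∑ j, (z j).re| = ∑ j, |e - (z j).re| := by
    rcases le_total 0 (∑ j, (z j).re) with h | h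
    · refine ⟨-1, Or.inr rfl, ?_⟩
      rw [abs_of_nonneg h]
      simp only [hm1, Finset.sum_add_distrib]
      simp
    · refine ⟨1, Or.inl rfl, ?_⟩
      rw [abs_of_nonpos h]
      simp only [hp1, Finset.sum_sub_distrib]
      simp
      ring
  have hzb : (n:ℝ) * (1 + |zbar L|) = ∑ j, |e - (z j).re| := by
    have h1 := hsum (fun w => w.re) (by intro w; simp)
    have h2 : (L.map (fun w => 2 * w.re)).sum = 2 * (L.map (fun w => w.re)).sum :=
      List.sum_map_mul_left ..
    have h3 : ∑ j, (z j).re = n * zbar L := by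
      have h4 : (L.length : ℝ) ≠ 0 := by positivity
      rw [h1, h2, zbar, hn2]
      push_cast
      field_simp
    rw [← hee, h3, abs_mul, abs_of_nonneg (by positivity : (0:ℝ) ≤ n)]
    ring
  apply reduce hn z
  intro h hh hb x hx
  have hfun : ∀ h : ℂ → ℂ, (fun w => (∏ j, (w - z j)) * h w) = fL L h := by
    intro h; funext w; rw [hprod w, fL_mul L h w]
  have hfun1 : (fun w => ∏ j, (w - z j)) = fL L (fun _ => 1) := by
    funext w; exact hprod w
  have hx1 : |x| ≤ 1 := abs_le.2 ⟨hx.1, hx.2⟩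
  refine ⟨e, ?_, ?_⟩
  · rcases he with rfl | rfl <;> constructor <;> norm_num
  · rw [hfun h, hfun1]
    rw [hfun h] at hb
    have hL : ∀ w ∈ L, ‖w‖ ≤ 1 := fun w hw => by obtain ⟨i, rfl⟩ := hmem w hw; exact hz i
    have hc1 := top_bound hne hL hh (by rw [← hn2]; exact hb) hx1
    rw [← hn2] at hc1
    refine hc1.trans ?_
    have hs2 := hsum (fun w => |e - w.re|) (by intro w; simp)
    have hfac : (n.factorial : ℝ) = n * ((n - 1).factorial : ℝ) := by
      have := Nat.mul_factorial_pred (n := n) (by omega)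
      exact_mod_cast this.symm
    have hfp : (0:ℝ) < ((n - 1).factorial : ℝ) := by positivity
    have hnp : (0:ℝ) < n := by positivity
    have hval : ‖iteratedDeriv (n - 1) (fL L fun _ => 1) (e:ℂ)‖
        = ((n - 1).factorial : ℝ) * ∑ j, |e - (z j).re| := by
      rw [hs2, hn2, at_endpoint he L hL,
        Bd_sub_one _ _ _ hne, Complex.norm_real, Real.norm_eq_abs, abs_mul]
      have h2' : |e ^ (2 * L.length - 1)| = 1 := by
        rw [abs_pow]
        rcases he with rfl | rfl <;> simp
      have h3' : 0 ≤ (L.map (fun w => 2 * |e - w.re|)).sum := by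
        apply List.sum_nonneg
        intro t ht
        obtain ⟨w, -, rfl⟩ := List.mem_map.1 ht
        positivity
      rw [h2', one_mul, abs_of_nonneg (mul_nonneg (by positivity) h3')]
    rw [hval, ← hzb, hfac]
    have : 1 / ((n:ℝ) * ((n - 1).factorial : ℝ)) * (((n - 1).factorial : ℝ) * ((n:ℝ) * (1 + |zbar L|)))
      = 1 + |zbar L| := by
      field_simp
    rw [this]

end Pool.Agent.Howell
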