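import Pool.Agent.Howell.Defs

set_option autoImplicit false

namespace Pool.Agent.Howell

open Complex Set MeasureTheory intervalIntegral

namespace RUnifAux

/-- the odd function `∫_{-y}^{y} g` -/
theorem mean_le {g : ℝ → ℝ} {T C : ℝ}
    (h : ∀ τ, 0 ≤ τ → τ ≤ T → 1 / 2 * ∫ u in (-1:ℝ)..1, g (τ * u) ≤ C) {y : ℝ} (hy : 0 ≤ y)
    (hyT : y ≤ T) : ∫ x in (-y)..y, g x ≤ 2 * y * C := by
  rcases hy.eq_or_lt with rfl | hy0
  · simp
  · have h1 := h y hy hyT
    have h2 : ∫ u in (-1:ℝ)..1, g (y * u) = y⁻¹ * ∫ x in (-y)..y, g x := by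
      rw [intervalIntegral.integral_comp_mul_left (fun x => g x) hy0.ne', smul_eq_mul, mul_neg,
        mul_one]
    rw [h2] at h1
    have h3 : 1 / 2 * (y⁻¹ * ∫ x in (-y)..y, g x) * (2 * y) ≤ C * (2 * y) :=
      mul_le_mul_of_nonneg_right h1 (by positivity)
    have h4 : 1 / 2 * (y⁻¹ * ∫ x in (-y)..y, g x) * (2 * y) = ∫ x in (-y)..y, g x := by
      field_simp
    rw [h4] at h3
    linarith

theorem odd_int {H : ℝ → ℝ} (hodd : ∀ x, H (-x) = -H x) (d : ℝ) : ∫ x in (-d)..d, H x = 0 := by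
  have h1 : ∫ x in (-d)..d, H (-x) = ∫ x in (-d)..d, H x := by
    rw [intervalIntegral.integral_comp_neg (fun x => H x), neg_neg]
  have h2 : ∫ x in (-d)..d, H (-x) = -∫ x in (-d)..d, H x := by
    simp_rw [hodd]
    rw [intervalIntegral.integral_neg]
  linarith

theorem pos_case {g : ℝ → ℝ} (hg : Continuous g) {T C b1 b2 : ℝ} (h1 : 0 < b1) (h2 : 0 < b2)
    (hT : b1 + b2 ≤ T)
    (h : ∀ τ, 0 ≤ τ → τ ≤ T → 1 / 2 * ∫ u in (-1:ℝ)..1, g (τ * u) ≤ C) :
    1 / 2 * ∫ u' in (-1:ℝ)..1, (1 / 2 * ∫ u in (-1:ℝ)..1, g (b1 * u' + b2 * u)) ≤ C := by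
  have hint : ∀ a b, IntervalIntegrable g volume a b := fun a b => hg.intervalIntegrable a b
  set G : ℝ → ℝ := fun x => ∫ t in (0:ℝ)..x, g t with hG
  have hGc : Continuous G := intervalIntegral.continuous_primitive hint 0
  have hGi : ∀ a b, IntervalIntegrable G volume a b := fun a b => hGc.intervalIntegrable a b
  have hin : ∀ u' : ℝ, (1 / 2 * ∫ u in (-1:ℝ)..1, g (b1 * u' + b2 * u))
      = 1 / (2 * b2) * (G (b1 * u' + b2) - G (b1 * u' + -b2)) := by
    intro u'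
    rw [intervalIntegral.integral_comp_add_mul (fun x => g x) h2.ne', smul_eq_mul, mul_neg, mul_one]
    have : ∫ x in (b1 * u' + -b2)..(b1 * u' + b2), g x
        = G (b1 * u' + b2) - G (b1 * u' + -b2) := by
      rw [hG]
      exact (intervalIntegral.integral_interval_sub_left (hint _ _) (hint _ _)).symm
    rw [this]
    field_simp
  simp_rw [hin]
  rw [intervalIntegral.integral_const_mul, intervalIntegral.integral_sub
    (by exact (hGc.comp (by fun_prop)).intervalIntegrable _ _)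
    (by exact (hGc.comp (by fun_prop)).intervalIntegrable _ _),
    intervalIntegral.integral_comp_mul_add (fun x => G x) h1.ne',
    intervalIntegral.integral_comp_mul_add (fun x => G x) h1.ne']
  set H : ℝ → ℝ := fun y => G y - G (-y) with hH
  have hHc : Continuous H := hGc.sub (hGc.comp continuous_neg)
  have hodd : ∀ x, H (-x) = -H x := by
    intro x
    rw [hH]
    simp only [neg_neg]
    ring
  have hHval : ∀ y, H y = ∫ x in (-y)..y, g x := by
    intro y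
    rw [hH, hG]
    exact intervalIntegral.integral_interval_sub_left (hint _ _) (hint _ _)
  have e1 : (∫ x in (b1 * -1 + b2)..(b1 * 1 + b2), G x)
      - (∫ x in (b1 * -1 + -b2)..(b1 * 1 + -b2), G x) = ∫ y in (b2 - b1)..(b2 + b1), H y := by
    have e2 : ∫ x in (b1 * -1 + -b2)..(b1 * 1 + -b2), G x
        = ∫ y in (b2 - b1)..(b2 + b1), G (-y) := by
      rw [intervalIntegral.integral_comp_neg (fun x => G x)]
      congr 1 <;> ring
    have e3 : ∫ x in (b1 * -1 + b2)..(b1 * 1 + b2), G x = ∫ y in (b2 - b1)..(b2 + b1), G y := by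
      congr 1 <;> ring
    rw [e2, e3, hH, ← intervalIntegral.integral_sub (hGi _ _)
      (by exact (hGc.comp continuous_neg).intervalIntegrable _ _)]
  have hd : ∫ y in (b2 - b1)..(b2 + b1), H y = ∫ y in |b2 - b1|..(b2 + b1), H y := by
    rcases le_total b1 b2 with hb | hb
    · rw [abs_of_nonneg (by linarith)]
    · rw [abs_of_nonpos (by linarith)]
      have e4 := odd_int hodd (-(b2 - b1))
      rw [neg_neg] at e4
      rw [← intervalIntegral.integral_add_adjacent_intervals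
        (hHc.intervalIntegrable (b2 - b1) (-(b2 - b1))) (hHc.intervalIntegrable _ _), e4, zero_add]
  have hle : ∫ y in |b2 - b1|..(b2 + b1), H y ≤ ∫ y in |b2 - b1|..(b2 + b1), 2 * y * C := by
    refine intervalIntegral.integral_mono_on ?_ (hHc.intervalIntegrable _ _)
      (by exact Continuous.intervalIntegrable (by fun_prop) _ _) ?_
    · rw [abs_le]
      constructor <;> linarith
    · intro y hy
      rw [hHval]
      exact mean_le h (le_trans (abs_nonneg _) hy.1) (by linarith [hy.2])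
  have hval : ∫ y in |b2 - b1|..(b2 + b1), 2 * y * C = 4 * b1 * b2 * C := by
    rw [intervalIntegral.integral_mul_const, intervalIntegral.integral_const_mul, integral_id,
      sq_abs]
    ring
  rw [smul_eq_mul, smul_eq_mul, ← mul_sub, e1, hd]
  have h5 : ∫ y in |b2 - b1|..(b2 + b1), H y ≤ 4 * b1 * b2 * C := by
    rw [← hval]
    exact hle
  have h6 : 1 / 2 * (1 / (2 * b2) * (b1⁻¹ * ∫ y in |b2 - b1|..(b2 + b1), H y))
      = 1 / (4 * b1 * b2) * ∫ y in |b2 - b1|..(b2 + b1), H y := by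
    field_simp
    ring
  rw [h6]
  calc 1 / (4 * b1 * b2) * ∫ y in |b2 - b1|..(b2 + b1), H y
      ≤ 1 / (4 * b1 * b2) * (4 * b1 * b2 * C) := mul_le_mul_of_nonneg_left h5 (by positivity)
    _ = C := by field_simp

theorem zero_left {g : ℝ → ℝ} {T C b : ℝ} (hb : |b| ≤ T)
    (h : ∀ τ, 0 ≤ τ → τ ≤ T → 1 / 2 * ∫ u in (-1:ℝ)..1, g (τ * u) ≤ C) :
    1 / 2 * ∫ u in (-1:ℝ)..1, g (b * u) ≤ C := by
  rcases le_total 0 b with h0 | h0
  · rw [abs_of_nonneg h0] at hb
    exact h b h0 hb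
  · rw [abs_of_nonpos h0] at hb
    have h1 := h (-b) (by linarith) hb
    have h2 : ∫ u in (-1:ℝ)..1, g (-b * u) = ∫ u in (-1:ℝ)..1, g (b * u) := by
      have h3 := intervalIntegral.integral_comp_neg (a := (-1 : ℝ)) (b := 1) (fun u => g (b * u))
      rw [neg_neg] at h3
      rw [← h3]
      congr 1
      ext u
      congr 1
      ring
    rw [h2] at h1
    exact h1

theorem flip_in (g : ℝ → ℝ) (b1 b2 u' : ℝ) :
    ∫ u in (-1:ℝ)..1, g (b1 * u' + -b2 * u) = ∫ u in (-1:ℝ)..1, g (b1 * u' + b2 * u) := by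
  have h3 := intervalIntegral.integral_comp_neg (a := (-1 : ℝ)) (b := 1)
    (fun u => g (b1 * u' + b2 * u))
  rw [neg_neg] at h3
  rw [← h3]
  congr 1
  ext u
  congr 1
  ring

theorem flip_out (g : ℝ → ℝ) (b1 b2 : ℝ) :
    ∫ u' in (-1:ℝ)..1, (1 / 2 * ∫ u in (-1:ℝ)..1, g (-b1 * u' + b2 * u))
      = ∫ u' in (-1:ℝ)..1, (1 / 2 * ∫ u in (-1:ℝ)..1, g (b1 * u' + b2 * u)) := by
  have h3 := intervalIntegral.integral_comp_neg (a := (-1 : ℝ)) (b := 1)
    (fun u' => (1 / 2 * ∫ u in (-1:ℝ)..1, g (b1 * u' + b2 * u)))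
  rw [neg_neg] at h3
  rw [← h3]
  congr 1
  ext u'
  congr 3
  ext u
  congr 1
  ring

end RUnifAux

open RUnifAux

/-- Two symmetric uniform variables. Let `g : ℝ → ℝ` be continuous with mean over every `[-τ, τ]`,
`0 ≤ τ ≤ T`, at most `C` (in the form `(1/2)∫_{-1}^1 g(τ u) du ≤ C`). If `|β₁| + |β₂| ≤ T` then
`(1/4) ∫∫ g(β₁ u' + β₂ u) du du' ≤ C`. Proof: if `β₁ = 0` or `β₂ = 0` it is the hypothesis
(symmetry in the sign). Otherwise WLOG `0 < β₁ ≤ β₂`; with an antiderivative `G` of `g`,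
`∫∫ = (1/(β₁β₂)) ∫_{β₂-β₁}^{β₂+β₁} (G(y) - G(-y)) dy` and `G(y) - G(-y) = ∫_{-y}^y g ≤ 2yC`,
`∫_{β₂-β₁}^{β₂+β₁} 2y C dy = 4 β₁ β₂ C`. -/
theorem two_uniform {g : ℝ → ℝ} (hg : Continuous g) {T C β₁ β₂ : ℝ} (hT : |β₁| + |β₂| ≤ T)
    (h : ∀ τ, 0 ≤ τ → τ ≤ T → 1 / 2 * ∫ u in (-1:ℝ)..1, g (τ * u) ≤ C) :
    1 / 2 * ∫ u' in (-1:ℝ)..1, (1 / 2 * ∫ u in (-1:ℝ)..1, g (β₁ * u' + β₂ * u)) ≤ C := by
  have hout : ∀ a : ℝ, 1 / 2 * ∫ _u' in (-1:ℝ)..1, a = a := by
    intro a
    rw [intervalIntegral.integral_const, smul_eq_mul]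
    ring
  rcases eq_or_ne β₁ 0 with h1 | h1
  · subst h1
    have e : ∀ u' : ℝ, (1 / 2 * ∫ u in (-1:ℝ)..1, g (0 * u' + β₂ * u))
        = 1 / 2 * ∫ u in (-1:ℝ)..1, g (β₂ * u) := by
      intro u'
      simp only [zero_mul, zero_add]
    simp_rw [e]
    rw [hout]
    rw [abs_zero, zero_add] at hT
    exact zero_left hT h
  · rcases eq_or_ne β₂ 0 with h2 | h2
    · subst h2
      have e : ∀ u' : ℝ, (1 / 2 * ∫ u in (-1:ℝ)..1, g (β₁ * u' + 0 * u)) = g (β₁ * u') := by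
        intro u'
        simp only [zero_mul, add_zero]
        exact hout _
      simp_rw [e]
      rw [abs_zero, add_zero] at hT
      exact zero_left hT h
    · have key := pos_case hg (abs_pos.2 h1) (abs_pos.2 h2) hT h
      have e2 : ∫ u' in (-1:ℝ)..1, (1 / 2 * ∫ u in (-1:ℝ)..1, g (|β₁| * u' + |β₂| * u))
          = ∫ u' in (-1:ℝ)..1, (1 / 2 * ∫ u in (-1:ℝ)..1, g (|β₁| * u' + β₂ * u)) := by
        rcases abs_cases β₂ with ⟨h3, _⟩ | ⟨h3, _⟩
        · rw [h3]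
        · rw [h3]
          simp_rw [flip_in]
      have e1 : ∫ u' in (-1:ℝ)..1, (1 / 2 * ∫ u in (-1:ℝ)..1, g (|β₁| * u' + β₂ * u))
          = ∫ u' in (-1:ℝ)..1, (1 / 2 * ∫ u in (-1:ℝ)..1, g (β₁ * u' + β₂ * u)) := by
        rcases abs_cases β₁ with ⟨h3, _⟩ | ⟨h3, _⟩
        · rw [h3]
        · rw [h3, flip_out]
      rw [e2, e1] at key
      exact key

/-- Beta integrals. -/
theorem beta_int1 (m : ℕ) : ∫ s in (0:ℝ)..1, s * (1 - s) ^ m = 1 / (((m:ℝ) + 1) * (m + 2)) := by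
  have h1 := intervalIntegral.integral_comp_sub_left (a := 0) (b := 1)
    (fun x : ℝ => (1 - x) * x ^ m) 1
  simp only [sub_sub_cancel, sub_self, sub_zero] at h1
  rw [h1]
  have h2 : ∀ x : ℝ, (1 - x) * x ^ m = x ^ m - x ^ (m + 1) := by
    intro x
    ring
  simp_rw [h2]
  rw [intervalIntegral.integral_sub (Continuous.intervalIntegrable (by fun_prop) _ _)
    (Continuous.intervalIntegrable (by fun_prop) _ _), integral_pow, integral_pow]
  have h3 : (m : ℝ) + 1 ≠ 0 := by positivity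
  have h4 : (m : ℝ) + 2 ≠ 0 := by positivity
  have h5 : (m : ℝ) + 1 + 1 ≠ 0 := by positivity
  push_cast
  simp only [one_pow, ne_eq, Nat.add_eq_zero_iff, one_ne_zero, and_false, not_false_eq_true,
    zero_pow, sub_zero]
  field_simp
  ring

theorem beta_int2 (m : ℕ) :
    ∫ s in (0:ℝ)..1, s * (1 - s) ^ m * s = 2 / (((m:ℝ) + 1) * (m + 2) * (m + 3)) := by
  have h1 := intervalIntegral.integral_comp_sub_left (a := 0) (b := 1)
    (fun x : ℝ => (1 - x) * x ^ m * (1 - x)) 1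
  simp only [sub_sub_cancel, sub_self, sub_zero] at h1
  rw [h1]
  have h2 : ∀ x : ℝ, (1 - x) * x ^ m * (1 - x) = x ^ m - 2 * x ^ (m + 1) + x ^ (m + 2) := by
    intro x
    ring
  simp_rw [h2]
  rw [intervalIntegral.integral_add (Continuous.intervalIntegrable (by fun_prop) _ _)
    (Continuous.intervalIntegrable (by fun_prop) _ _),
    intervalIntegral.integral_sub (Continuous.intervalIntegrable (by fun_prop) _ _)
    (Continuous.intervalIntegrable (by fun_prop) _ _), intervalIntegral.integral_const_mul,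
    integral_pow, integral_pow, integral_pow]
  have h3 : (m : ℝ) + 1 ≠ 0 := by positivity
  have h4 : (m : ℝ) + 2 ≠ 0 := by positivity
  have h5 : (m : ℝ) + 1 + 1 ≠ 0 := by positivity
  have h6 : (m : ℝ) + 3 ≠ 0 := by positivity
  have h7 : (m : ℝ) + 2 + 1 ≠ 0 := by positivity
  push_cast
  simp only [one_pow, ne_eq, Nat.add_eq_zero_iff, one_ne_zero, and_false, not_false_eq_true,
    zero_pow, sub_zero]
  field_simp
  ring

end Pool.Agent.Howell
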