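import Pool.Agent.Howell.RPair
import Pool.Agent.Howell.RUnif

set_option autoImplicit false

namespace Pool.Agent.Howell

open Complex Set MeasureTheory intervalIntegral ComplexConjugate Pool.Agent.ConjInterp

/-- One pair, `n = 2`: `F = (w-z)(w-z̄) h`, `F' = Φ - M`. Then `M = (1/2) ∫_{-1}^1 Φ(a + ibu) du`
(`F(z) = F(z̄) = 0`, or `F'(a) = 0` for a real node). -/
theorem mix_base {z : ℂ} {h Φ : ℂ → ℂ} (hh : Differentiable ℂ h) (hΦ : Differentiable ℂ Φ) (M : ℂ)
    (hG : ∀ w, deriv (fL [z] h) w = Φ w - M) :
    M = 1 / 2 * ∫ u in (-1:ℝ)..1, Φ ((z.re : ℂ) + z.im * u * I) := by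
  have hF : Differentiable ℂ (fL [z] h) := fL_entire [z] hh
  by_cases hb : z.im = 0
  · -- a real node
    have hz : conj z = z := by
      apply Complex.ext <;> simp [hb]
    have hre : ((z.re : ℂ)) = z := by
      apply Complex.ext <;> simp [hb]
    have h0 : deriv (fL [z] h) z = 0 := by
      have h1 : HasDerivAt (fL [z] h)
          (1 * ((z - conj z) * h z) + (z - z) * (1 * h z + (z - conj z) * deriv h z)) z := by
        have h2 : HasDerivAt (fun w : ℂ => w - z) 1 z := (hasDerivAt_id z).sub_const z
        have h3 : HasDerivAt (fun w : ℂ => w - conj z) 1 z := (hasDerivAt_id z).sub_const _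
        exact h2.mul (h3.mul (hh z).hasDerivAt)
      rw [h1.deriv, hz]
      ring
    have hM : Φ z = M := by
      have := hG z
      rw [h0] at this
      linear_combination -this
    have hint : (∫ u in (-1:ℝ)..1, Φ ((z.re : ℂ) + z.im * u * I)) = 2 * M := by
      have h1 : ∀ u : ℝ, Φ ((z.re : ℂ) + z.im * u * I) = M := by
        intro u
        rw [hb, hre]
        simp [hM]
      rw [intervalIntegral.integral_congr (g := fun _ => M) (fun u _ => h1 u)]
      simp
      norm_num
    rw [hint]
    ring
  · -- a conjugate pair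
    have hd : ∀ u : ℝ, HasDerivAt (fun u : ℝ => fL [z] h ((z.re : ℂ) + z.im * u * I))
        (deriv (fL [z] h) ((z.re : ℂ) + z.im * u * I) * (z.im * I)) u := by
      intro u
      have h1 : HasDerivAt (fun u : ℝ => (z.re : ℂ) + z.im * (u : ℂ) * I) (z.im * I) u := by
        have h2 : HasDerivAt (fun u : ℝ => (u : ℂ)) 1 u := by
          simpa using (hasDerivAt_id u).ofReal_comp
        have h3 := ((h2.const_mul (z.im : ℂ)).mul_const I).const_add (z.re : ℂ)
        simpa using h3
      exact (hF _).hasDerivAt.comp u h1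
    have hc : Continuous (fun u : ℝ => Φ ((z.re : ℂ) + z.im * u * I)) :=
      hΦ.continuous.comp (by fun_prop)
    have hfun : ∀ u : ℝ, deriv (fL [z] h) ((z.re : ℂ) + z.im * u * I) * (z.im * I)
        = (Φ ((z.re : ℂ) + z.im * u * I) - M) * (z.im * I) := fun u => by rw [hG]
    have hint := intervalIntegral.integral_eq_sub_of_hasDerivAt (a := -1) (b := 1)
      (fun u _ => hd u) (by
        simp_rw [hfun]
        exact ((hc.sub continuous_const).mul continuous_const).intervalIntegrable _ _)
    simp_rw [hfun] at hint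
    have hz1 : fL [z] h ((z.re : ℂ) + z.im * ((1 : ℝ) : ℂ) * I) = 0 := by
      have : ((z.re : ℂ) + z.im * ((1 : ℝ) : ℂ) * I) = z := by
        simp [Complex.re_add_im]
      rw [this]
      simp [fL]
    have hz2 : fL [z] h ((z.re : ℂ) + z.im * ((-1 : ℝ) : ℂ) * I) = 0 := by
      have : ((z.re : ℂ) + z.im * ((-1 : ℝ) : ℂ) * I) = conj z := by
        apply Complex.ext <;> simp
      rw [this]
      simp [fL]
    rw [hz1, hz2, intervalIntegral.integral_mul_const,
      intervalIntegral.integral_sub (hc.intervalIntegrable _ _) (by simp)] at hint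
    have hb' : (z.im * I : ℂ) ≠ 0 := mul_ne_zero (by exact_mod_cast hb) I_ne_zero
    have h4 := (mul_eq_zero.1 (hint.trans (sub_self _))).resolve_right hb'
    have h5 : (∫ u in (-1:ℝ)..1, M) = 2 * M := by
      simp
      norm_num
    rw [h5] at h4
    linear_combination -1 / 2 * h4

end Pool.Agent.Howell
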