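import Pool.Agent.Howell.RPair
import Pool.Agent.Howell.RUnif

set_option autoImplicit false

namespace Pool.Agent.Howell

open Complex Set MeasureTheory intervalIntegral ComplexConjugate Pool.Agent.ConjInterp

theorem mix_swap_cont {F : ℝ → ℝ → ℝ} (hF : Continuous F.uncurry) (a b c d : ℝ) :
    ∫ x in a..b, ∫ y in c..d, F x y = ∫ y in c..d, ∫ x in a..b, F x y := by
  apply MeasureTheory.intervalIntegral_intervalIntegral_swap
  have h1 : IsCompact (uIcc a b ×ˢ uIcc c d) := isCompact_uIcc.prod isCompact_uIcc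
  exact (hF.continuousOn.integrableOn_compact h1).mono_set
    (Set.prod_mono uIoc_subset_uIcc uIoc_subset_uIcc)

/-- Averaging step: if `Φ` satisfies the segment bound `c0 + c1 A` on the disc, then the function
`Φ'(w) = ((m+1)(m+2)) ∫₀¹ s(1-s)^m (1/2)∫_{-1}^1 Φ(w + s(a - w + ibu)) du ds` satisfies the segment
bound `(c0 + c1 (2/(m+3)) a) + c1 (1 - 2/(m+3)) A`. Proof: for `(A,B)` in the half disc, exchange the
integrals (continuous integrand on a compact box): the `s`-slice is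
`(1/4)∫∫ Re Φ(A'' + i((1-s) B u' + s b u)) ≤ c0 + c1 A''`, `A'' = (1-s) A + s a`, by `two_uniform`
with `T = (1-s) B + s|b|`, `A''² + T² ≤ 1` (convexity of the disc); then `beta_int1`, `beta_int2`. -/
theorem mix_step {z : ℂ} (hz : ‖z‖ ≤ 1) {Φ : ℂ → ℂ} (hΦ : Continuous Φ) (m : ℕ) {c0 c1 : ℝ}
    (hseg : ∀ A B : ℝ, A ^ 2 + B ^ 2 ≤ 1 → 0 ≤ B →
      1 / 2 * ∫ u in (-1:ℝ)..1, (Φ ((A:ℂ) + B * u * I)).re ≤ c0 + c1 * A)
    {Φ' : ℂ → ℂ} (hΦ' : ∀ w, Φ' w = ((m:ℂ) + 1) * (m + 2) *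
      ∫ s in (0:ℝ)..1, ((s:ℂ) * (1 - (s:ℂ)) ^ m) *
        ((1 / 2 : ℂ) * ∫ u in (-1:ℝ)..1, Φ (w + (s:ℂ) * (((z.re:ℝ):ℂ) - w + (z.im:ℂ) * (u:ℂ) * I))))
    {A B : ℝ} (hAB : A ^ 2 + B ^ 2 ≤ 1) (hB : 0 ≤ B) :
    1 / 2 * ∫ u in (-1:ℝ)..1, (Φ' ((A:ℂ) + B * u * I)).re
      ≤ (c0 + c1 * (2 / ((m:ℝ) + 3) * z.re)) + c1 * (1 - 2 / ((m:ℝ) + 3)) * A := by
  set a := z.re with ha
  set b := z.im with hb
  have hab : a ^ 2 + b ^ 2 ≤ 1 := by
    have h1 : ‖z‖ ^ 2 = a ^ 2 + b ^ 2 := by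
      rw [← Complex.normSq_eq_norm_sq, Complex.normSq_apply, ha, hb]; ring
    nlinarith [norm_nonneg z]
  -- the real slice function
  set g : ℝ → ℝ → ℝ := fun s y => (Φ ((((1 - s) * A + s * a : ℝ) : ℂ) + (y:ℂ) * I)).re with hg
  have hgc : Continuous g.uncurry := by
    rw [hg]
    refine Complex.continuous_re.comp (hΦ.comp ?_)
    fun_prop
  -- pointwise formula for the real part
  set R : ℝ → ℝ → ℝ := fun u' s => s * (1 - s) ^ m *
    (1 / 2 * ∫ u in (-1:ℝ)..1, g s ((1 - s) * B * u' + s * b * u)) with hR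
  have hinner : Continuous (fun p : ℝ × ℝ => ∫ u in (-1:ℝ)..1,
      g p.2 ((1 - p.2) * B * p.1 + p.2 * b * u)) := by
    apply intervalIntegral.continuous_parametric_intervalIntegral_of_continuous'
    have : Continuous (fun q : (ℝ × ℝ) × ℝ =>
        ((q.1.2, (1 - q.1.2) * B * q.1.1 + q.1.2 * b * q.2) : ℝ × ℝ)) := by fun_prop
    exact hgc.comp this
  have hRc : Continuous R.uncurry := by
    have e : R.uncurry = fun p : ℝ × ℝ => p.2 * (1 - p.2) ^ m *
        (1 / 2 * ∫ u in (-1:ℝ)..1, g p.2 ((1 - p.2) * B * p.1 + p.2 * b * u)) := by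
      ext ⟨x, y⟩
      rfl
    rw [e]
    exact (by fun_prop : Continuous (fun p : ℝ × ℝ => p.2 * (1 - p.2) ^ m)).mul
      (continuous_const.mul hinner)
  have hre : ∀ u' : ℝ, (Φ' ((A:ℂ) + B * u' * I)).re =
      ((m:ℝ) + 1) * (m + 2) * ∫ s in (0:ℝ)..1, R u' s := by
    intro u'
    rw [hΦ']
    have hK : ((m:ℂ) + 1) * (m + 2) = ((((m:ℝ) + 1) * (m + 2) : ℝ) : ℂ) := by push_cast; ring
    rw [hK, Complex.re_ofReal_mul]
    congr 1
    -- continuity of the complex integrands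
    have hc1 : Continuous (fun p : ℝ × ℝ => Φ (((A:ℂ) + B * u' * I) +
        (p.1:ℂ) * ((a:ℂ) - ((A:ℂ) + B * u' * I) + (b:ℂ) * (p.2:ℂ) * I))) := by
      refine hΦ.comp ?_
      fun_prop
    have hc2 : Continuous (fun s : ℝ => ∫ u in (-1:ℝ)..1, Φ (((A:ℂ) + B * u' * I) +
        (s:ℂ) * ((a:ℂ) - ((A:ℂ) + B * u' * I) + (b:ℂ) * (u:ℂ) * I))) := by
      apply intervalIntegral.continuous_parametric_intervalIntegral_of_continuous'
      exact hc1
    have hc3 : Continuous (fun s : ℝ => ((s:ℂ) * (1 - (s:ℂ)) ^ m) *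
        ((1 / 2 : ℂ) * ∫ u in (-1:ℝ)..1, Φ (((A:ℂ) + B * u' * I) +
        (s:ℂ) * ((a:ℂ) - ((A:ℂ) + B * u' * I) + (b:ℂ) * (u:ℂ) * I)))) := by
      exact (by fun_prop : Continuous (fun s : ℝ => ((s:ℂ) * (1 - (s:ℂ)) ^ m))).mul
        (continuous_const.mul hc2)
    have h1 := Complex.reCLM.intervalIntegral_comp_comm
      (hc3.intervalIntegrable (μ := volume) (0:ℝ) 1)
    simp only [Complex.reCLM_apply] at h1
    rw [← h1]
    apply intervalIntegral.integral_congr
    intro s _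
    simp only [hR]
    have hs : ((s:ℂ) * (1 - (s:ℂ)) ^ m) = ((s * (1 - s) ^ m : ℝ) : ℂ) := by push_cast; ring
    have h2 : (1 / 2 : ℂ) = ((1 / 2 : ℝ) : ℂ) := by push_cast; ring
    rw [hs, h2, Complex.re_ofReal_mul, Complex.re_ofReal_mul]
    congr 2
    have hc4 : Continuous (fun u : ℝ => Φ (((A:ℂ) + B * u' * I) +
        (s:ℂ) * ((a:ℂ) - ((A:ℂ) + B * u' * I) + (b:ℂ) * (u:ℂ) * I))) := by
      exact hc1.comp (by fun_prop : Continuous (fun u : ℝ => ((s, u) : ℝ × ℝ)))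
    have h3 := Complex.reCLM.intervalIntegral_comp_comm
      (hc4.intervalIntegrable (μ := volume) (-1:ℝ) 1)
    simp only [Complex.reCLM_apply] at h3
    rw [← h3]
    apply intervalIntegral.integral_congr
    intro u _
    simp only [hg]
    congr 2
    push_cast
    ring
  simp only [hre]
  rw [intervalIntegral.integral_const_mul, mix_swap_cont hRc]
  set K : ℝ := ((m:ℝ) + 1) * (m + 2) with hK
  have hKpos : 0 < K := by positivity
  -- bound of each slice
  have hslice : ∀ s ∈ Icc (0:ℝ) 1, (1 / 2 * ∫ u' in (-1:ℝ)..1, R u' s) ≤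
      s * (1 - s) ^ m * (c0 + c1 * ((1 - s) * A + s * a)) := by
    intro s hs
    have hs0 := hs.1
    have hs1 : 0 ≤ 1 - s := by linarith [hs.2]
    have h1 : (∫ u' in (-1:ℝ)..1, R u' s) = s * (1 - s) ^ m *
        ∫ u' in (-1:ℝ)..1, (1 / 2 * ∫ u in (-1:ℝ)..1, g s ((1 - s) * B * u' + s * b * u)) := by
      simp only [hR]
      rw [intervalIntegral.integral_const_mul]
    rw [h1]
    have h2 := two_uniform (g := g s) (T := (1 - s) * B + s * |b|)
      (C := c0 + c1 * ((1 - s) * A + s * a)) (β₁ := (1 - s) * B) (β₂ := s * b)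
      (hgc.comp (by fun_prop : Continuous (fun y : ℝ => ((s, y) : ℝ × ℝ))))
      (by rw [abs_mul, abs_mul, abs_of_nonneg hs1, abs_of_nonneg hB, abs_of_nonneg hs0])
      (by
        intro τ hτ hτT
        have hT : ((1 - s) * A + s * a) ^ 2 + ((1 - s) * B + s * |b|) ^ 2 ≤ 1 := by
          have hb2 : |b| ^ 2 = b ^ 2 := sq_abs b
          have hx : A * a + B * |b| ≤ 1 := by
            nlinarith [sq_nonneg (A - a), sq_nonneg (B - |b|)]
          have e1 : ((1 - s) * A + s * a) ^ 2 + ((1 - s) * B + s * |b|) ^ 2 =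
              (1 - s) ^ 2 * (A ^ 2 + B ^ 2) + s ^ 2 * (a ^ 2 + |b| ^ 2) +
                2 * (s * (1 - s)) * (A * a + B * |b|) := by ring
          rw [e1, hb2]
          have i1 : (1 - s) ^ 2 * (A ^ 2 + B ^ 2) ≤ (1 - s) ^ 2 * 1 :=
            mul_le_mul_of_nonneg_left hAB (sq_nonneg _)
          have i2 : s ^ 2 * (a ^ 2 + b ^ 2) ≤ s ^ 2 * 1 :=
            mul_le_mul_of_nonneg_left hab (sq_nonneg _)
          have i3 : 2 * (s * (1 - s)) * (A * a + B * |b|) ≤ 2 * (s * (1 - s)) * 1 :=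
            mul_le_mul_of_nonneg_left hx (by positivity)
          nlinarith
        have hτ2 : τ ^ 2 ≤ ((1 - s) * B + s * |b|) ^ 2 := pow_le_pow_left₀ hτ hτT 2
        have h3 := hseg ((1 - s) * A + s * a) τ (by linarith) hτ
        refine le_trans (le_of_eq ?_) h3
        congr 1
        apply intervalIntegral.integral_congr
        intro u _
        simp only [hg]
        congr 2
        push_cast
        ring)
    have h3 : 0 ≤ s * (1 - s) ^ m := mul_nonneg hs0 (pow_nonneg hs1 m)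
    have h4 := mul_le_mul_of_nonneg_left h2 h3
    refine le_trans (le_of_eq ?_) h4
    ring
  have hcR : Continuous (fun s : ℝ => ∫ u' in (-1:ℝ)..1, R u' s) := by
    apply intervalIntegral.continuous_parametric_intervalIntegral_of_continuous'
    have : Continuous (fun q : ℝ × ℝ => ((q.2, q.1) : ℝ × ℝ)) := by fun_prop
    exact hRc.comp this
  have hint : ∫ s in (0:ℝ)..1, (1 / 2 * ∫ u' in (-1:ℝ)..1, R u' s) ≤
      ∫ s in (0:ℝ)..1, s * (1 - s) ^ m * (c0 + c1 * ((1 - s) * A + s * a)) := by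
    apply intervalIntegral.integral_mono_on zero_le_one
    · exact (continuous_const.mul hcR).intervalIntegrable _ _
    · exact Continuous.intervalIntegrable (by fun_prop) _ _
    · exact hslice
  rw [intervalIntegral.integral_const_mul] at hint
  have hrhs : ∫ s in (0:ℝ)..1, s * (1 - s) ^ m * (c0 + c1 * ((1 - s) * A + s * a)) =
      (c0 + c1 * A) * (1 / K) + c1 * (a - A) * (2 / (K * (m + 3))) := by
    have e1 : (fun s : ℝ => s * (1 - s) ^ m * (c0 + c1 * ((1 - s) * A + s * a))) =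
        fun s : ℝ => (c0 + c1 * A) * (s * (1 - s) ^ m) + c1 * (a - A) * (s * (1 - s) ^ m * s) := by
      ext s
      ring
    rw [e1, intervalIntegral.integral_add, intervalIntegral.integral_const_mul,
      intervalIntegral.integral_const_mul, beta_int1, beta_int2]
    · exact Continuous.intervalIntegrable (by fun_prop) _ _
    · exact Continuous.intervalIntegrable (by fun_prop) _ _
  rw [hrhs] at hint
  have h5 := mul_le_mul_of_nonneg_left hint hKpos.le
  have h6 : K * ((c0 + c1 * A) * (1 / K) + c1 * (a - A) * (2 / (K * (m + 3)))) =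
      (c0 + c1 * (2 / ((m:ℝ) + 3) * a)) + c1 * (1 - 2 / ((m:ℝ) + 3)) * A := by
    have : (m:ℝ) + 3 ≠ 0 := by positivity
    field_simp
    ring
  rw [h6] at h5
  refine le_trans (le_of_eq ?_) h5
  ring

end Pool.Agent.Howell
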