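import Pool.Agent.Howell.RPair
import Pool.Agent.Howell.RUnif
import Pool.Agent.Howell.RMixBase
import Pool.Agent.Howell.RMixStep

set_option autoImplicit false

namespace Pool.Agent.Howell

open Complex Set MeasureTheory intervalIntegral ComplexConjugate Pool.Agent.ConjInterp

/-- constant multiples -/
private theorem RMix_fL_smul (L : List ℂ) (h : ℂ → ℂ) (c w : ℂ) :
    fL L (fun w => c * h w) w = c * fL L h w := by
  rw [fL_mul L (fun w => c * h w), fL_mul L h]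
  ring

/-- `∫ s(1-s)^m = 1/((m+1)(m+2))`, complex form -/
private theorem RMix_beta (m : ℕ) :
    ∫ s in (0:ℝ)..1, ((s:ℂ) * (1 - (s:ℂ)) ^ m) = 1 / (((m:ℂ) + 1) * (m + 2)) := by
  have h1 : ∫ s in (0:ℝ)..1, ((s:ℂ) * (1 - (s:ℂ)) ^ m) =
      ∫ s in (0:ℝ)..1, ((s * (1 - s) ^ m : ℝ) : ℂ) := by
    congr 1
    funext s
    push_cast
    ring
  rw [h1, intervalIntegral.integral_ofReal, beta_int1]
  push_cast
  ring

/-- the averaged function -/
private theorem RMix_avg {Φ : ℂ → ℂ} (hΦ : Continuous Φ) (z M : ℂ) (m : ℕ) (w : ℂ) :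
    ∫ s in (0:ℝ)..1, ((s:ℂ) * (1 - (s:ℂ)) ^ m) *
      ((1 / 2 : ℂ) * ∫ u in (-1:ℝ)..1,
        (Φ (w + (s:ℂ) * (((z.re:ℝ):ℂ) - w + (z.im:ℂ) * (u:ℂ) * I)) - M)) =
    (∫ s in (0:ℝ)..1, ((s:ℂ) * (1 - (s:ℂ)) ^ m) *
      ((1 / 2 : ℂ) * ∫ u in (-1:ℝ)..1,
        Φ (w + (s:ℂ) * (((z.re:ℝ):ℂ) - w + (z.im:ℂ) * (u:ℂ) * I)))) -
      M / (((m:ℂ) + 1) * (m + 2)) := by
  have hc2 : Continuous (fun p : ℝ × ℝ =>
      Φ (w + (p.1:ℂ) * (((z.re:ℝ):ℂ) - w + (z.im:ℂ) * (p.2:ℂ) * I))) := by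
    fun_prop
  have hinner : ∀ s : ℝ, ∫ u in (-1:ℝ)..1,
      (Φ (w + (s:ℂ) * (((z.re:ℝ):ℂ) - w + (z.im:ℂ) * (u:ℂ) * I)) - M) =
      (∫ u in (-1:ℝ)..1, Φ (w + (s:ℂ) * (((z.re:ℝ):ℂ) - w + (z.im:ℂ) * (u:ℂ) * I))) - 2 * M := by
    intro s
    have hcs : Continuous fun u : ℝ =>
        Φ (w + (s:ℂ) * (((z.re:ℝ):ℂ) - w + (z.im:ℂ) * (u:ℂ) * I)) := by fun_prop
    rw [intervalIntegral.integral_sub (hcs.intervalIntegrable _ _)
      (continuous_const.intervalIntegrable _ _), intervalIntegral.integral_const]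
    congr 1
    rw [show (1:ℝ) - -1 = 2 by norm_num]
    simp
  have hpar : Continuous fun s : ℝ => ∫ u in (-1:ℝ)..1,
      Φ (w + (s:ℂ) * (((z.re:ℝ):ℂ) - w + (z.im:ℂ) * (u:ℂ) * I)) := by
    apply intervalIntegral.continuous_parametric_intervalIntegral_of_continuous'
    exact hc2
  have hs1 : Continuous fun s : ℝ => ((s:ℂ) * (1 - (s:ℂ)) ^ m) := by fun_prop
  have h1 : ∀ s : ℝ, ((s:ℂ) * (1 - (s:ℂ)) ^ m) *
      ((1 / 2 : ℂ) * ∫ u in (-1:ℝ)..1,
        (Φ (w + (s:ℂ) * (((z.re:ℝ):ℂ) - w + (z.im:ℂ) * (u:ℂ) * I)) - M)) =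
      ((s:ℂ) * (1 - (s:ℂ)) ^ m) *
      ((1 / 2 : ℂ) * ∫ u in (-1:ℝ)..1,
        Φ (w + (s:ℂ) * (((z.re:ℝ):ℂ) - w + (z.im:ℂ) * (u:ℂ) * I))) -
      ((s:ℂ) * (1 - (s:ℂ)) ^ m) * M := by
    intro s
    rw [hinner s]
    ring
  simp only [h1]
  rw [intervalIntegral.integral_sub]
  · rw [intervalIntegral.integral_mul_const, RMix_beta]
    ring
  · exact (hs1.mul (continuous_const.mul hpar)).intervalIntegrable _ _
  · exact (hs1.mul continuous_const).intervalIntegrable _ _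

/-- Mixture theorem. Let `F = fL L h`, `n = 2|L|`, `F^(n-1) = Φ - M`. If
`(1/2)∫ Re Φ(A+iBu) du ≤ c0 + c1 A` for all `(A,B)` in the closed half disc, then
`Re M ≤ c0 + c1 z̄`. Induction on `L` (base `mix_base` with `B = |b|`). Step `z :: L`, `L ≠ []`,
`m = 2|L| - 1`: `pair_formula` gives `(fL L h)^(m)(w) = Φ₂(w) - M/((m+1)(m+2))` with
`Φ₂(w) = ∫₀¹ s(1-s)^m (1/2)∫Φ(...)`; apply the induction hypothesis to `h' = (m+1)(m+2) h`,
`Φ' = (m+1)(m+2) Φ₂` (entire because `Φ' = (m+1)(m+2)(fL L h)^(m) + M`), `mix_step`, and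
`m + 3 = 2(|L|+1)`: `c0 + c1 a/(|L|+1) + c1 (1 - 1/(|L|+1)) z̄_L = c0 + c1 z̄_{z::L}`. -/
theorem mix : ∀ (L : List ℂ), L ≠ [] → (∀ z ∈ L, ‖z‖ ≤ 1) → ∀ {h Φ : ℂ → ℂ},
    Differentiable ℂ h → Differentiable ℂ Φ → ∀ (M : ℂ),
    (∀ w, iteratedDeriv (2 * L.length - 1) (fL L h) w = Φ w - M) → ∀ {c0 c1 : ℝ},
    (∀ A B : ℝ, A ^ 2 + B ^ 2 ≤ 1 → 0 ≤ B →
      1 / 2 * ∫ u in (-1:ℝ)..1, (Φ ((A:ℂ) + B * u * I)).re ≤ c0 + c1 * A) →
    M.re ≤ c0 + c1 * zbar L := by
  intro L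
  induction L with
  | nil =>
    intro h0
    exact absurd rfl h0
  | cons z L ih =>
    intro _ hz h Φ hh hΦ M hG c0 c1 hseg
    have hz1 : ‖z‖ ≤ 1 := hz z List.mem_cons_self
    have hzsq : z.re ^ 2 + z.im ^ 2 ≤ 1 := by
      have h1 : ‖z‖ ^ 2 = z.re ^ 2 + z.im ^ 2 := by
        rw [← Complex.normSq_eq_norm_sq, Complex.normSq_apply]
        ring
      rw [← h1]
      exact pow_le_one₀ (norm_nonneg _) hz1
    by_cases hL : L = []
    · subst hL
      have hG' : ∀ w, deriv (fL [z] h) w = Φ w - M := by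
        intro w
        rw [← hG w]
        simp
      have hM := mix_base hh hΦ M hG'
      have hzb : zbar [z] = z.re := by simp [zbar]
      rw [hzb]
      have hcont : ∀ b : ℝ, Continuous fun u : ℝ => Φ ((z.re : ℂ) + b * u * I) := by
        intro b
        have := hΦ.continuous
        fun_prop
      have hre : ∀ b : ℝ, (∫ u in (-1:ℝ)..1, Φ ((z.re : ℂ) + b * u * I)).re =
          ∫ u in (-1:ℝ)..1, (Φ ((z.re : ℂ) + b * u * I)).re := by
        intro b
        have h2 := (Complex.reCLM.intervalIntegral_comp_comm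
          ((hcont b).intervalIntegrable (μ := volume) (-1) 1)).symm
        simpa using h2
      have hMre : M.re = 1 / 2 * ∫ u in (-1:ℝ)..1, (Φ ((z.re : ℂ) + z.im * u * I)).re := by
        rw [hM, ← hre z.im]
        have : ((1:ℂ) / 2) = (((1:ℝ) / 2 : ℝ) : ℂ) := by push_cast; ring
        rw [this, Complex.re_ofReal_mul]
      rw [hMre]
      rcases le_total 0 z.im with hi | hi
      · exact hseg z.re z.im hzsq hi
      · have h3 := hseg z.re (-z.im) (by rw [neg_sq]; exact hzsq) (by linarith)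
        have h4 : ∫ u in (-1:ℝ)..1, (Φ ((z.re : ℂ) + ((-z.im : ℝ) : ℂ) * u * I)).re =
            ∫ u in (-1:ℝ)..1, (Φ ((z.re : ℂ) + z.im * u * I)).re := by
          have h5 := intervalIntegral.integral_comp_neg (a := -1) (b := 1)
            (fun u : ℝ => (Φ ((z.re : ℂ) + z.im * u * I)).re)
          rw [neg_neg] at h5
          rw [← h5]
          congr 1
          funext u
          congr 3
          push_cast
          ring
        rw [h4] at h3
        exact h3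
    · have hpos : 0 < L.length := List.length_pos_iff.2 hL
      obtain ⟨m, hm⟩ : ∃ m, 2 * L.length - 1 = m := ⟨_, rfl⟩
      have hm2 : 2 * (z :: L).length - 1 = m + 2 := by rw [List.length_cons]; omega
      have hm3 : 2 * L.length = m + 1 := by omega
      rw [hm2] at hG
      have hf : Differentiable ℂ (fL L h) := fL_entire L hh
      set c : ℂ := ((m:ℂ) + 1) * (m + 2) with hc
      have hc0 : c ≠ 0 := by
        have h1 : ((m:ℂ) + 1) ≠ 0 := by exact_mod_cast Nat.succ_ne_zero m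
        have h2 : ((m:ℂ) + 2) ≠ 0 := by exact_mod_cast Nat.succ_ne_zero (m + 1)
        exact mul_ne_zero h1 h2
      let Φ' : ℂ → ℂ := fun w => ((m:ℂ) + 1) * (m + 2) *
        ∫ s in (0:ℝ)..1, ((s:ℂ) * (1 - (s:ℂ)) ^ m) *
          ((1 / 2 : ℂ) * ∫ u in (-1:ℝ)..1, Φ (w + (s:ℂ) * (((z.re:ℝ):ℂ) - w + (z.im:ℂ) * (u:ℂ) * I)))
      have hkey : ∀ w, c * iteratedDeriv m (fL L h) w = Φ' w - M := by
        intro w
        have h1 := pair_formula z m hf w
        have h2 : ∀ y, iteratedDeriv (m + 2) (fun w => (w - z) * ((w - conj z) * fL L h w)) y =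
            Φ y - M := hG
        simp only [h2] at h1
        rw [RMix_avg hΦ.continuous z M m w] at h1
        rw [h1, mul_sub, ← hc, mul_div_cancel₀ _ hc0]
      have hD : Differentiable ℂ Φ' := by
        have h1 : Φ' = fun w => c * iteratedDeriv m (fL L h) w + M := by
          funext w
          rw [hkey w, sub_add_cancel]
        rw [h1]
        exact ((entire_iteratedDeriv hf m).const_mul c).add_const M
      have hG' : ∀ w, iteratedDeriv (2 * L.length - 1) (fL L (fun w => c * h w)) w = Φ' w - M := by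
        intro w
        have h1 : fL L (fun w => c * h w) = fun w => c * fL L h w := by
          funext w
          exact RMix_fL_smul L h c w
        rw [hm, h1, iteratedDeriv_const_mul_field, hkey w]
      have h3 := ih hL (fun y hy => hz y (List.mem_cons_of_mem _ hy)) (hh.const_mul c) hD M hG'
        (c0 := c0 + c1 * (2 / ((m:ℝ) + 3) * z.re)) (c1 := c1 * (1 - 2 / ((m:ℝ) + 3)))
        (fun A B hAB hB => mix_step hz1 hΦ.continuous m hseg (Φ' := Φ') (fun w => rfl) hAB hB)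
      refine h3.trans (le_of_eq ?_)
      have hl : (0:ℝ) < L.length := Nat.cast_pos.2 hpos
      have hml : (m:ℝ) + 3 = 2 * ((L.length:ℝ) + 1) := by
        have : ((2 * L.length : ℕ) : ℝ) = ((m + 1 : ℕ) : ℝ) := by rw [hm3]
        push_cast at this
        linarith
      rw [hml]
      unfold zbar
      rw [List.map_cons, List.sum_cons, List.length_cons]
      push_cast
      field_simp
      ring

end Pool.Agent.Howell
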