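import Pool.Agent.Howell.Defs

set_option autoImplicit false

namespace Pool.Agent.Howell

open Complex Set MeasureTheory intervalIntegral ComplexConjugate Metric

/-- Schwarz-Pick with a zero at the real point `x`: `|φ(t)| ≤ (t-x)/(1-xt)` for `x ≤ t < 1` (and
`t = 1` trivially). Compose `φ` with the automorphism `w ↦ (w + x)/(1 + x w)` of the disc and use the
Schwarz lemma (`Complex.norm_le_norm_of_mapsTo_ball_self` or similar; the closed bound `‖φ‖ ≤ 1` on
the disc: apply it to `r φ`, `r < 1`, and let `r → 1`, or use the strict version/maximum principle). -/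
theorem schwarz_pick_real {φ : ℂ → ℂ} (hφ : Differentiable ℂ φ)
    (hb : ∀ w, ‖w‖ ≤ 1 → ‖φ w‖ ≤ 1) {x t : ℝ} (hx0 : -1 < x) (hx1 : x < 1) (h0 : φ x = 0)
    (hxt : x ≤ t) (ht1 : t ≤ 1) : ‖φ t‖ ≤ (t - x) / (1 - x * t) := by
  have hx2 : 0 < 1 - x ^ 2 := by nlinarith
  rcases eq_or_lt_of_le ht1 with rfl | ht
  · have h1 : (0:ℝ) < 1 - x * 1 := by linarith
    have h2 : (1 - x) / (1 - x * 1) = 1 := by
      rw [mul_one]
      exact div_self (by linarith)
    rw [h2]
    exact hb _ (by simp)
  have ht0 : -1 < t := by linarith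
  have hxt1 : 0 < 1 - x * t := by nlinarith
  have hxC : ∀ w : ℂ, ‖w‖ < 1 → (1 + (x:ℂ) * w) ≠ 0 := by
    intro w hw h
    have h1 : ‖(x:ℂ) * w‖ = 1 := by
      have : (x:ℂ) * w = -1 := by linear_combination h
      rw [this, norm_neg, norm_one]
    rw [norm_mul, Complex.norm_real, Real.norm_eq_abs] at h1
    have h2 : |x| < 1 := abs_lt.2 ⟨hx0, hx1⟩
    have h3 := abs_nonneg x
    have h4 := norm_nonneg w
    nlinarith
  have hmap : ∀ w : ℂ, ‖w‖ < 1 → ‖(w + x) / (1 + (x:ℂ) * w)‖ ≤ 1 := by
    intro w hw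
    rw [norm_div, div_le_one (norm_pos_iff.2 (hxC w hw))]
    have h1 : Complex.normSq (w + x) ≤ Complex.normSq (1 + (x:ℂ) * w) := by
      have h2 : Complex.normSq (1 + (x:ℂ) * w) - Complex.normSq (w + x) =
          (1 - x ^ 2) * (1 - Complex.normSq w) := by
        simp only [Complex.normSq_apply, Complex.add_re, Complex.add_im, Complex.mul_re,
          Complex.mul_im, Complex.ofReal_re, Complex.ofReal_im, Complex.one_re, Complex.one_im]
        ring
      have h3 : Complex.normSq w ≤ 1 := by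
        rw [Complex.normSq_eq_norm_sq]
        exact pow_le_one₀ (norm_nonneg _) hw.le
      have h4 : 0 ≤ (1 - x ^ 2) * (1 - Complex.normSq w) := mul_nonneg hx2.le (by linarith)
      linarith
    rw [Complex.normSq_eq_norm_sq, Complex.normSq_eq_norm_sq] at h1
    exact (pow_le_pow_iff_left₀ (norm_nonneg _) (norm_nonneg _) two_ne_zero).1 h1
  set f : ℂ → ℂ := fun w => φ ((w + x) / (1 + (x:ℂ) * w)) with hf
  have hf0 : f 0 = 0 := by
    simp only [hf]
    rw [zero_add, mul_zero, add_zero, div_one]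
    exact h0
  have hd : DifferentiableOn ℂ f (ball 0 1) := by
    intro w hw
    have hw' : ‖w‖ < 1 := by simpa using hw
    have h1 : DifferentiableAt ℂ (fun w : ℂ => (w + x) / (1 + (x:ℂ) * w)) w := by
      apply DifferentiableAt.div
      · fun_prop
      · fun_prop
      · exact hxC w hw'
    exact ((hφ _).comp w h1).differentiableWithinAt
  have hm : MapsTo f (ball 0 1) (closedBall (f 0) 1) := by
    intro w hw
    have hw' : ‖w‖ < 1 := by simpa using hw
    rw [hf0, mem_closedBall_zero_iff]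
    exact hb _ (hmap w hw')
  set s : ℝ := (t - x) / (1 - x * t) with hs
  have hs0 : 0 ≤ s := div_nonneg (by linarith) hxt1.le
  have hs1 : s < 1 := by
    rw [hs, div_lt_one hxt1]
    nlinarith
  have hsn : ‖(s:ℂ)‖ = s := by rw [Complex.norm_real, Real.norm_eq_abs, abs_of_nonneg hs0]
  have hsm : (s:ℂ) ∈ ball (0:ℂ) 1 := by
    rw [mem_ball_zero_iff, hsn]
    exact hs1
  have hfs : f s = φ t := by
    have hsm' : s * (1 - x * t) = t - x := div_mul_cancel₀ _ hxt1.ne'
    have hne : 1 + x * s ≠ 0 := by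
      have h6 : -1 < x * s := by nlinarith
      linarith
    have h1 : (s + x) / (1 + x * s) = t := by
      rw [div_eq_iff hne]
      linear_combination hsm'
    simp only [hf]
    congr 1
    rw [← h1]
    push_cast
    ring
  have h5 := Complex.dist_le_div_mul_dist_of_mapsTo_ball hd hm hsm
  rw [hf0, hfs, dist_zero_right, dist_zero_right, hsn, div_one, one_mul] at h5
  exact h5

/-- `-∫_x^1 Re φ ≤ ρ(x)`. -/
theorem int_phi_ge {φ : ℂ → ℂ} (hφ : Differentiable ℂ φ)
    (hb : ∀ w, ‖w‖ ≤ 1 → ‖φ w‖ ≤ 1) {x : ℝ} (hx0 : -1 < x) (hx1 : x < 1) (h0 : φ x = 0) :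
    -(∫ t in x..1, (φ t).re) ≤ rho x := by
  have hc : Continuous fun t : ℝ => (φ t).re := by
    have := hφ.continuous
    fun_prop
  unfold rho
  rw [← intervalIntegral.integral_neg]
  have hden : ∀ t ∈ Icc x 1, 1 - x * t ≠ 0 := by
    intro t ht
    have h1 := ht.1
    have h2 := ht.2
    have : 0 < 1 - x * t := by nlinarith
    exact this.ne'
  apply intervalIntegral.integral_mono_on hx1.le
  · exact hc.neg.intervalIntegrable _ _
  · apply ContinuousOn.intervalIntegrable
    rw [uIcc_of_le hx1.le]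
    apply ContinuousOn.div
    · fun_prop
    · fun_prop
    · exact hden
  · intro t ht
    have h1 := schwarz_pick_real hφ hb hx0 hx1 h0 ht.1 ht.2
    have h2 := Complex.abs_re_le_norm (φ t)
    have h3 := neg_abs_le (φ t).re
    linarith

end Pool.Agent.Howell
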