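import Pool.Agent.ConjInterp.TopOrder
import Pool.Agent.Howell.Defs

set_option autoImplicit false

namespace Pool.Agent.Howell

open Complex Set MeasureTheory intervalIntegral ComplexConjugate Pool.Agent.ConjInterp

/-- `fL L (conj ∘ h ∘ conj) = conj ∘ fL L h ∘ conj`. -/
theorem fL_conj (L : List ℂ) (h : ℂ → ℂ) (w : ℂ) :
    fL L (fun w => conj (h (conj w))) w = conj (fL L h (conj w)) := by
  induction L with
  | nil => rfl
  | cons z L ih =>
    change (w - z) * ((w - conj z) * fL L (fun w => conj (h (conj w))) w)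
      = conj ((conj w - z) * ((conj w - conj z) * fL L h (conj w)))
    rw [ih]
    simp only [map_mul, map_sub, Complex.conj_conj]
    ring

/-- Iterated derivatives of `conj ∘ f ∘ conj`. -/
theorem iter_conj {f : ℂ → ℂ} (hf : Differentiable ℂ f) (k : ℕ) (w : ℂ) :
    iteratedDeriv k (fun w => conj (f (conj w))) w = conj (iteratedDeriv k f (conj w)) := by
  induction k generalizing w with
  | zero => simp only [iteratedDeriv_zero]
  | succ k ih =>
    rw [iteratedDeriv_succ, iteratedDeriv_succ]
    have h1 : iteratedDeriv k (fun w => conj (f (conj w)))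
        = (conj : ℂ → ℂ) ∘ iteratedDeriv k f ∘ (conj : ℂ → ℂ) := by
      funext u
      exact ih u
    rw [h1, deriv_conj_conj]
    rfl

/-- Real-symmetric `h` gives real-symmetric derivatives. -/
theorem iter_sym {L : List ℂ} {h : ℂ → ℂ} (hh : Differentiable ℂ h)
    (hsym : ∀ w, h (conj w) = conj (h w)) (k : ℕ) (w : ℂ) :
    iteratedDeriv k (fL L h) (conj w) = conj (iteratedDeriv k (fL L h) w) := by
  have h1 : (fun w => conj (h (conj w))) = h := by
    funext u
    rw [hsym, Complex.conj_conj]
  have h2 : (fun w => conj (fL L h (conj w))) = fL L h := by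
    funext u
    rw [← fL_conj, h1]
  have h3 := iter_conj (fL_entire L hh) k (conj w)
  rw [h2, Complex.conj_conj] at h3
  exact h3

/-- Symmetrisation: for `ε` unimodular, `h' = (ε h + conj(ε h(conj ·)))/2` is real-symmetric, satisfies
the same bound and `F'^(k)(x) = Re(ε F^(k)(x))` for real `x`. -/
theorem symmetrize {L : List ℂ} {h : ℂ → ℂ} (hh : Differentiable ℂ h) {ε : ℂ} (hε : ‖ε‖ = 1)
    (hb : ∀ w, ‖w‖ ≤ 1 → ‖iteratedDeriv (2 * L.length) (fL L h) w‖ ≤ 1) :
    ∃ h' : ℂ → ℂ, Differentiable ℂ h' ∧ (∀ w, h' (conj w) = conj (h' w)) ∧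
      (∀ w, ‖w‖ ≤ 1 → ‖iteratedDeriv (2 * L.length) (fL L h') w‖ ≤ 1) ∧
      ∀ (k : ℕ) (x : ℝ), (iteratedDeriv k (fL L h') x).re = (ε * iteratedDeriv k (fL L h) x).re := by
  have hcc : ∀ {f : ℂ → ℂ}, Differentiable ℂ f → Differentiable ℂ (fun w => conj (f (conj w))) := by
    intro f hf u
    have := (hf (conj u)).conj_conj
    rw [Complex.conj_conj] at this
    exact this
  have hεh : Differentiable ℂ (fun w => ε * h w) := hh.const_mul ε
  have hF : Differentiable ℂ (fL L h) := fL_entire L hh
  have hεF : Differentiable ℂ (fun w => ε * fL L h w) := hF.const_mul ε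
  have hfLe : fL L (fun w => (ε * h w + conj (ε * h (conj w))) / 2)
      = fun w => (ε * fL L h w + conj (ε * fL L h (conj w))) / 2 := by
    funext w
    have e1 := fL_conj L h w
    rw [fL_mul] at e1
    rw [fL_mul, fL_mul L h w, map_mul, map_mul, ← e1]
    ring
  have hiter : ∀ (k : ℕ) (w : ℂ),
      iteratedDeriv k (fL L (fun w => (ε * h w + conj (ε * h (conj w))) / 2)) w
        = (ε * iteratedDeriv k (fL L h) w
            + conj (ε * iteratedDeriv k (fL L h) (conj w))) / 2 := by
    intro k w
    rw [hfLe, iteratedDeriv_div_const, iteratedDeriv_fun_add hεF.contDiff.contDiffAt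
      (hcc hεF).contDiff.contDiffAt, iter_conj hεF, iteratedDeriv_const_mul_field,
      iteratedDeriv_const_mul_field]
  refine ⟨fun w => (ε * h w + conj (ε * h (conj w))) / 2, ?_, ?_, ?_, ?_⟩
  · exact (hεh.add (hcc hεh)).div_const 2
  · intro w
    simp only [map_div₀, map_add, map_mul, Complex.conj_conj, map_ofNat]
    ring
  · intro w hw
    rw [hiter]
    have hw' : ‖conj w‖ ≤ 1 := by rw [RCLike.norm_conj]; exact hw
    have h1 : ‖ε * iteratedDeriv (2 * L.length) (fL L h) w‖ ≤ 1 := by
      rw [norm_mul, hε, one_mul]; exact hb w hw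
    have h2 : ‖conj (ε * iteratedDeriv (2 * L.length) (fL L h) (conj w))‖ ≤ 1 := by
      rw [RCLike.norm_conj, norm_mul, hε, one_mul]; exact hb _ hw'
    have h3 := norm_add_le (ε * iteratedDeriv (2 * L.length) (fL L h) w)
      (conj (ε * iteratedDeriv (2 * L.length) (fL L h) (conj w)))
    rw [norm_div]
    have h4 : ‖(2:ℂ)‖ = 2 := by norm_num
    rw [h4]
    linarith
  · intro k x
    rw [hiter, Complex.conj_ofReal]
    have : ∀ z : ℂ, ((z + conj z) / 2).re = z.re := by
      intro z
      rw [Complex.add_conj]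
      simp
    exact this _

/-- Reflection `w ↦ -w`: nodes `-z`, `h'(w) = -h(-w)`; `fL (L.map (-·)) h' w = -(fL L h (-w))`, so
`F'^(k)(w) = -(-1)^k F^(k)(-w)`. -/
theorem reflect {L : List ℂ} {h : ℂ → ℂ} (hh : Differentiable ℂ h) (k : ℕ) (w : ℂ) :
    iteratedDeriv k (fL (L.map (fun z => -z)) (fun w => -(h (-w)))) w
      = -((-1) ^ k * iteratedDeriv k (fL L h) (-w)) := by
  have h1 : fL (L.map (fun z => -z)) (fun w => -(h (-w))) = fun w => -(fL L h (-w)) := by
    funext u
    induction L with
    | nil => rfl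
    | cons z L ih =>
      change (u - -z) * ((u - conj (-z)) * fL (L.map (fun z => -z)) (fun w => -(h (-w))) u)
        = -((-u - z) * ((-u - conj z) * fL L h (-u)))
      rw [ih, map_neg]
      ring
  rw [h1, iteratedDeriv_fun_neg, iteratedDeriv_comp_neg, smul_eq_mul]

theorem zbar_neg (L : List ℂ) : zbar (L.map (fun z => -z)) = -zbar L := by
  unfold zbar
  rw [List.length_map, List.map_map]
  have h1 : (List.map ((fun z : ℂ => z.re) ∘ fun z => -z) L).sum
      = -(List.map (fun z : ℂ => z.re) L).sum := by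
    induction L with
    | nil => simp
    | cons z L ih =>
      simp only [List.map_cons, List.sum_cons, ih, Function.comp, Complex.neg_re]
      ring
  rw [h1, neg_div]

end Pool.Agent.Howell
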