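import Pool.Agent.Howell.RSeg
import Pool.Agent.Howell.RMix
import Pool.Agent.Howell.RPick
import Pool.Agent.Howell.RSym

set_option autoImplicit false

namespace Pool.Agent.Howell

open Complex Set MeasureTheory intervalIntegral ComplexConjugate Pool.Agent.ConjInterp

/-- Let `G = F^(n-1)`, `φ = G' = F^(n)`, real-symmetric, `‖φ‖ ≤ 1` on the closed disc. For every
`x ∈ (√3/2, 1)`: `Re G(0) ≤ P(1) - ρ(x) p(x) + ((P(1)+p(0))/2 - 1) z̄` where `p = 1 - φ`,
`P(w) = w - (G(w) - G(0))`. Proof: `segment` for `p, P` and `Q(w) = w²/2 + G(0) w - K(w) + K(0)`,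
`K = F^(n-2)`, `K' = G`; then `mix` for `-h`, `Φ(w) = P(w) - w`, `M = G(0)`
(`-G = Φ - G(0)`), whose segment bound is `c0 + (c1 - 1) A`
(`(1/2)∫ Re(A + iBu) du = A`). -/
theorem G0_bound {L : List ℂ} (hne : L ≠ []) (hL : ∀ z ∈ L, ‖z‖ ≤ 1) {h : ℂ → ℂ}
    (hh : Differentiable ℂ h) (hsym : ∀ w, h (conj w) = conj (h w))
    (hb : ∀ w, ‖w‖ ≤ 1 → ‖iteratedDeriv (2 * L.length) (fL L h) w‖ ≤ 1) {x : ℝ}
    (hx0 : 0 < x) (hx1 : x < 1) (hx2 : 3 / 4 < x ^ 2) :
    (iteratedDeriv (2 * L.length - 1) (fL L h) 0).re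
      ≤ (1 - (iteratedDeriv (2 * L.length - 1) (fL L h) 1).re
          + (iteratedDeriv (2 * L.length - 1) (fL L h) 0).re)
        - rho x * (1 - (iteratedDeriv (2 * L.length) (fL L h) x).re)
        + (((1 - (iteratedDeriv (2 * L.length - 1) (fL L h) 1).re
          + (iteratedDeriv (2 * L.length - 1) (fL L h) 0).re)
            + (1 - (iteratedDeriv (2 * L.length) (fL L h) 0).re)) / 2 - 1) * zbar L := by
  have hlen : 1 ≤ L.length := by
    cases L with
    | nil => exact absurd rfl hne
    | cons z L => simp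
  have hF := fL_entire L hh
  set m := 2 * L.length with hm
  have hm2 : 2 ≤ m := by omega
  set F := fL L h with hFdef
  -- derivatives
  have hG' : ∀ w, HasDerivAt (iteratedDeriv (m - 1) F) (iteratedDeriv m F w) w := by
    intro w
    have h1 := hasDerivAt_iter hF (m - 1) w
    rwa [Nat.sub_add_cancel (by omega : 1 ≤ m)] at h1
  have hK' : ∀ w, HasDerivAt (iteratedDeriv (m - 2) F) (iteratedDeriv (m - 1) F w) w := by
    intro w
    have h1 := hasDerivAt_iter hF (m - 2) w
    rwa [show m - 2 + 1 = m - 1 by omega] at h1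
  have hsy : ∀ (k : ℕ) (w : ℂ), iteratedDeriv k F (conj w) = conj (iteratedDeriv k F w) :=
    fun k w => iter_sym hh hsym k w
  have hsy0 : ∀ k : ℕ, conj (iteratedDeriv k F 0) = iteratedDeriv k F 0 := by
    intro k
    rw [← hsy, map_zero]
  have hsφ := hsy m
  have hsG := hsy (m - 1)
  have hsK := hsy (m - 2)
  have hG0 := hsy0 (m - 1)
  have hK0 := hsy0 (m - 2)
  set G := iteratedDeriv (m - 1) F with hG
  set φ := iteratedDeriv m F with hφ
  set K := iteratedDeriv (m - 2) F with hK
  set p : ℂ → ℂ := fun w => 1 - φ w with hp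
  set P : ℂ → ℂ := fun w => w - (G w - G 0) with hP
  set Q : ℂ → ℂ := fun w => w ^ 2 / 2 + G 0 * w - K w + K 0 with hQ
  have dP : ∀ w, HasDerivAt P (p w) w := fun w =>
    (hasDerivAt_id w).sub ((hG' w).sub_const (G 0))
  have dQ : ∀ w, HasDerivAt Q (P w) w := by
    intro w
    have h1 : HasDerivAt (fun w : ℂ => w ^ 2 / 2) w w := by
      have h2 := (hasDerivAt_pow 2 w).div_const 2
      have h3 : ((2 : ℕ) : ℂ) * w ^ (2 - 1) / 2 = w := by
        norm_num
      rwa [h3] at h2
    have h4 : HasDerivAt (fun w : ℂ => G 0 * w) (G 0) w := by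
      have h5 := (hasDerivAt_id w).const_mul (G 0)
      rwa [mul_one] at h5
    have h6 := ((h1.add h4).sub (hK' w)).add_const (K 0)
    have h7 : w + G 0 - iteratedDeriv (m - 1) F w = P w := by
      simp only [hP]
      ring
    rw [h7] at h6
    exact h6
  have hsp : ∀ w, p (conj w) = conj (p w) := by
    intro w
    simp only [hp]
    rw [hsφ w, map_sub, map_one]
  have hsP : ∀ w, P (conj w) = conj (P w) := by
    intro w
    simp only [hP]
    rw [hsG w, map_sub, map_sub, hG0]
  have hsQ : ∀ w, Q (conj w) = conj (Q w) := by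
    intro w
    simp only [hQ]
    rw [hsK w, map_add, map_sub, map_add, map_mul, map_div₀, map_pow, hG0,
      hK0, Complex.conj_ofNat]
  have hP0 : P 0 = 0 := by
    simp only [hP]
    ring
  have hre : ∀ w, ‖w‖ ≤ 1 → 0 ≤ (p w).re := by
    intro w hw
    simp only [hp, Complex.sub_re, Complex.one_re]
    have h1 := Complex.re_le_norm (φ w)
    have h2 := hb w hw
    linarith
  have hseg := fun {A B : ℝ} (hAB : A ^ 2 + B ^ 2 ≤ 1) (hB : 0 ≤ B) =>
    segment dQ dP hsp hsP hsQ hP0 hre hx0 hx1 hx2 hAB hB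
  -- the mixture theorem
  set Φ : ℂ → ℂ := fun w => P w - w with hΦ
  have hPd : Differentiable ℂ P := fun w => (dP w).differentiableAt
  have hΦd : Differentiable ℂ Φ := hPd.sub differentiable_id
  have hneg : fL L (fun w => -h w) = fun w => -F w := by
    funext w
    rw [hFdef, fL_mul L (fun w => -h w), fL_mul L h]
    ring
  have hiter : ∀ w, iteratedDeriv (m - 1) (fL L (fun w => -h w)) w = Φ w - G 0 := by
    intro w
    rw [hneg]
    have h1 : iteratedDeriv (m - 1) (fun w => -F w) w = -(iteratedDeriv (m - 1) F w) :=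
      iteratedDeriv_fun_neg (m - 1) F w
    rw [h1]
    simp only [hΦ, hP]
    ring
  have hmix := mix L hne hL (h := fun w => -h w) (Φ := Φ) hh.neg hΦd (G 0) hiter
    (c0 := (P 1).re - rho x * (p x).re) (c1 := ((P 1).re + (p 0).re) / 2 - 1) (by
      intro A B hAB hB
      have h1 := hseg hAB hB
      have hcP : Continuous fun u : ℝ => (P ((A:ℂ) + B * u * I)).re :=
        Complex.continuous_re.comp (hPd.continuous.comp (by fun_prop))
      have h2 : ∫ u in (-1:ℝ)..1, (Φ ((A:ℂ) + B * u * I)).re =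
          (∫ u in (-1:ℝ)..1, (P ((A:ℂ) + B * u * I)).re) - ∫ u in (-1:ℝ)..1, A := by
        rw [← intervalIntegral.integral_sub (hcP.intervalIntegrable _ _)
          (continuous_const.intervalIntegrable _ _)]
        refine intervalIntegral.integral_congr fun u _ => ?_
        simp [hΦ]
      rw [h2, intervalIntegral.integral_const, smul_eq_mul]
      linarith)
  have e1 : (P 1).re = 1 - (G 1).re + (G 0).re := by
    simp only [hP, Complex.sub_re, Complex.one_re]
    ring
  have e2 : ∀ w : ℂ, (p w).re = 1 - (φ w).re := by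
    intro w
    simp only [hp, Complex.sub_re, Complex.one_re]
  rw [e1, e2, e2] at hmix
  exact hmix

end Pool.Agent.Howell
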