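import Pool.Agent.ConjInterp.TopOrder
import Pool.Agent.Howell.Defs

set_option autoImplicit false

namespace Pool.Agent.Howell

open Complex Set MeasureTheory intervalIntegral ComplexConjugate Pool.Agent.ConjInterp

private theorem vert_ftc {H : ℂ → ℂ} (hH : Differentiable ℂ H) (z x : ℂ) (s : ℝ) :
    H (x + (s:ℂ) * (z - x)) - H (x + (s:ℂ) * (conj z - x)) =
      ((s:ℂ) * (z.im:ℂ) * I) * ∫ u in (-1:ℝ)..1,
        deriv H (x + (s:ℂ) * (((z.re:ℝ):ℂ) - x + (z.im:ℂ) * (u:ℂ) * I)) := by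
  have hpath : ∀ u : ℝ, x + (s:ℂ) * (((z.re:ℝ):ℂ) - x + (z.im:ℂ) * (u:ℂ) * I) =
      (x + (s:ℂ) * (((z.re:ℝ):ℂ) - x)) + (u:ℂ) * ((s:ℂ) * (z.im:ℂ) * I) := by
    intro u; ring
  have hd : ∀ u : ℝ, HasDerivAt
      (fun t : ℝ => H ((x + (s:ℂ) * (((z.re:ℝ):ℂ) - x)) + (t:ℂ) * ((s:ℂ) * (z.im:ℂ) * I)))
      (((s:ℂ) * (z.im:ℂ) * I) *
        deriv H ((x + (s:ℂ) * (((z.re:ℝ):ℂ) - x)) + (u:ℂ) * ((s:ℂ) * (z.im:ℂ) * I))) u :=
    fun u => hasDerivAt_along _ _ u (hH _).hasDerivAt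
  have hcont : Continuous (fun u : ℝ => ((s:ℂ) * (z.im:ℂ) * I) *
        deriv H ((x + (s:ℂ) * (((z.re:ℝ):ℂ) - x)) + (u:ℂ) * ((s:ℂ) * (z.im:ℂ) * I))) :=
    continuous_const.mul (continuous_along (entire_deriv hH) _ _)
  have hint := intervalIntegral.integral_eq_sub_of_hasDerivAt (a := -1) (b := 1)
    (fun u _ => hd u) (hcont.intervalIntegrable _ _)
  simp_rw [hpath]
  rw [intervalIntegral.integral_const_mul] at hint
  rw [hint]
  have e1 : (x + (s:ℂ) * (((z.re:ℝ):ℂ) - x)) + ((1:ℝ):ℂ) * ((s:ℂ) * (z.im:ℂ) * I)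
      = x + (s:ℂ) * (z - x) := by
    conv_rhs => rw [← Complex.re_add_im z]
    push_cast
    ring
  have e2 : (x + (s:ℂ) * (((z.re:ℝ):ℂ) - x)) + ((-1:ℝ):ℂ) * ((s:ℂ) * (z.im:ℂ) * I)
      = x + (s:ℂ) * (conj z - x) := by
    have hz : conj z = (z.re : ℂ) - (z.im : ℂ) * I := by
      apply Complex.ext <;> simp
    rw [hz]
    push_cast
    ring
  rw [e1, e2]

/-- Removing a conjugate pair, Beta formula, nonreal node. With `F = (w-z)(w-z̄) f`, `z = a + ib`: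
`f^(m)(x) = ∫₀¹ s (1-s)^m (1/2) ∫_{-1}^1 F^(m+2)(x + s(a - x + ibu)) du ds`.
Proof for `b ≠ 0`: `(z - z̄) f = (w-z̄) f - (w-z) f`, and by `ConjInterp.int_formula`
`((w-z̄) f)^(m)(x) = ∫₀¹ (1-s)^m F^(m+1)(x + s(z-x)) ds`,
`((w-z) f)^(m)(x) = ∫₀¹ (1-s)^m F^(m+1)(x + s(z̄-x)) ds`; the difference of the integrands is
`(1-s)^m ∫_{-1}^1 F^(m+2)(x + s(a-x+ibu)) (i s b) du`; divide by `z - z̄ = 2ib`. -/
theorem pair_formula_nonreal {z : ℂ} (hz : z.im ≠ 0) (m : ℕ) {f : ℂ → ℂ} (hf : Differentiable ℂ f)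
    (x : ℂ) :
    iteratedDeriv m f x = ∫ s in (0:ℝ)..1, ((s:ℂ) * (1 - (s:ℂ)) ^ m) *
      ((1 / 2 : ℂ) * ∫ u in (-1:ℝ)..1,
        iteratedDeriv (m + 2) (fun w => (w - z) * ((w - conj z) * f w))
          (x + (s:ℂ) * (((z.re:ℝ):ℂ) - x + (z.im:ℂ) * (u:ℂ) * I))) := by
  have hd1 : Differentiable ℂ (fun w => (w - conj z) * f w) := entire_lin (conj z) hf
  have hd2 : Differentiable ℂ (fun w => (w - z) * f w) := entire_lin z hf
  have hF : Differentiable ℂ (fun w => (w - z) * ((w - conj z) * f w)) := entire_lin z hd1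
  have h1 := int_formula z x m hd1
  have h2 := int_formula (conj z) x m hd2
  have hswap : (fun w => (w - conj z) * ((w - z) * f w)) =
      fun w => (w - z) * ((w - conj z) * f w) := by
    funext w; ring
  rw [hswap] at h2
  set F : ℂ → ℂ := fun w => (w - z) * ((w - conj z) * f w) with hFdef
  have hlin : iteratedDeriv m (fun w => (w - conj z) * f w) x -
      iteratedDeriv m (fun w => (w - z) * f w) x = (z - conj z) * iteratedDeriv m f x := by
    rw [iter_lin (conj z) m hf x, iter_lin z m hf x]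
    ring
  have hc : ∀ τ : ℂ, Continuous (fun s : ℝ => ((1:ℂ) - (s:ℂ)) ^ m *
      iteratedDeriv (m + 1) F (x + (s:ℂ) * τ)) := fun τ =>
    (by fun_prop : Continuous fun s : ℝ => ((1:ℂ) - (s:ℂ)) ^ m).mul
      (continuous_along (entire_iteratedDeriv hF _) _ _)
  have hzz : z - conj z = 2 * (z.im : ℂ) * I := by
    apply Complex.ext <;> simp <;> ring
  have hne : (2 * (z.im : ℂ) * I) ≠ 0 := by
    simp [hz]
  have hkey : (2 * (z.im : ℂ) * I) * iteratedDeriv m f x =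
      (2 * (z.im : ℂ) * I) * ∫ s in (0:ℝ)..1, ((s:ℂ) * (1 - (s:ℂ)) ^ m) *
      ((1 / 2 : ℂ) * ∫ u in (-1:ℝ)..1,
        iteratedDeriv (m + 2) F
          (x + (s:ℂ) * (((z.re:ℝ):ℂ) - x + (z.im:ℂ) * (u:ℂ) * I))) := by
    rw [← hzz, ← hlin, h1, h2, ← intervalIntegral.integral_sub
      ((hc _).intervalIntegrable _ _) ((hc _).intervalIntegrable _ _), hzz,
      ← intervalIntegral.integral_const_mul]
    apply intervalIntegral.integral_congr
    intro s _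
    simp only
    rw [← mul_sub, vert_ftc (entire_iteratedDeriv hF (m + 1)) z x s]
    have hder : deriv (iteratedDeriv (m + 1) F) = iteratedDeriv (m + 2) F := by
      rw [← iteratedDeriv_succ]
    rw [hder]
    ring
  exact mul_left_cancel₀ hne hkey

end Pool.Agent.Howell
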