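import Pool.Agent.ConjInterp.TopOrder
import Pool.Agent.Howell.Defs

set_option autoImplicit false

namespace Pool.Agent.Howell

open Complex Set MeasureTheory intervalIntegral ComplexConjugate Pool.Agent.ConjInterp

/-- The same for a real node (`b = 0`, the inner integral is constant in `u`): with `c = z - x`,
`F = (w-z)² f`, `F^(m+2)(w) = (w-z)² f^(m+2) + 2(m+2)(w-z) f^(m+1) + (m+2)(m+1) f^(m)`
(`ConjInterp.iter_lin_succ` twice), the function
`T(s) = s (1-s)^(m+2) c f^(m+1)(x+sc) - (1-s)^(m+1) ((m+1)s+1) f^(m)(x+sc)` has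
`T'(s) = s (1-s)^m F^(m+2)(x+sc)`, `T(1) = 0`, `T(0) = -f^(m)(x)`. -/
theorem pair_formula_real {z : ℂ} (hz : z.im = 0) (m : ℕ) {f : ℂ → ℂ} (hf : Differentiable ℂ f)
    (x : ℂ) :
    iteratedDeriv m f x = ∫ s in (0:ℝ)..1, ((s:ℂ) * (1 - (s:ℂ)) ^ m) *
        iteratedDeriv (m + 2) (fun w => (w - z) * ((w - conj z) * f w))
          (x + (s:ℂ) * (z - x)) := by
  have hzc : conj z = z := Complex.conj_eq_iff_im.2 hz
  rw [hzc]
  have hlin : Differentiable ℂ (fun w => (w - z) * f w) := entire_lin z hf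
  have hderiv : ∀ s : ℝ, HasDerivAt
      (fun t : ℝ => (t:ℂ) * (1 - (t:ℂ)) ^ (m + 2) *
          ((z - x) * iteratedDeriv (m + 1) f (x + (t:ℂ) * (z - x)))
        - (1 - (t:ℂ)) ^ (m + 1) * (((m:ℂ) + 1) * (t:ℂ) + 1) *
          iteratedDeriv m f (x + (t:ℂ) * (z - x)))
      (((s:ℂ) * (1 - (s:ℂ)) ^ m) *
        iteratedDeriv (m + 2) (fun w => (w - z) * ((w - z) * f w)) (x + (s:ℂ) * (z - x))) s := by
    intro s
    have h0 : HasDerivAt (fun t : ℝ => (t:ℂ)) 1 s := by
      have := (Complex.ofRealCLM.hasDerivAt (x := s)).const_add (0:ℂ)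
      simpa using this
    have h1 : HasDerivAt (fun t : ℝ => (1 - (t:ℂ))) (-1) s := by
      have := (Complex.ofRealCLM.hasDerivAt (x := s)).const_sub (1:ℂ)
      simpa using this
    have h2 : HasDerivAt (fun t : ℝ => (1 - (t:ℂ)) ^ (m + 1))
        (((m + 1 : ℕ) : ℂ) * (1 - (s:ℂ)) ^ m * (-1)) s := by
      have := h1.fun_pow (m + 1)
      simpa using this
    have h3 : HasDerivAt (fun t : ℝ => (1 - (t:ℂ)) ^ (m + 2))
        (((m + 2 : ℕ) : ℂ) * (1 - (s:ℂ)) ^ (m + 1) * (-1)) s := by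
      have := h1.fun_pow (m + 2)
      simpa using this
    have h4 : HasDerivAt (fun t : ℝ => ((m:ℂ) + 1) * (t:ℂ) + 1) ((m:ℂ) + 1) s := by
      have := (h0.const_mul ((m:ℂ) + 1)).add_const (1:ℂ)
      simpa using this
    have f1 := hasDerivAt_along x (z - x) s (hasDerivAt_iter hf m (x + (s:ℂ) * (z - x)))
    have f2 := hasDerivAt_along x (z - x) s (hasDerivAt_iter hf (m + 1) (x + (s:ℂ) * (z - x)))
    have g1 := (h0.fun_mul h3).fun_mul (f2.const_mul (z - x))
    have g2 := (h2.fun_mul h4).fun_mul f1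
    have g3 := g1.fun_sub g2
    have e1 : m + 2 = (m + 1) + 1 := rfl
    refine g3.congr_deriv ?_
    rw [e1, iter_lin_succ z (m + 1) hlin, iter_lin_succ z (m + 1) hf, iter_lin_succ z m hf]
    push_cast
    ring
  have hcont : Continuous (fun s : ℝ => ((s:ℂ) * (1 - (s:ℂ)) ^ m) *
      iteratedDeriv (m + 2) (fun w => (w - z) * ((w - z) * f w)) (x + (s:ℂ) * (z - x))) :=
    (Complex.continuous_ofReal.mul ((continuous_const.sub Complex.continuous_ofReal).pow m)).mul
      (continuous_along (entire_iteratedDeriv (entire_lin z hlin) (m + 2)) x (z - x))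
  rw [integral_eq_sub_of_hasDerivAt (fun s _ => hderiv s) (hcont.intervalIntegrable 0 1)]
  simp

end Pool.Agent.Howell
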