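import Pool.Agent.ConjInterp.TopOrder
import Pool.Agent.Howell.Defs
import Pool.Agent.Howell.RPair1
import Pool.Agent.Howell.RPair2

set_option autoImplicit false

namespace Pool.Agent.Howell

open Complex Set MeasureTheory intervalIntegral ComplexConjugate Pool.Agent.ConjInterp

/-- Both cases. -/
theorem pair_formula (z : ℂ) (m : ℕ) {f : ℂ → ℂ} (hf : Differentiable ℂ f)
    (x : ℂ) :
    iteratedDeriv m f x = ∫ s in (0:ℝ)..1, ((s:ℂ) * (1 - (s:ℂ)) ^ m) *
      ((1 / 2 : ℂ) * ∫ u in (-1:ℝ)..1,
        iteratedDeriv (m + 2) (fun w => (w - z) * ((w - conj z) * f w))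
          (x + (s:ℂ) * (((z.re:ℝ):ℂ) - x + (z.im:ℂ) * (u:ℂ) * I))) := by
  by_cases hz : z.im = 0
  · rw [pair_formula_real hz m hf x]
    apply intervalIntegral.integral_congr
    intro s _
    simp only []
    congr 1
    have hzr : ((z.re : ℝ) : ℂ) = z := by
      apply Complex.ext <;> simp [hz]
    have : ∀ u : ℝ, x + (s:ℂ) * (((z.re:ℝ):ℂ) - x + (z.im:ℂ) * (u:ℂ) * I) = x + (s:ℂ) * (z - x) := by
      intro u
      rw [hzr, hz]
      simp
    simp only [this]
    rw [intervalIntegral.integral_const]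
    simp only [Complex.real_smul]
    push_cast
    ring
  · exact pair_formula_nonreal hz m hf x

end Pool.Agent.Howell
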