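import Pool.Agent.Howell.RSeg
import Pool.Agent.Howell.RMix
import Pool.Agent.Howell.RPick
import Pool.Agent.Howell.RG0
import Pool.Agent.Howell.KRho

set_option autoImplicit false

namespace Pool.Agent.Howell

open Complex Set MeasureTheory intervalIntegral ComplexConjugate Pool.Agent.ConjInterp

theorem c1_bound {L : List ℂ} (hne : L ≠ []) {h : ℂ → ℂ}
    (hh : Differentiable ℂ h)
    (hb : ∀ w, ‖w‖ ≤ 1 → ‖iteratedDeriv (2 * L.length) (fL L h) w‖ ≤ 1) :
    (((1 - (iteratedDeriv (2 * L.length - 1) (fL L h) 1).re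
          + (iteratedDeriv (2 * L.length - 1) (fL L h) 0).re)
            + (1 - (iteratedDeriv (2 * L.length) (fL L h) 0).re)) / 2 - 1) * zbar L
      ≤ |zbar L| := by
  have hF := fL_entire L hh
  have hlen : 0 < L.length := List.length_pos_of_ne_nil hne
  have e : 2 * L.length - 1 + 1 = 2 * L.length := by omega
  have hd : ∀ w, ‖w‖ ≤ 1 → ‖deriv (iteratedDeriv (2 * L.length - 1) (fL L h)) w‖ ≤ 1 := by
    intro w hw
    rw [← iteratedDeriv_succ, e]
    exact hb w hw
  have h1 := lip_ball (entire_iteratedDeriv hF (2 * L.length - 1)) hd (u := 0) (v := 1)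
    (by simp) (by simp)
  have h2 : |(iteratedDeriv (2 * L.length - 1) (fL L h) 1).re
      - (iteratedDeriv (2 * L.length - 1) (fL L h) 0).re| ≤ 1 := by
    rw [← Complex.sub_re]
    refine (Complex.abs_re_le_norm _).trans (h1.trans ?_)
    simp
  have h3 : |(iteratedDeriv (2 * L.length) (fL L h) 0).re| ≤ 1 :=
    (Complex.abs_re_le_norm _).trans (hb 0 (by simp))
  have h4 : |((1 - (iteratedDeriv (2 * L.length - 1) (fL L h) 1).re
          + (iteratedDeriv (2 * L.length - 1) (fL L h) 0).re)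
            + (1 - (iteratedDeriv (2 * L.length) (fL L h) 0).re)) / 2 - 1| ≤ 1 := by
    rw [abs_le] at h2 h3 ⊢
    constructor <;> linarith [h2.1, h2.2, h3.1, h3.2]
  calc _ ≤ |(((1 - (iteratedDeriv (2 * L.length - 1) (fL L h) 1).re
          + (iteratedDeriv (2 * L.length - 1) (fL L h) 0).re)
            + (1 - (iteratedDeriv (2 * L.length) (fL L h) 0).re)) / 2 - 1) * zbar L| := le_abs_self _
    _ ≤ 1 * |zbar L| := by
        rw [abs_mul]
        exact mul_le_mul_of_nonneg_right h4 (abs_nonneg _)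
    _ = |zbar L| := one_mul _

/-- `c1 = (P(1) + p(0))/2 ∈ [0, 2]` since `0 ≤ p ≤ 2` on `[-1,1]`, so `-z̄ + c1 z̄ ≤ |z̄|`.
Consequently (`x = 1`): drop `ρ p(x) ≥ 0` in `G0_bound` (any `x`, e.g. `x = 9/10`):
`G(1) ≤ 1 + |z̄|`. -/
theorem end_bound {L : List ℂ} (hne : L ≠ []) (hL : ∀ z ∈ L, ‖z‖ ≤ 1) {h : ℂ → ℂ}
    (hh : Differentiable ℂ h) (hsym : ∀ w, h (conj w) = conj (h w))
    (hb : ∀ w, ‖w‖ ≤ 1 → ‖iteratedDeriv (2 * L.length) (fL L h) w‖ ≤ 1) :
    (iteratedDeriv (2 * L.length - 1) (fL L h) 1).re ≤ 1 + |zbar L| := by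
  have h1 := G0_bound hne hL hh hsym hb (x := 9 / 10) (by norm_num) (by norm_num) (by norm_num)
  have h2 := c1_bound hne hh hb
  have h3 := rho_nonneg (x := 9 / 10) (by norm_num) (by norm_num)
  have h4 : (iteratedDeriv (2 * L.length) (fL L h) ((9 / 10 : ℝ) : ℂ)).re ≤ 1 :=
    (Complex.re_le_norm _).trans (hb _ (by rw [Complex.norm_real]; norm_num))
  have h5 := mul_nonneg h3 (sub_nonneg.2 h4)
  linarith

/-- Interior critical point `x` with `φ(x) = 0`: `G(x) = G(1) - ∫_x^1 φ ≤ G(1) + ρ(x)`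
(`int_phi_ge`) and `G0_bound` with `p(x) = 1`. -/
theorem crit_bound {L : List ℂ} (hne : L ≠ []) (hL : ∀ z ∈ L, ‖z‖ ≤ 1) {h : ℂ → ℂ}
    (hh : Differentiable ℂ h) (hsym : ∀ w, h (conj w) = conj (h w))
    (hb : ∀ w, ‖w‖ ≤ 1 → ‖iteratedDeriv (2 * L.length) (fL L h) w‖ ≤ 1) {x : ℝ}
    (hx0 : 0 < x) (hx1 : x < 1) (hx2 : 3 / 4 < x ^ 2)
    (hcrit : iteratedDeriv (2 * L.length) (fL L h) x = 0) :
    (iteratedDeriv (2 * L.length - 1) (fL L h) x).re ≤ 1 + |zbar L| := by
  have hF := fL_entire L hh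
  have hlen : 0 < L.length := List.length_pos_of_ne_nil hne
  have e : 2 * L.length - 1 + 1 = 2 * L.length := by omega
  have h1 := G0_bound hne hL hh hsym hb (x := x) hx0 hx1 hx2
  have h2 := c1_bound hne hh hb
  have h3 := int_phi_ge (entire_iteratedDeriv hF (2 * L.length)) hb (by linarith) hx1 hcrit
  rw [hcrit] at h1
  have hFTC : (∫ t in x..1, (iteratedDeriv (2 * L.length) (fL L h) (t:ℂ)).re)
      = (iteratedDeriv (2 * L.length - 1) (fL L h) ((1:ℝ):ℂ)).re
        - (iteratedDeriv (2 * L.length - 1) (fL L h) (x:ℂ)).re := by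
    apply intervalIntegral.integral_eq_sub_of_hasDerivAt
      (f := fun t : ℝ => (iteratedDeriv (2 * L.length - 1) (fL L h) (t:ℂ)).re)
    · intro t _
      have h5 := hasDerivAt_iter hF (2 * L.length - 1) (t:ℂ)
      rw [e] at h5
      exact h5.real_of_complex
    · exact (Complex.continuous_re.comp
        ((entire_iteratedDeriv hF (2 * L.length)).continuous.comp Complex.continuous_ofReal)).intervalIntegrable _ _
  rw [hFTC] at h3
  simp only [Complex.ofReal_one] at h3
  simp only [Complex.zero_re, sub_zero, mul_one] at h1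
  linarith

end Pool.Agent.Howell
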