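import Pool.Agent.Howell.FMain

set_option autoImplicit false

namespace Pool.Agent.Howell

open Complex Set MeasureTheory intervalIntegral ComplexConjugate

/-- the real part of a real primitive -/
private theorem RQ_re {P p : ℂ → ℂ} (hP : ∀ w, HasDerivAt P (p w) w) (hpc : Continuous p) (a b : ℝ) :
    (∫ t in a..b, (p t).re) = (P b).re - (P a).re := by
  have h : ∀ t : ℝ, HasDerivAt (fun t : ℝ => (P t).re) (p t).re t := by
    intro t
    exact (hP t).real_of_complex
  rw [intervalIntegral.integral_eq_sub_of_hasDerivAt (fun t _ => h t)]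
  apply Continuous.intervalIntegrable
  exact Complex.continuous_re.comp (hpc.comp Complex.continuous_ofReal)

private theorem RQ_vert {P Q p : ℂ → ℂ} (hQ : ∀ w, HasDerivAt Q (P w) w)
    (hP : ∀ w, HasDerivAt P (p w) w) (hpc : Continuous p) (a b : ℝ) :
    (∫ v in (0:ℝ)..b, (b - v) * (p (a + v * I)).im) =
      b * (P a).re - (Q ((a:ℂ) + b * I)).im + (Q a).im := by
  have h : ∀ v : ℝ, HasDerivAt
      (fun v : ℝ => (-I * ((b:ℂ) - v) * P (a + v * I) - Q (a + v * I)).im)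
      ((b - v) * (p (a + v * I)).im) v := by
    intro v
    have h1 : HasDerivAt (fun v : ℝ => (a:ℂ) + v * I) I v := by
      have := ((Complex.ofRealCLM.hasDerivAt (x := v)).mul_const I).const_add (a:ℂ)
      simpa using this
    have h2 : HasDerivAt (fun v : ℝ => P ((a:ℂ) + v * I)) (p (a + v * I) * I) v :=
      (hP _).comp v h1
    have h3 : HasDerivAt (fun v : ℝ => Q ((a:ℂ) + v * I)) (P (a + v * I) * I) v :=
      (hQ _).comp v h1
    have h4 : HasDerivAt (fun v : ℝ => -I * ((b:ℂ) - v)) (-I * (-1)) v := by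
      have := ((Complex.ofRealCLM.hasDerivAt (x := v)).const_sub (b:ℂ)).const_mul (-I)
      simpa using this
    have h5 := (h4.mul h2).sub h3
    have h6 := Complex.imCLM.hasFDerivAt.comp_hasDerivAt v h5
    have h7 : Complex.imCLM (-I * (-1) * P (a + v * I) + -I * ((b:ℂ) - v) * (p (a + v * I) * I)
        - P (a + v * I) * I) = (b - v) * (p (a + v * I)).im := by
      have : -I * (-1) * P (a + v * I) + -I * ((b:ℂ) - v) * (p (a + v * I) * I)
        - P (a + v * I) * I = ((b - v : ℝ) : ℂ) * p (a + v * I) := by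
        push_cast
        linear_combination (-((b:ℂ) - v) * p (a + v * I)) * I_sq
      rw [this, Complex.imCLM_apply, Complex.im_ofReal_mul]
    rw [h7] at h6
    exact h6
  rw [intervalIntegral.integral_eq_sub_of_hasDerivAt (fun t _ => h t)]
  · simp [Complex.sub_im, Complex.mul_im, Complex.mul_re]
    ring
  · apply Continuous.intervalIntegrable
    have h8 : Continuous fun v : ℝ => (a:ℂ) + v * I := by fun_prop
    exact (continuous_const.sub continuous_id).mul (Complex.continuous_im.comp (hpc.comp h8))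

private theorem RQ_cont {P p : ℂ → ℂ} (hP : ∀ w, HasDerivAt P (p w) w) : Continuous p := by
  have h1 : Differentiable ℂ P := fun w => (hP w).differentiableAt
  have h2 : p = deriv P := funext fun w => (hP w).deriv.symm
  rw [h2]
  exact (h1.contDiff (n := 1)).continuous_deriv le_rfl

private theorem RQ_diff {P p : ℂ → ℂ} (hP : ∀ w, HasDerivAt P (p w) w) : Differentiable ℂ p := by
  have h1 : Differentiable ℂ P := fun w => (hP w).differentiableAt
  have h2 : p = deriv P := funext fun w => (hP w).deriv.symm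
  rw [h2]
  exact (h1.contDiff (n := 2)).differentiable_deriv_two

private theorem RQ_real {Q : ℂ → ℂ} (hsQ : ∀ w, Q (conj w) = conj (Q w)) (a : ℝ) : (Q a).im = 0 := by
  have h := hsQ a
  rw [Complex.conj_ofReal] at h
  exact Complex.conj_eq_iff_im.1 h.symm

/-- For entire `Q' = P`, `P' = p`, `P, Q` real on the real axis (`P(0) = 0` not needed here),
`-1 < a < 1`, `b = √(1-a²)`:
`∫_a^1 Re p + (1/b) ∫₀^b (b-v) Im p(a+iv) dv = Re P(1) - (1/b) Im (Q(a+ib) - Q(a))`.
(`∫₀^b (b-v) p(a+iv) dv = i b P(a) - (Q(a+ib) - Q(a))`, by parts twice.) -/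
theorem vert_formula {P Q p : ℂ → ℂ} (hQ : ∀ w, HasDerivAt Q (P w) w)
    (hP : ∀ w, HasDerivAt P (p w) w) (hsP : ∀ w, P (conj w) = conj (P w))
    (hsQ : ∀ w, Q (conj w) = conj (Q w)) {a : ℝ} (ha : -1 < a) (ha1 : a < 1) :
    (∫ t in a..1, (p t).re) +
      (1 / √(1 - a ^ 2)) * (∫ v in (0:ℝ)..√(1 - a ^ 2), (√(1 - a ^ 2) - v) * (p (a + v * I)).im)
      = (P 1).re - (1 / √(1 - a ^ 2)) * (Q ((a:ℂ) + √(1 - a ^ 2) * I)).im := by
  have hpc := RQ_cont hP
  have hb : 0 < √(1 - a ^ 2) := Real.sqrt_pos.2 (by nlinarith)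
  rw [RQ_re hP hpc a 1, RQ_vert hQ hP hpc a, RQ_real hsQ a, Complex.ofReal_one]
  field_simp
  ring

/-- On the unit semicircle: with `κ = P(1) - ρ(x) p(x)`, `Γ = (P(1) + p(0))/2` (real numbers),
`0 ≤ Im (κ w + Γ w²/2 - Q(w))` for `‖w‖ = 1`, `Im w > 0`. This is `b · LamC p a x ≥ 0`
(`LamC_nonneg`, `vert_formula`; `∫₀¹ Re p = Re P(1) - Re P(0) = Re P(1)`), `w = a + ib`,
`Im(κw + Γw²/2) = κb + Γab`. -/
theorem arc_nonneg {P Q p : ℂ → ℂ} (hQ : ∀ w, HasDerivAt Q (P w) w)
    (hP : ∀ w, HasDerivAt P (p w) w) (hsp : ∀ w, p (conj w) = conj (p w))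
    (hsP : ∀ w, P (conj w) = conj (P w)) (hsQ : ∀ w, Q (conj w) = conj (Q w)) (hP0 : P 0 = 0)
    (hre : ∀ w, ‖w‖ ≤ 1 → 0 ≤ (p w).re) {x : ℝ} (hx0 : 0 < x) (hx1 : x < 1)
    (hx2 : 3 / 4 < x ^ 2) {w : ℂ} (hw : ‖w‖ = 1) (hw1 : 0 < w.im) :
    0 ≤ (((P 1).re - rho x * (p x).re : ℝ) * w + (((P 1).re + (p 0).re) / 2 : ℝ) * w ^ 2 / 2
      - Q w).im := by
  have hpc := RQ_cont hP
  have hnorm : w.re ^ 2 + w.im ^ 2 = 1 := by
    have h1 := Complex.sq_norm w
    rw [hw, Complex.normSq_apply] at h1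
    linarith
  obtain ⟨ha, ha1⟩ : -1 < w.re ∧ w.re < 1 := by
    have : 0 < w.im ^ 2 := by positivity
    constructor <;> nlinarith
  have hb : √(1 - w.re ^ 2) = w.im := by
    rw [show 1 - w.re ^ 2 = w.im ^ 2 by linarith]
    exact Real.sqrt_sq hw1.le
  have hL := LamC_nonneg (RQ_diff hP) hsp hre ha ha1 hx0 hx1 hx2
  have hwe : ((w.re:ℂ) + (w.im:ℂ) * I) = w := Complex.re_add_im w
  rw [LamC, vert_formula hQ hP hsP hsQ ha ha1, RQ_re hP hpc 0 1, hb, hwe] at hL
  rw [Complex.ofReal_zero, hP0, Complex.ofReal_one, Complex.zero_re, sub_zero] at hL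
  have h2 : w.im * ((P 1).re - 1 / w.im * (Q w).im + w.re / 2 * ((p 0).re + (P 1).re)
      - rho x * (p x).re) = (((P 1).re - rho x * (p x).re : ℝ) * w +
        (((P 1).re + (p 0).re) / 2 : ℝ) * w ^ 2 / 2 - Q w).im := by
    rw [Complex.sub_im, Complex.add_im, Complex.im_ofReal_mul]
    have h3 : ((((P 1).re + (p 0).re) / 2 : ℝ) * w ^ 2 / 2 : ℂ) =
        ((((P 1).re + (p 0).re) / 4 : ℝ) : ℂ) * w ^ 2 := by
      push_cast
      ring
    rw [h3, Complex.im_ofReal_mul]
    have h4 : (w ^ 2).im = 2 * w.re * w.im := by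
      rw [sq, Complex.mul_im]
      ring
    rw [h4]
    field_simp
    ring
  rw [← h2]
  exact mul_nonneg hw1.le hL

end Pool.Agent.Howell
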