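import Pool.Agent.Howell.RQ
import Pool.Agent.Howell.RDisc

set_option autoImplicit false

namespace Pool.Agent.Howell

open Complex Set MeasureTheory intervalIntegral ComplexConjugate

/-- The segment inequality: `arc_nonneg`, `halfdisc` (for `G = κ w + Γ w²/2 - Q`),
`seg_of_halfdisc`. -/
theorem segment {P Q p : ℂ → ℂ} (hQ : ∀ w, HasDerivAt Q (P w) w)
    (hP : ∀ w, HasDerivAt P (p w) w) (hsp : ∀ w, p (conj w) = conj (p w))
    (hsP : ∀ w, P (conj w) = conj (P w)) (hsQ : ∀ w, Q (conj w) = conj (Q w)) (hP0 : P 0 = 0)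
    (hre : ∀ w, ‖w‖ ≤ 1 → 0 ≤ (p w).re) {x : ℝ} (hx0 : 0 < x) (hx1 : x < 1)
    (hx2 : 3 / 4 < x ^ 2) {A B : ℝ} (hAB : A ^ 2 + B ^ 2 ≤ 1) (hB : 0 ≤ B) :
    1 / 2 * ∫ u in (-1:ℝ)..1, (P ((A:ℂ) + B * u * I)).re
      ≤ ((P 1).re - rho x * (p x).re) + ((P 1).re + (p 0).re) / 2 * A := by
  have hQd : Differentiable ℂ Q := fun w => (hQ w).differentiableAt
  have hPc : Continuous P := (show Differentiable ℂ P from fun w => (hP w).differentiableAt).continuous
  apply seg_of_halfdisc hQ hPc hsP hsQ _ hAB hB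
  intro w hw hw1
  have hG : Differentiable ℂ (fun w : ℂ =>
      ((((P 1).re - rho x * (p x).re : ℝ) : ℂ) * w
        + ((((P 1).re + (p 0).re) / 2 : ℝ) : ℂ) * w ^ 2 / 2 - Q w)) := by
    fun_prop
  refine halfdisc hG ?_ ?_ hw hw1
  · intro v hv
    have hvr : ((v.re : ℝ) : ℂ) = v := by
      apply Complex.ext <;> simp [hv]
    have hQr : (Q v).im = 0 := by
      have h1 := hsQ v
      have hc : conj v = v := Complex.conj_eq_iff_im.2 hv
      rw [hc] at h1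
      exact Complex.conj_eq_iff_im.1 h1.symm
    rw [← hvr] at hQr ⊢
    have e : (((P 1).re - rho x * (p x).re : ℝ) : ℂ) * ((v.re : ℝ) : ℂ)
        + ((((P 1).re + (p 0).re) / 2 : ℝ) : ℂ) * ((v.re : ℝ) : ℂ) ^ 2 / 2
        = ((((P 1).re - rho x * (p x).re) * v.re + ((P 1).re + (p 0).re) / 2 * v.re ^ 2 / 2 : ℝ) : ℂ) := by
      push_cast
      ring
    rw [e, Complex.sub_im, Complex.ofReal_im, hQr, sub_zero]
  · intro v hv hv1
    exact arc_nonneg hQ hP hsp hsP hsQ hP0 hre hx0 hx1 hx2 hv hv1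

end Pool.Agent.Howell
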