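import Pool.Agent.Howell.RPos
import Pool.Agent.Howell.RSym
import Pool.Agent.Howell.RCore

set_option autoImplicit false

namespace Pool.Agent.Howell

open Complex Set MeasureTheory intervalIntegral ComplexConjugate Pool.Agent.ConjInterp

/-- The case of a maximum `x ∈ (√3/2, 1]`. -/
theorem pos_max {L : List ℂ} (hne : L ≠ []) (hL : ∀ z ∈ L, ‖z‖ ≤ 1) {h : ℂ → ℂ}
    (hh : Differentiable ℂ h) (hsym : ∀ w, h (conj w) = conj (h w))
    (hb : ∀ w, ‖w‖ ≤ 1 → ‖iteratedDeriv (2 * L.length) (fL L h) w‖ ≤ 1) {x : ℝ}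
    (hx0 : 0 < x) (hx1 : x ≤ 1) (hx2 : 3 / 4 < x ^ 2)
    (hmax : ∀ y ∈ Icc (-1 : ℝ) 1, (iteratedDeriv (2 * L.length - 1) (fL L h) y).re
      ≤ (iteratedDeriv (2 * L.length - 1) (fL L h) x).re) :
    (iteratedDeriv (2 * L.length - 1) (fL L h) x).re ≤ 1 + |zbar L| := by
  have hF := fL_entire L hh
  have hlen : 0 < L.length := List.length_pos_of_ne_nil hne
  have e : 2 * L.length - 1 + 1 = 2 * L.length := by omega
  rcases eq_or_lt_of_le hx1 with h1 | h1
  · subst h1
    have := end_bound hne hL hh hsym hb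
    simpa using this
  · have hloc : IsLocalMax (fun t : ℝ => (iteratedDeriv (2 * L.length - 1) (fL L h) (t:ℂ)).re) x := by
      filter_upwards [Icc_mem_nhds (show (-1:ℝ) < x by linarith) h1] with y hy
      exact hmax y hy
    have hder : HasDerivAt (fun t : ℝ => (iteratedDeriv (2 * L.length - 1) (fL L h) (t:ℂ)).re)
        (iteratedDeriv (2 * L.length) (fL L h) (x:ℂ)).re x := by
      have h5 := hasDerivAt_iter hF (2 * L.length - 1) (x:ℂ)
      rw [e] at h5
      exact h5.real_of_complex
    have h0 := hloc.hasDerivAt_eq_zero hder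
    have h2 := iter_sym (L := L) hh hsym (2 * L.length) (x:ℂ)
    rw [Complex.conj_ofReal] at h2
    have h3 : (iteratedDeriv (2 * L.length) (fL L h) (x:ℂ)).im = 0 := by
      have h4 := congrArg Complex.im h2
      rw [Complex.conj_im] at h4
      linarith
    have hcrit : iteratedDeriv (2 * L.length) (fL L h) (x:ℂ) = 0 := Complex.ext h0 h3
    exact crit_bound hne hL hh hsym hb hx0 h1 hx2 hcrit

/-- Upper bound for real-symmetric `h` at all `x ∈ [-1,1]`: the continuous real function
`g(x) = Re G(x)` attains its maximum over `[-1,1]` at some `x*`. If `x*² ≤ 3/4`: `middle_bound`.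
If `x* = 1`: `end_bound`. If `x* ∈ (√3/2, 1)`: interior maximum, so `Re φ(x*) = 0`, and `φ(x*)` is
real (`iter_sym`), so `φ(x*) = 0`: `crit_bound`. If `x* < -√3/2`: apply the same to the reflected data
(`reflect` with `k = 2|L| - 1` odd gives `G'(w) = G(-w)`, `zbar_neg`): maximum at `-x* > 0`. -/
theorem sym_bound {L : List ℂ} (hne : L ≠ []) (hL : ∀ z ∈ L, ‖z‖ ≤ 1) {h : ℂ → ℂ}
    (hh : Differentiable ℂ h) (hsym : ∀ w, h (conj w) = conj (h w))
    (hb : ∀ w, ‖w‖ ≤ 1 → ‖iteratedDeriv (2 * L.length) (fL L h) w‖ ≤ 1) {x : ℝ} (hx : |x| ≤ 1) :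
    (iteratedDeriv (2 * L.length - 1) (fL L h) x).re ≤ 1 + |zbar L| := by
  have hF := fL_entire L hh
  have hlen : 0 < L.length := List.length_pos_of_ne_nil hne
  have e : 2 * L.length - 1 + 1 = 2 * L.length := by omega
  have hcont : Continuous (fun t : ℝ => (iteratedDeriv (2 * L.length - 1) (fL L h) (t:ℂ)).re) :=
    Complex.continuous_re.comp
      ((entire_iteratedDeriv hF (2 * L.length - 1)).continuous.comp Complex.continuous_ofReal)
  obtain ⟨y, hy, hmax⟩ := (isCompact_Icc (a := (-1:ℝ)) (b := 1)).exists_isMaxOn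
    ⟨0, by norm_num, by norm_num⟩ hcont.continuousOn
  have hmax' : ∀ t ∈ Icc (-1 : ℝ) 1, (iteratedDeriv (2 * L.length - 1) (fL L h) t).re
      ≤ (iteratedDeriv (2 * L.length - 1) (fL L h) y).re := fun t ht => hmax ht
  refine (hmax' x (abs_le.1 hx)).trans ?_
  rcases le_or_gt (y ^ 2) (3 / 4) with h1 | h1
  · exact (Complex.re_le_norm _).trans (middle_bound hne hL hh hb h1)
  · rcases le_or_gt y 0 with h2 | h2
    · have hy0 : y ≠ 0 := by rintro rfl; norm_num at h1
      -- reflected data
      have hk1 : (-1 : ℂ) ^ (2 * L.length - 1) = -1 := by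
        have : Odd (2 * L.length - 1) := ⟨L.length - 1, by omega⟩
        exact this.neg_one_pow
      have hk0 : (-1 : ℂ) ^ (2 * L.length) = 1 := by
        rw [pow_mul]; norm_num
      have hlen' : (L.map (fun z => -z)).length = L.length := List.length_map _
      have hh' : Differentiable ℂ (fun w => -(h (-w))) := (hh.comp differentiable_neg).neg
      have hr1 : ∀ w : ℂ, iteratedDeriv (2 * L.length - 1)
          (fL (L.map (fun z => -z)) (fun w => -(h (-w)))) w
            = iteratedDeriv (2 * L.length - 1) (fL L h) (-w) := by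
        intro w
        rw [reflect hh, hk1]
        ring
      have hr0 : ∀ w : ℂ, iteratedDeriv (2 * L.length)
          (fL (L.map (fun z => -z)) (fun w => -(h (-w)))) w
            = -iteratedDeriv (2 * L.length) (fL L h) (-w) := by
        intro w
        rw [reflect hh, hk0]
        ring
      have key := pos_max (L := L.map (fun z => -z)) (h := fun w => -(h (-w)))
        (by simpa using hne)
        (by
          intro z hz
          obtain ⟨v, hv, rfl⟩ := List.mem_map.1 hz
          rw [norm_neg]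
          exact hL v hv)
        hh'
        (by
          intro w
          simp only [map_neg]
          rw [← hsym, map_neg])
        (by
          intro w hw
          rw [hlen', hr0, norm_neg]
          exact hb _ (by rwa [norm_neg]))
        (x := -y) (by
          rcases lt_or_eq_of_le h2 with h3 | h3
          · linarith
          · exact absurd h3 hy0)
        (by linarith [hy.1]) (by rw [neg_sq]; exact h1)
        (by
          intro t ht
          rw [hlen', hr1, hr1]
          have := hmax' (-t) ⟨by linarith [ht.2], by linarith [ht.1]⟩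
          simpa using this)
      rw [hlen', hr1, zbar_neg, abs_neg] at key
      simpa using key
    · exact pos_max hne hL hh hsym hb h2 hy.2 h1 hmax'

/-- The bound for complex `h`: choose `ε` unimodular with `ε G(x) = ‖G(x)‖` and `symmetrize`. -/
theorem top_bound {L : List ℂ} (hne : L ≠ []) (hL : ∀ z ∈ L, ‖z‖ ≤ 1) {h : ℂ → ℂ}
    (hh : Differentiable ℂ h)
    (hb : ∀ w, ‖w‖ ≤ 1 → ‖iteratedDeriv (2 * L.length) (fL L h) w‖ ≤ 1) {x : ℝ} (hx : |x| ≤ 1) :
    ‖iteratedDeriv (2 * L.length - 1) (fL L h) x‖ ≤ 1 + |zbar L| := by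
  obtain ⟨ε, hε, hε2⟩ : ∃ ε : ℂ, ‖ε‖ = 1 ∧
      ε * iteratedDeriv (2 * L.length - 1) (fL L h) x
        = (‖iteratedDeriv (2 * L.length - 1) (fL L h) x‖ : ℂ) := by
    set G := iteratedDeriv (2 * L.length - 1) (fL L h) x with hG
    by_cases h0 : G = 0
    · exact ⟨1, by simp, by rw [h0]; simp⟩
    · refine ⟨conj G / ‖G‖, ?_, ?_⟩
      · rw [norm_div, RCLike.norm_conj, Complex.norm_real, norm_norm, div_self (norm_ne_zero_iff.2 h0)]
      · have h1 : (‖G‖ : ℂ) ≠ 0 := by exact_mod_cast norm_ne_zero_iff.2 h0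
        rw [div_mul_eq_mul_div, Complex.conj_mul', sq, mul_div_assoc, div_self h1, mul_one]
  obtain ⟨h', hd, hs, hb', hre⟩ := symmetrize hh hε hb
  have h1 := sym_bound hne hL hd hs hb' hx
  rw [hre, hε2, Complex.ofReal_re] at h1
  exact h1

end Pool.Agent.Howell
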